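import Pool.Agent.Work.MP_701abf_gt.Stab.Kun

/-!
Existence of good families: bases of the cohomology without coefficients in a positive degree.
-/

open MvPolynomial

namespace Pool.Agent.Work.MP_701abf_gt.Stab

section fin

/-- Homogeneous cochains without coefficients. -/
noncomputable def Cb (b : ℕ) (N : ℤ) : Submodule (ZMod 2) (RR Empty) :=
  lev Empty b ⊓ weightedHomogeneousSubmodule (ZMod 2) wE (0, N)

lemma mem_Cb {b : ℕ} {N : ℤ} {F : RR Empty} : F ∈ Cb b N ↔ F ∈ lev Empty b ∧ WH wE F (0, N) :=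
  Iff.rfl

lemma wE_snd (v : (ℕ × ℕ) ⊕ (Empty × ℕ)) : ∃ i a : ℕ, v = Sum.inl (a, i) ∧
    (wE v).2 = 2 ^ (i + 1) - 1 := by
  rcases v with ⟨a, i⟩ | v
  · exact ⟨i, a, rfl, rfl⟩
  · exact v.1.elim

lemma weight_snd (d : ((ℕ × ℕ) ⊕ (Empty × ℕ)) →₀ ℕ) :
    (Finsupp.weight wE d).2 = ∑ v ∈ d.support, (d v : ℤ) * (wE v).2 := by
  rw [Finsupp.weight_apply, Finsupp.sum, Prod.snd_sum]
  refine Finset.sum_congr rfl fun v _ => ?_
  rw [Prod.smul_snd, nsmul_eq_mul]

lemma fin_Cb (b : ℕ) (N : ℤ) : ∃ S : Finset (RR Empty), Cb b N ≤ Submodule.span (ZMod 2) S := by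
  classical
  cases b with
  | zero =>
    refine ⟨∅, fun F hF => ?_⟩
    have : F = 0 := hF.1
    rw [this]
    exact Submodule.zero_mem _
  | succ b =>
    set K := N.toNat
    set T : Finset ((ℕ × ℕ) ⊕ (Empty × ℕ)) :=
      ((Finset.range b) ×ˢ (Finset.range (K + 1))).map ⟨Sum.inl, Sum.inl_injective⟩ with hT
    set D : Finset (((ℕ × ℕ) ⊕ (Empty × ℕ)) →₀ ℕ) := T.finsupp (fun _ => Finset.range (K + 1))
      with hD
    refine ⟨D.image (fun d => monomial d 1), fun F hF => ?_⟩
    have h1 : F = prj b F := (mem_lev_succ.1 hF.1).symm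
    rw [h1, F.as_sum, map_sum]
    refine Submodule.sum_mem _ fun d hd => ?_
    have h2 : (monomial d) (coeff d F) = coeff d F • monomial d (1 : ZMod 2) := by
      rw [smul_monomial, smul_eq_mul, mul_one]
    rw [h2, map_smul]
    refine Submodule.smul_mem _ _ ?_
    by_cases h3 : ∀ v ∈ d.support, ∃ a i, a < b ∧ v = Sum.inl (a, i)
    · have h4 : prj b (monomial d (1 : ZMod 2)) = (monomial d 1 : RR Empty) := by
        rw [monomial_eq, map_mul, map_one, map_one, Finsupp.prod, map_prod]
        congr 1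
        refine Finset.prod_congr rfl fun v hv => ?_
        obtain ⟨a, i, ha, rfl⟩ := h3 v hv
        rw [map_pow, prj_inl_lt ha]
      rw [h4]
      refine Submodule.subset_span ?_
      rw [Finset.coe_image]
      refine ⟨d, ?_, rfl⟩
      rw [Finset.mem_coe, hD, Finset.mem_finsupp_iff]
      have hw : (Finsupp.weight wE d).2 = N := by
        rw [hF.2 (mem_support_iff.1 hd)]
      rw [weight_snd] at hw
      have hnn : ∀ v ∈ d.support, 0 ≤ (d v : ℤ) * (wE v).2 := by
        intro v _
        obtain ⟨i, a, _, h⟩ := wE_snd v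
        rw [h]
        have : (1 : ℤ) ≤ 2 ^ (i + 1) := one_le_pow₀ (by norm_num)
        exact mul_nonneg (by positivity) (by omega)
      have hle : ∀ v ∈ d.support, (d v : ℤ) * (wE v).2 ≤ N := by
        intro v hv
        rw [← hw]
        exact Finset.single_le_sum hnn hv
      have hbound : ∀ v ∈ d.support, d v ≤ K ∧ ∃ a i, a < b ∧ i ≤ K ∧ v = Sum.inl (a, i) := by
        intro v hv
        obtain ⟨a, i, ha, rfl⟩ := h3 v hv
        have h5 := hle _ hv
        change (d (Sum.inl (a, i)) : ℤ) * (2 ^ (i + 1) - 1) ≤ N at h5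
        have h6 : 1 ≤ d (Sum.inl (a, i)) := Nat.one_le_iff_ne_zero.2 (Finsupp.mem_support_iff.1 hv)
        have h7 : (i : ℤ) + 1 ≤ 2 ^ i := by exact_mod_cast Nat.lt_two_pow_self
        have h8 : (2 : ℤ) ^ (i + 1) = 2 * 2 ^ i := by rw [pow_succ]; ring
        have h9 : (1 : ℤ) ≤ (d (Sum.inl (a, i)) : ℤ) := by exact_mod_cast h6
        have h10 : (i : ℤ) + 1 ≤ 2 ^ (i + 1) - 1 := by omega
        have h11 : (d (Sum.inl (a, i)) : ℤ) ≤ N := by nlinarith
        have h12 : (i : ℤ) + 1 ≤ N := by nlinarith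
        refine ⟨by omega, a, i, ha, by omega, rfl⟩
      constructor
      · intro v hv
        obtain ⟨_, a, i, ha, hi, rfl⟩ := hbound v hv
        rw [hT, Finset.mem_map]
        exact ⟨(a, i), by simp [ha]; omega, rfl⟩
      · intro v _
        by_cases hv : v ∈ d.support
        · have := (hbound v hv).1
          simp only [Finset.mem_range]
          omega
        · rw [Finsupp.notMem_support_iff.1 hv]
          simp
    · push Not at h3
      obtain ⟨v, hv, h4⟩ := h3
      have h5 : prj b (monomial d (1 : ZMod 2)) = (0 : RR Empty) := by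
        rw [monomial_eq, map_mul, Finsupp.prod, map_prod]
        have h6 : ∏ x ∈ d.support, prj b ((X x : RR Empty) ^ d x) = 0 := by
          refine Finset.prod_eq_zero hv ?_
          rcases v with ⟨a, i⟩ | v
          · rw [map_pow, prj_inl_ge (fun h => h4 a i h rfl),
              zero_pow (Finsupp.mem_support_iff.1 hv)]
          · exact v.1.elim
        rw [h6, mul_zero]
      rw [h5]
      exact Submodule.zero_mem _

instance finite_Cb (b : ℕ) (N : ℤ) : FiniteDimensional (ZMod 2) (Cb b N) := by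
  obtain ⟨S, hS⟩ := fin_Cb b N
  have : FiniteDimensional (ZMod 2) (Submodule.span (ZMod 2) (S : Set (RR Empty))) :=
    FiniteDimensional.span_finset _ _
  exact Submodule.finiteDimensional_of_le hS

/-- Cocycles. -/
noncomputable def Zb (b : ℕ) (N : ℤ) : Submodule (ZMod 2) (RR Empty) :=
  Cb (b + 1) N ⊓ LinearMap.ker (dE (b + 1))

/-- Coboundaries. -/
noncomputable def Bb (b : ℕ) (N : ℤ) : Submodule (ZMod 2) (RR Empty) := (Cb b N).map (dE b)

lemma basis_H (b : ℕ) (N : ℤ) : ∃ (m : ℕ) (z : Fin m → RR Empty), (∀ i, z i ∈ Zb b N) ∧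
    (∀ F ∈ Zb b N, ∃ c : Fin m → ZMod 2, F + ∑ i, c i • z i ∈ Bb b N) ∧
    (∀ c : Fin m → ZMod 2, ∑ i, c i • z i ∈ Bb b N → ∀ i, c i = 0) := by
  have : FiniteDimensional (ZMod 2) (Zb b N) :=
    Submodule.finiteDimensional_of_le (S₂ := Cb (b + 1) N) inf_le_left
  set W : Submodule (ZMod 2) (Zb b N) := (Bb b N).comap (Zb b N).subtype with hW
  let bas := Module.finBasis (ZMod 2) (Zb b N ⧸ W)
  have hs : ∀ i, ∃ x : Zb b N, W.mkQ x = bas i := fun i => Submodule.mkQ_surjective W (bas i)
  choose x hx using hs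
  refine ⟨_, fun i => (x i : RR Empty), fun i => (x i).2, fun F hF => ?_, fun c hc => ?_⟩
  · refine ⟨fun i => bas.repr (W.mkQ ⟨F, hF⟩) i, ?_⟩
    have h1 : W.mkQ (⟨F, hF⟩ + ∑ i, bas.repr (W.mkQ ⟨F, hF⟩) i • x i) = 0 := by
      rw [map_add, map_sum]
      simp only [map_smul, hx]
      rw [bas.sum_repr]
      exact add_self2 _
    rw [Submodule.mkQ_apply, Submodule.Quotient.mk_eq_zero] at h1
    have h2 : (Zb b N).subtype (⟨F, hF⟩ + ∑ i, bas.repr (W.mkQ ⟨F, hF⟩) i • x i) ∈ Bb b N := h1
    rw [map_add, map_sum] at h2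
    simp only [map_smul] at h2
    exact h2
  · have h1 : ∑ i, c i • x i ∈ W := by
      change (Zb b N).subtype (∑ i, c i • x i) ∈ Bb b N
      rw [map_sum]
      simp only [map_smul]
      exact hc
    have h2 : ∑ i, c i • bas i = 0 := by
      have h3 : W.mkQ (∑ i, c i • x i) = 0 := by
        rw [Submodule.mkQ_apply, Submodule.Quotient.mk_eq_zero]
        exact h1
      rw [map_sum] at h3
      simp only [map_smul, hx] at h3
      exact h3
    exact Fintype.linearIndependent_iff.1 bas.linearIndependent c h2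

end fin

section const

lemma wh_const {u : RR Empty} (hu : WH wE u (0, 0)) : u = C (coeff 0 u) := by
  ext d
  rw [coeff_C]
  split_ifs with h
  · rw [h]
  · by_contra hne
    have h1 := hu hne
    have h2 : (Finsupp.weight wE d).2 = 0 := by rw [h1]
    rw [weight_snd] at h2
    have hpos : ∀ v : (ℕ × ℕ) ⊕ (Empty × ℕ), 1 ≤ (wE v).2 := by
      intro v
      obtain ⟨i, a, _, h⟩ := wE_snd v
      rw [h]
      have : (1 : ℤ) ≤ 2 ^ i := one_le_pow₀ (by norm_num)
      rw [pow_succ]
      omega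
    have h3 := (Finset.sum_eq_zero_iff_of_nonneg (fun v _ =>
      mul_nonneg (by positivity) (by have := hpos v; omega))).1 h2
    apply h
    symm
    ext v
    by_cases hv : v ∈ d.support
    · have h4 := h3 v hv
      rcases mul_eq_zero.1 h4 with h5 | h5
      · exact_mod_cast h5
      · have := hpos v
        omega
    · exact Finsupp.notMem_support_iff.1 hv

lemma dE_C (i : ℕ) (c : ZMod 2) : dE i (C c) = C (((i + 1 : ℕ) : ZMod 2) * c) := by
  rw [dR_apply]
  have : ∀ j, face (fun _ : Empty => 0) j (C c) = C c := fun j => (face _ j).commutes c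
  simp only [this]
  rw [Finset.sum_const, Finset.card_range, nsmul_eq_mul, map_mul, map_natCast]

lemma C_lev {i : ℕ} (hi : 1 ≤ i) (c : ZMod 2) : (C c : RR Empty) ∈ lev Empty i := by
  obtain ⟨i, rfl⟩ : ∃ k, i = k + 1 := ⟨i - 1, by omega⟩
  rw [mem_lev_succ]
  exact (prj i).commutes c

lemma wh_C (c : ZMod 2) : WH wE (C c : RR Empty) (0, 0) := by
  exact isWeightedHomogeneous_C _ _

lemma sh_zero_id (z : RR Empty) : sh (ι := Empty) 0 z = z := by
  have : sh (ι := Empty) 0 = AlgHom.id _ _ := by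
    refine algHom_ext fun v => ?_
    rcases v with v | v
    · rw [sh_inl]; rfl
    · exact v.1.elim
  rw [this]
  rfl

lemma cup_const (z : RR Empty) (c : ZMod 2) : cup (ι := Empty) z 1 (C c) = c • z := by
  rw [cup_apply, show 1 - 1 = 0 from rfl, sh_zero_id, C_mul']

lemma lev_one {F : RR Empty} {N : ℤ} (hF : F ∈ lev Empty 1) (hw : WH wE F (0, N))
    (hN : N ≠ 0) : F = 0 := by
  have h1 := mem_lev_succ.1 hF
  have h2 : F = C (coeff 0 F) := by
    have h3 : prj (ι := Empty) 0 = (Algebra.ofId (ZMod 2) (RR Empty)).comp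
        (aeval (fun _ => (0 : ZMod 2))) := by
      refine algHom_ext fun v => ?_
      rcases v with v | v
      · rw [prj_inl_ge (by omega), AlgHom.comp_apply, aeval_X, map_zero]
      · exact v.1.elim
    rw [h3] at h1
    rw [← h1, AlgHom.comp_apply]
    change C _ = C (coeff 0 (C _))
    rw [coeff_zero_C]
  rw [h2] at hw ⊢
  by_cases hc : coeff 0 F = 0
  · rw [hc, map_zero]
  · exfalso
    have h4 : coeff 0 (C (coeff 0 F) : RR Empty) ≠ 0 := by rwa [coeff_zero_C]
    have h5 := hw h4
    rw [map_zero] at h5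
    exact hN (Prod.mk.inj h5).2.symm

end const

section good

/-- The data of bases in a range of degrees. -/
lemma good_fam (p : ℕ) {N : ℤ} (hN : N ≠ 0) : ∃ (Z : Type) (_ : Fintype Z) (f : Fam Z N),
    ∀ p' ≤ p, ExK f Empty (fun _ => 0) p' 0 0 := by
  classical
  choose m z hz hspan hind using fun b => basis_H b N
  let Z : Type := Σ b : Fin (p + 1), Fin (m ((b : ℕ) + 1))
  let f : Fam Z N :=
    { β := fun j => (j.1 : ℕ)
      z := fun j => z ((j.1 : ℕ) + 1) j.2
      lev := fun j => (hz _ _).1.1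
      wh := fun j => (hz _ _).1.2
      cl := fun j => (hz _ _).2 }
  have hsum : ∀ (b : Fin (p + 1)) (c : Z → ZMod 2), (∀ j : Z, j.1 ≠ b → c j = 0) →
      ∑ j, c j • f.z j = ∑ i, c ⟨b, i⟩ • z ((b : ℕ) + 1) i := by
    intro b c hc
    rw [Fintype.sum_sigma, Finset.sum_eq_single b]
    · intro b' _ hb'
      refine Finset.sum_eq_zero fun i _ => ?_
      rw [hc ⟨b', i⟩ hb', zero_smul]
    · intro h
      exact absurd (Finset.mem_univ _) h
  refine ⟨Z, inferInstance, f, fun p' hp' => ?_⟩
  rintro ⟨F, u⟩ ⟨⟨hF1, hF2⟩, hu⟩ hd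
  have hd1 : dE (p' + 1) F + ∑ j, Stab.cup (f.z j) (p' + 1 - f.β j) (u j) = 0 :=
    congrArg Prod.fst hd
  have hd2 : ∀ j, dE (p' + 1 - f.β j) (u j) = 0 := fun j => congrFun (congrArg Prod.snd hd) j
  have hF2' : WH wE F (0, N) := by
    have := hF2
    rwa [zero_add] at this
  -- the constants
  set c : Z → ZMod 2 := fun j => coeff 0 (u j) with hc
  have huc : ∀ j, u j = C (c j) := fun j => wh_const (hu j).2
  have hpar : ∀ j, ((p' + 1 - f.β j + 1 : ℕ) : ZMod 2) * c j = 0 := by
    intro j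
    have := hd2 j
    rw [huc, dE_C] at this
    exact (C_injective _ _) (by rw [this, map_zero])
  have hzero : ∀ j, p' + 1 - f.β j = 0 → c j = 0 := by
    intro j hj
    have h1 : u j ∈ lev Empty (p' + 1 - f.β j) := (hu j).1
    rw [hj] at h1
    have h2 : u j = 0 := h1
    rw [hc]
    simp only
    rw [h2, coeff_zero]
  have heven : ∀ j, (p' + 1 - f.β j) % 2 = 0 → c j = 0 := by
    intro j hj
    have h1 := hpar j
    have h2 : ((p' + 1 - f.β j + 1 : ℕ) : ZMod 2) = 1 := by
      rw [ZMod.natCast_eq_one_iff_odd, Nat.odd_iff]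
      omega
    rwa [h2, one_mul] at h1
  -- step A
  set v0 : Z → RR Empty := fun j => if 3 ≤ p' + 1 - f.β j then u j else 0 with hv0
  have hv0l : ∀ j, v0 j ∈ lev Empty (p' - f.β j) := by
    intro j
    rw [hv0]
    simp only
    split_ifs with h
    · rw [huc]
      exact C_lev (by omega) _
    · exact Submodule.zero_mem _
  have hv0w : ∀ j, WH wE (v0 j) (0, 0) := by
    intro j
    rw [hv0]
    simp only
    split_ifs with h
    · exact (hu j).2
    · exact isWeightedHomogeneous_zero _ _ _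
  have hv0d : ∀ j, dE (p' - f.β j) (v0 j) = v0 j := by
    intro j
    rw [hv0]
    simp only
    split_ifs with h
    · rw [huc, dE_C]
      congr 1
      by_cases h2 : (p' + 1 - f.β j) % 2 = 0
      · rw [heven j h2, mul_zero]
      · have h3 : ((p' - f.β j + 1 : ℕ) : ZMod 2) = 1 := by
          rw [ZMod.natCast_eq_one_iff_odd, Nat.odd_iff]
          omega
        rw [h3, one_mul]
    · rw [map_zero]
  set F1 : RR Empty := F + ∑ j, Stab.cup (f.z j) (p' - f.β j) (v0 j) with hF1'
  have hcup := f.cup (fun _ : Empty => (1, 0)) (fun _ => 0) 0 0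
  have hm : ∀ j, v0 j ∈ (cx (fun _ : Empty => (1, 0)) (fun _ => 0) (0, 0)).gr (p' - f.β j) :=
    fun j => ⟨hv0l j, hv0w j⟩
  have hF1l : F1 ∈ lev Empty (p' + 1) :=
    Submodule.add_mem _ hF1 (Submodule.sum_mem _ fun j _ => (hcup.mem' (hm j)).1)
  have hF1w : WH wE F1 (0, N) := by
    refine IsWeightedHomogeneous.add hF2' (IsWeightedHomogeneous.sum _ _ _ fun j _ => ?_)
    have := (hcup.mem' (hm j)).2
    rw [zero_add] at this
    exact this
  have hF1d : dE (p' + 1) F1 =
      ∑ j, (if p' + 1 - f.β j = 1 then c j else 0) • f.z j := by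
    have e1 : ∀ j, dE (p' + 1) (Stab.cup (f.z j) (p' - f.β j) (v0 j)) =
        Stab.cup (f.z j) (p' + 1 - f.β j) (v0 j) := by
      intro j
      have := hcup.d' (hm j)
      rw [cx_d, cx_d] at this
      have h2 : dE (p' + 1) (Stab.cup (f.z j) (p' - f.β j) (v0 j)) =
        Stab.cup (f.z j) (p' + 1 - f.β j) (dE (p' - f.β j) (v0 j)) := this
      rw [h2, hv0d]
    rw [hF1', map_add, map_sum, Finset.sum_congr rfl fun j _ => e1 j,
      add_eq_zero2.1 hd1, ← Finset.sum_add_distrib]
    refine Finset.sum_congr rfl fun j _ => ?_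
    rw [← map_add]
    have h3 : u j + v0 j = if 3 ≤ p' + 1 - f.β j then 0 else u j := by
      rw [hv0]
      simp only
      split_ifs
      · exact add_self2 _
      · exact add_zero _
    rw [h3]
    by_cases h4 : p' + 1 - f.β j = 1
    · rw [if_pos h4, h4, if_neg (by omega), huc, cup_const]
    · rw [if_neg h4, zero_smul]
      split_ifs with h5
      · exact map_zero _
      · have h6 : (p' + 1 - f.β j) % 2 = 0 := by omega
        rw [huc, heven j h6, map_zero, map_zero]
  -- the constants at index one vanish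
  have hone : ∀ j, p' + 1 - f.β j = 1 → c j = 0 := by
    intro j hj
    have hb : f.β j = p' := by omega
    have hj1 : (j.1 : ℕ) = p' := hb
    rw [hsum ⟨p', by omega⟩ _ (fun j' hj' => by
      rw [if_neg]
      intro h
      apply hj'
      have : f.β j' = p' := by omega
      exact Fin.ext this)] at hF1d
    have h1 := hind (p' + 1) (fun i => if p' + 1 - f.β ⟨⟨p', by omega⟩, i⟩ = 1 then
      c ⟨⟨p', by omega⟩, i⟩ else 0) ⟨F1, ⟨hF1l, hF1w⟩, hF1d⟩
    obtain ⟨⟨jb, hjb⟩, ji⟩ := j
    simp only at hj1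
    subst hj1
    have h2 := h1 ji
    rw [if_pos hj] at h2
    exact h2
  have hF1c : dE (p' + 1) F1 = 0 := by
    rw [hF1d]
    refine Finset.sum_eq_zero fun j _ => ?_
    split_ifs with h
    · rw [hone j h, zero_smul]
    · rw [zero_smul]
  -- step B
  have hcase : ∃ (G : RR Empty) (v1 : Z → ZMod 2), G ∈ Cb p' N ∧
      (∀ j, v1 j ≠ 0 → f.β j + 1 = p') ∧ dE p' G = F1 + ∑ j, v1 j • f.z j := by
    rcases Nat.eq_zero_or_pos p' with hp0 | hp0
    · subst hp0
      refine ⟨0, fun _ => 0, Submodule.zero_mem _, fun j h => absurd rfl h, ?_⟩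
      have := lev_one hF1l hF1w hN
      rw [this]
      simp
    · obtain ⟨b, rfl⟩ : ∃ b, p' = b + 1 := ⟨p' - 1, by omega⟩
      obtain ⟨c', hc'⟩ := hspan (b + 1) F1 ⟨⟨hF1l, hF1w⟩, hF1c⟩
      obtain ⟨G, hG, eG⟩ := hc'
      refine ⟨G, fun j => if h : (j.1 : ℕ) = b then c' (h ▸ j.2) else 0, hG, fun j h => ?_, ?_⟩
      · by_contra hne
        refine h (dif_neg fun h2 => hne ?_)
        change (j.1 : ℕ) + 1 = b + 1
        omega
      · rw [eG]
        congr 1
        rw [hsum ⟨b, by omega⟩ _ (fun j' hj' => by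
          rw [dif_neg]
          intro h
          apply hj'
          exact Fin.ext h)]
        refine Finset.sum_congr rfl fun i _ => ?_
        simp
  obtain ⟨G, v1, hG, hv1, eG⟩ := hcase
  refine ⟨(G, fun j => v0 j + C (v1 j)), ⟨⟨hG.1, ?_⟩, fun j => ⟨?_, ?_⟩⟩, ?_⟩
  · have := hG.2
    change WH _ G (0, 0 + N)
    rw [zero_add]
    exact this
  · refine Submodule.add_mem _ (hv0l j) ?_
    by_cases h : v1 j = 0
    · rw [h, map_zero]
      exact Submodule.zero_mem _
    · have := hv1 j h
      exact C_lev (by omega) _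
  · exact (hv0w j).add (wh_C _)
  · refine Prod.ext ?_ (funext fun j => ?_)
    · change dE p' G + ∑ j, Stab.cup (f.z j) (p' - f.β j) (v0 j + C (v1 j)) = F
      have e2 : ∀ j, Stab.cup (f.z j) (p' - f.β j) (C (v1 j)) = v1 j • f.z j := by
        intro j
        by_cases h : v1 j = 0
        · rw [h, map_zero, map_zero, zero_smul]
        · have h2 := hv1 j h
          rw [show p' - f.β j = 1 by omega, cup_const]
      simp only [map_add, e2]
      rw [Finset.sum_add_distrib, eG, hF1']
      have e3 := add_self2 (∑ j, v1 j • f.z j)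
      have e4 := add_self2 (∑ j, Stab.cup (f.z j) (p' - f.β j) (v0 j))
      calc _ = F + (∑ j, Stab.cup (f.z j) (p' - f.β j) (v0 j) +
            ∑ j, Stab.cup (f.z j) (p' - f.β j) (v0 j)) +
            (∑ j, v1 j • f.z j + ∑ j, v1 j • f.z j) := by abel
        _ = F := by rw [e3, e4, add_zero, add_zero]
    · change dE (p' - f.β j) (v0 j + C (v1 j)) = u j
      rw [map_add, hv0d, dE_C]
      by_cases h : v1 j = 0
      · rw [h, mul_zero, map_zero, add_zero, hv0]
        simp only
        split_ifs with h3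
        · rfl
        · symm
          rw [huc]
          have : c j = 0 := by
            rcases (by omega : p' + 1 - f.β j = 0 ∨ p' + 1 - f.β j = 1 ∨ p' + 1 - f.β j = 2)
              with h4 | h4 | h4
            · exact hzero j h4
            · exact hone j h4
            · exact heven j (by omega)
          rw [this, map_zero]
      · have h2 := hv1 j h
        have h3 : p' - f.β j = 1 := by omega
        rw [h3, show (((1 + 1 : ℕ) : ZMod 2)) = 0 from rfl, zero_mul, map_zero, add_zero, hv0]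
        simp only
        rw [if_neg (by omega), huc, heven j (by omega), map_zero]

end good

end Pool.Agent.Work.MP_701abf_gt.Stab
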