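import Pool.Agent.Work.MP_701abf_gt.Stab.HZero

/-!
The operation `Sq^1` on cocycles, by the signed differential of length two Witt vectors.
-/

open MvPolynomial

namespace Pool.Agent.Work.MP_701abf_gt.Stab

section signed

variable {A : Type*} [AddCommGroup A]

/-- The alternating sum of the faces. -/
def alt (f : ℕ → A →+ A) (n : ℕ) (x : A) : A :=
  ∑ j ∈ Finset.range (n + 1), ((-1 : ℤ) ^ j) • f j x

lemma alt_add (f : ℕ → A →+ A) (n : ℕ) (x y : A) : alt f n (x + y) = alt f n x + alt f n y := by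
  unfold alt
  rw [← Finset.sum_add_distrib]
  refine Finset.sum_congr rfl fun j _ => ?_
  rw [map_add, smul_add]

lemma alt_alt (f : ℕ → A →+ A) (h : ∀ i j, i < j → ∀ x, f j (f i x) = f i (f (j - 1) x)) (n : ℕ)
    (x : A) : alt f (n + 1) (alt f n x) = 0 := by
  unfold alt
  simp only [map_sum, map_zsmul, Finset.smul_sum]
  rw [Finset.sum_sigma']
  refine Finset.sum_involution
    (fun x _ => if x.2 < x.1 then ⟨x.2, x.1 - 1⟩ else ⟨x.2 + 1, x.1⟩) ?_ ?_ ?_ ?_
  · rintro ⟨j, i⟩ hji
    by_cases hij : i < j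
    · simp only [hij, if_true]
      obtain ⟨k, rfl⟩ : ∃ k, j = k + 1 := ⟨j - 1, by omega⟩
      rw [h i (k + 1) hij, Nat.add_sub_cancel, smul_smul, smul_smul, ← add_smul]
      have : (-1 : ℤ) ^ (k + 1) * (-1) ^ i + (-1) ^ i * (-1) ^ k = 0 := by ring
      rw [this, zero_smul]
    · simp only [hij, if_false]
      rw [h j (i + 1) (by omega), Nat.add_sub_cancel, smul_smul, smul_smul, ← add_smul]
      have : (-1 : ℤ) ^ j * (-1) ^ i + (-1) ^ (i + 1) * (-1) ^ j = 0 := by ring
      rw [this, zero_smul]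
  · rintro ⟨j, i⟩ h _
    by_cases hij : i < j
    · simp only [hij, if_true]
      intro h
      have := congrArg Sigma.fst h
      simp only at this
      omega
    · simp only [hij, if_false]
      intro h
      have := congrArg Sigma.fst h
      simp only at this
      omega
  · rintro ⟨j, i⟩ h
    simp only [Finset.mem_sigma, Finset.mem_range] at h ⊢
    by_cases hij : i < j
    · simp only [hij, if_true]
      omega
    · simp only [hij, if_false]
      omega
  · rintro ⟨j, i⟩ h
    by_cases hij : i < j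
    · simp only [hij, if_true]
      have : ¬ (j - 1 < i) := by omega
      simp only [this, if_false]
      have : j - 1 + 1 = j := by omega
      rw [this]
    · simp only [hij, if_false]
      have : j < i + 1 := by omega
      simp only [this, if_true, Nat.add_sub_cancel]

end signed

/-- Length two Witt vectors of a ring of characteristic two. -/
@[ext] structure WW (S : Type*) where
  a : S
  b : S

namespace WW

variable {S : Type*} [CommRing S]

instance : Add (WW S) := ⟨fun x y => ⟨x.a + y.a, x.b + y.b + x.a * y.a⟩⟩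
instance : Zero (WW S) := ⟨⟨0, 0⟩⟩
instance : Neg (WW S) := ⟨fun x => ⟨-x.a, -x.b + x.a * x.a⟩⟩

@[simp] lemma add_a (x y : WW S) : (x + y).a = x.a + y.a := rfl
@[simp] lemma add_b (x y : WW S) : (x + y).b = x.b + y.b + x.a * y.a := rfl
@[simp] lemma zero_a : (0 : WW S).a = 0 := rfl
@[simp] lemma zero_b : (0 : WW S).b = 0 := rfl
@[simp] lemma neg_a (x : WW S) : (-x).a = -x.a := rfl
@[simp] lemma neg_b (x : WW S) : (-x).b = -x.b + x.a * x.a := rfl

instance : AddCommGroup (WW S) where
  add_assoc x y z := by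
    ext
    · simp only [add_a]; ring
    · simp only [add_a, add_b]; ring
  zero_add x := by
    ext
    · simp only [add_a, zero_a]; ring
    · simp only [add_b, zero_a, zero_b]; ring
  add_zero x := by
    ext
    · simp only [add_a, zero_a]; ring
    · simp only [add_b, zero_a, zero_b]; ring
  neg_add_cancel x := by
    ext
    · simp only [add_a, neg_a, zero_a]; ring
    · simp only [add_b, neg_a, neg_b, zero_b]; ring
  add_comm x y := by
    ext
    · simp only [add_a]; ring
    · simp only [add_b]; ring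
  nsmul := nsmulRec
  zsmul := zsmulRec

/-- Functoriality. -/
def map {S' : Type*} [CommRing S'] (φ : S →+* S') : WW S →+ WW S' where
  toFun x := ⟨φ x.a, φ x.b⟩
  map_zero' := by
    ext
    · exact map_zero φ
    · exact map_zero φ
  map_add' x y := by
    ext
    · simp only [add_a, map_add]
    · simp only [add_b, map_add, map_mul]

@[simp] lemma map_a {S' : Type*} [CommRing S'] (φ : S →+* S') (x : WW S) :
    (map φ x).a = φ x.a := rfl
@[simp] lemma map_b {S' : Type*} [CommRing S'] (φ : S →+* S') (x : WW S) :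
    (map φ x).b = φ x.b := rfl

/-- The Teichmueller element. -/
def te (x : S) : WW S := ⟨x, 0⟩

/-- The Verschiebung. -/
def V (x : S) : WW S := ⟨0, x⟩

@[simp] lemma te_a (x : S) : (te x).a = x := rfl
@[simp] lemma te_b (x : S) : (te x).b = 0 := rfl
@[simp] lemma V_a (x : S) : (V x).a = 0 := rfl
@[simp] lemma V_b (x : S) : (V x).b = x := rfl

end WW

section sums

variable {S : Type*} [CommRing S] [Algebra (ZMod 2) S]

/-- The sum of the products of pairs of equal parity. -/
def pr (a : ℕ → S) (m : ℕ) : S :=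
  ∑ j ∈ Finset.range m, ∑ i ∈ Finset.range j, if i % 2 = j % 2 then a i * a j else 0

/-- Sum over the indices of a given parity. -/
def par (a : ℕ → S) (e m : ℕ) : S :=
  ∑ j ∈ Finset.range m, if j % 2 = e then a j else 0

omit [Algebra (ZMod 2) S] in
lemma pr_succ (a : ℕ → S) (m : ℕ) : pr a (m + 1) = pr a m + par a (m % 2) m * a m := by
  unfold pr par
  rw [Finset.sum_range_succ, Finset.sum_mul]
  congr 1
  refine Finset.sum_congr rfl fun i _ => ?_
  split_ifs
  · rfl
  · rw [zero_mul]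

omit [Algebra (ZMod 2) S] in
lemma par_succ (a : ℕ → S) (e m : ℕ) :
    par a e (m + 1) = par a e m + if m % 2 = e then a m else 0 := by
  unfold par
  rw [Finset.sum_range_succ]

/-- The alternating sum of Teichmueller elements. -/
lemma te_sum (a : ℕ → S) (m : ℕ) :
    (∑ j ∈ Finset.range m, ((-1 : ℤ) ^ j) • WW.te (a j)).a = par a 0 m + par a 1 m ∧
    (∑ j ∈ Finset.range m, ((-1 : ℤ) ^ j) • WW.te (a j)).b =
      pr a m + par a 0 m * par a 1 m + par a 1 m * par a 1 m := by
  induction m with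
  | zero => simp [par, pr]
  | succ m ih =>
    obtain ⟨h1, h2⟩ := ih
    rw [Finset.sum_range_succ, WW.add_a, WW.add_b, h1, h2, pr_succ, par_succ, par_succ]
    rcases Nat.mod_two_eq_zero_or_one m with hm | hm
    · have he : Even m := Nat.even_iff.2 hm
      rw [he.neg_one_pow, one_smul, hm, if_pos rfl, if_neg (by norm_num), add_zero, WW.te_a,
        WW.te_b]
      constructor
      · ring
      · ring
    · have he : Odd m := Nat.odd_iff.2 hm
      rw [he.neg_one_pow, hm, if_pos rfl, if_neg (by norm_num), add_zero, neg_smul, one_smul,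
        WW.neg_a, WW.neg_b, WW.te_a, WW.te_b]
      have h3 : ∀ x : S, -x = x := neg_eq2
      have h4 := add_self2 (par a 1 m * a m)
      constructor
      · rw [h3]
        ring
      · rw [h3, h3]
        calc _ = pr a m + par a 0 m * par a 1 m + par a 1 m * par a 1 m + 0 + a m * a m +
              (par a 0 m * a m + par a 1 m * a m) := by ring
          _ = pr a m + par a 0 m * par a 1 m + par a 1 m * par a 1 m + 0 + a m * a m +
              (par a 0 m * a m + par a 1 m * a m) + (par a 1 m * a m + par a 1 m * a m) := by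
            rw [h4]; ring
          _ = _ := by ring

end sums

variable {ι : Type*}

lemma face_face (τ : ι → ℕ) {i j : ℕ} (h : i < j) (F : RR ι) :
    face τ j (face τ i F) = face τ i (face τ (j - 1) F) := by
  refine val_ext τ fun w z => ?_
  rw [val_face, val_face, val_face, val_face]
  congr 1
  funext r
  simp only [sk]
  congr 1
  unfold skp
  split_ifs <;> omega

/-- The faces of Witt vectors. -/
noncomputable def faceW (τ : ι → ℕ) (j : ℕ) : WW (RR ι) →+ WW (RR ι) :=
  WW.map (face τ j).toRingHom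

lemma faceW_a (τ : ι → ℕ) (j : ℕ) (x : WW (RR ι)) : (faceW τ j x).a = face τ j x.a := rfl
lemma faceW_b (τ : ι → ℕ) (j : ℕ) (x : WW (RR ι)) : (faceW τ j x).b = face τ j x.b := rfl

lemma faceW_te (τ : ι → ℕ) (j : ℕ) (x : RR ι) : faceW τ j (WW.te x) = WW.te (face τ j x) := by
  ext1
  · rfl
  · exact map_zero _

lemma faceW_faceW (τ : ι → ℕ) (i j : ℕ) (h : i < j) (x : WW (RR ι)) :
    faceW τ j (faceW τ i x) = faceW τ i (faceW τ (j - 1) x) := by
  ext1
  · exact face_face τ h _
  · exact face_face τ h _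

/-- The square sum of the faces of equal parity. -/
noncomputable def sq1 (τ : ι → ℕ) (n : ℕ) (F : RR ι) : RR ι := pr (fun j => face τ j F) (n + 1)

lemma V_add {S : Type*} [CommRing S] (x y : S) : WW.V (x + y) = WW.V x + WW.V y := by
  ext
  · simp
  · simp

lemma V_inj {S : Type*} [CommRing S] {x y : S} (h : WW.V x = WW.V y) : x = y :=
  congrArg WW.b h

/-- The signed differential of `V x`. -/
lemma alt_V (τ : ι → ℕ) (n : ℕ) (x : RR ι) : alt (faceW τ) n (WW.V x) = WW.V (dR τ n x) := by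
  rw [dR_apply]
  unfold alt
  induction n + 1 with
  | zero => rfl
  | succ m ih =>
    rw [Finset.sum_range_succ, Finset.sum_range_succ, ih, V_add]
    congr 1
    have h : faceW τ m (WW.V x) = WW.V (face τ m x) := by
      ext1
      · exact map_zero _
      · rfl
    rw [h]
    rcases Nat.even_or_odd m with he | he
    · rw [he.neg_one_pow, one_smul]
    · rw [he.neg_one_pow, neg_smul, one_smul]
      ext
      · simp
      · simp [neg_eq2]

/-- The signed differential of a Teichmueller element. -/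
lemma alt_te_a (τ : ι → ℕ) (n : ℕ) (F : RR ι) : (alt (faceW τ) n (WW.te F)).a = dR τ n F := by
  unfold alt
  simp only [faceW_te]
  rw [(te_sum (fun j => face τ j F) (n + 1)).1, dR_apply]
  unfold par
  rw [← Finset.sum_add_distrib]
  refine Finset.sum_congr rfl fun j _ => ?_
  rcases Nat.mod_two_eq_zero_or_one j with h | h
  · rw [if_pos h, if_neg (by omega), add_zero]
  · rw [if_neg (by omega), if_pos h, zero_add]

lemma alt_te (τ : ι → ℕ) (n : ℕ) {F : RR ι} (hF : dR τ n F = 0) :
    alt (faceW τ) n (WW.te F) = WW.V (sq1 τ n F) := by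
  have h1 := alt_te_a τ n F
  have h2 := (te_sum (fun j => face τ j F) (n + 1)).1
  have h3 := (te_sum (fun j => face τ j F) (n + 1)).2
  have h4 : alt (faceW τ) n (WW.te F) =
      ∑ j ∈ Finset.range (n + 1), ((-1 : ℤ) ^ j) • WW.te (face τ j F) := by
    unfold alt
    simp only [faceW_te]
  rw [hF] at h1
  rw [h4] at h1 ⊢
  rw [h1] at h2
  ext1
  · exact h1
  · rw [h3]
    change _ = pr (fun j => face τ j F) (n + 1)
    rw [add_assoc, ← add_mul, ← h2, zero_mul, add_zero]

/-- `sq1` of a cocycle is a cocycle. -/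
lemma sq1_d (τ : ι → ℕ) (n : ℕ) {F : RR ι} (hF : dR τ n F = 0) :
    dR τ (n + 1) (sq1 τ n F) = 0 := by
  have h := alt_alt (faceW τ) (fun i j h x => faceW_faceW τ i j h x) n (WW.te F)
  rw [alt_te τ n hF, alt_V] at h
  exact congrArg WW.b h

/-- `sq1` is additive up to coboundaries. -/
lemma sq1_add (τ : ι → ℕ) (n : ℕ) {F G : RR ι} (hF : dR τ n F = 0) (hG : dR τ n G = 0) :
    sq1 τ n (F + G) + dR τ n (F * G) = sq1 τ n F + sq1 τ n G := by
  have e : WW.te F + WW.te G = WW.te (F + G) + WW.V (F * G) := by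
    ext
    · simp
    · simp
  have h := congrArg (alt (faceW τ) n) e
  rw [alt_add, alt_add, alt_te τ n hF, alt_te τ n hG,
    alt_te τ n (by rw [map_add, hF, hG, add_zero]), alt_V, ← V_add, ← V_add] at h
  exact (V_inj h).symm

/-- `sq1` of a coboundary. -/
lemma sq1_bd (τ : ι → ℕ) (n : ℕ) (G : RR ι) :
    sq1 τ (n + 1) (dR τ n G) = dR τ (n + 1) (alt (faceW τ) n (WW.te G)).b := by
  have h := alt_alt (faceW τ) (fun i j h x => faceW_faceW τ i j h x) n (WW.te G)
  have e : alt (faceW τ) n (WW.te G) =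
      WW.te (dR τ n G) + WW.V (alt (faceW τ) n (WW.te G)).b := by
    ext
    · simp [alt_te_a]
    · simp
  have hd : dR τ (n + 1) (dR τ n G) = 0 := by
    have := congrArg WW.a h
    rw [e, alt_add, alt_V, WW.add_a, alt_te_a] at this
    simpa using this
  rw [e, alt_add, alt_te τ (n + 1) hd, alt_V, ← V_add] at h
  have h2 : sq1 τ (n + 1) (dR τ n G) + dR τ (n + 1) (alt (faceW τ) n (WW.te G)).b = 0 :=
    congrArg WW.b h
  rw [← sub_eq2] at h2
  exact sub_eq_zero.1 h2

lemma mul_lev {n : ℕ} {F G : RR ι} (hF : F ∈ lev ι n) (hG : G ∈ lev ι n) : F * G ∈ lev ι n := by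
  cases n with
  | zero =>
    rw [mem_lev_zero] at hF
    rw [hF, zero_mul]
    exact Submodule.zero_mem _
  | succ n =>
    rw [mem_lev_succ] at *
    rw [map_mul, hF, hG]

lemma mul_wh2 {F G : RR Empty} {N : ℤ} (hF : WH wE F (0, N)) (hG : WH wE G (0, N)) :
    WH wE (F * G) (0, 2 * N) := by
  have h := IsWeightedHomogeneous.mul hF hG
  have e : (((0, N) : (ℤ × ℤ) × ℤ) + (0, N)) = (0, 2 * N) := by
    rw [Prod.mk_add_mk, add_zero, two_mul]
  rw [e] at h
  exact h

/-- Witt vectors whose components have given level and weight. -/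
def Wp (n : ℕ) (N : ℤ) : AddSubgroup (WW (RR Empty)) where
  carrier := {x | (x.a ∈ lev Empty n ∧ WH wE x.a (0, N)) ∧
    (x.b ∈ lev Empty n ∧ WH wE x.b (0, 2 * N))}
  zero_mem' := ⟨⟨Submodule.zero_mem _, isWeightedHomogeneous_zero _ _ _⟩,
    ⟨Submodule.zero_mem _, isWeightedHomogeneous_zero _ _ _⟩⟩
  add_mem' := by
    rintro x y ⟨⟨hx1, hx2⟩, hx3, hx4⟩ ⟨⟨hy1, hy2⟩, hy3, hy4⟩
    exact ⟨⟨Submodule.add_mem _ hx1 hy1, hx2.add hy2⟩,
      ⟨Submodule.add_mem _ (Submodule.add_mem _ hx3 hy3) (mul_lev hx1 hy1),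
        (hx4.add hy4).add (mul_wh2 hx2 hy2)⟩⟩
  neg_mem' := by
    rintro x ⟨⟨hx1, hx2⟩, hx3, hx4⟩
    refine ⟨⟨?_, ?_⟩, ?_, ?_⟩
    · rw [WW.neg_a, neg_eq2]; exact hx1
    · rw [WW.neg_a, neg_eq2]; exact hx2
    · rw [WW.neg_b, neg_eq2]
      exact Submodule.add_mem _ hx3 (mul_lev hx1 hx1)
    · rw [WW.neg_b, neg_eq2]
      exact hx4.add (mul_wh2 hx2 hx2)

lemma mem_Wp {n : ℕ} {N : ℤ} {x : WW (RR Empty)} : x ∈ Wp n N ↔
    (x.a ∈ lev Empty n ∧ WH wE x.a (0, N)) ∧ (x.b ∈ lev Empty n ∧ WH wE x.b (0, 2 * N)) := Iff.rfl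

lemma alt_Wp {n m : ℕ} {N : ℤ} {x : WW (RR Empty)} (hx : x ∈ Wp n N) :
    alt (faceW (fun _ => 0)) m x ∈ Wp (n + 1) N := by
  unfold alt
  refine AddSubgroup.sum_mem _ fun j _ => AddSubgroup.zsmul_mem _ ?_ _
  obtain ⟨⟨hx1, hx2⟩, hx3, hx4⟩ := hx
  exact ⟨⟨face_lev _ _ hx1, (face_gr _ _ _).map hx2⟩, ⟨face_lev _ _ hx3, (face_gr _ _ _).map hx4⟩⟩

lemma te_Wp {n : ℕ} {N : ℤ} {F : RR Empty} (hF : F ∈ lev Empty n) (hw : WH wE F (0, N)) :
    WW.te F ∈ Wp n N :=
  ⟨⟨hF, hw⟩, ⟨Submodule.zero_mem _, isWeightedHomogeneous_zero _ _ _⟩⟩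

/-- Level and weight of `sq1`. -/
lemma sq1_mem {n : ℕ} {N : ℤ} {F : RR Empty} (hF : F ∈ lev Empty n) (hw : WH wE F (0, N))
    (hd : dE n F = 0) : sq1 (fun _ => 0) n F ∈ lev Empty (n + 1) ∧
      WH wE (sq1 (fun _ => 0) n F) (0, 2 * N) := by
  have h := alt_Wp (m := n) (te_Wp hF hw)
  rw [alt_te _ n hd] at h
  exact h.2

/-- `sq1` of a coboundary is a coboundary. -/
lemma sq1_bd' {n : ℕ} {N : ℤ} {G : RR Empty} (hG : G ∈ lev Empty n) (hw : WH wE G (0, N)) :
    ∃ H ∈ lev Empty (n + 1), WH wE H (0, 2 * N) ∧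
      dE (n + 1) H = sq1 (fun _ => 0) (n + 1) (dE n G) := by
  have h := alt_Wp (m := n) (te_Wp hG hw)
  exact ⟨_, h.2.1, h.2.2, (sq1_bd _ n G).symm⟩

end Pool.Agent.Work.MP_701abf_gt.Stab
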