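import Pool.Agent.Work.MP_701abf_gt.Stab.SqOne

/-!
The Cartan formula for `Sq^1` on cochains.
-/

open MvPolynomial

namespace Pool.Agent.Work.MP_701abf_gt.Stab

section mulW

variable {S : Type*} [CommRing S] [Algebra (ZMod 2) S]

omit [Algebra (ZMod 2) S] in
/-- The product of Witt vectors. -/
def mulW (x y : WW S) : WW S := ⟨x.a * y.a, x.a ^ 2 * y.b + y.a ^ 2 * x.b⟩

lemma two_zero : (2 : S) = 0 := by
  have h : algebraMap (ZMod 2) S 2 = 2 := map_ofNat _ 2
  rw [← h, show (2 : ZMod 2) = 0 from rfl, map_zero]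

lemma mulW_add_left (x x' y : WW S) : mulW (x + x') y = mulW x y + mulW x' y := by
  have h := two_zero (S := S)
  ext
  · simp only [mulW, WW.add_a]; ring
  · simp only [mulW, WW.add_a, WW.add_b]
    linear_combination (x.a * x'.a * y.b) * h

lemma mulW_comm (x y : WW S) : mulW x y = mulW y x := by
  ext
  · simp only [mulW]; ring
  · simp only [mulW]; ring

lemma mulW_add_right (x y y' : WW S) : mulW x (y + y') = mulW x y + mulW x y' := by
  rw [mulW_comm, mulW_add_left, mulW_comm y, mulW_comm y']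

/-- The product as a homomorphism in the left variable. -/
def mulWL (y : WW S) : WW S →+ WW S where
  toFun x := mulW x y
  map_zero' := by
    ext
    · simp only [mulW, WW.zero_a]; ring
    · simp only [mulW, WW.zero_a, WW.zero_b]; ring
  map_add' x x' := mulW_add_left x x' y

lemma mulWL_apply (x y : WW S) : mulWL y x = mulW x y := rfl

lemma mulW_zsmul_left (n : ℤ) (x y : WW S) : mulW (n • x) y = n • mulW x y := by
  rw [← mulWL_apply, map_zsmul, mulWL_apply]

lemma mulW_zsmul_right (n : ℤ) (x y : WW S) : mulW x (n • y) = n • mulW x y := by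
  rw [mulW_comm, mulW_zsmul_left, mulW_comm]

lemma mulW_sum_left {α : Type*} (s : Finset α) (f : α → WW S) (y : WW S) :
    mulW (∑ i ∈ s, f i) y = ∑ i ∈ s, mulW (f i) y := by
  rw [← mulWL_apply, map_sum]
  rfl

lemma mulW_sum_right {α : Type*} (s : Finset α) (f : α → WW S) (y : WW S) :
    mulW y (∑ i ∈ s, f i) = ∑ i ∈ s, mulW y (f i) := by
  rw [mulW_comm, mulW_sum_left]
  exact Finset.sum_congr rfl fun i _ => mulW_comm _ _

end mulW

/-- Shifts of Witt vectors. -/
noncomputable def shW (c : ℕ) : WW (RR Empty) →+ WW (RR Empty) :=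
  WW.map (sh (ι := Empty) c).toRingHom

lemma faceW_mulW (j : ℕ) (x y : WW (RR Empty)) : faceW (fun _ => 0) j (mulW x y) =
    mulW (faceW (fun _ => 0) j x) (faceW (fun _ => 0) j y) := by
  ext1
  · exact map_mul _ _ _
  · change face _ j (x.a ^ 2 * y.b + y.a ^ 2 * x.b) = _
    rw [map_add, map_mul, map_mul, map_pow, map_pow]
    rfl

lemma faceW_shW_le {j a : ℕ} (h : j ≤ a) (z : WW (RR Empty)) :
    faceW (fun _ => 0) j (shW a z) = shW (a + 1) z := by
  ext1
  · exact sh_face_le _ h _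
  · exact sh_face_le _ h _

lemma faceW_shW_gt (a i : ℕ) (z : WW (RR Empty)) :
    faceW (fun _ => 0) (a + 1 + i) (shW a z) = shW a (faceW (fun _ => 0) (i + 1) z) := by
  ext1
  · exact sh_face_gt _ a i _
  · exact sh_face_gt _ a i _

lemma shW_zero_face (a : ℕ) (z : WW (RR Empty)) :
    shW a (faceW (fun _ => 0) 0 z) = shW (a + 1) z := by
  ext1
  · exact sh_zero_face a _
  · exact sh_zero_face a _

lemma faceW_high {n j : ℕ} (h : n ≤ j) {x : WW (RR Empty)} (ha : x.a ∈ lev Empty (n + 1))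
    (hb : x.b ∈ lev Empty (n + 1)) : faceW (fun _ => 0) (j + 1) x = x := by
  ext1
  · exact face_high _ h ha
  · exact face_high _ h hb

/-- The signed Leibniz rule. -/
lemma alt_mulW {a b : ℕ} {U : WW (RR Empty)} (ha : U.a ∈ lev Empty (a + 1))
    (hb : U.b ∈ lev Empty (a + 1)) (Z : WW (RR Empty)) :
    alt (faceW (fun _ => 0)) (a + b + 1) (mulW U (shW a Z)) =
      mulW (alt (faceW (fun _ => 0)) (a + 1) U) (shW (a + 1) Z) +
        ((-1 : ℤ) ^ a) • mulW U (shW a (alt (faceW (fun _ => 0)) (b + 1) Z)) := by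
  have e1 : alt (faceW (fun _ => 0)) (a + b + 1) (mulW U (shW a Z)) =
      mulW (∑ j ∈ Finset.range (a + 1), ((-1 : ℤ) ^ j) • faceW (fun _ => 0) j U) (shW (a + 1) Z) +
      ((-1 : ℤ) ^ (a + 1)) • mulW U
        (∑ i ∈ Finset.range (b + 1), ((-1 : ℤ) ^ i) • shW a (faceW (fun _ => 0) (i + 1) Z)) := by
    unfold alt
    rw [show a + b + 1 + 1 = (a + 1) + (b + 1) by ring, Finset.sum_range_add, mulW_sum_left,
      mulW_sum_right, Finset.smul_sum]
    congr 1
    · refine Finset.sum_congr rfl fun j hj => ?_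
      have := Finset.mem_range.1 hj
      rw [faceW_mulW, faceW_shW_le (by omega), mulW_zsmul_left]
    · refine Finset.sum_congr rfl fun i _ => ?_
      rw [faceW_mulW, faceW_shW_gt, show a + 1 + i = (a + i) + 1 by ring,
        faceW_high (by omega) ha hb, mulW_zsmul_right, smul_smul, ← pow_add]
      congr 2
      ring
  have e2 : alt (faceW (fun _ => 0)) (a + 1) U =
      (∑ j ∈ Finset.range (a + 1), ((-1 : ℤ) ^ j) • faceW (fun _ => 0) j U) +
        ((-1 : ℤ) ^ (a + 1)) • U := by
    unfold alt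
    rw [Finset.sum_range_succ, faceW_high le_rfl ha hb]
  have e3 : shW a (alt (faceW (fun _ => 0)) (b + 1) Z) = shW (a + 1) Z -
      ∑ i ∈ Finset.range (b + 1), ((-1 : ℤ) ^ i) • shW a (faceW (fun _ => 0) (i + 1) Z) := by
    unfold alt
    rw [Finset.sum_range_succ', map_add, map_sum, pow_zero, one_smul, shW_zero_face, add_comm,
      sub_eq_add_neg, ← Finset.sum_neg_distrib]
    congr 1
    refine Finset.sum_congr rfl fun i _ => ?_
    rw [map_zsmul, pow_succ, mul_neg_one, neg_smul]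
  have e4 : ∀ x y z : WW (RR Empty), mulW x (y - z) = mulW x y - mulW x z := by
    intro x y z
    rw [sub_eq_add_neg, mulW_add_right, sub_eq_add_neg]
    congr 1
    have := mulW_zsmul_right (-1) x z
    rw [neg_one_zsmul, neg_one_zsmul] at this
    exact this
  rw [e1, e2, e3, e4, mulW_add_left, mulW_zsmul_left, smul_sub, pow_succ, mul_neg_one, neg_smul,
    neg_smul]
  abel

lemma mulW_V_te {S : Type*} [CommRing S] (x y : S) :
    mulW (WW.V x) (WW.te y) = WW.V (x * y ^ 2) := by
  ext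
  · simp [mulW]
  · simp only [mulW, WW.V_a, WW.te_a, WW.te_b, WW.V_b]; ring

lemma mulW_te_V {S : Type*} [CommRing S] (x y : S) :
    mulW (WW.te x) (WW.V y) = WW.V (x ^ 2 * y) := by
  ext
  · simp [mulW]
  · simp only [mulW, WW.V_a, WW.te_a, WW.te_b, WW.V_b]; ring

lemma mulW_te_te {S : Type*} [CommRing S] (x y : S) :
    mulW (WW.te x) (WW.te y) = WW.te (x * y) := by
  ext
  · simp [mulW]
  · simp only [mulW, WW.te_a, WW.te_b]; ring

lemma sign_V {S : Type*} [CommRing S] [Algebra (ZMod 2) S] (n : ℕ) (x : S) :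
    ((-1 : ℤ) ^ n) • WW.V x = WW.V x := by
  rcases Nat.even_or_odd n with he | he
  · rw [he.neg_one_pow, one_smul]
  · rw [he.neg_one_pow, neg_smul, one_smul]
    ext
    · simp
    · simp [neg_eq2]

/-- The Cartan formula. -/
theorem sq1_cup {i j : ℕ} {F G : RR Empty} (hG : G ∈ lev Empty (j + 1))
    (hGd : dE (j + 1) G = 0) (hFd : dE (i + 1) F = 0) :
    sq1 (fun _ => 0) (j + i + 1) (G * sh j F) =
      sq1 (fun _ => 0) (j + 1) G * sh (j + 1) (F ^ 2) +
        G ^ 2 * sh j (sq1 (fun _ => 0) (i + 1) F) := by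
  have hP : dR (fun _ : Empty => 0) (j + i + 1) (G * sh j F) = 0 := by
    rw [dR_cup _ hG, hFd, map_zero, mul_zero, add_zero]
    have : dR (fun _ : Empty => 0) (j + 1) G = 0 := hGd
    rw [this, zero_mul]
  have h := alt_mulW (a := j) (b := i) (U := WW.te G) hG (Submodule.zero_mem _) (WW.te F)
  have e1 : shW j (WW.te F) = WW.te (sh (ι := Empty) j F) := by
    ext1
    · rfl
    · exact map_zero _
  have e2 : shW (j + 1) (WW.te F) = WW.te (sh (ι := Empty) (j + 1) F) := by
    ext1
    · rfl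
    · exact map_zero _
  have e3 : ∀ y : RR Empty, shW j (WW.V y) = WW.V (sh (ι := Empty) j y) := by
    intro y
    ext1
    · exact map_zero _
    · rfl
  rw [e1, mulW_te_te, alt_te _ _ hP, alt_te _ _ hGd, alt_te _ _ hFd, e2, e3, mulW_V_te, mulW_te_V,
    sign_V, ← V_add] at h
  have h1 := V_inj h
  rw [h1, map_pow]

end Pool.Agent.Work.MP_701abf_gt.Stab
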