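import Pool.Agent.Work.MP_701abf_gt.Stab.SqOne

/-!
Independence of `h_1` from `h_0` over the stable classes.
-/

open MvPolynomial

namespace Pool.Agent.Work.MP_701abf_gt.Stab

/-- The asymptotic Kuenneth formula, one family for all small degrees. -/
theorem kunnethE2 (p : ℕ) : ∃ L : ℕ, ∀ (a : ℕ) (N : ℤ), 0 < N →
    (2 : ℤ) ^ (a + L) ∣ N → ∃ (Z : Type) (_ : Fintype Z) (f : Fam Z N),
      ∀ M : ℤ, 0 ≤ M → M < 2 ^ a → ∀ p' ≤ p, ExK f Empty (fun _ => 0) p' 0 M := by
  obtain ⟨J, hJ⟩ := base_tower p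
  obtain ⟨L, hL⟩ := ex_lt (P := fun k L => KI k 0 Empty L) (fun k L L' h => KI.mono h) (p + 1)
    (fun k _ => KP k 0 Empty)
  refine ⟨L + J, fun a N hN hd => ?_⟩
  obtain ⟨c, hc⟩ := hd
  have hN' : N = 2 ^ (a + L) * (2 ^ J * c) := by
    rw [hc, show a + (L + J) = (a + L) + J by ring, pow_add, mul_assoc]
  have hc0 : 2 ^ J * c ≠ 0 := by
    intro h
    rw [h, mul_zero] at hN'
    omega
  obtain ⟨Z, hZ, f, hf⟩ := good_fam p hc0
  have hf0 : ∀ p' ≤ p, ExK (f.pw 0) Empty (fun _ => 0) p' 0 0 := by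
    intro p' hp'
    have h1 := hf p' hp'
    have h2 : ∀ (N' : ℤ) (f' : Fam Z N'), 2 ^ J * c = N' → f'.β = f.β → f'.z = f.z →
        ExK f' Empty (fun _ => 0) p' 0 0 := by
      intro N' f' e1 e2 e3
      subst e1
      obtain ⟨β', z', a, b, c⟩ := f'
      simp only at e2 e3
      subst e2
      subst e3
      exact h1
    refine h2 _ (f.pw 0) (by rw [pow_zero, one_mul]) rfl ?_
    funext j
    change f.z j ^ 2 ^ 0 = f.z j
    rw [pow_zero, pow_one]
  have hT := hJ Z (2 ^ J * c) f (dvd_mul_right _ _) hf0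
  subst hN'
  exact ⟨Z, hZ, f.pw (a + L), fun M hM0 hM p' hp' =>
    hL p' (by omega) Z _ f (hT.mono hp') a (a + L) M hM0 hM le_rfl⟩

/-- Decomposition of the classes of degree `M + N`. -/
lemma decomp {Z : Type} [Fintype Z] {N : ℤ} (f : Fam Z N) {s : ℕ} {M : ℤ}
    (hf : ExK f Empty (fun _ => 0) s 0 M) {x : RR Empty} (hx : x ∈ lev Empty (s + 1))
    (hw : WH wE x (0, M + N)) (hd : dE (s + 1) x = 0) :
    ∃ G ∈ lev Empty s, WH wE G (0, M + N) ∧ ∃ v : Z → RR Empty,
      (∀ j, v j ∈ lev Empty (s - f.β j) ∧ WH wE (v j) (0, M) ∧ dE (s - f.β j) (v j) = 0) ∧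
      x = dE s G + ∑ j, Stab.cup (f.z j) (s - f.β j) (v j) := by
  obtain ⟨⟨G, v⟩, ⟨hG, hv⟩, e⟩ := hf (x, fun _ => 0)
    ⟨⟨hx, hw⟩, fun j => Submodule.zero_mem _⟩ (by
      refine Prod.ext ?_ (funext fun j => ?_)
      · change dE (s + 1) x + ∑ j, Stab.cup (f.z j) (s + 1 - f.β j) (0 : RR Empty) = 0
        simp only [map_zero, Finset.sum_const_zero, add_zero]
        exact hd
      · change dE (s + 1 - f.β j) (0 : RR Empty) = 0
        exact map_zero _)
  have e1 : dE s G + ∑ j, Stab.cup (f.z j) (s - f.β j) (v j) = x := congrArg Prod.fst e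
  have e2 : ∀ j, dE (s - f.β j) (v j) = 0 := fun j => congrFun (congrArg Prod.snd e) j
  exact ⟨G, hG.1, hG.2, v, fun j => ⟨(hv j).1, (hv j).2, e2 j⟩, e1.symm⟩

lemma sh_sh (a b : ℕ) (z : RR Empty) : sh (ι := Empty) a (sh b z) = sh (b + a) z := by
  have : (sh (ι := Empty) a).comp (sh b) = sh (b + a) := by
    refine homE_eq fun k => ?_
    have h1 : mapPt ((sh (ι := Empty) a).comp (sh b)) (gG k) =
      mapPt (sh a) (mapPt (sh b) (gG k)) := rfl
    rw [h1, mapPt_sh, mapPt_sh, mapPt_sh]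
    congr 1
    ring
  exact congrArg (fun φ => φ z) this

/-- Product of a cocycle of index two with a cocycle. -/
lemma h_mul {h : RR Empty} {m M : ℤ} (hh : h ∈ lev Empty 2) (hw : WH wE h (0, m))
    (hd : dE 2 h = 0) {i : ℕ} {v : RR Empty} (hv : v ∈ lev Empty i) (hvw : WH wE v (0, M))
    (hvd : dE i v = 0) : h * sh 1 v ∈ lev Empty (i + 1) ∧ WH wE (h * sh 1 v) (0, m + M) ∧
      dE (i + 1) (h * sh 1 v) = 0 := by
  cases i with
  | zero =>
    have h0 : v = 0 := hv
    rw [h0, map_zero, mul_zero]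
    exact ⟨Submodule.zero_mem _, isWeightedHomogeneous_zero _ _ _, map_zero _⟩
  | succ i =>
    refine ⟨?_, ?_, ?_⟩
    · rw [mem_lev_succ, show i + 1 = 1 + i by ring, map_mul, sh_lev (ι := Empty) (a := 1) hv]
      congr 1
      exact (mem_lev_succ.1 (lev_mono (by omega) hh))
    · have := IsWeightedHomogeneous.mul hw
        ((sh_gr (fun _ : Empty => (1, 0)) (fun _ => 0) 1).map hvw)
      exact this
    · have h1 := dR_cup (ι := Empty) (fun _ => 0) (a := 1) (b := i) hh v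
      rw [hvd, map_zero, mul_zero, add_zero] at h1
      have h2 : dR (fun _ : Empty => 0) (1 + 1) h = 0 := hd
      rw [h2, zero_mul] at h1
      rw [show i + 1 + 1 = 1 + i + 1 by ring]
      exact h1

/-- The same without assuming that `v` is a cocycle. -/
lemma h_mul_d {h : RR Empty} (hh : h ∈ lev Empty 2) (hd : dE 2 h = 0) {i : ℕ} {v : RR Empty}
    (hv : v ∈ lev Empty i) : dE (i + 1) (h * sh 1 v) = h * sh 1 (dE i v) := by
  cases i with
  | zero =>
    have h0 : v = 0 := hv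
    rw [h0, map_zero, map_zero, map_zero, mul_zero, map_zero]
  | succ i =>
    have h1 := dR_cup (ι := Empty) (fun _ => 0) (a := 1) (b := i) hh v
    have h2 : dR (fun _ : Empty => 0) (1 + 1) h = 0 := hd
    rw [h2, zero_mul, zero_add] at h1
    rw [show i + 1 + 1 = 1 + i + 1 by ring]
    exact h1

/-- The class `h_1`. -/
noncomputable def h1c : RR Empty := h0c ^ 2

lemma h1c_lev : h1c ∈ lev Empty 2 := lev_pow h0c_lev two_ne_zero

lemma h1c_wh : WH wE h1c (0, 2) := by
  have h := h0c_wh.pow 2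
  have e : 2 • (((0 : ℤ × ℤ), (1 : ℤ)) : (ℤ × ℤ) × ℤ) = (0, 2) := by
    rw [Prod.smul_mk, smul_zero]
    rfl
  rw [e] at h
  exact h

lemma h1c_d : dE 2 h1c = 0 := by
  have h := dR_pow (κ := Empty) (fun _ => 0) 2 h0c 1
  rw [pow_one] at h
  change dR _ 2 (h0c ^ 2) = 0
  rw [h]
  have h2 : dR (fun _ : Empty => 0) 2 h0c = 0 := h0c_d
  rw [h2, zero_pow two_ne_zero]

lemma h1c_ne : h1c ≠ 0 := pow_ne_zero _ (X_ne_zero _)

/-- Products with `h_1` of stable classes are not divisible by `h_0`. -/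
theorem h1_indep (s : ℕ) : ∃ J : ℕ, ∀ N : ℤ, 0 < N → (2 : ℤ) ^ J ∣ N →
    ∀ x ∈ lev Empty (s + 1), WH wE x (0, N) → dE (s + 1) x = 0 →
    ∀ w ∈ lev Empty (s + 1), WH wE w (0, 1 + N) → dE (s + 1) w = 0 →
    (∃ F ∈ lev Empty (s + 1), WH wE F (0, 2 + N) ∧
      dE (s + 1) F = h1c * sh 1 x + h0c * sh 1 w) →
    ∃ G ∈ lev Empty s, WH wE G (0, N) ∧ dE s G = x := by
  obtain ⟨L, hL⟩ := kunnethE2 s
  refine ⟨2 + L, fun N hN hd x hx hxw hxd w hw hww hwd => ?_⟩
  rintro ⟨F, hF, hFw, eF⟩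
  obtain ⟨Z, _, f, hf⟩ := hL 2 N hN hd
  obtain ⟨G, hG, hGw, c, hc, ex⟩ := span_fam f (hf 0 le_rfl (by norm_num) s le_rfl) hx hxw hxd
  obtain ⟨G1, hG1, hG1w, v, hv, ew⟩ := decomp f (hf 1 (by norm_num) (by norm_num) s le_rfl) hw
    hww hwd
  set u : Z → RR Empty := fun j => c j • h1c + h0c * sh 1 (v j) with hu
  have hcs : ∀ j, c j ≠ 0 → s + 1 - f.β j = 2 := fun j hj => by
    have := hc j hj
    omega
  have hsub : ∀ j, s - f.β j ≠ 0 → s - f.β j + 1 = s + 1 - f.β j := fun j hj => by omega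
  have huv : ∀ j, h0c * sh 1 (v j) ∈ lev Empty (s + 1 - f.β j) ∧
      WH wE (h0c * sh 1 (v j)) (0, 2) ∧ dE (s + 1 - f.β j) (h0c * sh 1 (v j)) = 0 := by
    intro j
    by_cases h : s - f.β j = 0
    · have h1 := (hv j).1
      rw [h] at h1
      have h2 : v j = 0 := h1
      rw [h2, map_zero, mul_zero, map_zero]
      exact ⟨Submodule.zero_mem _, isWeightedHomogeneous_zero _ _ _, rfl⟩
    · have h1 := h_mul h0c_lev h0c_wh h0c_d (hv j).1 (hv j).2.1 (hv j).2.2
      rw [hsub j h] at h1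
      exact h1
  have huc : ∀ j, c j • h1c ∈ lev Empty (s + 1 - f.β j) ∧
      WH wE (c j • h1c) (0, 2) ∧ dE (s + 1 - f.β j) (c j • h1c) = 0 := by
    intro j
    by_cases h : c j = 0
    · rw [h, zero_smul, map_zero]
      exact ⟨Submodule.zero_mem _, isWeightedHomogeneous_zero _ _ _, rfl⟩
    · rw [hcs j h, map_smul, h1c_d, smul_zero]
      exact ⟨Submodule.smul_mem _ _ h1c_lev,
        (weightedHomogeneousSubmodule (ZMod 2) wE _).smul_mem _ h1c_wh, rfl⟩
  have hcup : ∀ j, Stab.cup (f.z j) (s + 1 - f.β j) (u j) =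
      c j • (h1c * sh 1 (f.z j)) + h0c * sh 1 (Stab.cup (f.z j) (s - f.β j) (v j)) := by
    intro j
    rw [hu]
    simp only
    rw [map_add]
    congr 1
    · by_cases h : c j = 0
      · rw [h, zero_smul, zero_smul, map_zero]
      · rw [hcs j h, map_smul, cup_apply]
    · by_cases h : s - f.β j = 0
      · have h1 := (hv j).1
        rw [h] at h1
        have h2 : v j = 0 := h1
        rw [h2, map_zero, mul_zero, map_zero, map_zero, map_zero, mul_zero]
      · rw [cup_apply, cup_apply, map_mul, sh_sh, mul_assoc]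
        have e3 : s - f.β j - 1 + 1 = s + 1 - f.β j - 1 := by omega
        rw [e3]
  have hm0 := h_mul_d h1c_lev h1c_d hG
  have hm1 := h_mul_d h0c_lev h0c_d hG1
  have hG' : h1c * sh 1 G ∈ lev Empty (s + 1) ∧ WH wE (h1c * sh 1 G) (0, 2 + N) := by
    rcases Nat.eq_zero_or_pos s with h | h
    · subst h
      have h2 : G = 0 := hG
      rw [h2, map_zero, mul_zero]
      exact ⟨Submodule.zero_mem _, isWeightedHomogeneous_zero _ _ _⟩
    · obtain ⟨n, rfl⟩ : ∃ n, s = n + 1 := ⟨s - 1, by omega⟩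
      refine ⟨?_, ?_⟩
      · rw [mem_lev_succ, show n + 1 = 1 + n by ring, map_mul, sh_lev (ι := Empty) (a := 1) hG]
        congr 1
        exact (mem_lev_succ.1 (lev_mono (by omega) h1c_lev))
      · exact IsWeightedHomogeneous.mul h1c_wh
          ((sh_gr (fun _ : Empty => (1, 0)) (fun _ => 0) 1).map hGw)
  have hG1' : h0c * sh 1 G1 ∈ lev Empty (s + 1) ∧ WH wE (h0c * sh 1 G1) (0, 2 + N) := by
    rcases Nat.eq_zero_or_pos s with h | h
    · subst h
      have h2 : G1 = 0 := hG1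
      rw [h2, map_zero, mul_zero]
      exact ⟨Submodule.zero_mem _, isWeightedHomogeneous_zero _ _ _⟩
    · obtain ⟨n, rfl⟩ : ∃ n, s = n + 1 := ⟨s - 1, by omega⟩
      refine ⟨?_, ?_⟩
      · rw [mem_lev_succ, show n + 1 = 1 + n by ring, map_mul, sh_lev (ι := Empty) (a := 1) hG1]
        congr 1
        exact (mem_lev_succ.1 (lev_mono (by omega) h0c_lev))
      · have h3 := IsWeightedHomogeneous.mul h0c_wh
          ((sh_gr (fun _ : Empty => (1, 0)) (fun _ => 0) 1).map hG1w)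
        have e : (((0, 1) : (ℤ × ℤ) × ℤ) + id (0, 1 + N)) = (0, 2 + N) := by
          rw [id, Prod.mk_add_mk, add_zero]
          congr 1
          ring
        rw [e] at h3
        exact h3
  obtain ⟨⟨H, y⟩, ⟨hH, hy⟩, e⟩ := hf 2 (by norm_num) (by norm_num) s le_rfl
    (F + (h1c * sh 1 G + h0c * sh 1 G1), u)
    ⟨⟨Submodule.add_mem _ hF (Submodule.add_mem _ hG'.1 hG1'.1),
      hFw.add (hG'.2.add hG1'.2)⟩,
      fun j => ⟨Submodule.add_mem _ (huc j).1 (huv j).1, (huc j).2.1.add (huv j).2.1⟩⟩ (by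
      refine Prod.ext ?_ (funext fun j => ?_)
      · change dE (s + 1) (F + (h1c * sh 1 G + h0c * sh 1 G1)) +
          ∑ j, Stab.cup (f.z j) (s + 1 - f.β j) (u j) = 0
        rw [Finset.sum_congr rfl fun j _ => hcup j, Finset.sum_add_distrib, map_add, map_add, eF,
          hm0, hm1]
        have e1 : h1c * sh (ι := Empty) 1 x = h1c * sh 1 (dE s G) +
            ∑ j, c j • (h1c * sh 1 (f.z j)) := by
          conv_lhs => rw [ex]
          rw [map_add, map_sum, mul_add, Finset.mul_sum]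
          congr 1
          refine Finset.sum_congr rfl fun j _ => ?_
          rw [map_smul, mul_smul_comm]
        have e2 : h0c * sh (ι := Empty) 1 w = h0c * sh 1 (dE s G1) +
            ∑ j, h0c * sh 1 (Stab.cup (f.z j) (s - f.β j) (v j)) := by
          conv_lhs => rw [ew]
          rw [map_add, map_sum, mul_add, Finset.mul_sum]
        rw [e1, e2]
        have a1 := add_self2 (h1c * sh (ι := Empty) 1 (dE s G))
        have a2 := add_self2 (∑ j, c j • (h1c * sh (ι := Empty) 1 (f.z j)))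
        have a3 := add_self2 (h0c * sh (ι := Empty) 1 (dE s G1))
        have a4 := add_self2 (∑ j, h0c * sh (ι := Empty) 1 (Stab.cup (f.z j) (s - f.β j) (v j)))
        calc _ = (h1c * sh (ι := Empty) 1 (dE s G) + h1c * sh 1 (dE s G)) +
              (∑ j, c j • (h1c * sh (ι := Empty) 1 (f.z j)) +
                ∑ j, c j • (h1c * sh (ι := Empty) 1 (f.z j))) +
              (h0c * sh (ι := Empty) 1 (dE s G1) + h0c * sh 1 (dE s G1)) +
              (∑ j, h0c * sh (ι := Empty) 1 (Stab.cup (f.z j) (s - f.β j) (v j)) +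
                ∑ j, h0c * sh (ι := Empty) 1 (Stab.cup (f.z j) (s - f.β j) (v j))) := by abel
          _ = 0 := by rw [a1, a2, a3, a4]; simp
      · change dE (s + 1 - f.β j) (u j) = 0
        rw [hu]
        simp only
        rw [map_add, (huc j).2.2, (huv j).2.2, add_zero])
  have e2 : ∀ j, dE (s - f.β j) (y j) = u j := fun j => congrFun (congrArg Prod.snd e) j
  have hc0 : ∀ j, c j = 0 := by
    intro j
    by_contra h
    have h2 := hc j h
    have h3 : s - f.β j = 1 := by omega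
    have h4 := (hv j).1
    rw [h3] at h4
    have h5 : v j = 0 := lev_one h4 (hv j).2.1 one_ne_zero
    have h6 : y j ∈ lev Empty (s - f.β j) := (hy j).1
    rw [h3] at h6
    have h7 : y j = 0 := lev_one h6 (hy j).2 two_ne_zero
    have h8 := e2 j
    rw [h7, map_zero, hu] at h8
    simp only [h5, map_zero, mul_zero, add_zero] at h8
    rcases smul_eq_zero.1 h8.symm with h9 | h9
    · exact h h9
    · exact h1c_ne h9
  refine ⟨G, hG, hGw, ?_⟩
  rw [ex]
  simp only [hc0, zero_smul, Finset.sum_const_zero, add_zero]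

end Pool.Agent.Work.MP_701abf_gt.Stab
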