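import Pool.Agent.Work.MP_701abf_gt.Stab.Van

/-!
The recursion for cones, and the stability theorem.
-/

open MvPolynomial

namespace Pool.Agent.Work.MP_701abf_gt.Stab

section shq

variable {ι : Type*}

/-- Place a cochain without coefficients on the slots from `c` on. -/
noncomputable def shQ (c : ℕ) : RR Empty →ₐ[ZMod 2] RQ ι :=
  ev (fun a => gQ (a + c)) (fun e => e.elim)

lemma shQ_inl (c : ℕ) (v : ℕ × ℕ) :
    shQ (ι := ι) c (X (Sum.inl v)) = X (Sum.inl (v.1 + c, v.2)) := by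
  unfold shQ; rw [ev_inl]; rfl

lemma mapPt_shQ (c a : ℕ) : mapPt (shQ (ι := ι) c) (gG a) = gQ (a + c) := by
  unfold shQ; exact mapPt_ev _ _ _

lemma shQ_face_le {j a : ℕ} (h : j ≤ a) (z : RR Empty) :
    faceQ (ι := ι) j (shQ a z) = shQ (a + 1) z := by
  have : (faceQ (ι := ι) j).comp (shQ a) = shQ (a + 1) := by
    refine homE_eq fun k => ?_
    have h1 : mapPt ((faceQ (ι := ι) j).comp (shQ a)) (gG k) =
      mapPt (faceQ j) (mapPt (shQ a) (gG k)) := rfl
    rw [h1, mapPt_shQ, mapPt_shQ, mapPt_faceQ]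
    cases j with
    | zero => simp only [fg]; rfl
    | succ j =>
      simp only [fg]
      rw [if_neg (by omega), if_neg (by omega)]
      rfl
  exact congrArg (fun φ => φ z) this

lemma shQ_face_gt (a i : ℕ) (z : RR Empty) :
    faceQ (ι := ι) (a + 1 + i) (shQ a z) = shQ a (face (fun _ => 0) (i + 1) z) := by
  have : (faceQ (ι := ι) (a + 1 + i)).comp (shQ a) =
      (shQ a).comp (face (fun _ => 0) (i + 1)) := by
    refine homE_eq fun k => ?_
    have h1 : mapPt ((faceQ (ι := ι) (a + 1 + i)).comp (shQ a)) (gG k) =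
      mapPt (faceQ (a + 1 + i)) (mapPt (shQ a) (gG k)) := rfl
    have h2 : mapPt ((shQ (ι := ι) a).comp (face (fun _ => 0) (i + 1))) (gG k) =
      mapPt (shQ a) (mapPt (face (fun _ => 0) (i + 1)) (gG k)) := rfl
    rw [h1, h2, mapPt_shQ, mapPt_faceQ, mapPt_face, mapPt_fg]
    simp only [mapPt_shQ]
    rw [show a + 1 + i = (a + i) + 1 by ring]
    simp only [fg]
    rcases lt_trichotomy k i with h | h | h
    · rw [if_pos (by omega), if_pos h]
    · subst h
      rw [if_neg (by omega), if_pos (by omega), if_neg (by omega), if_pos rfl]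
      congr 2 <;> ring
    · rw [if_neg (by omega), if_neg (by omega), if_neg (by omega), if_neg (by omega)]
      congr 1
      ring
  exact congrArg (fun φ => φ z) this

lemma shQ_zero_face (a : ℕ) (z : RR Empty) :
    shQ (ι := ι) a (face (fun _ => 0) 0 z) = shQ (a + 1) z := by
  have : (shQ (ι := ι) a).comp (face (fun _ => 0) 0) = shQ (a + 1) := by
    refine homE_eq fun k => ?_
    have h2 : mapPt ((shQ (ι := ι) a).comp (face (fun _ => 0) 0)) (gG k) =
      mapPt (shQ a) (mapPt (face (fun _ => 0) 0) (gG k)) := rfl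
    rw [h2, mapPt_face, mapPt_shQ, mapPt_fg]
    simp only [mapPt_shQ, fg]
    congr 1
    ring
  exact congrArg (fun φ => φ z) this

/-- High faces do nothing. -/
lemma faceQ_high {n j : ℕ} (h : n ≤ j) {F : RQ ι} (hF : F ∈ levQ ι (n + 1)) :
    faceQ (j + 1) F = F := by
  have h1 : faceQ (j + 1) F = evQ gQ tQ wQ F := by
    unfold faceQ
    refine evQ_prj (fun a ha => ?_) (fun a ha => ?_) hF
    · simp only [fg]
      rw [if_pos (by omega)]
    · simp only [ft]
      rw [if_pos (by omega)]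
  rw [h1, evQ_generic]
  rfl

/-- The Leibniz rule. -/
lemma dQ_cup {a b : ℕ} {u : RQ ι} (hu : u ∈ levQ ι (a + 1)) (z : RR Empty) :
    dQ (a + b + 1) (u * shQ a z) =
      dQ (a + 1) u * shQ (a + 1) z + u * shQ a (dE (b + 1) z) := by
  have e1 : dQ (a + b + 1) (u * shQ a z) =
      (∑ j ∈ Finset.range (a + 1), faceQ j u) * shQ (a + 1) z +
        u * ∑ i ∈ Finset.range (b + 1), shQ a (face (fun _ => 0) (i + 1) z) := by
    rw [dQ_apply, show a + b + 1 + 1 = (a + 1) + (b + 1) by ring, Finset.sum_range_add,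
      Finset.sum_mul, Finset.mul_sum]
    congr 1
    · refine Finset.sum_congr rfl fun j hj => ?_
      have := Finset.mem_range.1 hj
      rw [map_mul, shQ_face_le (by omega)]
    · refine Finset.sum_congr rfl fun i _ => ?_
      rw [map_mul, shQ_face_gt, show a + 1 + i = (a + i) + 1 by ring,
        faceQ_high (by omega) hu]
  have e2 : dQ (a + 1) u = (∑ j ∈ Finset.range (a + 1), faceQ j u) + u := by
    rw [dQ_apply, Finset.sum_range_succ, faceQ_high le_rfl hu]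
  have e3 : shQ (ι := ι) a (dE (b + 1) z) =
      (∑ i ∈ Finset.range (b + 1), shQ a (face (fun _ => 0) (i + 1) z)) + shQ (a + 1) z := by
    rw [dR_apply, Finset.sum_range_succ', map_add, map_sum, shQ_zero_face]
  rw [e1, e2, e3]
  have e4 := add_self2 (u * shQ (ι := ι) (a + 1) z)
  calc _ = (∑ j ∈ Finset.range (a + 1), faceQ j u) * shQ (a + 1) z +
        u * ∑ i ∈ Finset.range (b + 1), shQ a (face (fun _ => 0) (i + 1) z) +
        (u * shQ (a + 1) z + u * shQ (a + 1) z) := by rw [e4, add_zero]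
    _ = _ := by ring

lemma shQ_lev {a b : ℕ} {z : RR Empty} (hz : z ∈ lev Empty (b + 1)) :
    prjQ (a + b) (shQ (ι := ι) a z) = shQ a z := by
  have : (prjQ (a + b)).comp (shQ (ι := ι) a) = (shQ a).comp (prj b) := by
    refine algHom_ext fun v => ?_
    rw [AlgHom.comp_apply, AlgHom.comp_apply]
    rcases v with v | v
    · rw [shQ_inl]
      unfold prjQ
      by_cases hv : v.1 < b
      · rw [prj_inl_lt hv, evQ_g, if_pos (by simp only; omega), shQ_inl]
        rfl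
      · rw [prj_inl_ge hv, evQ_g, if_neg (by simp only; omega), map_zero,
          Pt.co_one_ne (by omega)]
    · exact v.1.elim
  have h2 := congrArg (fun φ => φ z) this
  simp only [AlgHom.comp_apply, mem_lev_succ.1 hz] at h2
  exact h2

lemma levQ_mul {n : ℕ} {F G : RQ ι} (hF : prjQ n F = F) (hG : prjQ n G = G) :
    F * G ∈ levQ ι (n + 1) := by
  rw [mem_levQ_succ]
  rw [map_mul, hF, hG]

lemma prjQ_of_lt {n m : ℕ} (h : n ≤ m) {F : RQ ι} (hF : F ∈ levQ ι (n + 1)) :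
    prjQ m F = F := by
  have h1 : prjQ m F = evQ gQ tQ wQ F := by
    unfold prjQ
    refine evQ_prj (fun a ha => ?_) (fun a ha => ?_) hF
    · rw [if_pos (by omega)]
    · funext i
      rw [if_pos (by omega)]
  rw [h1, evQ_generic]
  rfl

/-- Multiplication by a cochain placed after the slots of a cochain of index `a`. -/
noncomputable def cupQ (z : RR Empty) (a : ℕ) : RQ ι →ₗ[ZMod 2] RQ ι :=
  LinearMap.mulRight (ZMod 2) (shQ (a - 1) z)

lemma cupQ_apply (z : RR Empty) (a : ℕ) (u : RQ ι) : cupQ z a u = u * shQ (a - 1) z := rfl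

lemma cupQ_lev {a b : ℕ} {u : RQ ι} (hu : u ∈ levQ ι a) {z : RR Empty}
    (hz : z ∈ lev Empty (b + 2)) : cupQ z a u ∈ levQ ι (a + b + 1) := by
  rw [cupQ_apply]
  cases a with
  | zero =>
    rw [mem_levQ_zero] at hu
    rw [hu, zero_mul]
    exact Submodule.zero_mem _
  | succ a =>
    rw [show a + 1 - 1 = a from rfl]
    have h1 : a + 1 + b + 1 = (a + (b + 1)) + 1 := by ring
    rw [h1]
    exact levQ_mul (prjQ_of_lt (by omega) hu) (shQ_lev hz)

lemma cupQ_d {a b : ℕ} {u : RQ ι} (hu : u ∈ levQ ι a) {z : RR Empty}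
    (hc : dE (b + 2) z = 0) : dQ (a + b + 1) (cupQ z a u) = cupQ z (a + 1) (dQ a u) := by
  rw [cupQ_apply, cupQ_apply]
  cases a with
  | zero =>
    rw [mem_levQ_zero] at hu
    rw [hu]
    simp
  | succ a =>
    rw [show a + 1 - 1 = a from rfl, show a + 1 + 1 - 1 = a + 1 from rfl]
    have h1 : a + 1 + b + 1 = (a + (b + 1)) + 1 := by ring
    rw [h1, dQ_cup hu, hc, map_zero, mul_zero, add_zero]

lemma shQ_gr (a : ℕ) : Gr wE (wtQ ι) id (shQ (ι := ι) a).toLinearMap := by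
  refine Gr.of_alg' fun v => ?_
  rcases v with v | v
  · rw [shQ_inl]
    exact isWeightedHomogeneous_X _ _ _
  · exact v.1.elim

lemma cupQ_wh {a : ℕ} {u : RQ ι} {κ : ℤ × ℤ} {M N : ℤ}
    (hu : WH (wtQ ι) u (κ, M)) {z : RR Empty} (hz : WH wE z (0, N)) :
    WH (wtQ ι) (cupQ z a u) (κ, M + N) := by
  have h := IsWeightedHomogeneous.mul hu ((shQ_gr (a - 1)).map hz)
  have e : ((κ, M) : (ℤ × ℤ) × ℤ) + id (0, N) = (κ, M + N) := by
    rw [id, Prod.mk_add_mk, add_zero]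
  rw [e] at h
  exact h

lemma TQ_sh (c : ℕ) (z : RR Empty) : TQ (ι := ι) (sh c z) = shQ c (z ^ 2) := by
  have : (TQ (ι := ι)).comp (sh c) = (shQ c).comp (expand 2) := by
    refine algHom_ext fun v => ?_
    rw [AlgHom.comp_apply, AlgHom.comp_apply]
    rcases v with v | v
    · rw [sh_inl, TQ_g, expand_X, map_pow, shQ_inl]
    · exact v.1.elim
  have h := congrArg (fun φ => φ z) this
  simp only [AlgHom.comp_apply] at h
  rw [h, expand_zmod]

lemma TQ_cup (z : RR Empty) (a : ℕ) (y : RR (Option ι)) :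
    TQ (cup z a y) = cupQ (z ^ 2) a (TQ y) := by
  rw [cup_apply, cupQ_apply, map_mul, TQ_sh]

lemma DQ_cup (z : RR Empty) (a : ℕ) (x : RQ ι) :
    DQ (cupQ (z ^ 2) a x) = cupQ (z ^ 2) a (DQ x) := by
  rw [cupQ_apply, cupQ_apply, Derivation.leibniz]
  have : DQ (shQ (ι := ι) (a - 1) (z ^ 2)) = 0 := by
    rw [map_pow]
    exact der_pow2 _ _ 0
  rw [this, smul_zero, zero_add, smul_eq_mul, mul_comm]

lemma EQ_cup (z : RR Empty) (a : ℕ) (u : RR ι) : EQ (cup z a u) = cupQ z a (EQ u) := by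
  rw [cup_apply, cupQ_apply, map_mul]
  congr 1
  have : (EQ (ι := ι)).comp (sh (a - 1)) = shQ (a - 1) := by
    refine algHom_ext fun v => ?_
    rw [AlgHom.comp_apply]
    rcases v with v | v
    · rw [sh_inl, shQ_inl]
      unfold EQ
      rw [ev_inl]
      rfl
    · exact v.1.elim
  exact congrArg (fun φ => φ z) this

lemma EQ'_cup (z : RR Empty) (a : ℕ) (u : RQ ι) : EQ' (cupQ z a u) = cup z a (EQ' u) := by
  rw [cup_apply, cupQ_apply, map_mul]
  congr 1
  have : (EQ' (ι := ι)).comp (shQ (a - 1)) = sh (a - 1) := by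
    refine algHom_ext fun v => ?_
    rw [AlgHom.comp_apply]
    rcases v with v | v
    · rw [sh_inl, shQ_inl]
      unfold EQ'
      rw [evQ_g]
      rfl
    · exact v.1.elim
  exact congrArg (fun φ => φ z) this

lemma dR_sq {κ : Type*} (τ : κ → ℕ) (n : ℕ) (F : RR κ) : dR τ n (F ^ 2) = dR τ n F ^ 2 := by
  rw [dR_apply, dR_apply]
  have h := sum_pow' (R := RR κ) 1 (Finset.range (n + 1)) (fun j => face τ j F)
  simp only [pow_one] at h
  rw [h]
  exact Finset.sum_congr rfl fun j _ => map_pow _ _ _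

lemma lev_pow {κ : Type*} {n : ℕ} {F : RR κ} (hF : F ∈ lev κ n) {k : ℕ} (hk : k ≠ 0) :
    F ^ k ∈ lev κ n := by
  cases n with
  | zero =>
    rw [mem_lev_zero] at hF ⊢
    rw [hF, zero_pow hk]
  | succ n =>
    rw [mem_lev_succ] at hF ⊢
    rw [map_pow, hF]

variable {Z : Type*} {N : ℤ}

/-- The squares of a family. -/
noncomputable def Fam.sq (f : Fam Z N) : Fam Z (2 * N) where
  β := f.β
  z j := f.z j ^ 2
  lev j := lev_pow (f.lev j) two_ne_zero
  wh j := by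
    have h := (f.wh j).pow 2
    have e : 2 • (((0 : ℤ × ℤ), N) : (ℤ × ℤ) × ℤ) = (0, 2 * N) := by
      rw [Prod.smul_mk, smul_zero, nsmul_eq_mul]
      rfl
    rw [e] at h
    exact h
  cl j := by
    change dR _ _ (f.z j ^ 2) = 0
    rw [dR_sq]
    have := f.cl j
    change dR _ _ (f.z j) = 0 at this
    rw [this, zero_pow two_ne_zero]

lemma Fam.hcup (f : Fam Z N) (ι : Type*) (k M : ℤ) :
    HCup f.β (hs ι k (M + 2 * N)) (hs ι k M) (fun j => cupQ (f.z j ^ 2))
      (fun j => Stab.cup (f.z j)) where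
  mem q j a x hx := ⟨cupQ_lev hx.1 (f.sq.lev j), cupQ_wh hx.2 (f.sq.wh j)⟩
  d q j a x hx := cupQ_d hx.1 (f.sq.cl j)
  D j a x := DQ_cup _ _ _
  memC q j a x hx := by
    refine ⟨cup_lev hx.1 (f.lev j), ?_⟩
    change WH (wtT ι) (x * sh (a - 1) (f.z j)) ((k, q), M + 2 * N)
    have h1 := wh_comp (f := fT) ((sh_gr (cO (ι := ι)) (fun _ => 0) (a - 1)).map (f.wh j))
    have h2 := IsWeightedHomogeneous.mul hx.2 h1
    have e : ((((k, q), M) : (ℤ × ℤ) × ℤ) + fT (id (0, N))) = ((k, q), M + 2 * N) := by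
      rw [fT_apply]
      simp
    rw [e] at h2
    exact h2
  T j a x := TQ_cup _ _ _

variable [Fintype Z]

/-- The cone of comparison data. -/
noncomputable def hk (f : Fam Z N) (ι : Type*) (k M : ℤ) :
    HSD (RQ ι × (Z → RQ ι)) (RR (Option ι) × (Z → RR (Option ι))) :=
  HSD.cone f.β (hs ι k (M + 2 * N)) (hs ι k M) _ _ (f.hcup ι k M)

/-- Exactness of the cone in total degree `n`, low degree `M`. -/
def ExK (f : Fam Z N) (ι : Type*) (τ : ι → ℕ) (p : ℕ) (n M : ℤ) : Prop :=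
  (ck f (fun _ : ι => (1, 0)) τ (n, 0) M).Exact p

lemma ck_d (f : Fam Z N) (c : ι → ℤ × ℤ) (τ : ι → ℕ) (κ : ℤ × ℤ) (M : ℤ) (n : ℕ) :
    (ck f c τ κ M).d n = coneD f.β (dR τ) (dR τ) (fun j => Stab.cup (f.z j)) n := rfl

lemma exCK (f : Fam Z N) {k M q : ℤ} {n : ℕ}
    (h : ∀ M', 2 * M' - q = M → (ck f (cO (ι := ι)) (fun _ => 0) (k, q) M').Exact n) :
    (hk f ι k M).ExC q n := by
  intro y hy hd
  by_cases hM : ∃ M', 2 * M' - q = M
  · obtain ⟨M', hM⟩ := hM
    have e : fT ((k, q), M') = ((k, q), M) := by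
      rw [fT_apply]
      simp only
      rw [hM]
    have e2 : fT ((k, q), M' + N) = ((k, q), M + 2 * N) := by
      rw [fT_apply]
      simp only
      rw [← hM]
      congr 1
      ring
    obtain ⟨z, hz, ez⟩ := h M' hM y
      ⟨⟨hy.1.1, (wtT_iff e2).1 hy.1.2⟩, fun j => ⟨(hy.2 j).1, (wtT_iff e).1 (hy.2 j).2⟩⟩ hd
    exact ⟨z, ⟨⟨hz.1.1, (wtT_iff e2).2 hz.1.2⟩,
      fun j => ⟨(hz.2 j).1, (wtT_iff e).2 (hz.2 j).2⟩⟩, ez⟩
  · have hy0 : y = 0 := by
      refine Prod.ext ?_ (funext fun j => ?_)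
      · refine wtT_none (fun m' hm' => hM ⟨m'.2 - N, ?_⟩) hy.1.2
        rw [fT_apply, Prod.mk.injEq] at hm'
        obtain ⟨h1, h2⟩ := hm'
        rw [h1] at h2
        simp only at h2
        linarith
      · refine wtT_none (fun m' hm' => hM ⟨m'.2, ?_⟩) (hy.2 j).2
        rw [fT_apply, Prod.mk.injEq] at hm'
        obtain ⟨h1, h2⟩ := hm'
        rw [h1] at h2
        exact h2
    refine ⟨0, Submodule.zero_mem _, ?_⟩
    rw [map_zero, hy0]

lemma rO_cup (z : RR Empty) (a : ℕ) (u : RR (Option ι)) : rO (cup z a u) = cup z a (rO u) := by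
  rw [cup_apply, cup_apply, map_mul]
  congr 1
  have : (rO (ι := ι)).comp (sh (a - 1)) = sh (a - 1) := by
    refine algHom_ext fun v => ?_
    rw [AlgHom.comp_apply]
    rcases v with v | v
    · rw [sh_inl, sh_inl]
      unfold rO
      rw [ev_inl]
      rfl
    · exact v.1.elim
  exact congrArg (fun φ => φ z) this

lemma jO_cup (z : RR Empty) (a : ℕ) (u : RR ι) : jO (cup z a u) = cup z a (jO u) := by
  rw [cup_apply, cup_apply, map_mul]
  congr 1
  have : (jO (ι := ι)).comp (sh (a - 1)) = sh (a - 1) := by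
    refine algHom_ext fun v => ?_
    rw [AlgHom.comp_apply]
    rcases v with v | v
    · rw [sh_inl, sh_inl]
      unfold jO
      rw [ev_inl]
      rfl
    · exact v.1.elim
  exact congrArg (fun φ => φ z) this

lemma optK_zero (f : Fam Z N) {k M : ℤ} {n : ℕ} (h : ExK f ι (fun _ => 0) n k M) :
    (ck f (cO (ι := ι)) (fun _ => 0) (k, 0) M).Exact n := by
  rintro ⟨F, u⟩ ⟨⟨hF1, hF2⟩, hu⟩ hd
  have hd1 : dR (fun _ => 0) (n + 1) F +
      ∑ j, Stab.cup (f.z j) (n + 1 - f.β j) (u j) = 0 := congrArg Prod.fst hd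
  have hd2 : ∀ j, dR (fun _ => 0) (n + 1 - f.β j) (u j) = 0 :=
    fun j => congrFun (congrArg Prod.snd hd) j
  obtain ⟨⟨G, v⟩, ⟨hG, hv⟩, e⟩ := h (rO F, fun j => rO (u j))
    ⟨⟨rO_lev hF1, rO_gr.map hF2⟩, fun j => ⟨rO_lev (hu j).1, rO_gr.map (hu j).2⟩⟩ (by
      refine Prod.ext ?_ (funext fun j => ?_)
      · change dR (fun _ => 0) (n + 1) (rO F) +
          ∑ j, Stab.cup (f.z j) (n + 1 - f.β j) (rO (u j)) = 0
        simp only [← rO_cup]
        rw [rO_d, ← map_sum, ← map_add, hd1, map_zero]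
      · change dR (fun _ => 0) (n + 1 - f.β j) (rO (u j)) = 0
        rw [rO_d, hd2, map_zero])
  have e1 : dR (fun _ => 0) n G + ∑ j, Stab.cup (f.z j) (n - f.β j) (v j) = rO F :=
    congrArg Prod.fst e
  have e2 : ∀ j, dR (fun _ => 0) (n - f.β j) (v j) = rO (u j) :=
    fun j => congrFun (congrArg Prod.snd e) j
  refine ⟨(jO G, fun j => jO (v j)), ⟨⟨jO_lev hG.1, jO_gr.map hG.2⟩,
    fun j => ⟨jO_lev (hv j).1, jO_gr.map (hv j).2⟩⟩, ?_⟩
  refine Prod.ext ?_ (funext fun j => ?_)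
  · change dR (fun _ => 0) n (jO G) + ∑ j, Stab.cup (f.z j) (n - f.β j) (jO (v j)) = F
    simp only [← jO_cup]
    rw [jO_d, ← map_sum, ← map_add, e1, jO_rO hF2]
  · change dR (fun _ => 0) (n - f.β j) (jO (v j)) = u j
    rw [jO_d, e2, jO_rO (hu j).2]

/-- The recursion for cones. -/
theorem exK_rec {N' : ℤ} (f : Fam Z N) (f' : Fam Z N') (hN : N' = 2 * N) (hβ : f'.β = f.β)
    (hz : f'.z = fun j => f.z j ^ 2) {k M : ℤ} {p : ℕ}
    (h0 : ∀ M', 2 * M' = M → ExK f ι (fun _ => 0) p k M')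
    (h : ∀ q : ℕ, 1 ≤ q → q ≤ p → ∀ M', 2 * M' - (q : ℤ) = M →
      ExK f (Option ι) (fun _ => 0) (p - q) (k + q) M') :
    ExK f' ι (fun _ => 1) p k M := by
  subst hN
  have hf : f' = f.sq := by
    obtain ⟨β', z', a, b, c⟩ := f'
    simp only at hβ hz
    subst hβ
    subst hz
    rfl
  subst hf
  rintro ⟨F, u⟩ ⟨⟨hF1, hF2⟩, hu⟩ hd
  have hd1 : dR (fun _ => 1) (p + 1) F +
      ∑ j, Stab.cup (f.z j ^ 2) (p + 1 - f.β j) (u j) = 0 := congrArg Prod.fst hd
  have hd2 : ∀ j, dR (fun _ => 1) (p + 1 - f.β j) (u j) = 0 :=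
    fun j => congrFun (congrArg Prod.snd hd) j
  obtain ⟨⟨E, v⟩, ⟨hE, hv⟩, e⟩ := (hk f ι k M).vanish p (fun i hi => by
      rcases Nat.eq_zero_or_pos i with h1 | h1
      · subst h1
        exact exCK f fun M' hM' => optK_zero f (h0 M' (by simpa using hM'))
      · exact exCK f fun M' hM' => exactK_of_total f cO_sum (h i h1 hi M' hM'))
    (EQ F, fun j => EQ (u j))
    ⟨⟨EQ_lev hF1, EQ_gr.map hF2⟩, fun j => ⟨EQ_lev (hu j).1, EQ_gr.map (hu j).2⟩⟩ (by
      refine Prod.ext ?_ (funext fun j => ?_)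
      · change dQ (p + 1) (EQ F) + ∑ j, cupQ (f.z j ^ 2) (p + 1 - f.β j) (EQ (u j)) = 0
        simp only [← EQ_cup]
        rw [EQ_d, ← map_sum, ← map_add, hd1, map_zero]
      · change dQ (p + 1 - f.β j) (EQ (u j)) = 0
        rw [EQ_d, hd2, map_zero])
  have e1 : dQ p E + ∑ j, cupQ (f.z j ^ 2) (p - f.β j) (v j) = EQ F :=
    congrArg Prod.fst e
  have e2 : ∀ j, dQ (p - f.β j) (v j) = EQ (u j) :=
    fun j => congrFun (congrArg Prod.snd e) j
  refine ⟨(EQ' E, fun j => EQ' (v j)), ⟨⟨EQ'_lev hE.1, EQ'_gr.map hE.2⟩,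
    fun j => ⟨EQ'_lev (hv j).1, EQ'_gr.map (hv j).2⟩⟩, ?_⟩
  refine Prod.ext ?_ (funext fun j => ?_)
  · change dR (fun _ => 1) p (EQ' E) + ∑ j, Stab.cup (f.z j ^ 2) (p - f.β j) (EQ' (v j)) = F
    simp only [← EQ'_cup]
    rw [EQ'_d, ← map_sum, ← map_add, e1, EQ'_EQ]
  · change dR (fun _ => 1) (p - f.β j) (EQ' (v j)) = u j
    rw [EQ'_d, e2, EQ'_EQ]

/-! ### Invariant coordinates -/

lemma wh_zero_of_neg {τ : ι → ℕ} {n m : ℤ} (hn : n < 0) {x : RR ι}
    (hx : WH (wt (fun _ => (1, 0)) τ) x ((n, 0), m)) : x = 0 :=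
  wh_neg (q := (AddMonoidHom.fst ℤ ℤ).comp (AddMonoidHom.fst (ℤ × ℤ) ℤ))
    (wt_fst_nonneg τ) hx hn

lemma ExK.neg {f : Fam Z N} {τ : ι → ℕ} {p : ℕ} {n M : ℤ} (h : n < 0) : ExK f ι τ p n M := by
  intro x hx _
  have h0 : x = 0 := Prod.ext (wh_zero_of_neg h hx.1.2)
    (funext fun j => wh_zero_of_neg h (hx.2 j).2)
  exact ⟨0, Submodule.zero_mem _, by rw [map_zero, h0]⟩

section chain

variable [DecidableEq ι]

lemma ExK.step {f : Fam Z N} {B : Finset ι} {b : ι} (h : b ∉ B) {p : ℕ} {n M : ℤ}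
    (h1 : ExK f ι (tB B) p (n - 1) (M - 1)) (h2 : ExK f ι (tB (insert b B)) p n M) :
    ExK f ι (tB B) p n M := by
  rw [← tw_tB h] at h2
  refine (sesK f (fun _ => (1, 0)) (tB B) b (n, 0) (n - 1, 0) M (M - 1) ?_ ?_).exact h1 h2
  · simp
  · have : tB B b = 0 := by simp [tB, h]
    rw [this, pow_zero]
    ring

lemma ExK.chain [Fintype ι] {f : Fam Z N} {p : ℕ} (c : ℕ) : ∀ (B : Finset ι), Bᶜ.card = c →
    ∀ (n : ℕ) (M : ℤ), (∀ k : ℕ, k ≤ n → ExK f ι (fun _ => 1) p k (M - (n - k))) →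
    ExK f ι (tB B) p n M := by
  induction c with
  | zero =>
    intro B hB n M h
    have : B = Finset.univ := by
      rw [Finset.card_eq_zero, Finset.compl_eq_empty_iff] at hB
      exact hB
    rw [this, tB_univ]
    have := h n le_rfl
    rwa [sub_self, sub_zero] at this
  | succ c ihc =>
    intro B hB n
    obtain ⟨b, hb⟩ : ∃ b, b ∉ B := by
      by_contra hcon
      push Not at hcon
      have : B = Finset.univ := Finset.eq_univ_of_forall hcon
      rw [this] at hB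
      simp at hB
    have hB' : (insert b B)ᶜ.card = c := by
      rw [Finset.card_compl, Finset.card_insert_of_notMem hb]
      rw [Finset.card_compl] at hB
      omega
    induction n with
    | zero =>
      intro M h
      exact ExK.step hb (ExK.neg (by norm_num)) (ihc _ hB' 0 M h)
    | succ n ihn =>
      intro M h
      refine ExK.step hb ?_ (ihc _ hB' (n + 1) M h)
      have := ihn (M - 1) (fun k hk => by
        have := h k (by omega)
        have e : M - 1 - ((n : ℤ) - k) = M - (((n + 1 : ℕ) : ℤ) - k) := by push_cast; ring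
        rw [e]
        exact this)
      have e : (((n + 1 : ℕ) : ℤ) - 1) = n := by push_cast; ring
      rw [e]
      exact this

lemma ExK.pieces [Fintype ι] {f : Fam Z N} {p n : ℕ} {M : ℤ}
    (h : ∀ k : ℕ, k ≤ n → ExK f ι (fun _ => 1) p k (M - (n - k))) :
    ExK f ι (fun _ => 0) p n M := by
  rw [← tB_empty]
  exact ExK.chain _ ∅ rfl n M h

end chain

/-- Elements of internal degree less than the total degree vanish. -/
lemma wh_zero_of_lt {n m : ℤ} (h : m < n) {x : RR ι}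
    (hx : WH (wt (fun _ => (1, 0)) (fun _ => 0)) x ((n, 0), m)) : x = 0 := by
  refine wh_neg (q := (AddMonoidHom.snd (ℤ × ℤ) ℤ) -
    (AddMonoidHom.fst ℤ ℤ).comp (AddMonoidHom.fst (ℤ × ℤ) ℤ)) (fun v => ?_) hx (by
      change m - n < 0
      omega)
  rcases v with v | v
  · change 0 ≤ (2 : ℤ) ^ (v.2 + 1) - 1 - 0
    have : (1 : ℤ) ≤ 2 ^ (v.2 + 1) := one_le_pow₀ (by norm_num)
    omega
  · change 0 ≤ (2 : ℤ) ^ (v.2 + 0) - 1
    have : (1 : ℤ) ≤ 2 ^ (v.2 + 0) := one_le_pow₀ (by norm_num)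
    omega

lemma ExT.low {p : ℕ} {n m : ℤ} (h : m < n) : ExT ι (fun _ => 0) p n m := by
  intro x hx _
  exact ⟨0, Submodule.zero_mem _, by rw [map_zero, wh_zero_of_lt h hx.2]⟩

lemma ExK.low {f : Fam Z N} {p : ℕ} {n M : ℤ} (h : M < n)
    (hT : ExT ι (fun _ => 0) p n (M + N)) : ExK f ι (fun _ => 0) p n M := by
  rintro ⟨F, u⟩ ⟨hF, hu⟩ hd
  have hu0 : ∀ j, u j = 0 := fun j => wh_zero_of_lt h (hu j).2
  have hd1 : dR (fun _ => 0) (p + 1) F +
      ∑ j, Stab.cup (f.z j) (p + 1 - f.β j) (u j) = 0 := congrArg Prod.fst hd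
  have hd2 : dR (fun _ => 0) (p + 1) F = 0 := by
    rw [← hd1]
    simp only [hu0, map_zero, Finset.sum_const_zero, add_zero]
  obtain ⟨G, hG, e⟩ := hT F hF hd2
  refine ⟨(G, fun _ => 0), ⟨hG, fun j => Submodule.zero_mem _⟩, ?_⟩
  refine Prod.ext ?_ (funext fun j => ?_)
  · change dR (fun _ => 0) p G + ∑ j, Stab.cup (f.z j) (p - f.β j) (0 : RR ι) = F
    simp only [map_zero, Finset.sum_const_zero, add_zero]
    exact e
  · change dR (fun _ => 0) (p - f.β j) (0 : RR ι) = u j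
    rw [map_zero, hu0]

/-- Retraction to the ring without coefficients. -/
noncomputable def rE : RR ι →ₐ[ZMod 2] RR Empty := ev gG (fun _ _ => 0)

lemma rE_d (n : ℕ) (F : RR ι) : dR (fun _ => 0) n (rE F) = rE (dR (fun _ => 0) n F) := by
  refine subst_d (fun j b i => ?_) n F
  rw [map_zero]
  cases j with
  | zero =>
    simp only [fw]
    rw [act_zero']
  | succ j => rfl

lemma sh0_d (n : ℕ) (F : RR Empty) :
    dR (fun _ => 0) n (sh (ι := ι) 0 F) = sh 0 (dE n F) :=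
  subst_d (τ := fun _ : Empty => 0) (τ' := fun _ : ι => 0) (W := fun e => e.elim)
    (fun _ b _ => b.elim) n F

lemma rE_lev {n : ℕ} {F : RR ι} (hF : F ∈ lev ι n) : rE F ∈ lev Empty n :=
  subst_lev (fun _ _ _ => map_zero _) hF

lemma sh0_lev {n : ℕ} {F : RR Empty} (hF : F ∈ lev Empty n) : sh (ι := ι) 0 F ∈ lev ι n := by
  refine hom_lev (φ := sh (ι := ι) 0) (fun v => ?_) (fun n v => ?_) hF
  · rw [sh_inl]
    rfl
  · exact v.1.elim

lemma rE_gr (τ : ι → ℕ) : Gr (wt (fun _ => (1, 0)) τ) wE id (rE (ι := ι)).toLinearMap :=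
  subst_gr fun _ _ => isWeightedHomogeneous_zero _ _ _

lemma sh0_rE {τ : ι → ℕ} {m : ℤ} {F : RR ι} (hF : WH (wt (fun _ => (1, 0)) τ) F (0, m)) :
    sh 0 (rE F) = F := by
  have := hom_congr_wt (w := wt (fun _ : ι => (1, 0)) τ) (φ := (sh (ι := ι) 0).comp rE)
    (ψ := AlgHom.id _ _) (q := (AddMonoidHom.fst ℤ ℤ).comp (AddMonoidHom.fst (ℤ × ℤ) ℤ))
    (wt_fst_nonneg τ) (fun v hv => ?_) hF rfl
  · exact this
  · rw [AlgHom.comp_apply]
    unfold rE
    rcases v with v | v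
    · rw [ev_inl]
      change sh 0 (X (Sum.inl v)) = _
      rw [sh_inl]
      rfl
    · exact absurd hv one_ne_zero

lemma rE_cup (z : RR Empty) (a : ℕ) (u : RR ι) : rE (cup z a u) = cup z a (rE u) := by
  rw [cup_apply, cup_apply, map_mul]
  congr 1
  have : (rE (ι := ι)).comp (sh (a - 1)) = sh (a - 1) := by
    refine algHom_ext fun v => ?_
    rw [AlgHom.comp_apply]
    rcases v with v | v
    · rw [sh_inl, sh_inl]
      unfold rE
      rw [ev_inl]
      rfl
    · exact v.1.elim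
  exact congrArg (fun φ => φ z) this

lemma sh0_cup (z : RR Empty) (a : ℕ) (u : RR Empty) :
    sh (ι := ι) 0 (cup z a u) = cup z a (sh 0 u) := by
  rw [cup_apply, cup_apply, map_mul]
  congr 1
  have : (sh (ι := ι) 0).comp (sh (a - 1)) = sh (a - 1) := by
    refine algHom_ext fun v => ?_
    rw [AlgHom.comp_apply]
    rcases v with v | v
    · rw [sh_inl, sh_inl, sh_inl]
      rfl
    · exact v.1.elim
  exact congrArg (fun φ => φ z) this

/-- Degree zero coefficients do not matter. -/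
lemma ExK.of_empty {f : Fam Z N} {p : ℕ} {M : ℤ} (h : ExK f Empty (fun _ => 0) p 0 M) :
    ExK f ι (fun _ => 0) p 0 M := by
  rintro ⟨F, u⟩ ⟨⟨hF1, hF2⟩, hu⟩ hd
  have hd1 : dR (fun _ => 0) (p + 1) F +
      ∑ j, Stab.cup (f.z j) (p + 1 - f.β j) (u j) = 0 := congrArg Prod.fst hd
  have hd2 : ∀ j, dR (fun _ => 0) (p + 1 - f.β j) (u j) = 0 :=
    fun j => congrFun (congrArg Prod.snd hd) j
  obtain ⟨⟨G, v⟩, ⟨hG, hv⟩, e⟩ := h (rE F, fun j => rE (u j))
    ⟨⟨rE_lev hF1, (rE_gr _).map hF2⟩, fun j => ⟨rE_lev (hu j).1, (rE_gr _).map (hu j).2⟩⟩ (by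
      refine Prod.ext ?_ (funext fun j => ?_)
      · change dR (fun _ => 0) (p + 1) (rE F) +
          ∑ j, Stab.cup (f.z j) (p + 1 - f.β j) (rE (u j)) = 0
        simp only [← rE_cup]
        rw [rE_d, ← map_sum, ← map_add, hd1, map_zero]
      · change dR (fun _ => 0) (p + 1 - f.β j) (rE (u j)) = 0
        rw [rE_d, hd2, map_zero])
  have e1 : dR (fun _ => 0) p G + ∑ j, Stab.cup (f.z j) (p - f.β j) (v j) = rE F :=
    congrArg Prod.fst e
  have e2 : ∀ j, dR (fun _ => 0) (p - f.β j) (v j) = rE (u j) :=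
    fun j => congrFun (congrArg Prod.snd e) j
  refine ⟨(sh 0 G, fun j => sh 0 (v j)), ⟨⟨sh0_lev hG.1, (sh_gr _ _ 0).map hG.2⟩,
    fun j => ⟨sh0_lev (hv j).1, (sh_gr _ _ 0).map (hv j).2⟩⟩, ?_⟩
  refine Prod.ext ?_ (funext fun j => ?_)
  · change dR (fun _ => 0) p (sh 0 G) + ∑ j, Stab.cup (f.z j) (p - f.β j) (sh 0 (v j)) = F
    simp only [← sh0_cup]
    rw [sh0_d, ← map_sum, ← map_add, e1]
    exact sh0_rE hF2
  · change dR (fun _ => 0) (p - f.β j) (sh 0 (v j)) = u j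
    rw [sh0_d, e2]
    exact sh0_rE (hu j).2

end shq

end Pool.Agent.Work.MP_701abf_gt.Stab
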