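import Pool.Agent.Work.MP_701abf_gt.Stab.HS

/-!
Abstract complexes of vector spaces over the field with two elements, short exact sequences and
mapping cones of a family of maps.
-/

namespace Pool.Agent.Work.MP_701abf_gt.Stab

section cx

/-- A complex, with index shifted by one and nothing in index `0`. -/
structure Cx (M : Type*) [AddCommGroup M] [Module (ZMod 2) M] where
  gr : ℕ → Submodule (ZMod 2) M
  d : ℕ → M →ₗ[ZMod 2] M
  gr_zero : ∀ x ∈ gr 0, x = 0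
  d_mem : ∀ n, ∀ x ∈ gr n, d n x ∈ gr (n + 1)
  dd : ∀ n, ∀ x ∈ gr n, d (n + 1) (d n x) = 0

variable {L M N L' M' N' : Type*} [AddCommGroup L] [Module (ZMod 2) L]
  [AddCommGroup M] [Module (ZMod 2) M] [AddCommGroup N] [Module (ZMod 2) N]
  [AddCommGroup L'] [Module (ZMod 2) L']
  [AddCommGroup M'] [Module (ZMod 2) M'] [AddCommGroup N'] [Module (ZMod 2) N']

/-- Exactness. -/
def Cx.Exact (X : Cx M) (n : ℕ) : Prop :=
  ∀ x ∈ X.gr (n + 1), X.d (n + 1) x = 0 → ∃ y ∈ X.gr n, X.d n y = x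

/-- Short exact sequences of complexes. -/
structure Ses (A : Cx L) (B : Cx M) (C : Cx N) where
  i : L →ₗ[ZMod 2] M
  r : M →ₗ[ZMod 2] N
  s : N →ₗ[ZMod 2] M
  i_mem : ∀ n, ∀ x ∈ A.gr n, i x ∈ B.gr n
  r_mem : ∀ n, ∀ x ∈ B.gr n, r x ∈ C.gr n
  s_mem : ∀ n, ∀ x ∈ C.gr n, s x ∈ B.gr n
  i_inj : ∀ x, i x = 0 → x = 0
  i_d : ∀ n x, i (A.d n x) = B.d n (i x)
  r_d : ∀ n x, r (B.d n x) = C.d n (r x)
  r_s : ∀ x, r (s x) = x
  ker : ∀ n, ∀ x ∈ B.gr n, r x = 0 → ∃ y ∈ A.gr n, i y = x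

/-- Lifting a bounding cochain. -/
lemma Ses.lift {A : Cx L} {B : Cx M} {C : Cx N} (S : Ses A B C) {n : ℕ} (hA : A.Exact n)
    {x : M} (hx : x ∈ B.gr (n + 1)) (hd : B.d (n + 1) x = 0) (hr : ∃ y ∈ C.gr n, C.d n y = S.r x) :
    ∃ y ∈ B.gr n, B.d n y = x := by
  obtain ⟨y, hy, e⟩ := hr
  have h1 : S.r (x + B.d n (S.s y)) = 0 := by
    rw [map_add, S.r_d, S.r_s, e, add_self2]
  obtain ⟨x', hx', e'⟩ := S.ker (n + 1) _
    (Submodule.add_mem _ hx (B.d_mem _ _ (S.s_mem _ _ hy))) h1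
  have h2 : A.d (n + 1) x' = 0 := by
    refine S.i_inj _ ?_
    rw [S.i_d, e', map_add, hd, B.dd _ _ (S.s_mem _ _ hy), add_zero]
  obtain ⟨y', hy', e2⟩ := hA x' hx' h2
  refine ⟨S.i y' + S.s y, Submodule.add_mem _ (S.i_mem _ _ hy') (S.s_mem _ _ hy), ?_⟩
  rw [map_add, ← S.i_d, e2, e', add_assoc, add_self2, add_zero]

lemma Ses.exact {A : Cx L} {B : Cx M} {C : Cx N} (S : Ses A B C) {n : ℕ} (hA : A.Exact n)
    (hC : C.Exact n) : B.Exact n := by
  intro x hx hd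
  refine S.lift hA hx hd (hC _ (S.r_mem _ _ hx) ?_)
  rw [← S.r_d, hd, map_zero]

end cx

section cone

variable {Z : Type*} [Fintype Z] (β : Z → ℕ)
variable {M M' : Type*} [AddCommGroup M] [Module (ZMod 2) M] [AddCommGroup M'] [Module (ZMod 2) M']

/-- Compatibility of a family of maps of degree `β j + 1`. -/
structure Cup (X : Cx M) (X' : Cx M') (φ : Z → ℕ → M' →ₗ[ZMod 2] M) : Prop where
  mem : ∀ j a, ∀ x ∈ X'.gr a, φ j a x ∈ X.gr (a + β j + 1)
  d : ∀ j a, ∀ x ∈ X'.gr a, X.d (a + β j + 1) (φ j a x) = φ j (a + 1) (X'.d a x)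

/-- The graded pieces of the cone. -/
def coneGr (g : ℕ → Submodule (ZMod 2) M) (g' : ℕ → Submodule (ZMod 2) M') (n : ℕ) :
    Submodule (ZMod 2) (M × (Z → M')) where
  carrier := {x | x.1 ∈ g n ∧ ∀ j, x.2 j ∈ g' (n - β j)}
  zero_mem' := ⟨Submodule.zero_mem _, fun _ => Submodule.zero_mem _⟩
  add_mem' := fun h h' => ⟨Submodule.add_mem _ h.1 h'.1, fun j => Submodule.add_mem _ (h.2 j) (h'.2 j)⟩
  smul_mem' := fun c _ h => ⟨Submodule.smul_mem _ c h.1, fun j => Submodule.smul_mem _ c (h.2 j)⟩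

omit [Fintype Z] in
lemma mem_coneGr {g : ℕ → Submodule (ZMod 2) M} {g' : ℕ → Submodule (ZMod 2) M'} {n : ℕ}
    {x : M × (Z → M')} :
    x ∈ coneGr β g g' n ↔ x.1 ∈ g n ∧ ∀ j, x.2 j ∈ g' (n - β j) := Iff.rfl

/-- The differential of the cone. -/
def coneD (d : ℕ → M →ₗ[ZMod 2] M) (d' : ℕ → M' →ₗ[ZMod 2] M') (φ : Z → ℕ → M' →ₗ[ZMod 2] M)
    (n : ℕ) : M × (Z → M') →ₗ[ZMod 2] M × (Z → M') where
  toFun x := (d n x.1 + ∑ j, φ j (n - β j) (x.2 j), fun j => d' (n - β j) (x.2 j))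
  map_add' x y := by
    ext
    · simp only [Prod.fst_add, Prod.snd_add, Pi.add_apply, map_add, Finset.sum_add_distrib]
      abel
    · simp only [Prod.snd_add, Pi.add_apply, map_add]
  map_smul' c x := by
    ext
    · simp only [Prod.smul_fst, Prod.smul_snd, Pi.smul_apply, map_smul, RingHom.id_apply,
        smul_add, Finset.smul_sum]
    · simp only [Prod.smul_snd, Pi.smul_apply, map_smul, RingHom.id_apply]

lemma coneD_fst (d : ℕ → M →ₗ[ZMod 2] M) (d' : ℕ → M' →ₗ[ZMod 2] M')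
    (φ : Z → ℕ → M' →ₗ[ZMod 2] M) (n : ℕ) (x : M × (Z → M')) :
    (coneD β d d' φ n x).1 = d n x.1 + ∑ j, φ j (n - β j) (x.2 j) := rfl

lemma coneD_snd (d : ℕ → M →ₗ[ZMod 2] M) (d' : ℕ → M' →ₗ[ZMod 2] M')
    (φ : Z → ℕ → M' →ₗ[ZMod 2] M) (n : ℕ) (x : M × (Z → M')) (j : Z) :
    (coneD β d d' φ n x).2 j = d' (n - β j) (x.2 j) := rfl

variable {β} {X : Cx M} {X' : Cx M'} {φ : Z → ℕ → M' →ₗ[ZMod 2] M}

omit [Fintype Z] in
/-- Membership of the images, uniformly. -/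
lemma Cup.mem' (h : Cup β X X' φ) {n : ℕ} {j : Z} {x : M'} (hx : x ∈ X'.gr (n - β j)) :
    φ j (n - β j) x ∈ X.gr (n + 1) := by
  by_cases hn : β j ≤ n
  · have := h.mem j _ x hx
    rwa [Nat.sub_add_cancel hn] at this
  · rw [Nat.sub_eq_zero_of_le (by omega)] at hx
    rw [X'.gr_zero x hx, map_zero]
    exact Submodule.zero_mem _

omit [Fintype Z] in
lemma Cup.d' (h : Cup β X X' φ) {n : ℕ} {j : Z} {x : M'} (hx : x ∈ X'.gr (n - β j)) :
    X.d (n + 1) (φ j (n - β j) x) = φ j (n + 1 - β j) (X'.d (n - β j) x) := by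
  by_cases hn : β j ≤ n
  · have := h.d j _ x hx
    rw [Nat.sub_add_cancel hn] at this
    rw [Nat.succ_sub hn]
    exact this
  · rw [Nat.sub_eq_zero_of_le (by omega)] at hx
    rw [X'.gr_zero x hx, map_zero, map_zero, map_zero, map_zero]

lemma Cx.d_mem' (X' : Cx M') {n : ℕ} {b : ℕ} {x : M'} (hx : x ∈ X'.gr (n - b)) :
    X'.d (n - b) x ∈ X'.gr (n + 1 - b) := by
  by_cases hn : b ≤ n
  · rw [Nat.succ_sub hn]
    exact X'.d_mem _ _ hx
  · rw [Nat.sub_eq_zero_of_le (by omega)] at hx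
    rw [X'.gr_zero x hx, map_zero]
    exact Submodule.zero_mem _

lemma Cx.dd' (X' : Cx M') {n : ℕ} {b : ℕ} {x : M'} (hx : x ∈ X'.gr (n - b)) :
    X'.d (n + 1 - b) (X'.d (n - b) x) = 0 := by
  by_cases hn : b ≤ n
  · rw [Nat.succ_sub hn]
    exact X'.dd _ _ hx
  · rw [Nat.sub_eq_zero_of_le (by omega)] at hx
    rw [X'.gr_zero x hx, map_zero, map_zero]

/-- The cone. -/
def Cx.cone (β : Z → ℕ) (X : Cx M) (X' : Cx M') (φ : Z → ℕ → M' →ₗ[ZMod 2] M)
    (h : Cup β X X' φ) : Cx (M × (Z → M')) where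
  gr := coneGr β X.gr X'.gr
  d := coneD β X.d X'.d φ
  gr_zero := by
    intro x hx
    refine Prod.ext (X.gr_zero _ hx.1) (funext fun j => ?_)
    have := hx.2 j
    rw [Nat.zero_sub] at this
    exact X'.gr_zero _ this
  d_mem := by
    intro n x hx
    refine ⟨?_, fun j => ?_⟩
    · rw [coneD_fst]
      exact Submodule.add_mem _ (X.d_mem _ _ hx.1) (Submodule.sum_mem _ fun j _ => h.mem' (hx.2 j))
    · rw [coneD_snd]
      exact X'.d_mem' (hx.2 j)
  dd := by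
    intro n x hx
    refine Prod.ext ?_ (funext fun j => ?_)
    · rw [coneD_fst, coneD_fst, map_add, X.dd _ _ hx.1, zero_add, map_sum,
        ← Finset.sum_add_distrib]
      refine Finset.sum_eq_zero fun j _ => ?_
      rw [coneD_snd, h.d' (hx.2 j), add_self2]
    · rw [coneD_snd, coneD_snd]
      exact X'.dd' (hx.2 j)

/-- Cones of short exact sequences. -/
def Ses.cone {A B C : Type*} [AddCommGroup A] [Module (ZMod 2) A] [AddCommGroup B]
    [Module (ZMod 2) B] [AddCommGroup C] [Module (ZMod 2) C] {A' B' C' : Type*}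
    [AddCommGroup A'] [Module (ZMod 2) A'] [AddCommGroup B']
    [Module (ZMod 2) B'] [AddCommGroup C'] [Module (ZMod 2) C']
    {XA : Cx A} {XB : Cx B} {XC : Cx C} {XA' : Cx A'} {XB' : Cx B'} {XC' : Cx C'}
    {φA : Z → ℕ → A' →ₗ[ZMod 2] A} {φB : Z → ℕ → B' →ₗ[ZMod 2] B}
    {φC : Z → ℕ → C' →ₗ[ZMod 2] C} (hA : Cup β XA XA' φA) (hB : Cup β XB XB' φB)
    (hC : Cup β XC XC' φC) (S : Ses XA XB XC) (S' : Ses XA' XB' XC')
    (hi : ∀ j n x, S.i (φA j n x) = φB j n (S'.i x))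
    (hr : ∀ j n x, S.r (φB j n x) = φC j n (S'.r x)) :
    Ses (XA.cone β XA' φA hA) (XB.cone β XB' φB hB) (XC.cone β XC' φC hC) where
  i := S.i.prodMap (LinearMap.pi fun j => S'.i.comp (LinearMap.proj j))
  r := S.r.prodMap (LinearMap.pi fun j => S'.r.comp (LinearMap.proj j))
  s := S.s.prodMap (LinearMap.pi fun j => S'.s.comp (LinearMap.proj j))
  i_mem n x hx := ⟨S.i_mem _ _ hx.1, fun j => S'.i_mem _ _ (hx.2 j)⟩
  r_mem n x hx := ⟨S.r_mem _ _ hx.1, fun j => S'.r_mem _ _ (hx.2 j)⟩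
  s_mem n x hx := ⟨S.s_mem _ _ hx.1, fun j => S'.s_mem _ _ (hx.2 j)⟩
  i_inj x hx := Prod.ext (S.i_inj _ (congrArg Prod.fst hx))
    (funext fun j => S'.i_inj _ (congrFun (congrArg Prod.snd hx) j))
  i_d n x := by
    refine Prod.ext ?_ (funext fun j => ?_)
    · change S.i (XA.d n x.1 + ∑ j, φA j (n - β j) (x.2 j)) =
        XB.d n (S.i x.1) + ∑ j, φB j (n - β j) (S'.i (x.2 j))
      rw [map_add, S.i_d, map_sum]
      congr 1
      exact Finset.sum_congr rfl fun j _ => hi _ _ _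
    · exact S'.i_d _ _
  r_d n x := by
    refine Prod.ext ?_ (funext fun j => ?_)
    · change S.r (XB.d n x.1 + ∑ j, φB j (n - β j) (x.2 j)) =
        XC.d n (S.r x.1) + ∑ j, φC j (n - β j) (S'.r (x.2 j))
      rw [map_add, S.r_d, map_sum]
      congr 1
      exact Finset.sum_congr rfl fun j _ => hr _ _ _
    · exact S'.r_d _ _
  r_s x := Prod.ext (S.r_s _) (funext fun j => S'.r_s _)
  ker n x hx h := by
    obtain ⟨y, hy, e⟩ := S.ker n _ hx.1 (congrArg Prod.fst h)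
    have h2 : ∀ j, ∃ v ∈ XA'.gr (n - β j), S'.i v = x.2 j := fun j =>
      S'.ker _ _ (hx.2 j) (congrFun (congrArg Prod.snd h) j)
    choose v hv ev using h2
    exact ⟨(y, v), ⟨hy, hv⟩, Prod.ext e (funext ev)⟩

end cone

section hsdcone

variable {Z : Type*} [Fintype Z]
variable {Q C : Type*} [AddCommGroup Q] [Module (ZMod 2) Q] [AddCommGroup C] [Module (ZMod 2) C]

/-- Compatibility of families of maps with comparison data. -/
structure HCup (β : Z → ℕ) (S S' : HSD Q C) (φ : Z → ℕ → Q →ₗ[ZMod 2] Q)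
    (ψ : Z → ℕ → C →ₗ[ZMod 2] C) : Prop where
  mem : ∀ q j a, ∀ x ∈ S'.gr q a, φ j a x ∈ S.gr q (a + β j + 1)
  d : ∀ q j a, ∀ x ∈ S'.gr q a, S.δ (a + β j + 1) (φ j a x) = φ j (a + 1) (S'.δ a x)
  D : ∀ j a x, S.D (φ j a x) = φ j a (S'.D x)
  memC : ∀ q j a, ∀ x ∈ S'.grC q a, ψ j a x ∈ S.grC q (a + β j + 1)
  T : ∀ j a x, S.T (ψ j a x) = φ j a (S'.T x)

variable {β : Z → ℕ} {S S' : HSD Q C} {φ : Z → ℕ → Q →ₗ[ZMod 2] Q}
  {ψ : Z → ℕ → C →ₗ[ZMod 2] C}

omit [Fintype Z] in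
lemma HCup.mem' (h : HCup β S S' φ ψ) {q : ℤ} {n : ℕ} {j : Z} {x : Q}
    (hx : x ∈ S'.gr q (n - β j)) : φ j (n - β j) x ∈ S.gr q (n + 1) := by
  by_cases hn : β j ≤ n
  · have := h.mem q j _ x hx
    rwa [Nat.sub_add_cancel hn] at this
  · rw [Nat.sub_eq_zero_of_le (by omega)] at hx
    rw [S'.gr_zero q x hx, map_zero]
    exact Submodule.zero_mem _

omit [Fintype Z] in
lemma HCup.memC' (h : HCup β S S' φ ψ) {q : ℤ} {n : ℕ} {j : Z} {x : C}
    (hx : x ∈ S'.grC q (n - β j)) : ψ j (n - β j) x ∈ S.grC q (n + 1) := by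
  by_cases hn : β j ≤ n
  · have := h.memC q j _ x hx
    rwa [Nat.sub_add_cancel hn] at this
  · rw [Nat.sub_eq_zero_of_le (by omega)] at hx
    rw [S'.grC_zero q x hx, map_zero]
    exact Submodule.zero_mem _

omit [Fintype Z] in
lemma HCup.d' (h : HCup β S S' φ ψ) {q : ℤ} {n : ℕ} {j : Z} {x : Q}
    (hx : x ∈ S'.gr q (n - β j)) :
    S.δ (n + 1) (φ j (n - β j) x) = φ j (n + 1 - β j) (S'.δ (n - β j) x) := by
  by_cases hn : β j ≤ n
  · have := h.d q j _ x hx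
    rw [Nat.sub_add_cancel hn] at this
    rw [Nat.succ_sub hn]
    exact this
  · rw [Nat.sub_eq_zero_of_le (by omega)] at hx
    rw [S'.gr_zero q x hx, map_zero, map_zero, map_zero, map_zero]

lemma HSD.δ_mem' (S' : HSD Q C) {q : ℤ} {n b : ℕ} {x : Q} (hx : x ∈ S'.gr q (n - b)) :
    S'.δ (n - b) x ∈ S'.gr q (n + 1 - b) := by
  by_cases hn : b ≤ n
  · rw [Nat.succ_sub hn]
    exact S'.δ_mem _ _ _ hx
  · rw [Nat.sub_eq_zero_of_le (by omega)] at hx
    rw [S'.gr_zero q x hx, map_zero]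
    exact Submodule.zero_mem _

lemma HSD.dC_mem' (S' : HSD Q C) {q : ℤ} {n b : ℕ} {x : C} (hx : x ∈ S'.grC q (n - b)) :
    S'.dC (n - b) x ∈ S'.grC q (n + 1 - b) := by
  by_cases hn : b ≤ n
  · rw [Nat.succ_sub hn]
    exact S'.dC_mem _ _ _ hx
  · rw [Nat.sub_eq_zero_of_le (by omega)] at hx
    rw [S'.grC_zero q x hx, map_zero]
    exact Submodule.zero_mem _

/-- The cone of comparison data. -/
def HSD.cone (β : Z → ℕ) (S S' : HSD Q C) (φ : Z → ℕ → Q →ₗ[ZMod 2] Q)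
    (ψ : Z → ℕ → C →ₗ[ZMod 2] C) (h : HCup β S S' φ ψ) :
    HSD (Q × (Z → Q)) (C × (Z → C)) where
  D := S.D.prodMap (LinearMap.pi fun j => S'.D.comp (LinearMap.proj j))
  δ := coneD β S.δ S'.δ φ
  gr q := coneGr β (S.gr q) (S'.gr q)
  dC := coneD β S.dC S'.dC ψ
  grC q := coneGr β (S.grC q) (S'.grC q)
  T := S.T.prodMap (LinearMap.pi fun j => S'.T.comp (LinearMap.proj j))
  gr_zero q x hx := by
    refine Prod.ext (S.gr_zero _ _ hx.1) (funext fun j => ?_)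
    have := hx.2 j
    rw [Nat.zero_sub] at this
    exact S'.gr_zero _ _ this
  grC_zero q x hx := by
    refine Prod.ext (S.grC_zero _ _ hx.1) (funext fun j => ?_)
    have := hx.2 j
    rw [Nat.zero_sub] at this
    exact S'.grC_zero _ _ this
  gr_neg q n x hq hx := Prod.ext (S.gr_neg _ _ _ hq hx.1)
    (funext fun j => S'.gr_neg _ _ _ hq (hx.2 j))
  D_mem q n x hx := ⟨S.D_mem _ _ _ hx.1, fun j => S'.D_mem _ _ _ (hx.2 j)⟩
  δ_mem q n x hx := by
    refine ⟨?_, fun j => ?_⟩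
    · rw [coneD_fst]
      exact Submodule.add_mem _ (S.δ_mem _ _ _ hx.1)
        (Submodule.sum_mem _ fun j _ => h.mem' (hx.2 j))
    · rw [coneD_snd]
      exact S'.δ_mem' (hx.2 j)
  dC_mem q n x hx := by
    refine ⟨?_, fun j => ?_⟩
    · rw [coneD_fst]
      exact Submodule.add_mem _ (S.dC_mem _ _ _ hx.1)
        (Submodule.sum_mem _ fun j _ => h.memC' (hx.2 j))
    · rw [coneD_snd]
      exact S'.dC_mem' (hx.2 j)
  T_mem q n x hx := ⟨S.T_mem _ _ _ hx.1, fun j => S'.T_mem _ _ _ (hx.2 j)⟩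
  DD x := Prod.ext (S.DD _) (funext fun j => S'.DD _)
  δδ q n x hx := by
    refine Prod.ext ?_ (funext fun j => ?_)
    · rw [coneD_fst, coneD_fst, map_add, S.δδ _ _ _ hx.1, zero_add, map_sum,
        ← Finset.sum_add_distrib]
      refine Finset.sum_eq_zero fun j _ => ?_
      rw [coneD_snd, h.d' (hx.2 j), add_self2]
    · rw [coneD_snd, coneD_snd]
      by_cases hn : β j ≤ n
      · rw [Nat.succ_sub hn]
        exact S'.δδ _ _ _ (hx.2 j)
      · have := hx.2 j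
        rw [Nat.sub_eq_zero_of_le (by omega)] at this
        rw [S'.gr_zero _ _ this, map_zero, map_zero]
        rfl
  Dδ n x := by
    refine Prod.ext ?_ (funext fun j => ?_)
    · change S.D (S.δ n x.1 + ∑ j, φ j (n - β j) (x.2 j)) =
        S.δ n (S.D x.1) + ∑ j, φ j (n - β j) (S'.D (x.2 j))
      rw [map_add, S.Dδ, map_sum]
      congr 1
      exact Finset.sum_congr rfl fun j _ => h.D _ _ _
    · exact S'.Dδ _ _
  DT x := Prod.ext (S.DT _) (funext fun j => S'.DT _)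
  col q n x hq hx hd := by
    have h1 : ∀ j, ∃ v ∈ S'.gr q (n - β j), S'.δ (n - β j) v = x.2 j := by
      intro j
      have h2 := hx.2 j
      have h3 : S'.δ (n + 1 - β j) (x.2 j) = 0 := congrFun (congrArg Prod.snd hd) j
      by_cases hn : β j ≤ n
      · rw [Nat.succ_sub hn] at h2 h3
        exact S'.col q _ _ hq h2 h3
      · rw [Nat.sub_eq_zero_of_le (by omega)] at h2
        refine ⟨0, Submodule.zero_mem _, ?_⟩
        rw [S'.gr_zero _ _ h2, map_zero]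
    choose v hv ev using h1
    have h4 : S.δ (n + 1) x.1 + ∑ j, φ j (n + 1 - β j) (x.2 j) = 0 := congrArg Prod.fst hd
    have h5 : S.δ (n + 1) (x.1 + ∑ j, φ j (n - β j) (v j)) = 0 := by
      rw [map_add, map_sum, ← h4]
      congr 1
      refine Finset.sum_congr rfl fun j _ => ?_
      rw [h.d' (hv j), ev]
    obtain ⟨w, hw, ew⟩ := S.col q n _ hq (Submodule.add_mem _ hx.1
      (Submodule.sum_mem _ fun j _ => h.mem' (hv j))) h5
    refine ⟨(w, v), ⟨hw, hv⟩, Prod.ext ?_ (funext ev)⟩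
    rw [coneD_fst]
    simp only
    rw [ew, add_add_self2]
  poin q n x hx hd := by
    obtain ⟨y, hy, v, hv, e⟩ := S.poin q n _ hx.1 (congrArg Prod.fst hd)
    have h1 := fun j => S'.poin q _ _ (hx.2 j) (congrFun (congrArg Prod.snd hd) j)
    choose y' hy' v' hv' e' using h1
    exact ⟨(y, y'), ⟨hy, hy'⟩, (v, v'), ⟨hv, hv'⟩, Prod.ext e (funext e')⟩
  inj q n y v hy hv e := Prod.ext (S.inj q n _ _ hy.1 hv.1 (congrArg Prod.fst e))
    (funext fun j => S'.inj q _ _ _ (hy.2 j) (hv.2 j) (congrFun (congrArg Prod.snd e) j))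
  comp q n y hy := by
    obtain ⟨v, hv, e⟩ := S.comp q n _ hy.1
    have h1 : ∀ j, ∃ v ∈ S'.gr (q - 1) (n + 1 - β j),
        S'.δ (n - β j) (S'.T (y.2 j)) = S'.T (S'.dC (n - β j) (y.2 j)) + S'.D v := by
      intro j
      by_cases hn : β j ≤ n
      · rw [Nat.succ_sub hn]
        exact S'.comp q _ _ (hy.2 j)
      · have h2 := hy.2 j
        rw [Nat.sub_eq_zero_of_le (by omega)] at h2
        refine ⟨0, Submodule.zero_mem _, ?_⟩
        rw [S'.grC_zero _ _ h2, map_zero, map_zero, map_zero, map_zero, map_zero, add_zero]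
    choose v' hv' e' using h1
    refine ⟨(v, v'), ⟨hv, hv'⟩, Prod.ext ?_ (funext e')⟩
    change S.δ n (S.T y.1) + ∑ j, φ j (n - β j) (S'.T (y.2 j)) =
      S.T (S.dC n y.1 + ∑ j, ψ j (n - β j) (y.2 j)) + S.D v
    rw [map_add, map_sum, e]
    have : ∑ j, S.T (ψ j (n - β j) (y.2 j)) = ∑ j, φ j (n - β j) (S'.T (y.2 j)) :=
      Finset.sum_congr rfl fun j _ => h.T _ _ _
    rw [this]
    abel

end hsdcone

end Pool.Agent.Work.MP_701abf_gt.Stab
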