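import Pool.Agent.Work.MP_701abf_gt.Stab.Hsd
import Pool.Agent.Work.MP_701abf_gt.Stab.Cx

/-!
The complexes of homogeneous cochains, the exact sequences given by the invariant coordinates,
products with cocycles without coefficients, and the corresponding cones.
-/

open MvPolynomial
open Finset.HasAntidiagonal (antidiagonal mem_antidiagonal)

namespace Pool.Agent.Work.MP_701abf_gt.Stab

section mul

variable {V M : Type*} [AddCommMonoid M]

lemma mul_gr {w : V → M} {z : PF V} {n : M} (hz : WH w z n) :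
    Gr w w (fun m => m + n) (LinearMap.mulRight (ZMod 2) z) := by
  intro d
  exact (wh_monomial w d).mul hz

lemma mul_cmp {M : Type*} [AddCommGroup M] {w : V → M} {z : PF V} {n : M} (hz : WH w z n)
    (m : M) (F : PF V) : cmp w (m + n) (F * z) = cmp w m F * z :=
  (mul_gr hz).cmp (add_left_injective n) m F

end mul

section cx

variable {ι : Type*}

/-- The complex of homogeneous cochains. -/
noncomputable def cx (c : ι → ℤ × ℤ) (τ : ι → ℕ) (m : (ℤ × ℤ) × ℤ) : Cx (RR ι) where
  gr n := lev ι n ⊓ weightedHomogeneousSubmodule (ZMod 2) (wt c τ) m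
  d := dR τ
  gr_zero _ h := h.1
  d_mem n _ h := ⟨dR_lev τ h.1, dR_wh n h.2⟩
  dd _ _ h := dR_dR' τ h.1

lemma cx_d (c : ι → ℤ × ℤ) (τ : ι → ℕ) (m : (ℤ × ℤ) × ℤ) (n : ℕ) : (cx c τ m).d n = dR τ n := rfl

lemma mem_cx {c : ι → ℤ × ℤ} {τ : ι → ℕ} {m : (ℤ × ℤ) × ℤ} {n : ℕ} {F : RR ι} :
    F ∈ (cx c τ m).gr n ↔ F ∈ lev ι n ∧ WH (wt c τ) F m := Iff.rfl

lemma lev_mul {n : ℕ} {F G : RR ι} (hF : F ∈ lev ι (n + 1)) (hG : prj n G = G) :
    F * G ∈ lev ι (n + 1) := by
  rw [mem_lev_succ] at hF ⊢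
  rw [map_mul, hF, hG]

/-- Algebra maps which fix the group coordinates and do not mix levels. -/
lemma hom_lev {ι' : Type*} {φ : RR ι →ₐ[ZMod 2] RR ι'}
    (hg : ∀ v, φ (X (Sum.inl v)) = X (Sum.inl v))
    (hw : ∀ n v, prj n (φ (X (Sum.inr v))) = φ (X (Sum.inr v))) {n : ℕ} {F : RR ι}
    (hF : F ∈ lev ι n) : φ F ∈ lev ι' n := by
  cases n with
  | zero =>
    rw [mem_lev_zero] at hF ⊢
    rw [hF, map_zero]
  | succ n =>
    rw [mem_lev_succ] at hF ⊢
    have : (prj n).comp φ = φ.comp (prj n) := by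
      refine algHom_ext fun v => ?_
      rw [AlgHom.comp_apply, AlgHom.comp_apply]
      rcases v with v | v
      · rw [hg]
        by_cases hv : v.1 < n
        · rw [prj_inl_lt hv, prj_inl_lt hv, hg]
        · rw [prj_inl_ge hv, prj_inl_ge hv, map_zero]
      · rw [prj_inr, hw]
    have h2 := congrArg (fun φ => φ F) this
    simp only [AlgHom.comp_apply, hF] at h2
    exact h2

lemma mapPt_face (τ : ι → ℕ) (j a : ℕ) : mapPt (face τ j) (gG a) = fg j gG a := by
  unfold face
  exact mapPt_ev _ _ _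

lemma face_gW (τ : ι → ℕ) (j : ℕ) (b : ι) (i : ℕ) : face τ j (gW b i) = fw τ j gG gW b i :=
  face_inr τ j (b, i)

end cx

section wzero

variable {ι : Type*} [DecidableEq ι]

/-- Shift up. -/
def shw {S : Type*} [Zero S] (u : ℕ → S) : ℕ → S
  | 0 => 0
  | i + 1 => u i

lemma act_shw {S : Type*} [CommRing S] (τ : ℕ) (g : Pt S) (u : ℕ → S) :
    act τ g (shw u) = shw (act (τ + 1) g u) := by
  funext i
  cases i with
  | zero =>
    rw [act_apply]
    simp [shw]
  | succ i =>
    rw [act_apply, Finset.Nat.sum_antidiagonal_succ']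
    simp only [shw, mul_zero, zero_add]
    rw [act_apply]
    refine Finset.sum_congr rfl fun p _ => ?_
    rw [add_assoc, add_comm 1 τ]

/-- Forget the invariant coordinate of the copy `b`. -/
noncomputable def rb (b : ι) : RR ι →ₐ[ZMod 2] RR ι :=
  ev gG (Function.update gW b (shw (gW b)))

/-- A section. -/
noncomputable def sb (b : ι) : RR ι →ₐ[ZMod 2] RR ι :=
  ev gG (Function.update gW b (fun i => gW b (i + 1)))

/-- One more twist. -/
abbrev tw (τ : ι → ℕ) (b : ι) : ι → ℕ := Function.update τ b (τ b + 1)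

lemma tw_self (τ : ι → ℕ) (b : ι) : tw τ b b = τ b + 1 := Function.update_self _ _ _

lemma tw_ne (τ : ι → ℕ) {b b' : ι} (h : b' ≠ b) : tw τ b b' = τ b' := Function.update_of_ne h _ _

lemma rb_gW_ne {b b' : ι} (h : b' ≠ b) (i : ℕ) : rb b (gW b' i) = gW b' i := by
  unfold rb; rw [ev_gW, Function.update_of_ne h]

lemma rb_gW (b : ι) (i : ℕ) : rb b (gW b i) = shw (gW b) i := by
  unfold rb; rw [ev_gW, Function.update_self]

lemma sb_gW_ne {b b' : ι} (h : b' ≠ b) (i : ℕ) : sb b (gW b' i) = gW b' i := by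
  unfold sb; rw [ev_gW, Function.update_of_ne h]

lemma sb_gW (b : ι) (i : ℕ) : sb b (gW b i) = gW b (i + 1) := by
  unfold sb; rw [ev_gW, Function.update_self]

lemma mapPt_rb (b : ι) (a : ℕ) : mapPt (rb b) (gG a) = gG a := by
  unfold rb; exact mapPt_ev _ _ _

lemma mapPt_sb (b : ι) (a : ℕ) : mapPt (sb b) (gG a) = gG a := by
  unfold sb; exact mapPt_ev _ _ _

lemma rb_inl (b : ι) (v : ℕ × ℕ) : rb b (X (Sum.inl v)) = X (Sum.inl v) := by
  unfold rb; rw [ev_inl]; rfl

lemma sb_inl (b : ι) (v : ℕ × ℕ) : sb b (X (Sum.inl v)) = X (Sum.inl v) := by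
  unfold sb; rw [ev_inl]; rfl

lemma rb_face (τ : ι → ℕ) (b : ι) (j : ℕ) (F : RR ι) :
    rb b (face τ j F) = face (tw τ b) j (rb b F) := by
  have : (rb b).comp (face τ j) = (face (tw τ b) j).comp (rb b) := by
    refine hom_eq (fun a => ?_) (fun b' i => ?_)
    · have h1 : mapPt ((rb b).comp (face τ j)) (gG a) = mapPt (rb b) (mapPt (face τ j) (gG a)) :=
        rfl
      have h2 : mapPt ((face (tw τ b) j).comp (rb b)) (gG a) =
        mapPt (face (tw τ b) j) (mapPt (rb b) (gG a)) := rfl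
      rw [h1, h2, mapPt_face, mapPt_rb, mapPt_face, mapPt_fg]
      simp only [mapPt_rb]
    · rw [AlgHom.comp_apply, AlgHom.comp_apply, face_gW, map_fw]
      simp only [mapPt_rb]
      by_cases h : b' = b
      · subst h
        rw [rb_gW]
        cases j with
        | zero =>
          simp only [fw]
          have e : (fun i => rb b' (gW b' i)) = shw (gW b') := by
            funext i
            exact rb_gW b' i
          rw [e, act_shw]
          cases i with
          | zero => simp only [shw, map_zero]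
          | succ i =>
            simp only [shw]
            rw [face_gW]
            simp only [fw]
            rw [tw_self]
        | succ j =>
          simp only [fw]
          rw [rb_gW]
          cases i with
          | zero => simp only [shw, map_zero]
          | succ i =>
            simp only [shw]
            rw [face_gW]
            simp only [fw]
      · rw [rb_gW_ne h, face_gW]
        cases j with
        | zero =>
          simp only [fw]
          rw [tw_ne τ h]
          have e : (fun i => rb b (gW b' i)) = gW b' := by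
            funext i
            exact rb_gW_ne h i
          rw [e]
        | succ j =>
          simp only [fw]
          rw [rb_gW_ne h]
  exact congrArg (fun φ => φ F) this

lemma rb_sb (b : ι) (F : RR ι) : rb b (sb b F) = F := by
  have : (rb b).comp (sb b) = AlgHom.id _ _ := by
    refine hom_eq (fun a => ?_) (fun b' i => ?_)
    · have h1 : mapPt ((rb b).comp (sb b)) (gG a) = mapPt (rb b) (mapPt (sb b) (gG a)) := rfl
      rw [h1, mapPt_sb, mapPt_rb]
      rfl
    · rw [AlgHom.comp_apply]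
      by_cases h : b' = b
      · subst h
        rw [sb_gW, rb_gW]
        rfl
      · rw [sb_gW_ne h, rb_gW_ne h]
        rfl
  exact congrArg (fun φ => φ F) this

lemma sb_rb (b : ι) (F : RR ι) : sb b (rb b F) = kill _ (Sum.inr (b, 0)) F := by
  have : (sb b).comp (rb b) = kill _ (Sum.inr (b, 0)) := by
    refine algHom_ext fun v => ?_
    rw [AlgHom.comp_apply]
    rcases v with v | ⟨b', i⟩
    · rw [rb_inl, sb_inl, kill_ne (by simp)]
    · change sb b (rb b (gW b' i)) = _
      by_cases h : b' = b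
      · subst h
        rw [rb_gW]
        cases i with
        | zero =>
          simp only [shw, map_zero]
          rw [kill_self]
        | succ i =>
          simp only [shw]
          rw [sb_gW, kill_ne (by simp)]
          rfl
      · rw [rb_gW_ne h, sb_gW_ne h, kill_ne (by simp [h])]
        rfl
  exact congrArg (fun φ => φ F) this

lemma rb_gr (c : ι → ℤ × ℤ) (τ : ι → ℕ) (b : ι) :
    Gr (wt c τ) (wt c (tw τ b)) id (rb b).toLinearMap := by
  refine Gr.of_alg' fun v => ?_
  rcases v with v | ⟨b', i⟩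
  · rw [rb_inl]; exact isWeightedHomogeneous_X _ _ _
  · change WH _ (rb b (gW b' i)) (c b', 2 ^ (i + τ b'))
    by_cases h : b' = b
    · subst h
      rw [rb_gW]
      cases i with
      | zero => exact isWeightedHomogeneous_zero _ _ _
      | succ i =>
        have h1 := wh_gW c (tw τ b') b' i
        rw [tw, Function.update_self] at h1
        rw [show i + 1 + τ b' = i + (τ b' + 1) by ring]
        exact h1
    · rw [rb_gW_ne h]
      have h1 := wh_gW c (tw τ b) b' i
      rw [tw, Function.update_of_ne h] at h1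
      exact h1

lemma sb_gr (c : ι → ℤ × ℤ) (τ : ι → ℕ) (b : ι) :
    Gr (wt c (tw τ b)) (wt c τ) id (sb b).toLinearMap := by
  refine Gr.of_alg' fun v => ?_
  rcases v with v | ⟨b', i⟩
  · rw [sb_inl]; exact isWeightedHomogeneous_X _ _ _
  · change WH _ (sb b (gW b' i)) (c b', 2 ^ (i + tw τ b b'))
    by_cases h : b' = b
    · subst h
      rw [sb_gW, tw, Function.update_self]
      have h1 := wh_gW c τ b' (i + 1)
      rw [show i + 1 + τ b' = i + (τ b' + 1) by ring] at h1
      exact h1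
    · rw [sb_gW_ne h, tw, Function.update_of_ne h]
      exact wh_gW c τ b' i

lemma rb_lev (b : ι) {n : ℕ} {F : RR ι} (hF : F ∈ lev ι n) : rb b F ∈ lev ι n := by
  refine hom_lev (rb_inl b) (fun n v => ?_) hF
  rcases v with ⟨b', i⟩
  change prj n (rb b (gW b' i)) = rb b (gW b' i)
  by_cases h : b' = b
  · subst h
    rw [rb_gW]
    cases i with
    | zero => simp only [shw, map_zero]
    | succ i => exact prj_gW _ _ _
  · rw [rb_gW_ne h, prj_gW]

lemma sb_lev (b : ι) {n : ℕ} {F : RR ι} (hF : F ∈ lev ι n) : sb b F ∈ lev ι n := by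
  refine hom_lev (sb_inl b) (fun n v => ?_) hF
  rcases v with ⟨b', i⟩
  change prj n (sb b (gW b' i)) = sb b (gW b' i)
  by_cases h : b' = b
  · subst h
    rw [sb_gW, prj_gW]
  · rw [sb_gW_ne h, prj_gW]

omit [DecidableEq ι] in
lemma face_W0 (τ : ι → ℕ) (j : ℕ) (b : ι) : face τ j (gW b 0) = gW b 0 := by
  rw [face_gW]
  cases j with
  | zero =>
    simp only [fw]
    rw [act_apply]
    simp
  | succ j => rfl

omit [DecidableEq ι] in
lemma dR_mul_W0 (τ : ι → ℕ) (b : ι) (n : ℕ) (F : RR ι) :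
    dR τ n F * gW b 0 = dR τ n (F * gW b 0) := by
  rw [dR_apply, dR_apply, Finset.sum_mul]
  refine Finset.sum_congr rfl fun j _ => ?_
  rw [map_mul, face_W0]

/-- The short exact sequence given by the invariant coordinate of the copy `b`. -/
noncomputable def sesW (c : ι → ℤ × ℤ) (τ : ι → ℕ) (b : ι) (m m' : (ℤ × ℤ) × ℤ)
    (hm : m' + (c b, 2 ^ τ b) = m) : Ses (cx c τ m') (cx c τ m) (cx c (tw τ b) m) where
  i := LinearMap.mulRight (ZMod 2) (gW b 0)
  r := (rb b).toLinearMap
  s := (sb b).toLinearMap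
  i_mem n x hx := by
    refine ⟨?_, ?_⟩
    · change x * gW b 0 ∈ _
      have h1 : x ∈ lev ι n := hx.1
      cases n with
      | zero =>
        rw [mem_lev_zero] at h1
        rw [h1, zero_mul]
        exact Submodule.zero_mem _
      | succ n => exact lev_mul h1 (prj_gW _ _ _)
    · have h1 := hx.2
      have h2 := wh_gW c τ b 0
      rw [zero_add] at h2
      rw [← hm]
      exact IsWeightedHomogeneous.mul h1 h2
  r_mem n x hx := ⟨rb_lev b hx.1, (rb_gr c τ b).map hx.2⟩
  s_mem n x hx := ⟨sb_lev b hx.1, (sb_gr c τ b).map hx.2⟩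
  i_inj x hx := by
    rcases mul_eq_zero.1 hx with h | h
    · exact h
    · exact absurd h (X_ne_zero _)
  i_d n x := dR_mul_W0 τ b n x
  r_d n x := by
    change rb b (dR τ n x) = dR (tw τ b) n (rb b x)
    rw [dR_apply, dR_apply, map_sum]
    exact Finset.sum_congr rfl fun j _ => rb_face τ b j x
  r_s x := rb_sb b x
  ker n x hx h := by
    have h1 : kill _ (Sum.inr (b, 0)) x = 0 := by
      rw [← sb_rb]
      change sb b (rb b x) = 0
      have h0 : rb b x = 0 := h
      rw [h0, map_zero]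
    obtain ⟨G, hG⟩ := kill_div (Sum.inr (b, 0)) x
    rw [h1, zero_add, mul_comm] at hG
    change x = G * gW b 0 at hG
    have h2 : ∃ G ∈ lev ι n, x = G * gW b 0 := by
      cases n with
      | zero =>
        refine ⟨0, Submodule.zero_mem _, ?_⟩
        rw [zero_mul]
        exact hx.1
      | succ n =>
        refine ⟨prj n G, prj_mem n G, ?_⟩
        have h3 := mem_lev_succ.1 hx.1
        rw [hG, map_mul, prj_gW] at h3
        rw [h3]
        exact hG
    obtain ⟨G, hGl, e⟩ := h2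
    refine ⟨cmp (wt c τ) m' G, ⟨cmp_lev c τ m' hGl, cmp_wh _ _ _⟩, ?_⟩
    change cmp (wt c τ) m' G * gW b 0 = x
    have h4 := wh_gW c τ b 0
    rw [zero_add] at h4
    rw [← mul_cmp h4, hm, ← e]
    exact cmp_same hx.2

end wzero

section total

variable {ι : Type*}

/-- The total degree. -/
def fS : (ℤ × ℤ) × ℤ →+ (ℤ × ℤ) × ℤ where
  toFun m := ((m.1.1 + m.1.2, 0), m.2)
  map_zero' := by simp
  map_add' x y := by
    ext
    · simp only [Prod.fst_add, Prod.snd_add]
      ring
    · simp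
    · simp

lemma fS_apply (m : (ℤ × ℤ) × ℤ) : fS m = ((m.1.1 + m.1.2, 0), m.2) := rfl

lemma wt_total {c : ι → ℤ × ℤ} (hc : ∀ b, (c b).1 + (c b).2 = 1) (τ : ι → ℕ) :
    (fun v => fS (wt c τ v)) = wt (fun _ => (1, 0)) τ := by
  funext v
  rcases v with v | v
  · rfl
  · change (((c v.1).1 + (c v.1).2, (0 : ℤ)), (2 : ℤ) ^ (v.2 + τ v.1)) = _
    rw [hc]
    rfl

lemma wh_total {c : ι → ℤ × ℤ} (hc : ∀ b, (c b).1 + (c b).2 = 1) {τ : ι → ℕ} {F : RR ι}
    {m : (ℤ × ℤ) × ℤ} (hF : WH (wt c τ) F m) : WH (wt (fun _ => (1, 0)) τ) F (fS m) := by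
  rw [← wt_total hc]
  exact wh_comp hF

/-- Exactness in each bidegree follows from exactness in the total degree. -/
lemma exact_of_total {c : ι → ℤ × ℤ} (hc : ∀ b, (c b).1 + (c b).2 = 1) {τ : ι → ℕ}
    {m : (ℤ × ℤ) × ℤ} {p : ℕ} (h : (cx (fun _ => (1, 0)) τ (fS m)).Exact p) :
    (cx c τ m).Exact p := by
  intro F hF hd
  obtain ⟨G, hG, e⟩ := h F ⟨hF.1, wh_total hc hF.2⟩ hd
  refine ⟨cmp (wt c τ) m G, ⟨cmp_lev c τ m hG.1, cmp_wh _ _ _⟩, ?_⟩
  rw [cx_d] at e ⊢
  rw [← dR_cmp, e, cmp_same hF.2]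

end total

section cup

/-- The weights without coefficients. -/
abbrev wE : (ℕ × ℕ) ⊕ (Empty × ℕ) → (ℤ × ℤ) × ℤ := wt (fun _ => (1, 0)) (fun _ => 0)

/-- The differential without coefficients. -/
noncomputable abbrev dE (n : ℕ) : RR Empty →ₗ[ZMod 2] RR Empty := dR (fun _ => 0) n

variable {ι : Type*}

/-- Place a cochain without coefficients on the slots from `c` on. -/
noncomputable def sh (c : ℕ) : RR Empty →ₐ[ZMod 2] RR ι :=
  ev (fun a => gG (a + c)) (fun e => e.elim)

lemma sh_inl (c : ℕ) (v : ℕ × ℕ) :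
    sh (ι := ι) c (X (Sum.inl v)) = X (Sum.inl (v.1 + c, v.2)) := by
  unfold sh; rw [ev_inl]; rfl

lemma mapPt_sh (c a : ℕ) : mapPt (sh (ι := ι) c) (gG a) = gG (a + c) := by
  unfold sh; exact mapPt_ev _ _ _

/-- Maps from the ring without coefficients are determined by their values on the slots. -/
lemma homE_eq {S : Type*} [CommRing S] [Algebra (ZMod 2) S] {φ ψ : RR Empty →ₐ[ZMod 2] S}
    (h : ∀ a, mapPt φ (gG a) = mapPt ψ (gG a)) : φ = ψ :=
  hom_eq h fun b => b.elim

lemma sh_face_le (τ : ι → ℕ) {j a : ℕ} (h : j ≤ a) (z : RR Empty) :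
    face τ j (sh a z) = sh (a + 1) z := by
  have : (face τ j).comp (sh a) = sh (a + 1) := by
    refine homE_eq fun k => ?_
    have h1 : mapPt ((face τ j).comp (sh a)) (gG k) = mapPt (face τ j) (mapPt (sh a) (gG k)) := rfl
    rw [h1, mapPt_sh, mapPt_sh, mapPt_face]
    cases j with
    | zero => simp only [fg]; rfl
    | succ j =>
      simp only [fg]
      rw [if_neg (by omega), if_neg (by omega)]
      rfl
  exact congrArg (fun φ => φ z) this

lemma sh_face_gt (τ : ι → ℕ) (a i : ℕ) (z : RR Empty) :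
    face τ (a + 1 + i) (sh a z) = sh a (face (fun _ => 0) (i + 1) z) := by
  have : (face τ (a + 1 + i)).comp (sh a) = (sh a).comp (face (fun _ => 0) (i + 1)) := by
    refine homE_eq fun k => ?_
    have h1 : mapPt ((face τ (a + 1 + i)).comp (sh a)) (gG k) =
      mapPt (face τ (a + 1 + i)) (mapPt (sh a) (gG k)) := rfl
    have h2 : mapPt ((sh (ι := ι) a).comp (face (fun _ => 0) (i + 1))) (gG k) =
      mapPt (sh a) (mapPt (face (fun _ => 0) (i + 1)) (gG k)) := rfl
    rw [h1, h2, mapPt_sh, mapPt_face, mapPt_face, mapPt_fg]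
    simp only [mapPt_sh]
    rw [show a + 1 + i = (a + i) + 1 by ring]
    simp only [fg]
    rcases lt_trichotomy k i with h | h | h
    · rw [if_pos (by omega), if_pos h]
    · subst h
      rw [if_neg (by omega), if_pos (by omega), if_neg (by omega), if_pos rfl]
      congr 2 <;> ring
    · rw [if_neg (by omega), if_neg (by omega), if_neg (by omega), if_neg (by omega)]
      congr 1
      ring
  exact congrArg (fun φ => φ z) this

lemma sh_zero_face (a : ℕ) (z : RR Empty) :
    sh (ι := ι) a (face (fun _ => 0) 0 z) = sh (a + 1) z := by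
  have : (sh (ι := ι) a).comp (face (fun _ => 0) 0) = sh (a + 1) := by
    refine homE_eq fun k => ?_
    have h2 : mapPt ((sh (ι := ι) a).comp (face (fun _ => 0) 0)) (gG k) =
      mapPt (sh a) (mapPt (face (fun _ => 0) 0) (gG k)) := rfl
    rw [h2, mapPt_face, mapPt_sh, mapPt_fg]
    simp only [mapPt_sh, fg]
    congr 1
    ring
  exact congrArg (fun φ => φ z) this

/-- High faces do nothing. -/
lemma face_high (τ : ι → ℕ) {n j : ℕ} (h : n ≤ j) {F : RR ι} (hF : F ∈ lev ι (n + 1)) :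
    face τ (j + 1) F = F := by
  have h1 : face τ (j + 1) F = ev gG gW F := by
    unfold face
    refine ev_prj' (fun a ha => ?_) (mem_lev_succ.1 hF)
    simp only [fg]
    rw [if_pos (by omega)]
  rw [h1]
  have : ev gG gW = AlgHom.id (ZMod 2) (RR ι) := by
    refine algHom_ext fun v => ?_
    rcases v with v | v
    · rw [ev_inl]; rfl
    · rw [ev_inr]; rfl
  rw [this]
  rfl

/-- The Leibniz rule. -/
lemma dR_cup (τ : ι → ℕ) {a b : ℕ} {u : RR ι} (hu : u ∈ lev ι (a + 1)) (z : RR Empty) :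
    dR τ (a + b + 1) (u * sh a z) =
      dR τ (a + 1) u * sh (a + 1) z + u * sh a (dE (b + 1) z) := by
  have e1 : dR τ (a + b + 1) (u * sh a z) =
      (∑ j ∈ Finset.range (a + 1), face τ j u) * sh (a + 1) z +
        u * ∑ i ∈ Finset.range (b + 1), sh a (face (fun _ => 0) (i + 1) z) := by
    rw [dR_apply, show a + b + 1 + 1 = (a + 1) + (b + 1) by ring, Finset.sum_range_add,
      Finset.sum_mul, Finset.mul_sum]
    congr 1
    · refine Finset.sum_congr rfl fun j hj => ?_
      have := Finset.mem_range.1 hj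
      rw [map_mul, sh_face_le τ (by omega)]
    · refine Finset.sum_congr rfl fun i _ => ?_
      rw [map_mul, sh_face_gt, show a + 1 + i = (a + i) + 1 by ring,
        face_high τ (by omega) hu]
  have e2 : dR τ (a + 1) u = (∑ j ∈ Finset.range (a + 1), face τ j u) + u := by
    rw [dR_apply, Finset.sum_range_succ, face_high τ le_rfl hu]
  have e3 : sh (ι := ι) a (dE (b + 1) z) =
      (∑ i ∈ Finset.range (b + 1), sh a (face (fun _ => 0) (i + 1) z)) + sh (a + 1) z := by
    rw [dR_apply, Finset.sum_range_succ', map_add, map_sum, sh_zero_face]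
  rw [e1, e2, e3]
  have e4 := add_self2 (u * sh (ι := ι) (a + 1) z)
  calc _ = (∑ j ∈ Finset.range (a + 1), face τ j u) * sh (a + 1) z +
        u * ∑ i ∈ Finset.range (b + 1), sh a (face (fun _ => 0) (i + 1) z) +
        (u * sh (a + 1) z + u * sh (a + 1) z) := by rw [e4, add_zero]
    _ = _ := by ring

lemma sh_lev {a b : ℕ} {z : RR Empty} (hz : z ∈ lev Empty (b + 1)) :
    prj (a + b) (sh (ι := ι) a z) = sh a z := by
  have : (prj (a + b)).comp (sh (ι := ι) a) = (sh a).comp (prj b) := by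
    refine algHom_ext fun v => ?_
    rw [AlgHom.comp_apply, AlgHom.comp_apply]
    rcases v with v | v
    · rw [sh_inl]
      by_cases hv : v.1 < b
      · rw [prj_inl_lt hv, prj_inl_lt (by simp only; omega), sh_inl]
      · rw [prj_inl_ge hv, prj_inl_ge (by simp only; omega), map_zero]
    · exact v.1.elim
  have h2 := congrArg (fun φ => φ z) this
  simp only [AlgHom.comp_apply, mem_lev_succ.1 hz] at h2
  exact h2

lemma prj_of_lt {n m : ℕ} (h : n ≤ m) {F : RR ι} (hF : F ∈ lev ι (n + 1)) : prj m F = F := by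
  rw [mem_lev_succ] at hF
  have : (prj (ι := ι) m).comp (prj n) = prj n := by
    refine algHom_ext fun v => ?_
    rw [AlgHom.comp_apply]
    rcases v with v | v
    · by_cases hv : v.1 < n
      · rw [prj_inl_lt hv, prj_inl_lt (by omega)]
      · rw [prj_inl_ge hv, map_zero]
    · rw [prj_inr, prj_inr]
  have h2 := congrArg (fun φ => φ F) this
  simp only [AlgHom.comp_apply, hF] at h2
  exact h2

/-- Levels increase. -/
lemma lev_mono {n m : ℕ} (h : n ≤ m) {F : RR ι} (hF : F ∈ lev ι n) : F ∈ lev ι m := by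
  cases n with
  | zero =>
    rw [mem_lev_zero] at hF
    rw [hF]
    exact Submodule.zero_mem _
  | succ n =>
    obtain ⟨m, rfl⟩ : ∃ k, m = k + 1 := ⟨m - 1, by omega⟩
    rw [mem_lev_succ]
    exact prj_of_lt (by omega) hF

/-- Multiplication by a cochain without coefficients placed after the slots of a cochain of
index `a`. -/
noncomputable def cup (z : RR Empty) (a : ℕ) : RR ι →ₗ[ZMod 2] RR ι :=
  LinearMap.mulRight (ZMod 2) (sh (a - 1) z)

lemma cup_apply (z : RR Empty) (a : ℕ) (u : RR ι) : cup z a u = u * sh (a - 1) z := rfl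

lemma cup_lev {a b : ℕ} {u : RR ι} (hu : u ∈ lev ι a) {z : RR Empty}
    (hz : z ∈ lev Empty (b + 2)) : cup z a u ∈ lev ι (a + b + 1) := by
  rw [cup_apply]
  cases a with
  | zero =>
    rw [mem_lev_zero] at hu
    rw [hu, zero_mul]
    exact Submodule.zero_mem _
  | succ a =>
    rw [show a + 1 - 1 = a from rfl]
    have h1 : a + 1 + b + 1 = (a + (b + 1)) + 1 := by ring
    rw [h1]
    refine lev_mul ?_ (sh_lev hz)
    exact mem_lev_succ.2 (prj_of_lt (by omega) hu)

lemma cup_d (τ : ι → ℕ) {a b : ℕ} {u : RR ι} (hu : u ∈ lev ι a) {z : RR Empty}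
    (hc : dE (b + 2) z = 0) : dR τ (a + b + 1) (cup z a u) = cup z (a + 1) (dR τ a u) := by
  rw [cup_apply, cup_apply]
  cases a with
  | zero =>
    rw [mem_lev_zero] at hu
    rw [hu]
    simp
  | succ a =>
    rw [show a + 1 - 1 = a from rfl, show a + 1 + 1 - 1 = a + 1 from rfl]
    have h1 : a + 1 + b + 1 = (a + (b + 1)) + 1 := by ring
    rw [h1, dR_cup τ hu, hc, map_zero, mul_zero, add_zero]

lemma sh_gr (c : ι → ℤ × ℤ) (τ : ι → ℕ) (a : ℕ) :
    Gr wE (wt c τ) id (sh (ι := ι) a).toLinearMap := by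
  refine Gr.of_alg' fun v => ?_
  rcases v with v | v
  · rw [sh_inl]
    exact isWeightedHomogeneous_X _ _ _
  · exact v.1.elim

lemma cup_wh {c : ι → ℤ × ℤ} {τ : ι → ℕ} {a : ℕ} {u : RR ι} {κ : ℤ × ℤ} {M N : ℤ}
    (hu : WH (wt c τ) u (κ, M)) {z : RR Empty} (hz : WH wE z (0, N)) :
    WH (wt c τ) (cup z a u) (κ, M + N) := by
  have h := IsWeightedHomogeneous.mul hu ((sh_gr c τ (a - 1)).map hz)
  have e : ((κ, M) : (ℤ × ℤ) × ℤ) + id (0, N) = (κ, M + N) := by
    rw [id, Prod.mk_add_mk, add_zero]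
  rw [e] at h
  exact h

/-- A family of cocycles without coefficients, of internal degree `N`. -/
structure Fam (Z : Type*) (N : ℤ) where
  β : Z → ℕ
  z : Z → RR Empty
  lev : ∀ j, z j ∈ lev Empty (β j + 2)
  wh : ∀ j, WH wE (z j) (0, N)
  cl : ∀ j, dE (β j + 2) (z j) = 0

variable {Z : Type*} [Fintype Z] {N : ℤ}

omit [Fintype Z] in
lemma Fam.cup (f : Fam Z N) (c : ι → ℤ × ℤ) (τ : ι → ℕ) (κ : ℤ × ℤ) (M : ℤ) :
    Cup f.β (cx c τ (κ, M + N)) (cx c τ (κ, M)) (fun j => cup (f.z j)) where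
  mem j _ _ hx := ⟨cup_lev hx.1 (f.lev j), cup_wh hx.2 (f.wh j)⟩
  d j _ _ hx := cup_d τ hx.1 (f.cl j)

/-- The cone. -/
noncomputable def ck (f : Fam Z N) (c : ι → ℤ × ℤ) (τ : ι → ℕ) (κ : ℤ × ℤ) (M : ℤ) :
    Cx (RR ι × (Z → RR ι)) :=
  (cx c τ (κ, M + N)).cone f.β (cx c τ (κ, M)) (fun j => Stab.cup (f.z j)) (f.cup c τ κ M)

lemma exactK_of_total (f : Fam Z N) {c : ι → ℤ × ℤ} (hc : ∀ b, (c b).1 + (c b).2 = 1)
    {τ : ι → ℕ} {k q M : ℤ} {p : ℕ} (h : (ck f (fun _ => (1, 0)) τ (k + q, 0) M).Exact p) :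
    (ck f c τ (k, q) M).Exact p := by
  rintro ⟨F, u⟩ ⟨⟨hF1, hF2⟩, hu⟩ hd
  have hF3 : WH (wt (fun _ => (1, 0)) τ) F ((k + q, 0), M + N) := wh_total hc hF2
  have hu3 : ∀ j, WH (wt (fun _ => (1, 0)) τ) (u j) ((k + q, 0), M) :=
    fun j => wh_total hc (hu j).2
  obtain ⟨⟨G, v⟩, ⟨hG, hv⟩, e⟩ := h (F, u) ⟨⟨hF1, hF3⟩, fun j => ⟨(hu j).1, hu3 j⟩⟩ hd
  refine ⟨(cmp (wt c τ) ((k, q), M + N) G, fun j => cmp (wt c τ) ((k, q), M) (v j)),
    ⟨⟨cmp_lev c τ _ hG.1, cmp_wh _ _ _⟩, fun j => ⟨cmp_lev c τ _ (hv j).1, cmp_wh _ _ _⟩⟩, ?_⟩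
  have e1 : dR τ p G + ∑ j, Stab.cup (f.z j) (p - f.β j) (v j) = F := congrArg Prod.fst e
  have e2 : ∀ j, dR τ (p - f.β j) (v j) = u j := fun j => congrFun (congrArg Prod.snd e) j
  refine Prod.ext ?_ (funext fun j => ?_)
  · change dR τ p (cmp (wt c τ) ((k, q), M + N) G) +
      ∑ j, Stab.cup (f.z j) (p - f.β j) (cmp (wt c τ) ((k, q), M) (v j)) = F
    rw [← dR_cmp]
    have e3 : ∀ j, Stab.cup (f.z j) (p - f.β j) (cmp (wt c τ) ((k, q), M) (v j)) =
        cmp (wt c τ) ((k, q), M + N) (Stab.cup (f.z j) (p - f.β j) (v j)) := by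
      intro j
      rw [cup_apply, cup_apply]
      have h5 := mul_cmp ((sh_gr c τ (p - f.β j - 1)).map (f.wh j)) ((k, q), M) (v j)
      have e : (((k, q), M) : (ℤ × ℤ) × ℤ) + id (0, N) = ((k, q), M + N) := by
        rw [id, Prod.mk_add_mk, add_zero]
      rw [e] at h5
      exact h5.symm
    rw [Finset.sum_congr rfl fun j _ => e3 j, ← map_sum, ← map_add, e1, cmp_same hF2]
  · change dR τ (p - f.β j) (cmp (wt c τ) ((k, q), M) (v j)) = u j
    rw [← dR_cmp, e2, cmp_same (hu j).2]

variable [DecidableEq ι]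

lemma rb_cup (b : ι) (z : RR Empty) (a : ℕ) (u : RR ι) : rb b (cup z a u) = cup z a (rb b u) := by
  rw [cup_apply, cup_apply, map_mul]
  have : (rb b).comp (sh (a - 1)) = sh (a - 1) := by
    refine algHom_ext fun v => ?_
    rw [AlgHom.comp_apply]
    rcases v with v | v
    · rw [sh_inl, rb_inl]
    · exact v.1.elim
  have h2 := congrArg (fun φ => φ z) this
  simp only [AlgHom.comp_apply] at h2
  rw [h2]

/-- The short exact sequence of cones given by the invariant coordinate of the copy `b`. -/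
noncomputable def sesK (f : Fam Z N) (c : ι → ℤ × ℤ) (τ : ι → ℕ) (b : ι) (κ κ' : ℤ × ℤ)
    (M M' : ℤ) (hm : κ' + c b = κ) (hM : M' + 2 ^ τ b = M) :
    Ses (ck f c τ κ' M') (ck f c τ κ M) (ck f c (tw τ b) κ M) :=
  Ses.cone _ _ _
    (sesW c τ b (κ, M + N) (κ', M' + N) (by rw [Prod.mk_add_mk, hm, ← hM]; congr 1; ring))
    (sesW c τ b (κ, M) (κ', M') (by rw [Prod.mk_add_mk, hm, hM]))
    (fun j n x => by
      change Stab.cup (f.z j) n x * gW b 0 = Stab.cup (f.z j) n (x * gW b 0)
      rw [cup_apply, cup_apply]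
      ring)
    (fun j n x => rb_cup b (f.z j) n x)

end cup

end Pool.Agent.Work.MP_701abf_gt.Stab
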