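import Pool.Agent.Work.MP_701abf_gt.Stab.Rec

/-!
Derivations along algebra maps; the first order deformation; chains of invariant coordinates.
-/

open MvPolynomial
open Finset.HasAntidiagonal (antidiagonal mem_antidiagonal)

namespace Pool.Agent.Work.MP_701abf_gt.Stab

section isder

variable {U V T : Type*}

/-- A derivation along an algebra map. -/
def IsDer (φ : PF U →ₐ[ZMod 2] PF V) (L : PF U →ₗ[ZMod 2] PF V) : Prop :=
  ∀ f g, L (f * g) = φ f * L g + φ g * L f

lemma IsDer.of (D : Derivation (ZMod 2) (PF U) (PF U)) : IsDer (AlgHom.id _ _) D.toLinearMap :=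
  fun f g => D.leibniz f g

lemma IsDer.left {φ : PF U →ₐ[ZMod 2] PF V} {L : PF U →ₗ[ZMod 2] PF V} (h : IsDer φ L)
    (ψ : PF V →ₐ[ZMod 2] PF T) : IsDer (ψ.comp φ) (ψ.toLinearMap.comp L) := by
  intro f g
  change ψ (L (f * g)) = ψ (φ f) * ψ (L g) + ψ (φ g) * ψ (L f)
  rw [h, map_add, map_mul, map_mul]

lemma IsDer.right {φ : PF U →ₐ[ZMod 2] PF V} {L : PF U →ₗ[ZMod 2] PF V} (h : IsDer φ L)
    (ψ : PF T →ₐ[ZMod 2] PF U) : IsDer (φ.comp ψ) (L.comp ψ.toLinearMap) := by
  intro f g
  change L (ψ (f * g)) = φ (ψ f) * L (ψ g) + φ (ψ g) * L (ψ f)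
  rw [map_mul, h]

lemma IsDer.add {φ : PF U →ₐ[ZMod 2] PF V} {L L' : PF U →ₗ[ZMod 2] PF V} (h : IsDer φ L)
    (h' : IsDer φ L') : IsDer φ (L + L') := by
  intro f g
  rw [LinearMap.add_apply, LinearMap.add_apply, LinearMap.add_apply, h, h']
  ring

lemma IsDer.sum {α : Type*} (s : Finset α) {φ : PF U →ₐ[ZMod 2] PF V}
    {L : α → PF U →ₗ[ZMod 2] PF V} (h : ∀ a, IsDer φ (L a)) : IsDer φ (∑ a ∈ s, L a) := by
  intro f g
  rw [LinearMap.sum_apply, LinearMap.sum_apply, LinearMap.sum_apply, Finset.mul_sum,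
    Finset.mul_sum, ← Finset.sum_add_distrib]
  exact Finset.sum_congr rfl fun a _ => h a f g

lemma IsDer.der {φ : PF U →ₐ[ZMod 2] PF V} {L : PF U →ₗ[ZMod 2] PF V} (h : IsDer φ L)
    (D : Derivation (ZMod 2) (PF V) (PF V)) (hD : ∀ f, D (φ f) = 0) :
    IsDer φ (D.toLinearMap.comp L) := by
  intro f g
  change D (L (f * g)) = φ f * D (L g) + φ g * D (L f)
  rw [h, map_add, Derivation.leibniz, Derivation.leibniz, hD, hD, smul_zero, smul_zero,
    add_zero, add_zero, smul_eq_mul, smul_eq_mul]

lemma IsDer.one {φ : PF U →ₐ[ZMod 2] PF V} {L : PF U →ₗ[ZMod 2] PF V} (h : IsDer φ L) :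
    L 1 = 0 := by
  have := h 1 1
  rw [mul_one, map_one φ, one_mul] at this
  rw [this]
  exact add_self2 _

lemma IsDer.C {φ : PF U →ₐ[ZMod 2] PF V} {L : PF U →ₗ[ZMod 2] PF V} (h : IsDer φ L)
    (a : ZMod 2) : L (C a) = 0 := by
  have : (MvPolynomial.C a : PF U) = a • 1 := by
    rw [MvPolynomial.smul_eq_C_mul, mul_one]
  rw [this, map_smul, h.one, smul_zero]

lemma IsDer.ext {φ φ' : PF U →ₐ[ZMod 2] PF V} {L L' : PF U →ₗ[ZMod 2] PF V} (h : IsDer φ L)
    (h' : IsDer φ' L') (hφ : φ = φ') (hX : ∀ v, L (X v) = L' (X v)) (f : PF U) :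
    L f = L' f := by
  subst hφ
  induction f using MvPolynomial.induction_on with
  | C a => rw [h.C, h'.C]
  | add p q hp hq => rw [map_add, map_add, hp, hq]
  | mul_X p v hp => rw [h, h', hX, hp]

end isder

section chain

variable {ι : Type*} [DecidableEq ι]

/-- The indicator of a set of copies. -/
def tB (B : Finset ι) : ι → ℕ := fun b => if b ∈ B then 1 else 0

lemma tw_tB {B : Finset ι} {b : ι} (h : b ∉ B) : tw (tB B) b = tB (insert b B) := by
  funext b'
  by_cases hb : b' = b
  · subst hb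
    rw [tw_self]
    simp [tB, h]
  · rw [tw_ne _ hb]
    simp [tB, hb]

lemma tB_empty : tB (∅ : Finset ι) = fun _ => 0 := by
  funext b; simp [tB]

lemma tB_univ [Fintype ι] : tB (Finset.univ : Finset ι) = fun _ => 1 := by
  funext b; simp [tB]

/-- Exactness in total degree `n`, internal degree `m`. -/
def ExT (ι : Type*) (τ : ι → ℕ) (p : ℕ) (n m : ℤ) : Prop :=
  (cx (fun _ : ι => (1, 0)) τ ((n, 0), m)).Exact p

omit [DecidableEq ι] in
lemma wt_fst_nonneg (τ : ι → ℕ) (v : (ℕ × ℕ) ⊕ (ι × ℕ)) :
    0 ≤ ((AddMonoidHom.fst ℤ ℤ).comp (AddMonoidHom.fst (ℤ × ℤ) ℤ))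
      (wt (fun _ => (1, 0)) τ v) := by
  rcases v with v | v
  · exact le_rfl
  · exact zero_le_one

omit [DecidableEq ι] in
lemma ExT.neg {τ : ι → ℕ} {p : ℕ} {n m : ℤ} (h : n < 0) : ExT ι τ p n m := by
  intro x hx _
  have h0 : x = 0 := wh_neg (q := (AddMonoidHom.fst ℤ ℤ).comp (AddMonoidHom.fst (ℤ × ℤ) ℤ))
    (wt_fst_nonneg τ) hx.2 h
  exact ⟨0, Submodule.zero_mem _, by rw [map_zero, h0]⟩

lemma ses_tB {B : Finset ι} {b : ι} (h : b ∉ B) (n m : ℤ) :
    ((((n - 1, 0), m - 1) : (ℤ × ℤ) × ℤ) + ((1, 0), 2 ^ tB B b)) = ((n, 0), m) := by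
  have : tB B b = 0 := by simp [tB, h]
  rw [this, pow_zero]
  simp

lemma ExT.step {B : Finset ι} {b : ι} (h : b ∉ B) {p : ℕ} {n m : ℤ}
    (h1 : ExT ι (tB B) p (n - 1) (m - 1)) (h2 : ExT ι (tB (insert b B)) p n m) :
    ExT ι (tB B) p n m := by
  rw [← tw_tB h] at h2
  exact (sesW (fun _ => (1, 0)) (tB B) b ((n, 0), m) ((n - 1, 0), m - 1) (ses_tB h n m)).exact
    h1 h2

lemma ExT.chain [Fintype ι] {p : ℕ} (c : ℕ) : ∀ (B : Finset ι), Bᶜ.card = c → ∀ (n : ℕ) (m : ℤ),
    (∀ k : ℕ, k ≤ n → ExT ι (fun _ => 1) p k (m - (n - k))) → ExT ι (tB B) p n m := by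
  induction c with
  | zero =>
    intro B hB n m h
    have : B = Finset.univ := by
      rw [Finset.card_eq_zero, Finset.compl_eq_empty_iff] at hB
      exact hB
    rw [this, tB_univ]
    have := h n le_rfl
    rwa [sub_self, sub_zero] at this
  | succ c ihc =>
    intro B hB n
    obtain ⟨b, hb⟩ : ∃ b, b ∉ B := by
      by_contra hcon
      push Not at hcon
      have : B = Finset.univ := Finset.eq_univ_of_forall hcon
      rw [this] at hB
      simp at hB
    have hB' : (insert b B)ᶜ.card = c := by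
      rw [Finset.card_compl, Finset.card_insert_of_notMem hb]
      rw [Finset.card_compl] at hB
      omega
    induction n with
    | zero =>
      intro m h
      exact ExT.step hb (ExT.neg (by norm_num)) (ihc _ hB' 0 m h)
    | succ n ihn =>
      intro m h
      refine ExT.step hb ?_ (ihc _ hB' (n + 1) m h)
      have := ihn (m - 1) (fun k hk => by
        have := h k (by omega)
        have e : m - 1 - ((n : ℤ) - k) = m - (((n + 1 : ℕ) : ℤ) - k) := by push_cast; ring
        rw [e]
        exact this)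
      have e : (((n + 1 : ℕ) : ℤ) - 1) = n := by push_cast; ring
      rw [e]
      exact this

/-- Untwisted exactness from the pieces. -/
lemma ExT.pieces [Fintype ι] {p n : ℕ} {m : ℤ}
    (h : ∀ k : ℕ, k ≤ n → ExT ι (fun _ => 1) p k (m - (n - k))) : ExT ι (fun _ => 0) p n m := by
  rw [← tB_empty]
  exact ExT.chain _ ∅ rfl n m h

/-- Forget the invariant coordinates of the copies in `B`. -/
noncomputable def rB (B : Finset ι) : RR ι →ₐ[ZMod 2] RR ι :=
  ev gG (fun b => if b ∈ B then shw (gW b) else gW b)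

lemma rB_empty (F : RR ι) : rB ∅ F = F := by
  have : rB (∅ : Finset ι) = AlgHom.id _ _ := by
    refine algHom_ext fun v => ?_
    unfold rB
    rcases v with v | v
    · rw [ev_inl]; rfl
    · rw [ev_inr, if_neg (by simp)]; rfl
  rw [this]; rfl

lemma rb_rB {B : Finset ι} {b : ι} (h : b ∉ B) (F : RR ι) :
    rb b (rB B F) = rB (insert b B) F := by
  have : (rb b).comp (rB B) = rB (insert b B) := by
    refine algHom_ext fun v => ?_
    rw [AlgHom.comp_apply]
    unfold rB
    rcases v with v | ⟨b', i⟩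
    · rw [ev_inl, ev_inl]
      exact rb_inl b v
    · rw [ev_inr, ev_inr]
      by_cases hb : b' = b
      · subst hb
        rw [if_neg h, if_pos (by simp), rb_gW]
      · by_cases hB : b' ∈ B
        · rw [if_pos hB, if_pos (by simp [hB])]
          cases i with
          | zero => exact map_zero _
          | succ i => exact rb_gW_ne hb i
        · rw [if_neg hB, if_neg (by simp [hB, hb])]
          exact rb_gW_ne hb i
  exact congrArg (fun φ => φ F) this

lemma rB_face (B : Finset ι) (j : ℕ) (F : RR ι) :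
    face (tB B) j (rB B F) = rB B (face (fun _ => 0) j F) := by
  refine subst_face (fun b i => ?_) F
  by_cases hb : b ∈ B
  · rw [if_pos hb]
    have e : tB B b = 1 := by simp [tB, hb]
    cases i with
    | zero =>
      change face (tB B) j 0 = _
      rw [map_zero]
      cases j with
      | zero =>
        simp only [fw, if_pos hb]
        rw [act_shw]
        rfl
      | succ j => simp only [fw, if_pos hb]; rfl
    | succ i =>
      change face (tB B) j (gW b i) = _
      rw [face_gW]
      cases j with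
      | zero =>
        simp only [fw, if_pos hb]
        rw [act_shw, e]
        rfl
      | succ j => simp only [fw, if_pos hb]; rfl
  · rw [if_neg hb]
    have e : tB B b = 0 := by simp [tB, hb]
    rw [face_gW]
    cases j with
    | zero => simp only [fw, if_neg hb, e]
    | succ j => simp only [fw, if_neg hb]

lemma rB_d (B : Finset ι) (n : ℕ) (F : RR ι) :
    dR (tB B) n (rB B F) = rB B (dR (fun _ => 0) n F) := by
  rw [dR_apply, dR_apply, map_sum]
  exact Finset.sum_congr rfl fun j _ => rB_face B j F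

lemma rB_lev (B : Finset ι) {n : ℕ} {F : RR ι} (hF : F ∈ lev ι n) : rB B F ∈ lev ι n := by
  refine subst_lev (fun n b i => ?_) hF
  split_ifs
  · cases i with
    | zero => exact map_zero _
    | succ i => exact prj_gW _ _ _
  · exact prj_gW _ _ _

lemma rB_gr (c : ι → ℤ × ℤ) (B : Finset ι) :
    Gr (wt c (fun _ => 0)) (wt c (tB B)) id (rB B).toLinearMap := by
  refine subst_gr fun b i => ?_
  split_ifs with hb
  · cases i with
    | zero => exact isWeightedHomogeneous_zero _ _ _
    | succ i =>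
      have h1 := wh_gW c (tB B) b i
      have e : tB B b = 1 := by simp [tB, hb]
      rw [e] at h1
      exact h1
  · have h1 := wh_gW c (tB B) b i
    have e : tB B b = 0 := by simp [tB, hb]
    rw [e] at h1
    exact h1

/-- Lifting a bounding cochain along all the invariant coordinates. -/
lemma ExT.lift [Fintype ι] {p n : ℕ} {m : ℤ}
    (h : ∀ k : ℕ, k < n → ExT ι (fun _ => 1) p k (m - (n - k))) (hn : 1 ≤ n)
    {F : RR ι} (hF : F ∈ lev ι (p + 1))
    (hFw : WH (wt (fun _ => (1, 0)) (fun _ => 0)) F ((n, 0), m))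
    (hd : dR (fun _ => 0) (p + 1) F = 0) :
    ∀ B : Finset ι, (∃ y ∈ lev ι p, WH (wt (fun _ => (1, 0)) (tB B)) y ((n, 0), m) ∧
      dR (tB B) p y = rB B F) →
    ∃ y ∈ lev ι p, WH (wt (fun _ => (1, 0)) (fun _ => 0)) y ((n, 0), m) ∧
      dR (fun _ => 0) p y = F := by
  intro B
  induction B using Finset.induction_on with
  | empty =>
    rintro ⟨y, hy, hyw, e⟩
    rw [tB_empty] at hyw e
    rw [rB_empty] at e
    exact ⟨y, hy, hyw, e⟩
  | insert b B hb ih =>
    rintro ⟨y, hy, hyw, e⟩
    apply ih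
    have hA : ExT ι (tB B) p ((n : ℤ) - 1) (m - 1) := by
      have h1 := ExT.chain (p := p) _ B rfl (n - 1) (m - 1) (fun k hk => by
        have := h k (by omega)
        have e : m - 1 - (((n - 1 : ℕ) : ℤ) - k) = m - ((n : ℤ) - k) := by
          rw [Nat.cast_sub hn]; push_cast; ring
        rw [e]
        exact this)
      rw [Nat.cast_sub hn] at h1
      exact h1
    rw [← tw_tB hb] at hyw e
    obtain ⟨z, hz, ez⟩ := (sesW (fun _ => (1, 0)) (tB B) b (((n : ℤ), 0), m)
      (((n : ℤ) - 1, 0), m - 1) (ses_tB hb n m)).lift hA (x := rB B F)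
      ⟨rB_lev B hF, (rB_gr _ B).map hFw⟩ (by
        change dR (tB B) (p + 1) (rB B F) = 0
        rw [rB_d, hd, map_zero])
      ⟨y, ⟨hy, hyw⟩, by
        change dR (tw (tB B) b) p y = rb b (rB B F)
        rw [e, rb_rB hb]⟩
    exact ⟨z, hz.1, hz.2, ez⟩

end chain

section first

variable {ι : Type*} [DecidableEq ι]

/-- The polarisation operator in the direction of the copy `b`. -/
noncomputable def DO (b : ι) : Derivation (ZMod 2) (RR (Option ι)) (RR (Option ι)) :=
  mkDerivation (ZMod 2) (Sum.elim (fun _ => 0)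
    (fun v => if v.1 = some b then X (Sum.inr (none, v.2)) else 0))

lemma DO_inl (b : ι) (v : ℕ × ℕ) : DO b (X (Sum.inl v)) = 0 := by
  unfold DO; rw [mkDerivation_X]; rfl

lemma DO_gW (b : ι) (o : Option ι) (i : ℕ) :
    DO b (gW o i) = if o = some b then gW none i else 0 := by
  unfold DO gW; rw [mkDerivation_X]; rfl

lemma DO_gG (b : ι) (a n : ℕ) : DO b ((gG a).co n) = 0 := by
  cases n with
  | zero => exact Derivation.map_one_eq_zero _
  | succ n => exact DO_inl b (a, n)

lemma der_co_pow {V : Type*} (D : Derivation (ZMod 2) (PF V) (PF V)) {f : PF V} (h : D f = 0)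
    (k : ℕ) : D (f ^ k) = 0 := by
  rw [Derivation.leibniz_pow, h, smul_zero, smul_zero]

lemma der_act_const {V : Type*} (D : Derivation (ZMod 2) (PF V) (PF V)) {τ : ℕ} {g : Pt (PF V)}
    (hg : ∀ n, D (g.co n) = 0) (u : ℕ → PF V) (n : ℕ) :
    D (act τ g u n) = act τ g (fun i => D (u i)) n := by
  rw [act_apply, act_apply, map_sum]
  refine Finset.sum_congr rfl fun p _ => ?_
  rw [Derivation.leibniz, der_co_pow D (hg _), smul_zero, add_zero, smul_eq_mul]

lemma der_mul_const {V : Type*} (D : Derivation (ZMod 2) (PF V) (PF V)) {g h : Pt (PF V)}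
    (hg : ∀ n, D (g.co n) = 0) (hh : ∀ n, D (h.co n) = 0) (n : ℕ) :
    D ((g * h).co n) = 0 := by
  rw [Pt.co_mul, map_sum]
  refine Finset.sum_eq_zero fun p _ => ?_
  rw [Derivation.leibniz, der_co_pow D (hg _), hh, smul_zero, smul_zero, add_zero]

lemma der_fg_const {V : Type*} (D : Derivation (ZMod 2) (PF V) (PF V)) {g : ℕ → Pt (PF V)}
    (hg : ∀ a n, D ((g a).co n) = 0) (j a n : ℕ) : D ((fg j g a).co n) = 0 := by
  cases j with
  | zero => exact hg _ _
  | succ j =>
    simp only [fg]
    split_ifs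
    · exact hg _ _
    · exact der_mul_const D (hg _) (hg _) n
    · exact hg _ _

lemma DO_face (b : ι) (j : ℕ) (F : RR (Option ι)) :
    DO b (face (fun _ => 0) j F) = face (fun _ => 0) j (DO b F) := by
  refine der_hom (fun v => ?_) F
  rcases v with v | ⟨o, i⟩
  · rw [DO_inl, map_zero]
    unfold face
    rw [ev_inl]
    exact der_fg_const _ (DO_gG b) _ _ _
  · change DO b (face _ j (gW o i)) = face _ j (DO b (gW o i))
    rw [DO_gW, face_gW]
    cases j with
    | zero =>
      simp only [fw]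
      rw [der_act_const _ (DO_gG b 0)]
      split_ifs with h
      · rw [face_gW]
        simp only [fw]
        congr 1
        funext k
        rw [DO_gW, if_pos h]
      · rw [map_zero]
        have e : (fun i => DO b (gW o i)) = fun _ => 0 := by
          funext k
          rw [DO_gW, if_neg h]
        rw [e, act_zero']
    | succ j =>
      simp only [fw]
      rw [DO_gW]
      split_ifs with h
      · rw [face_gW]
        simp only [fw]
      · rw [map_zero]

lemma DO_d (b : ι) (n : ℕ) (F : RR (Option ι)) :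
    DO b (dR (fun _ => 0) n F) = dR (fun _ => 0) n (DO b F) := by
  rw [dR_apply, dR_apply, map_sum]
  exact Finset.sum_congr rfl fun j _ => DO_face b j F

lemma DO_gr (b : ι) : Gr (wt cO (fun _ => 0)) (wt cO (fun _ => 0))
    (fun m => m + ((-1, 1), 0)) (DO b).toLinearMap := by
  refine Gr.of_der fun v => ?_
  rcases v with v | ⟨o, i⟩
  · rw [DO_inl]; exact isWeightedHomogeneous_zero _ _ _
  · change WH _ (DO b (gW o i)) _
    rw [DO_gW]
    split_ifs with h
    · subst h
      have h1 := wh_gW (cO (ι := ι)) (fun _ => 0) none i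
      have e : wt (cO (ι := ι)) (fun _ => 0) (Sum.inr (some b, i)) + ((-1, 1), 0) =
          (cO (none : Option ι), 2 ^ (i + 0)) := by
        change ((((1 : ℤ), (0 : ℤ)), (2 : ℤ) ^ (i + 0)) : (ℤ × ℤ) × ℤ) + ((-1, 1), 0) =
          (((0 : ℤ), (1 : ℤ)), (2 : ℤ) ^ (i + 0))
        simp
      rw [e]
      exact h1
    · exact isWeightedHomogeneous_zero _ _ _

lemma prj_gG_const (n a k : ℕ) {κ : Type*} :
    prj n ((gG (ι := κ) a).co k) = (if a < n then (gG a).co k else (1 : Pt (RR κ)).co k) := by
  have h : mapPt (prj (ι := κ) n) (gG a) = if a < n then gG a else 1 := by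
    unfold prj
    exact mapPt_ev _ _ _
  have h2 := congrArg (fun g => g.co k) h
  simp only [mapPt_co] at h2
  rw [h2]
  split_ifs <;> rfl

/-- Derivations which vanish on the group coordinates and do not mix levels. -/
lemma der_lev {κ : Type*} {D : Derivation (ZMod 2) (RR κ) (RR κ)}
    (hg : ∀ v, D (X (Sum.inl v)) = 0) (hw : ∀ n v, prj n (D (X (Sum.inr v))) = D (X (Sum.inr v)))
    {n : ℕ} {F : RR κ} (hF : F ∈ lev κ n) : D F ∈ lev κ n := by
  cases n with
  | zero =>
    rw [mem_lev_zero] at hF ⊢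
    rw [hF, map_zero]
  | succ n =>
    rw [mem_lev_succ] at hF ⊢
    have : D (prj n F) = prj n (D F) := by
      refine der_hom (fun v => ?_) F
      rcases v with v | v
      · rw [hg, map_zero]
        by_cases hv : v.1 < n
        · rw [prj_inl_lt hv, hg]
        · rw [prj_inl_ge hv, map_zero]
      · rw [prj_inr, hw]
    rw [← this, hF]

lemma DO_lev (b : ι) {n : ℕ} {F : RR (Option ι)} (hF : F ∈ lev (Option ι) n) :
    DO b F ∈ lev (Option ι) n := by
  refine der_lev (DO_inl b) (fun n v => ?_) hF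
  change prj n (DO b (gW v.1 v.2)) = DO b (gW v.1 v.2)
  rw [DO_gW]
  split_ifs
  · exact prj_gW _ _ _
  · exact map_zero _

/-- The map `χ_1`. -/
noncomputable def chi1 : RR (Option ι) →ₐ[ZMod 2] RR ι :=
  ev (fun a => gG (a + 1)) (fun o => match o with
    | none => fun i => (gG 0).co (i + 1)
    | some b => act 1 (gG 0) (gW b))

omit [DecidableEq ι] in
lemma chi1_jO (F : RR ι) : chi1 (jO F) = face (fun _ => 1) 0 F := by
  have : (chi1 (ι := ι)).comp jO = face (fun _ => 1) 0 := by
    refine algHom_ext fun v => ?_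
    rw [AlgHom.comp_apply]
    unfold chi1 jO face
    rcases v with v | v
    · rw [ev_inl, ev_inl]
      change ev _ _ (X (Sum.inl v)) = _
      rw [ev_inl]
      rfl
    · rw [ev_inr, ev_inr]
      change ev _ _ (X (Sum.inr (some v.1, v.2))) = _
      rw [ev_inr]
      rfl
  exact congrArg (fun φ => φ F) this

/-- Inflation with the extra copy. -/
noncomputable def inflO : RR (Option ι) →ₐ[ZMod 2] RR (Option ι) :=
  ev (fun a => frobPt (gG a)) gW

omit [DecidableEq ι] in
lemma inflO_inl (v : ℕ × ℕ) : inflO (ι := ι) (X (Sum.inl v)) = X (Sum.inl v) ^ 2 := by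
  unfold inflO; rw [ev_inl]; rfl

omit [DecidableEq ι] in
lemma inflO_gW (o : Option ι) (i : ℕ) : inflO (gW o i) = gW o i := by
  unfold inflO; exact ev_gW _ _ _ _

omit [DecidableEq ι] in
lemma jO_infl (F : RR ι) : jO (infl F) = inflO (jO F) := by
  have : (jO (ι := ι)).comp infl = inflO.comp jO := by
    refine algHom_ext fun v => ?_
    rw [AlgHom.comp_apply, AlgHom.comp_apply]
    rcases v with v | v
    · rw [infl_inl, map_pow]
      unfold jO
      rw [ev_inl]
      change _ = inflO (X (Sum.inl v))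
      rw [inflO_inl]
      rfl
    · rw [infl_inr]
      unfold jO
      rw [ev_inr]
      exact (inflO_gW _ _).symm
  exact congrArg (fun φ => φ F) this

lemma DO_inflO (b : ι) (F : RR (Option ι)) : DO b (inflO F) = inflO (DO b F) := by
  refine der_hom (fun v => ?_) F
  rcases v with v | ⟨o, i⟩
  · rw [inflO_inl, DO_inl, map_zero]
    exact der_pow2 _ _ 0
  · change DO b (inflO (gW o i)) = inflO (DO b (gW o i))
    rw [inflO_gW, DO_gW]
    split_ifs
    · exact (inflO_gW _ _).symm
    · exact (map_zero _).symm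

/-- The formula for the failure of `TQ` to commute with the face map number `0`. -/
lemma TQ_face_zero (b : ι) (y : RR ι) :
    faceQ 0 (TQ (DO b (jO y))) + TQ (face (fun _ => 0) 0 (DO b (jO y))) =
      DQ (EQ (chi1 (inflO (DO b (jO y))))) := by
  have hD := (IsDer.of (DO b)).right (jO (ι := ι))
  have h1 := (hD.left (TQ (ι := ι))).left (faceQ 0)
  have h2 := (hD.left (face (fun _ : Option ι => 0) 0)).left (TQ (ι := ι))
  have h3 := ((hD.left (inflO (ι := ι))).left chi1).left (EQ (ι := ι))
  have e12 : (TQ (ι := ι)).comp ((face (fun _ : Option ι => 0) 0).comp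
      ((AlgHom.id _ _).comp (jO (ι := ι)))) =
      (faceQ 0).comp ((TQ (ι := ι)).comp ((AlgHom.id _ _).comp (jO (ι := ι)))) := by
    refine hom_eq (fun a => ?_) (fun b' i => ?_)
    · refine Pt_ext' fun n => ?_
      change TQ (face _ 0 (jO (X (Sum.inl (a, n))))) = faceQ 0 (TQ (jO (X (Sum.inl (a, n)))))
      have e : jO (ι := ι) (X (Sum.inl (a, n))) = X (Sum.inl (a, n)) := by
        unfold jO; rw [ev_inl]; rfl
      rw [e, TQ_g, map_pow]
      unfold face faceQ
      rw [ev_inl, evQ_g]
      simp only [fg]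
      exact TQ_g (a + 1, n)
    · change TQ (face _ 0 (jO (gW b' i))) = faceQ 0 (TQ (jO (gW b' i)))
      have e : jO (ι := ι) (gW b' i) = gW (some b') i := by
        unfold jO; exact ev_gW _ _ _ _
      have e2 : ∀ k, TQ (gW (some b') k) = wQ (some b') k := fun k => TQ_w (some b', k)
      rw [e, e2, face_gW]
      simp only [fw]
      rw [map_act]
      have e3 : (fun i => TQ (gW (some b') i)) = wQ (some b') := by
        funext k
        exact e2 k
      have e4 : mapPt (TQ (ι := ι)) (gG 0) = frobPt (gQ 0) := by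
        unfold TQ; exact mapPt_ev _ _ _
      rw [e3, e4, act_frobPt]
      unfold faceQ
      rw [evQ_wQ]
      simp only [fo]
  have e13 : (EQ (ι := ι)).comp (chi1.comp (inflO.comp ((AlgHom.id _ _).comp (jO (ι := ι))))) =
      (faceQ 0).comp ((TQ (ι := ι)).comp ((AlgHom.id _ _).comp (jO (ι := ι)))) := by
    refine hom_eq (fun a => ?_) (fun b' i => ?_)
    · refine Pt_ext' fun n => ?_
      change EQ (chi1 (inflO (jO (X (Sum.inl (a, n)))))) = faceQ 0 (TQ (jO (X (Sum.inl (a, n)))))
      have e : jO (ι := ι) (X (Sum.inl (a, n))) = X (Sum.inl (a, n)) := by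
        unfold jO; rw [ev_inl]; rfl
      rw [e, TQ_g, map_pow, inflO_inl, map_pow]
      unfold faceQ chi1 EQ
      rw [ev_inl, evQ_g, map_pow]
      simp only [fg]
      change ev _ _ (X (Sum.inl (a + 1, n))) ^ 2 = _
      rw [ev_inl]
    · change EQ (chi1 (inflO (jO (gW b' i)))) = faceQ 0 (TQ (jO (gW b' i)))
      have e : jO (ι := ι) (gW b' i) = gW (some b') i := by
        unfold jO; exact ev_gW _ _ _ _
      have e2 : ∀ k, TQ (gW (some b') k) = wQ (some b') k := fun k => TQ_w (some b', k)
      rw [e, e2, inflO_gW]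
      unfold chi1
      rw [ev_gW]
      simp only
      rw [map_act]
      have e3 : (fun i => EQ (gW b' i)) = wQ (some b') := by
        funext k
        unfold EQ; exact ev_gW _ _ _ _
      have e4 : mapPt (EQ (ι := ι)) (gG 0) = gQ 0 := by
        unfold EQ; exact mapPt_ev _ _ _
      rw [e3, e4]
      unfold faceQ
      rw [evQ_wQ]
      simp only [fo]
  have h4 := h3.der DQ (fun f => by
    rw [e13, ← e12]
    exact DQ_TQ _)
  rw [e12] at h2
  refine IsDer.ext (h1.add h2) h4 e13.symm (fun v => ?_) y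
  change faceQ 0 (TQ (DO b (jO (X v)))) + TQ (face (fun _ => 0) 0 (DO b (jO (X v)))) =
      DQ (EQ (chi1 (inflO (DO b (jO (X v))))))
  rcases v with v | ⟨b', i⟩
  · have e : jO (ι := ι) (X (Sum.inl v)) = X (Sum.inl v) := by
      unfold jO; rw [ev_inl]; rfl
    rw [e, DO_inl]
    simp only [map_zero, add_zero]
  · have e : jO (ι := ι) (X (Sum.inr (b', i))) = gW (some b') i := by
      unfold jO; rw [ev_inr]
    rw [e, DO_gW]
    split_ifs with h
    · have e2 : ∀ k, TQ (gW (none : Option ι) k) = wQ none k := fun k => TQ_w (none, k)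
      rw [e2, face_gW, inflO_gW]
      simp only [fw]
      rw [map_act]
      have e3 : (fun i => TQ (gW (none : Option ι) i)) = wQ none := by
        funext k
        exact e2 k
      have e4 : mapPt (TQ (ι := ι)) (gG 0) = frobPt (gQ 0) := by
        unfold TQ; exact mapPt_ev _ _ _
      rw [e3, e4, act_frobPt]
      unfold faceQ chi1
      rw [evQ_wQ, ev_gW]
      simp only [fo]
      rw [add_add_self2]
      have e5 : EQ ((gG (ι := ι) 0).co (i + 1)) = (gQ 0).co (i + 1) := by
        unfold EQ; exact ev_inl _ _ _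
      rw [e5, DQ_gQ]
    · simp only [map_zero, add_zero]

variable [Fintype ι]

/-- Forget all the invariant coordinates. -/
noncomputable abbrev rU : RR ι →ₐ[ZMod 2] RR ι := rB Finset.univ

lemma rU_gW (b : ι) (i : ℕ) : rU (gW b i) = shw (gW b) i := by
  unfold rU rB
  rw [ev_gW, if_pos (Finset.mem_univ _)]

lemma rU_gG (a n : ℕ) : rU ((gG (ι := ι) a).co n) = (gG a).co n := by
  cases n with
  | zero => exact map_one _
  | succ n =>
    change rU (X (Sum.inl (a, n))) = X (Sum.inl (a, n))
    unfold rU rB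
    rw [ev_inl]
    rfl

lemma rU_face (j : ℕ) (F : RR ι) :
    face (fun _ => 1) j (rU F) = rU (face (fun _ => 0) j F) := by
  have := rB_face (Finset.univ : Finset ι) j F
  rw [tB_univ] at this
  exact this

/-- The derivative in the direction of an invariant coordinate. -/
noncomputable abbrev dW (b : ι) : Derivation (ZMod 2) (RR ι) (RR ι) := pderiv (Sum.inr (b, 0))

omit [Fintype ι] in
lemma dW_gW (b b' : ι) (i : ℕ) : dW b (gW b' i) = if b' = b ∧ i = 0 then 1 else 0 := by
  unfold dW gW
  rw [pderiv_X]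
  by_cases h : b' = b ∧ i = 0
  · rw [if_pos h, h.1, h.2, Pi.single_eq_same]
  · rw [if_neg h]
    refine Pi.single_eq_of_ne ?_ _
    intro e
    apply h
    have := Sum.inr_injective e
    exact ⟨(Prod.mk.inj this).1, (Prod.mk.inj this).2⟩

omit [Fintype ι] [DecidableEq ι] in
lemma dW_gG (b : ι) (a n : ℕ) : dW b ((gG (ι := ι) a).co n) = 0 := by
  cases n with
  | zero => exact Derivation.map_one_eq_zero _
  | succ n => exact pderiv_X_of_ne (by simp)

omit [Fintype ι] in
lemma dW_face_succ (b : ι) (j : ℕ) (F : RR ι) :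
    dW b (face (fun _ => 0) (j + 1) F) = face (fun _ => 0) (j + 1) (dW b F) := by
  refine der_hom (fun v => ?_) F
  rcases v with v | ⟨b', i⟩
  · have h1 : dW b (X (Sum.inl v) : RR ι) = 0 := pderiv_X_of_ne (by simp)
    rw [h1, map_zero]
    unfold face
    rw [ev_inl]
    exact der_fg_const _ (dW_gG b) _ _ _
  · change dW b (face _ (j + 1) (gW b' i)) = face _ (j + 1) (dW b (gW b' i))
    rw [dW_gW, face_gW]
    simp only [fw]
    rw [dW_gW]
    split_ifs
    · exact (map_one _).symm
    · exact (map_zero _).symm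

lemma Fb_face_succ (b : ι) (j : ℕ) (F : RR ι) :
    rU (dW b (face (fun _ => 0) (j + 1) F)) = face (fun _ => 1) (j + 1) (rU (dW b F)) := by
  rw [dW_face_succ, rU_face]

lemma Fb_face_zero (b : ι) (F : RR ι) :
    rU (dW b (face (fun _ => 0) 0 F)) =
      face (fun _ => 1) 0 (rU (dW b F)) + chi1 (DO b (jO (rU F))) := by
  have h1 := ((IsDer.of (dW b)).right (face (fun _ : ι => 0) 0)).left (rU (ι := ι))
  have h2 := ((IsDer.of (dW b)).left (rU (ι := ι))).left (face (fun _ : ι => 1) 0)
  have h3 := (((IsDer.of (DO b)).right (jO (ι := ι))).right (rU (ι := ι))).left (chi1 (ι := ι))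
  have e1 : (rU (ι := ι)).comp ((AlgHom.id _ _).comp (face (fun _ : ι => 0) 0)) =
      (face (fun _ : ι => 1) 0).comp ((rU (ι := ι)).comp (AlgHom.id _ _)) := by
    refine AlgHom.ext fun F => ?_
    exact (rU_face 0 F).symm
  have e2 : (chi1 (ι := ι)).comp (((AlgHom.id _ _).comp (jO (ι := ι))).comp (rU (ι := ι))) =
      (face (fun _ : ι => 1) 0).comp ((rU (ι := ι)).comp (AlgHom.id _ _)) := by
    refine AlgHom.ext fun F => ?_
    exact chi1_jO _
  rw [e2] at h3
  refine IsDer.ext h1 (h2.add h3) e1 (fun v => ?_) F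
  change rU (dW b (face (fun _ => 0) 0 (X v))) =
      face (fun _ => 1) 0 (rU (dW b (X v))) + chi1 (DO b (jO (rU (X v))))
  rcases v with v | ⟨b', i⟩
  · have h1 : dW b (X (Sum.inl v) : RR ι) = 0 := pderiv_X_of_ne (by simp)
    have h2 : rU (ι := ι) (X (Sum.inl v)) = X (Sum.inl v) := rU_gG v.1 (v.2 + 1)
    have h3 : jO (ι := ι) (X (Sum.inl v)) = X (Sum.inl v) := by
      unfold jO; rw [ev_inl]; rfl
    rw [h1, h2, h3, DO_inl]
    unfold face
    rw [ev_inl]
    simp only [map_zero, add_zero]
    have h4 : dW b ((fg 0 gG v.1).co (v.2 + 1) : RR ι) = 0 := der_fg_const _ (dW_gG b) _ _ _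
    rw [h4, map_zero]
  · change rU (dW b (face (fun _ => 0) 0 (gW b' i))) =
      face (fun _ => 1) 0 (rU (dW b (gW b' i))) + chi1 (DO b (jO (rU (gW b' i))))
    rw [face_gW, rU_gW, dW_gW]
    simp only [fw]
    rw [der_act_const _ (dW_gG b 0)]
    have hj : ∀ k, jO (ι := ι) (gW b' k) = gW (some b') k := by
      intro k; unfold jO; exact ev_gW _ _ _ _
    by_cases hb : b' = b
    · subst hb
      have e3 : (fun i => dW b' (gW b' i : RR ι)) = fun i => if i = 0 then 1 else 0 := by
        funext k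
        rw [dW_gW]
        simp
      have e4 : act 0 (gG 0) (fun i => if i = 0 then (1 : RR ι) else 0) i = (gG 0).co i := by
        rw [act_apply, Finset.sum_eq_single (i, 0)]
        · simp
        · rintro ⟨p, q⟩ hp hne
          have : q ≠ 0 := by
            rintro rfl
            apply hne
            have := mem_antidiagonal.1 hp
            simp only [add_zero] at this
            rw [this]
          simp [this]
        · intro h
          exact absurd (mem_antidiagonal.2 (by simp)) h
      rw [e3, e4, rU_gG]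
      cases i with
      | zero =>
        simp only [shw, map_zero, add_zero, and_self, if_true, map_one]
        exact Pt.co_zero _
      | succ i =>
        simp only [shw]
        rw [hj, DO_gW, if_pos rfl, if_neg (by simp), map_zero, map_zero, zero_add]
        unfold chi1
        rw [ev_gW]
    · have e3 : (fun i => dW b (gW b' i : RR ι)) = fun _ => 0 := by
        funext k
        rw [dW_gW, if_neg (by simp [hb])]
      rw [e3, act_zero', if_neg (by simp [hb])]
      cases i with
      | zero => simp only [shw, map_zero, add_zero]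
      | succ i =>
        simp only [shw]
        rw [hj, DO_gW, if_neg (by simp [hb])]
        simp only [map_zero, add_zero]

/-- The first order coefficient of a cocycle bounds. -/
lemma Fb_d (b : ι) {n : ℕ} {F : RR ι} (hd : dR (fun _ => 0) n F = 0) :
    dR (fun _ => 1) n (rU (dW b F)) = chi1 (DO b (jO (rU F))) := by
  have h1 : rU (dW b (dR (fun _ => 0) n F)) = rU (dW b (0 : RR ι)) := by rw [hd]
  rw [map_zero, map_zero, dR_apply, map_sum, map_sum, Finset.sum_range_succ', Fb_face_zero] at h1
  rw [dR_apply, Finset.sum_range_succ']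
  have h2 : ∑ j ∈ Finset.range n, rU (dW b (face (fun _ => 0) (j + 1) F)) =
      ∑ j ∈ Finset.range n, face (fun _ => 1) (j + 1) (rU (dW b F)) :=
    Finset.sum_congr rfl fun j _ => Fb_face_succ b j F
  rw [h2, ← add_assoc] at h1
  exact add_eq_zero2.1 h1

omit [Fintype ι] [DecidableEq ι] in
lemma dW_gr (b : ι) (τ : ι → ℕ) (m : (ℤ × ℤ) × ℤ)
    (hm : m = -(wt (fun _ => (1, 0)) τ (Sum.inr (b, 0)))) :
    Gr (wt (fun _ => (1, 0)) τ) (wt (fun _ => (1, 0)) τ) (fun x => x + m)
      (dW b).toLinearMap := by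
  refine Gr.of_der fun v => ?_
  by_cases hv : v = Sum.inr (b, 0)
  · subst hv
    rw [pderiv_X_self, hm, add_neg_cancel]
    exact isWeightedHomogeneous_one _ _
  · rw [pderiv_X_of_ne hv]
    exact isWeightedHomogeneous_zero _ _ _

omit [Fintype ι] [DecidableEq ι] in
lemma dW_lev (b : ι) {n : ℕ} {F : RR ι} (hF : F ∈ lev ι n) : dW b F ∈ lev ι n := by
  classical
  refine der_lev (fun v => pderiv_X_of_ne (by simp)) (fun n v => ?_) hF
  change prj n (dW b (gW v.1 v.2)) = dW b (gW v.1 v.2)
  rw [dW_gW]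
  split_ifs
  · exact map_one _
  · exact map_zero _

end first

end Pool.Agent.Work.MP_701abf_gt.Stab
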