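import Mathlib

/-!
An abstract two-step comparison of complexes (a double complex whose columns are exact in
positive degree and whose rows have the cohomology of a third complex).  All modules are over
the field with two elements.  The cochain index is shifted by one: index `0` is zero, index
`n + 1` is cochain degree `n`.
-/

namespace Pool.Agent.Work.MP_701abf_gt.Stab

section char2

variable {M : Type*} [AddCommGroup M] [Module (ZMod 2) M]

lemma add_self2 (x : M) : x + x = 0 := by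
  have : (2 : ZMod 2) • x = x + x := two_smul _ x
  rw [← this, show (2 : ZMod 2) = 0 from rfl, zero_smul]

lemma neg_eq2 (x : M) : -x = x := by
  rw [neg_eq_iff_add_eq_zero]; exact add_self2 x

lemma sub_eq2 (x y : M) : x - y = x + y := by
  rw [sub_eq_add_neg, neg_eq2]

lemma add_eq_zero2 {x y : M} : x + y = 0 ↔ x = y := by
  rw [← sub_eq2, sub_eq_zero]

lemma add_add_self2 (x y : M) : x + y + y = x := by
  rw [add_assoc, add_self2, add_zero]

lemma add_eq2 {x y z : M} (h : x + y = z) : x = z + y := by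
  rw [← h, add_add_self2]

end char2

/-- Data for the comparison. -/
structure HSD (Q C : Type*) [AddCommGroup Q] [Module (ZMod 2) Q]
    [AddCommGroup C] [Module (ZMod 2) C] where
  D : Q →ₗ[ZMod 2] Q
  δ : ℕ → Q →ₗ[ZMod 2] Q
  gr : ℤ → ℕ → Submodule (ZMod 2) Q
  dC : ℕ → C →ₗ[ZMod 2] C
  grC : ℤ → ℕ → Submodule (ZMod 2) C
  T : C →ₗ[ZMod 2] Q
  gr_zero : ∀ q x, x ∈ gr q 0 → x = 0
  grC_zero : ∀ q x, x ∈ grC q 0 → x = 0
  gr_neg : ∀ q n x, q < 0 → x ∈ gr q n → x = 0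
  D_mem : ∀ q n x, x ∈ gr q n → D x ∈ gr (q + 1) n
  δ_mem : ∀ q n x, x ∈ gr q n → δ n x ∈ gr q (n + 1)
  dC_mem : ∀ q n x, x ∈ grC q n → dC n x ∈ grC q (n + 1)
  T_mem : ∀ q n x, x ∈ grC q n → T x ∈ gr q n
  DD : ∀ x, D (D x) = 0
  δδ : ∀ q n x, x ∈ gr q n → δ (n + 1) (δ n x) = 0
  Dδ : ∀ n x, D (δ n x) = δ n (D x)
  DT : ∀ x, D (T x) = 0
  col : ∀ q n x, 1 ≤ q → x ∈ gr q (n + 1) → δ (n + 1) x = 0 → ∃ y ∈ gr q n, δ n y = x
  poin : ∀ q n x, x ∈ gr q n → D x = 0 → ∃ y ∈ grC q n, ∃ v ∈ gr (q - 1) n, x = T y + D v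
  inj : ∀ q n y v, y ∈ grC q n → v ∈ gr (q - 1) n → T y = D v → y = 0
  comp : ∀ q n y, y ∈ grC q n → ∃ v ∈ gr (q - 1) (n + 1), δ n (T y) = T (dC n y) + D v

namespace HSD

variable {Q C : Type*} [AddCommGroup Q] [Module (ZMod 2) Q]
    [AddCommGroup C] [Module (ZMod 2) C] (S : HSD Q C)

/-- Exactness of the complex `C` at cochain degree `n`. -/
def ExC (q : ℤ) (n : ℕ) : Prop :=
  ∀ y ∈ S.grC q (n + 1), S.dC (n + 1) y = 0 → ∃ z ∈ S.grC q n, S.dC n z = y

lemma δδ' {q : ℤ} {n : ℕ} {x : Q} (hx : x ∈ S.gr q (n - 1)) :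
    S.δ n (S.δ (n - 1) x) = 0 := by
  cases n with
  | zero => rw [S.gr_zero _ _ hx, map_zero, map_zero]
  | succ m => exact S.δδ _ _ _ hx

/-- The key lemma. -/
lemma key : ∀ (n : ℕ) (q : ℤ), 0 ≤ q → ∀ x ∈ S.gr q n, ∀ w ∈ S.gr (q - 1) (n + 1),
    S.δ n x = S.D w → (∀ i < n, S.ExC (q + i) (n - 1 - i)) →
    ∃ h ∈ S.gr (q - 1) n, ∃ h' ∈ S.gr q (n - 1), x = S.D h + S.δ (n - 1) h' := by
  intro n
  induction n with
  | zero =>
    intro q _ x hx w _ _ _
    refine ⟨0, Submodule.zero_mem _, 0, Submodule.zero_mem _, ?_⟩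
    rw [S.gr_zero _ _ hx, map_zero, map_zero, add_zero]
  | succ n ih =>
    intro q hq x hx w hw hxw hE
    have h1 : S.δ (n + 1) (S.D x) = 0 := by
      rw [← S.Dδ, hxw, S.DD]
    obtain ⟨x2, hx2, hx2d⟩ := S.col (q + 1) n (S.D x) (by omega) (S.D_mem _ _ _ hx) h1
    obtain ⟨h2, hh2, h2', hh2', e2⟩ := ih (q + 1) (by omega) x2 hx2 x
      (by rw [add_sub_cancel_right]; exact hx) hx2d (fun i hi => by
        have := hE (i + 1) (by omega)
        rw [show q + 1 + (i : ℤ) = q + ((i + 1 : ℕ) : ℤ) by push_cast; ring,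
          show n - 1 - i = n + 1 - 1 - (i + 1) by omega]
        exact this)
    rw [add_sub_cancel_right] at hh2
    have h3 : S.D x = S.D (S.δ n h2) := by
      rw [← hx2d, e2, map_add, S.Dδ, S.δδ' hh2', add_zero]
    have h4 : S.D (x + S.δ n h2) = 0 := by
      rw [map_add, ← h3, add_self2]
    obtain ⟨y, hy, v, hv, e4⟩ := S.poin q (n + 1) _
      (Submodule.add_mem _ hx (S.δ_mem _ _ _ hh2)) h4
    obtain ⟨v2, hv2, e5⟩ := S.comp q (n + 1) y hy
    have h5 : S.dC (n + 1) y = 0 := by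
      refine S.inj q (n + 1 + 1) _ (w + v2 + S.δ (n + 1) v) (S.dC_mem _ _ _ hy)
        (Submodule.add_mem _ (Submodule.add_mem _ hw hv2) (S.δ_mem _ _ _ hv)) ?_
      have h6 : S.δ (n + 1) (x + S.δ n h2) = S.D w := by
        rw [map_add, S.δδ _ _ _ hh2, add_zero, hxw]
      rw [e4, map_add, e5, ← S.Dδ] at h6
      rw [map_add, map_add, ← h6]
      have e1 := add_self2 (S.D v2)
      have e2 := add_self2 (S.D (S.δ (n + 1) v))
      calc S.T (S.dC (n + 1) y) = S.T (S.dC (n + 1) y) + (S.D v2 + S.D v2)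
            + (S.D (S.δ (n + 1) v) + S.D (S.δ (n + 1) v)) := by rw [e1, e2, add_zero, add_zero]
        _ = _ := by abel
    obtain ⟨y', hy', e6⟩ := hE 0 (by omega) y (by simpa using hy) (by simpa using h5)
    have hy'' : y' ∈ S.grC q n := by simpa using hy'
    have e6' : S.dC n y' = y := by simpa using e6
    obtain ⟨v3, hv3, e7⟩ := S.comp q n y' hy''
    refine ⟨v + v3, Submodule.add_mem _ hv hv3, h2 + S.T y',
      Submodule.add_mem _ hh2 (S.T_mem _ _ _ hy''), ?_⟩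
    rw [show n + 1 - 1 = n from rfl, map_add, map_add, e7, e6']
    rw [add_eq2 e4]
    have e1 := add_self2 (S.D v3)
    calc S.T y + S.D v + S.δ n h2 = S.T y + S.D v + S.δ n h2 + (S.D v3 + S.D v3) := by
          rw [e1, add_zero]
      _ = _ := by abel

/-- Exactness of the column `q = 0`. -/
lemma vanish (n : ℕ) (hE : ∀ i ≤ n, S.ExC i (n - i)) (x : Q) (hx : x ∈ S.gr 0 (n + 1))
    (hd : S.δ (n + 1) x = 0) : ∃ h ∈ S.gr 0 n, S.δ n h = x := by
  obtain ⟨h, hh, h', hh', e⟩ := S.key (n + 1) 0 le_rfl x hx 0 (Submodule.zero_mem _)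
    (by rw [hd, map_zero]) (fun i hi => by
      rw [zero_add, show n + 1 - 1 - i = n - i by omega]
      exact hE i (by omega))
  have : h = 0 := S.gr_neg _ _ _ (by omega) hh
  rw [this, map_zero, zero_add] at e
  exact ⟨h', hh', e.symm⟩

/-- Surjectivity of the edge map. -/
lemma surj (n : ℕ) (hE : ∀ i, 1 ≤ i → i ≤ n → S.ExC i (n - i)) (x : Q)
    (hx : x ∈ S.gr 0 (n + 1)) (hd : S.δ (n + 1) x = 0) :
    ∃ y ∈ S.grC 0 (n + 1), S.dC (n + 1) y = 0 ∧ ∃ h ∈ S.gr 0 n, x = S.T y + S.δ n h := by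
  have h1 : S.δ (n + 1) (S.D x) = 0 := by rw [← S.Dδ, hd, map_zero]
  obtain ⟨x1, hx1, e1⟩ := S.col 1 n (S.D x) le_rfl (by simpa using S.D_mem _ _ _ hx) h1
  obtain ⟨h, hh, h', hh', e⟩ := S.key n 1 (by norm_num) x1 hx1 x (by simpa using hx) e1
    (fun i hi => by
      have := hE (i + 1) (by omega) (by omega)
      rw [show (1 : ℤ) + (i : ℤ) = ((i + 1 : ℕ) : ℤ) by push_cast; ring,
        show n - 1 - i = n - (i + 1) by omega]
      exact this)
  rw [sub_self] at hh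
  have h3 : S.D x = S.D (S.δ n h) := by
    rw [← e1, e, map_add, S.Dδ, S.δδ' hh', add_zero]
  have h4 : S.D (x + S.δ n h) = 0 := by rw [map_add, ← h3, add_self2]
  obtain ⟨y, hy, v, hv, e4⟩ := S.poin 0 (n + 1) _
    (Submodule.add_mem _ hx (S.δ_mem _ _ _ hh)) h4
  have hv0 : v = 0 := S.gr_neg _ _ _ (by omega) hv
  rw [hv0, map_zero, add_zero] at e4
  obtain ⟨v2, hv2, e5⟩ := S.comp 0 (n + 1) y hy
  refine ⟨y, hy, ?_, h, hh, ?_⟩
  · refine S.inj 0 (n + 1 + 1) _ v2 (S.dC_mem _ _ _ hy) hv2 ?_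
    rw [← e4, map_add, hd, S.δδ _ _ _ hh, add_zero] at e5
    exact add_eq_zero2.1 e5.symm
  · exact add_eq2 e4

/-- Injectivity of the edge map. -/
lemma injective (n : ℕ) (hE : ∀ i, 1 ≤ i → i + 1 ≤ n → S.ExC i (n - 1 - i)) (y : C)
    (hy : y ∈ S.grC 0 (n + 1)) (E : Q) (hE' : E ∈ S.gr 0 n) (hT : S.T y = S.δ n E) :
    ∃ z ∈ S.grC 0 n, S.dC n z = y := by
  cases n with
  | zero =>
    have h0 : E = 0 := S.gr_zero _ _ hE'
    rw [h0, map_zero] at hT
    refine ⟨0, Submodule.zero_mem _, ?_⟩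
    rw [map_zero]
    refine (S.inj 0 1 y 0 hy (Submodule.zero_mem _) ?_).symm
    rw [hT, map_zero]
  | succ n =>
    have h1 : S.δ (n + 1) (S.D E) = 0 := by rw [← S.Dδ, ← hT, S.DT]
    obtain ⟨x1, hx1, e1⟩ := S.col 1 n (S.D E) le_rfl (by simpa using S.D_mem _ _ _ hE') h1
    obtain ⟨h, hh, h', hh', e⟩ := S.key n 1 (by norm_num) x1 hx1 E (by simpa using hE') e1
      (fun i hi => by
        have := hE (i + 1) (by omega) (by omega)
        rw [show (1 : ℤ) + (i : ℤ) = ((i + 1 : ℕ) : ℤ) by push_cast; ring,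
          show n - 1 - i = n + 1 - 1 - (i + 1) by omega]
        exact this)
    rw [sub_self] at hh
    have h3 : S.D E = S.D (S.δ n h) := by
      rw [← e1, e, map_add, S.Dδ, S.δδ' hh', add_zero]
    have h4 : S.D (E + S.δ n h) = 0 := by rw [map_add, ← h3, add_self2]
    obtain ⟨z, hz, v, hv, e4⟩ := S.poin 0 (n + 1) _
      (Submodule.add_mem _ hE' (S.δ_mem _ _ _ hh)) h4
    have hv0 : v = 0 := S.gr_neg _ _ _ (by omega) hv
    rw [hv0, map_zero, add_zero] at e4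
    obtain ⟨v2, hv2, e5⟩ := S.comp 0 (n + 1) z hz
    refine ⟨z, hz, ?_⟩
    rw [← e4, map_add, ← hT, S.δδ _ _ _ hh, add_zero] at e5
    have h6 : y + S.dC (n + 1) z = 0 := by
      refine S.inj 0 (n + 1 + 1) _ v2 (Submodule.add_mem _ hy (S.dC_mem _ _ _ hz)) hv2 ?_
      rw [map_add, e5]
      have := add_self2 (S.T (S.dC (n + 1) z))
      calc S.T (S.dC (n + 1) z) + S.D v2 + S.T (S.dC (n + 1) z)
          = S.D v2 + (S.T (S.dC (n + 1) z) + S.T (S.dC (n + 1) z)) := by abel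
        _ = _ := by rw [this, add_zero]
    exact (add_eq_zero2.1 h6).symm

/-- The first non-trivial differential: a class of the row `q = 1` whose image `κ` is a
coboundary is itself a coboundary. -/
lemma edge (n : ℕ) (hE : ∀ i, 2 ≤ i → i ≤ n → S.ExC i (n - i)) (z : C)
    (hz : z ∈ S.grC 1 (n + 1)) (κ : Q) (hκ : S.δ (n + 1) (S.T z) = S.D κ)
    (E : Q) (hE' : E ∈ S.gr 0 (n + 1)) (hκE : κ = S.δ (n + 1) E) :
    ∃ y ∈ S.grC 1 n, S.dC n y = z := by
  have h0 : S.δ (n + 1) (S.T z + S.D E) = 0 := by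
    rw [map_add, hκ, hκE, S.Dδ, add_self2]
  have hDE : S.D E ∈ S.gr 1 (n + 1) := by simpa using S.D_mem _ _ _ hE'
  obtain ⟨x1, hx1, e1⟩ := S.col 1 n _ le_rfl (Submodule.add_mem _ (S.T_mem _ _ _ hz) hDE) h0
  cases n with
  | zero =>
    have : x1 = 0 := S.gr_zero _ _ hx1
    rw [this, map_zero] at e1
    refine ⟨0, Submodule.zero_mem _, ?_⟩
    rw [map_zero]
    refine (S.inj 1 _ z E hz (by simpa using hE') ?_).symm
    exact add_eq_zero2.1 e1.symm
  | succ n =>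
    have h1 : S.δ (n + 1) (S.D x1) = 0 := by
      rw [← S.Dδ, e1, map_add, S.DT, S.DD, add_zero]
    obtain ⟨x2, hx2, e2⟩ := S.col 2 n (S.D x1) (by norm_num)
      (by simpa using S.D_mem _ _ _ hx1) h1
    obtain ⟨h, hh, h', hh', e⟩ := S.key n 2 (by norm_num) x2 hx2 x1 (by simpa using hx1) e2
      (fun i hi => by
        have := hE (i + 2) (by omega) (by omega)
        rw [show (2 : ℤ) + (i : ℤ) = ((i + 2 : ℕ) : ℤ) by push_cast; ring,
          show n - 1 - i = n + 1 - (i + 2) by omega]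
        exact this)
    have hh1 : h ∈ S.gr 1 n := by simpa using hh
    have h3 : S.D x1 = S.D (S.δ n h) := by
      rw [← e2, e, map_add, S.Dδ, S.δδ' hh', add_zero]
    have h4 : S.D (x1 + S.δ n h) = 0 := by rw [map_add, ← h3, add_self2]
    obtain ⟨y, hy, v, hv, e4⟩ := S.poin 1 (n + 1) _
      (Submodule.add_mem _ hx1 (S.δ_mem _ _ _ hh1)) h4
    obtain ⟨v2, hv2, e5⟩ := S.comp 1 (n + 1) y hy
    refine ⟨y, hy, ?_⟩
    have e6 : S.δ (n + 1) (x1 + S.δ n h) = S.T z + S.D E := by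
      rw [map_add, S.δδ _ _ _ hh1, add_zero, e1]
    rw [e4, map_add, e5, ← S.Dδ] at e6
    have hv' : v ∈ S.gr 0 (n + 1) := by simpa using hv
    have hv2' : v2 ∈ S.gr 0 (n + 1 + 1) := by simpa using hv2
    have h7 : z + S.dC (n + 1) y = 0 := by
      refine S.inj 1 (n + 1 + 1) _ (v2 + S.δ (n + 1) v + E)
        (Submodule.add_mem _ hz (S.dC_mem _ _ _ hy)) ?_ ?_
      · rw [sub_self]
        exact Submodule.add_mem _ (Submodule.add_mem _ hv2' (S.δ_mem _ _ _ hv')) hE'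
      · rw [map_add, map_add, map_add]
        have e1 := add_self2 (S.T (S.dC (n + 1) y))
        have e2 := add_self2 (S.D E)
        have e7 : S.T z = S.T (S.dC (n + 1) y) + S.D v2 + S.D (S.δ (n + 1) v) + S.D E := by
          rw [e6, add_assoc, e2, add_zero]
        rw [e7]
        calc _ = S.D v2 + S.D (S.δ (n + 1) v) + S.D E
              + (S.T (S.dC (n + 1) y) + S.T (S.dC (n + 1) y)) := by abel
          _ = _ := by rw [e1, add_zero]
    exact (add_eq_zero2.1 h7).symm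

end HSD

end Pool.Agent.Work.MP_701abf_gt.Stab
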