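import Pool.Agent.Work.MP_701abf_gt.Stab.Good

/-!
The asymptotic Kuenneth formula without coefficients, and regularity of `h_0`.
-/

open MvPolynomial

namespace Pool.Agent.Work.MP_701abf_gt.Stab

/-- The asymptotic Kuenneth formula. -/
theorem kunnethE (p : ℕ) : ∃ L : ℕ, ∀ (a : ℕ) (M N : ℤ), 0 ≤ M → M < 2 ^ a → 0 < N →
    (2 : ℤ) ^ (a + L) ∣ N → ∃ (Z : Type) (_ : Fintype Z) (f : Fam Z N),
      (∀ p' ≤ p, ExK f Empty (fun _ => 0) p' 0 0) ∧
      (∀ p' ≤ p, ExK f Empty (fun _ => 0) p' 0 M) := by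
  obtain ⟨J, hJ⟩ := base_tower p
  obtain ⟨L, hL⟩ := ex_lt (P := fun k L => KI k 0 Empty L) (fun k L L' h => KI.mono h) (p + 1)
    (fun k _ => KP k 0 Empty)
  refine ⟨L + J, fun a M N hM0 hM hN hd => ?_⟩
  obtain ⟨c, hc⟩ := hd
  have hN' : N = 2 ^ (a + L) * (2 ^ J * c) := by
    rw [hc, show a + (L + J) = (a + L) + J by ring, pow_add, mul_assoc]
  have hc0 : 2 ^ J * c ≠ 0 := by
    intro h
    rw [h, mul_zero] at hN'
    omega
  obtain ⟨Z, hZ, f, hf⟩ := good_fam p hc0
  have hf0 : ∀ p' ≤ p, ExK (f.pw 0) Empty (fun _ => 0) p' 0 0 := by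
    intro p' hp'
    have h1 := hf p' hp'
    have h2 : ∀ (N' : ℤ) (f' : Fam Z N'), 2 ^ J * c = N' → f'.β = f.β → f'.z = f.z →
        ExK f' Empty (fun _ => 0) p' 0 0 := by
      intro N' f' e1 e2 e3
      subst e1
      obtain ⟨β', z', a, b, c⟩ := f'
      simp only at e2 e3
      subst e2
      subst e3
      exact h1
    refine h2 _ (f.pw 0) (by rw [pow_zero, one_mul]) rfl ?_
    funext j
    change f.z j ^ 2 ^ 0 = f.z j
    rw [pow_zero, pow_one]
  have hT := hJ Z (2 ^ J * c) f (dvd_mul_right _ _) hf0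
  subst hN'
  exact ⟨Z, hZ, f.pw (a + L), fun p' hp' => hT p' hp' (a + L),
    fun p' hp' => hL p' (by omega) Z _ f (hT.mono hp') a (a + L) M hM0 hM le_rfl⟩

/-- Spanning: every cocycle is cohomologous to a combination of members of the family. -/
lemma span_fam {Z : Type} [Fintype Z] {N : ℤ} (f : Fam Z N) {s : ℕ}
    (hf : ExK f Empty (fun _ => 0) s 0 0) {x : RR Empty} (hx : x ∈ lev Empty (s + 1))
    (hw : WH wE x (0, N)) (hd : dE (s + 1) x = 0) :
    ∃ G ∈ lev Empty s, WH wE G (0, N) ∧ ∃ c : Z → ZMod 2, (∀ j, c j ≠ 0 → f.β j + 1 = s) ∧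
      x = dE s G + ∑ j, c j • f.z j := by
  obtain ⟨⟨G, v⟩, ⟨hG, hv⟩, e⟩ := hf (x, fun _ => 0)
    ⟨⟨hx, by rw [zero_add]; exact hw⟩, fun j => Submodule.zero_mem _⟩ (by
      refine Prod.ext ?_ (funext fun j => ?_)
      · change dE (s + 1) x + ∑ j, Stab.cup (f.z j) (s + 1 - f.β j) (0 : RR Empty) = 0
        simp only [map_zero, Finset.sum_const_zero, add_zero]
        exact hd
      · change dE (s + 1 - f.β j) (0 : RR Empty) = 0
        exact map_zero _)
  have e1 : dE s G + ∑ j, Stab.cup (f.z j) (s - f.β j) (v j) = x := congrArg Prod.fst e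
  have e2 : ∀ j, dE (s - f.β j) (v j) = 0 := fun j => congrFun (congrArg Prod.snd e) j
  have hcup := f.cup (fun _ : Empty => (1, 0)) (fun _ => 0) 0 0
  -- each term is a coboundary up to a multiple of a member
  have key : ∀ j, ∃ H ∈ lev Empty s, WH wE H (0, N) ∧ ∃ c : ZMod 2, (c ≠ 0 → f.β j + 1 = s) ∧
      Stab.cup (f.z j) (s - f.β j) (v j) = dE s H + c • f.z j := by
    intro j
    have hvc : v j = C (coeff 0 (v j)) := wh_const (hv j).2
    rcases Nat.eq_zero_or_pos (s - f.β j) with h0 | h0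
    · have h1 : v j ∈ lev Empty (s - f.β j) := (hv j).1
      rw [h0] at h1
      have h2 : v j = 0 := h1
      refine ⟨0, Submodule.zero_mem _, isWeightedHomogeneous_zero _ _ _, 0,
        fun h => absurd rfl h, ?_⟩
      rw [h2, map_zero, map_zero, zero_smul, add_zero]
    · by_cases h1 : s - f.β j = 1
      · refine ⟨0, Submodule.zero_mem _, isWeightedHomogeneous_zero _ _ _, coeff 0 (v j),
          fun _ => by omega, ?_⟩
        rw [h1, hvc, cup_const, coeff_zero_C, map_zero, zero_add]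
      · obtain ⟨n, hn⟩ : ∃ n, s = n + 1 := ⟨s - 1, by omega⟩
        have h2 : n + 1 - f.β j = (n - f.β j) + 1 := by omega
        have h3 := e2 j
        rw [hvc, dE_C] at h3
        have h4 : ((s - f.β j + 1 : ℕ) : ZMod 2) * coeff 0 (v j) = 0 := by
          exact (C_injective _ _) (by rw [h3, map_zero])
        have h5 : dE (n - f.β j) (C (coeff 0 (v j))) = C (coeff 0 (v j)) := by
          rw [dE_C]
          congr 1
          by_cases hodd : (s - f.β j) % 2 = 0
          · have h6 : ((s - f.β j + 1 : ℕ) : ZMod 2) = 1 := by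
              rw [ZMod.natCast_eq_one_iff_odd, Nat.odd_iff]
              omega
            rw [h6, one_mul] at h4
            rw [h4, mul_zero]
          · have h6 : ((n - f.β j + 1 : ℕ) : ZMod 2) = 1 := by
              rw [ZMod.natCast_eq_one_iff_odd, Nat.odd_iff]
              omega
            rw [h6, one_mul]
        have hm : (C (coeff 0 (v j)) : RR Empty) ∈
            (cx (fun _ : Empty => (1, 0)) (fun _ => 0) (0, 0)).gr (n - f.β j) :=
          ⟨C_lev (by omega) _, wh_C _⟩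
        have h7 := hcup.d' hm
        have h8 := hcup.mem' hm
        rw [cx_d, cx_d] at h7
        have h9 : dE (n + 1) (Stab.cup (f.z j) (n - f.β j) (C (coeff 0 (v j)))) =
          Stab.cup (f.z j) (n + 1 - f.β j) (dE (n - f.β j) (C (coeff 0 (v j)))) := h7
        refine ⟨Stab.cup (f.z j) (n - f.β j) (C (coeff 0 (v j))), ?_, ?_, 0,
          fun h => absurd rfl h, ?_⟩
        · rw [hn]
          exact h8.1
        · have := h8.2
          rw [zero_add] at this
          exact this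
        · rw [zero_smul, add_zero, hn, h9, h5]
          congr 1
  choose H hH hHw c hc ec using key
  refine ⟨G + ∑ j, H j, Submodule.add_mem _ hG.1 (Submodule.sum_mem _ fun j _ => hH j), ?_, c,
    hc, ?_⟩
  · refine IsWeightedHomogeneous.add ?_ (IsWeightedHomogeneous.sum _ _ _ fun j _ => hHw j)
    have := hG.2
    rw [zero_add] at this
    exact this
  · rw [← e1, map_add, map_sum, Finset.sum_congr rfl fun j _ => ec j, Finset.sum_add_distrib,
      add_assoc]

/-- The class `h_0`. -/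
noncomputable def h0c : RR Empty := X (Sum.inl (0, 0))

lemma h0c_lev : h0c ∈ lev Empty 2 := by
  rw [mem_lev_succ]
  exact prj_inl_lt (by simp)

lemma h0c_wh : WH wE h0c (0, 1) := by
  have h := isWeightedHomogeneous_X (ZMod 2) wE (Sum.inl (0, 0))
  have e : wE (Sum.inl (0, 0)) = (0, 1) := by
    change ((0 : ℤ × ℤ), (2 : ℤ) ^ (0 + 1) - 1) = (0, 1)
    norm_num
  rw [e] at h
  exact h

lemma h0c_d : dE 2 h0c = 0 := by
  rw [dR_apply]
  simp only [Finset.sum_range_succ, Finset.range_zero, Finset.sum_empty, zero_add]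
  unfold h0c
  rw [face_inl, face_inl, face_inl]
  have e0 : (fg 0 gG 0 : Pt (RR Empty)) = gG 1 := rfl
  have e1 : (fg 1 gG 0 : Pt (RR Empty)) = gG 1 * gG 0 := by
    simp [fg]
  have e2 : (fg 2 gG 0 : Pt (RR Empty)) = gG 0 := by
    simp [fg]
  rw [e0, e1, e2, Pt.co_mul, zero_add, Finset.Nat.antidiagonal_succ]
  simp only [Finset.Nat.antidiagonal_zero, Finset.map_singleton, Finset.sum_cons,
    Finset.sum_singleton, Pt.co_zero, one_pow, one_mul, Function.Embedding.prodMap,
    Function.Embedding.coeFn_mk, Prod.map, pow_zero, pow_one, mul_one,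
    Function.Embedding.refl_apply, Nat.succ_eq_add_one, zero_add]
  have h1 := add_self2 ((gG (ι := Empty) 1).co 1)
  have h2 := add_self2 ((gG (ι := Empty) 0).co 1)
  calc (gG (ι := Empty) 1).co 1 + ((gG 0).co 1 + (gG 1).co 1) + (gG 0).co 1
      = ((gG (ι := Empty) 1).co 1 + (gG 1).co 1) + ((gG 0).co 1 + (gG 0).co 1) := by abel
    _ = 0 := by rw [h1, h2, add_zero]

/-- Regularity of `h_0` in highly divisible degrees. -/
theorem h0_reg (s : ℕ) : ∃ J : ℕ, ∀ N : ℤ, 0 < N → (2 : ℤ) ^ J ∣ N →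
    ∀ x ∈ lev Empty (s + 1), WH wE x (0, N) → dE (s + 1) x = 0 →
    (∃ F ∈ lev Empty (s + 1), WH wE F (0, 1 + N) ∧ dE (s + 1) F = h0c * sh 1 x) →
    ∃ G ∈ lev Empty s, WH wE G (0, N) ∧ dE s G = x := by
  obtain ⟨L, hL⟩ := kunnethE s
  refine ⟨1 + L, fun N hN hd x hx hxw hxd => ?_⟩
  rintro ⟨F, hF, hFw, eF⟩
  rcases Nat.eq_zero_or_pos s with hs0 | hs0
  · subst hs0
    have := lev_one hx hxw hN.ne'
    exact ⟨0, Submodule.zero_mem _, isWeightedHomogeneous_zero _ _ _, by rw [map_zero, this]⟩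
  obtain ⟨Z, _, f, hf0, hf1⟩ := hL 1 1 N (by norm_num) (by norm_num) hN hd
  obtain ⟨G, hG, hGw, c, hc, ex⟩ := span_fam f (hf0 s le_rfl) hx hxw hxd
  obtain ⟨n, rfl⟩ : ∃ n, s = n + 1 := ⟨s - 1, by omega⟩
  -- the product with the coboundary
  have h1 : dE (n + 2) (h0c * sh 1 G) = h0c * sh 1 (dE (n + 1) G) := by
    have := dR_cup (ι := Empty) (fun _ => 0) (a := 1) (b := n) h0c_lev G
    rw [show 1 + n + 1 = n + 2 by ring] at this
    have h2 : dR (fun _ : Empty => 0) (1 + 1) h0c = 0 := h0c_d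
    rw [this, h2, zero_mul, zero_add]
  set u : Z → RR Empty := fun j => c j • h0c with hu
  have hu0 : ∀ j, c j ≠ 0 → n + 1 + 1 - f.β j = 2 := fun j hj => by
    have := hc j hj
    omega
  have hul : ∀ j, u j ∈ lev Empty (n + 1 + 1 - f.β j) := by
    intro j
    by_cases h : c j = 0
    · rw [hu]
      simp only
      rw [h, zero_smul]
      exact Submodule.zero_mem _
    · rw [hu0 j h]
      exact Submodule.smul_mem _ _ h0c_lev
  have huw : ∀ j, WH wE (u j) (0, 1) := fun j =>
    (weightedHomogeneousSubmodule (ZMod 2) wE _).smul_mem _ h0c_wh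
  have hud : ∀ j, dE (n + 1 + 1 - f.β j) (u j) = 0 := by
    intro j
    by_cases h : c j = 0
    · rw [hu]
      simp only
      rw [h, zero_smul, map_zero]
    · rw [hu0 j h, hu]
      simp only
      rw [map_smul, h0c_d, smul_zero]
  have hcup : ∀ j, Stab.cup (f.z j) (n + 1 + 1 - f.β j) (u j) = c j • (h0c * sh 1 (f.z j)) := by
    intro j
    by_cases h : c j = 0
    · rw [hu]
      simp only
      rw [h, zero_smul, zero_smul, map_zero]
    · rw [hu0 j h, hu]
      simp only
      rw [map_smul, cup_apply]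
  have hm1 : h0c * sh 1 G ∈ lev Empty (n + 1 + 1) := by
    rw [mem_lev_succ, show n + 1 = 1 + n by ring, map_mul, sh_lev (ι := Empty) (a := 1) hG]
    congr 1
    exact (mem_lev_succ.1 (lev_mono (by omega) h0c_lev))
  have hm2 : WH wE (h0c * sh 1 G) (0, 1 + N) :=
    IsWeightedHomogeneous.mul h0c_wh ((sh_gr (fun _ : Empty => (1, 0)) (fun _ => 0) 1).map hGw)
  obtain ⟨⟨G', v⟩, ⟨hG', hv⟩, e⟩ := hf1 (n + 1) le_rfl (F + h0c * sh 1 G, u)
    ⟨⟨Submodule.add_mem _ hF hm1, IsWeightedHomogeneous.add hFw hm2⟩,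
      fun j => ⟨hul j, huw j⟩⟩ (by
      refine Prod.ext ?_ (funext fun j => hud j)
      change dE (n + 1 + 1) (F + h0c * sh 1 G) +
        ∑ j, Stab.cup (f.z j) (n + 1 + 1 - f.β j) (u j) = 0
      have h2 : dE (n + 1 + 1) (h0c * sh 1 G) = h0c * sh 1 (dE (n + 1) G) := h1
      rw [map_add, eF, h2, Finset.sum_congr rfl fun j _ => hcup j, ex, map_add, map_sum, mul_add,
        Finset.mul_sum]
      have h3 : ∑ j, h0c * sh (ι := Empty) 1 (c j • f.z j) =
          ∑ j, c j • (h0c * sh 1 (f.z j)) := by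
        refine Finset.sum_congr rfl fun j _ => ?_
        rw [map_smul, mul_smul_comm]
      rw [h3]
      have e1 := add_self2 (h0c * sh (ι := Empty) 1 (dE (n + 1) G))
      have e2 := add_self2 (∑ j, c j • (h0c * sh (ι := Empty) 1 (f.z j)))
      calc _ = (h0c * sh (ι := Empty) 1 (dE (n + 1) G) + h0c * sh 1 (dE (n + 1) G)) +
            (∑ j, c j • (h0c * sh (ι := Empty) 1 (f.z j)) +
              ∑ j, c j • (h0c * sh 1 (f.z j))) := by abel
        _ = 0 := by rw [e1, e2, add_zero])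
  · have e2 : ∀ j, dE (n + 1 - f.β j) (v j) = u j := fun j => congrFun (congrArg Prod.snd e) j
    have hc0 : ∀ j, c j = 0 := by
      intro j
      by_contra h
      have h2 := hc j h
      have h3 : n + 1 - f.β j = 1 := by omega
      have h4 : v j ∈ lev Empty (n + 1 - f.β j) := (hv j).1
      rw [h3] at h4
      have h5 : v j = 0 := lev_one h4 (hv j).2 one_ne_zero
      have h6 := e2 j
      rw [h5, map_zero, hu] at h6
      simp only at h6
      rcases smul_eq_zero.1 h6.symm with h7 | h7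
      · exact h h7
      · exact X_ne_zero _ h7
    refine ⟨G, hG, hGw, ?_⟩
    rw [ex]
    simp only [hc0, zero_smul, Finset.sum_const_zero, add_zero]

end Pool.Agent.Work.MP_701abf_gt.Stab
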