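import Pool.Agent.Work.MP_701abf_gt.Stab.RingQ

/-!
The comparison data for the mixed complex.
-/

open MvPolynomial
open Finset.HasAntidiagonal (antidiagonal mem_antidiagonal)

namespace Pool.Agent.Work.MP_701abf_gt.Stab

section general

variable {U V : Type*}

lemma der_hom {D : Derivation (ZMod 2) (PF V) (PF V)} {φ : PF V →ₐ[ZMod 2] PF V}
    (h : ∀ v, D (φ (X v)) = φ (D (X v))) (F : PF V) : D (φ F) = φ (D F) := by
  induction F using MvPolynomial.induction_on with
  | C a =>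
    have h1 : φ (C a) = algebraMap (ZMod 2) _ a := φ.commutes a
    have h2 : D (C a) = 0 := D.map_algebraMap a
    rw [h1, h2, map_zero]
    exact D.map_algebraMap a
  | add p q hp hq => rw [map_add, map_add, map_add, map_add, hp, hq]
  | mul_X p v hp =>
    rw [map_mul, Derivation.leibniz, Derivation.leibniz, map_add, smul_eq_mul, smul_eq_mul,
      smul_eq_mul, smul_eq_mul, map_mul, map_mul, hp, h]

/-- A derivation which vanishes on the image of the generators vanishes on the image. -/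
lemma der_range {D : Derivation (ZMod 2) (PF V) (PF V)} {φ : PF U →ₐ[ZMod 2] PF V}
    (h : ∀ v, D (φ (X v)) = 0) (F : PF U) : D (φ F) = 0 := by
  induction F using MvPolynomial.induction_on with
  | C a =>
    have h1 : φ (C a) = algebraMap (ZMod 2) _ a := φ.commutes a
    rw [h1]
    exact D.map_algebraMap a
  | add p q hp hq => rw [map_add, map_add, hp, hq, add_zero]
  | mul_X p v hp => rw [map_mul, Derivation.leibniz, hp, h, smul_zero, smul_zero, add_zero]

/-- A map which kills the image of the generators kills the image of a derivation. -/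
lemma hom_der {D : Derivation (ZMod 2) (PF V) (PF V)} {φ : PF V →ₐ[ZMod 2] PF U}
    (h : ∀ v, φ (D (X v)) = 0) (F : PF V) : φ (D F) = 0 := by
  induction F using MvPolynomial.induction_on with
  | C a =>
    have h2 : D (C a) = 0 := D.map_algebraMap a
    rw [h2, map_zero]
  | add p q hp hq => rw [map_add, map_add, hp, hq, add_zero]
  | mul_X p v hp =>
    rw [Derivation.leibniz, map_add, smul_eq_mul, smul_eq_mul, map_mul, map_mul, hp, h,
      mul_zero, mul_zero, add_zero]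

lemma der_pow2 (D : Derivation (ZMod 2) (PF V) (PF V)) (F : PF V) (k : ℕ) :
    D (F ^ 2 ^ (k + 1)) = 0 := by
  rw [pow_succ, pow_mul, sq, Derivation.leibniz]
  exact add_self2 _

lemma der_act (D : Derivation (ZMod 2) (PF V) (PF V)) (τ : ℕ) (g : Pt (PF V)) (u : ℕ → PF V)
    (n : ℕ) : D (act (τ + 1) g u n) = act (τ + 1) g (fun i => D (u i)) n := by
  rw [act_apply, act_apply, map_sum]
  refine Finset.sum_congr rfl fun p _ => ?_
  rw [Derivation.leibniz, ← add_assoc, der_pow2, smul_zero, add_zero, smul_eq_mul]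

lemma der_mulPt (D : Derivation (ZMod 2) (PF V) (PF V)) {g h : Pt (PF V)} {α β : ℕ → PF V}
    (hg : ∀ n, D (g.co (n + 1)) = α n) (hh : ∀ n, D (h.co (n + 1)) = β n) (n : ℕ) :
    D ((g * h).co (n + 1)) = α n + act 1 g β n := by
  rw [Pt.co_mul, Finset.Nat.sum_antidiagonal_succ', map_add, act_apply, map_sum]
  congr 1
  · simp only [pow_zero, pow_one, Pt.co_zero, mul_one]
    exact hg n
  · refine Finset.sum_congr rfl fun p _ => ?_
    simp only
    rw [Derivation.leibniz, der_pow2, smul_zero, add_zero, smul_eq_mul, hh]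

/-- An algebra map whose composition with another map is the Frobenius is injective. -/
lemma inj_of_frob {φ : PF U →ₐ[ZMod 2] PF V} {ψ : PF V →ₐ[ZMod 2] PF U}
    (h : ∀ u, ψ (φ (X u)) = X u ^ 2) {F : PF U} (hF : φ F = 0) : F = 0 := by
  have h1 : ψ.comp φ = expand 2 := by
    refine algHom_ext fun u => ?_
    rw [AlgHom.comp_apply, h, expand_X]
  have h2 : F ^ 2 = 0 := by
    rw [← expand_zmod, ← h1, AlgHom.comp_apply, hF, map_zero]
  exact pow_eq_zero_iff (two_ne_zero) |>.1 h2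

/-- A map which kills the variables of nonzero degree kills polynomials of nonzero degree. -/
lemma hom_kill {M : Type*} [AddCommMonoid M] {w : V → M} {φ : PF V →ₐ[ZMod 2] PF U}
    {q : M →+ ℤ} (h : ∀ v, q (w v) ≠ 0 → φ (X v) = 0) {F : PF V} {m : M} (hF : WH w F m)
    (hq : q m ≠ 0) : φ F = 0 := by
  rw [F.as_sum, map_sum]
  refine Finset.sum_eq_zero fun d hd => ?_
  have h1 := hF (mem_support_iff.1 hd)
  have h2 : ∃ v ∈ d.support, q (w v) ≠ 0 := by
    by_contra hcon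
    push Not at hcon
    apply hq
    rw [← h1, Finsupp.weight_apply, Finsupp.sum, map_sum]
    refine Finset.sum_eq_zero fun v hv => ?_
    rw [map_nsmul, hcon v hv, smul_zero]
  obtain ⟨v, hv, hv2⟩ := h2
  rw [monomial_eq, map_mul, Finsupp.prod, map_prod]
  have h3 : ∏ i ∈ d.support, φ (X i ^ d i) = 0 := by
    refine Finset.prod_eq_zero hv ?_
    rw [map_pow, h v hv2, zero_pow (Finsupp.mem_support_iff.1 hv)]
  rw [h3, mul_zero]

lemma wh_neg {M : Type*} [AddCommMonoid M] {w : V → M} {q : M →+ ℤ} (h : ∀ v, 0 ≤ q (w v))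
    {F : PF V} {m : M} (hF : WH w F m) (hq : q m < 0) : F = 0 := by
  by_contra h0
  obtain ⟨d, hd⟩ := MvPolynomial.ne_zero_iff.1 h0
  have h1 := hF hd
  rw [← h1, Finsupp.weight_apply, Finsupp.sum, map_sum] at hq
  refine absurd hq (not_lt.2 (Finset.sum_nonneg fun v _ => ?_))
  rw [map_nsmul]
  exact nsmul_nonneg (h v) _

end general

section hsd

variable {ι : Type*}

/-- The de Rham differential. -/
noncomputable def DQ : Derivation (ZMod 2) (RQ ι) (RQ ι) :=
  mkDerivation (ZMod 2) (Sum.elim (fun v => X (Sum.inr (Sum.inl v))) (fun _ => 0))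

lemma DQ_g (v : ℕ × ℕ) : DQ (ι := ι) (X (Sum.inl v)) = X (Sum.inr (Sum.inl v)) := by
  unfold DQ; rw [mkDerivation_X]; rfl

lemma DQ_r (v : (ℕ × ℕ) ⊕ (Option ι × ℕ)) : DQ (ι := ι) (X (Sum.inr v)) = 0 := by
  unfold DQ; rw [mkDerivation_X]; rfl

lemma DQ_gQ (a n : ℕ) : DQ ((gQ (ι := ι) a).co (n + 1)) = tQ a n := DQ_g (a, n)

lemma DQ_tQ (a n : ℕ) : DQ (tQ (ι := ι) a n) = 0 := DQ_r _

lemma DQ_wQ (o : Option ι) (n : ℕ) : DQ (wQ o n) = 0 := DQ_r _

lemma DR_DQ : DR (DQ (ι := ι)) (fun v : ℕ × ℕ => Sum.inl v) (fun v => Sum.inr (Sum.inl v)) where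
  xi := Sum.inl_injective
  yi := Sum.inr_injective.comp Sum.inl_injective
  xy := fun s t => by simp
  Dx := fun s => DQ_g s
  D0 := fun v hv => by
    rcases v with v | v
    · exact absurd rfl (hv v)
    · exact DQ_r v

lemma DQ_face (j : ℕ) (F : RQ ι) : DQ (faceQ j F) = faceQ j (DQ F) := by
  refine der_hom (fun v => ?_) F
  rcases v with v | v | v
  · rw [DQ_g]
    unfold faceQ
    rw [evQ_g, evQ_t]
    cases j with
    | zero => exact DQ_gQ _ _
    | succ j =>
      simp only [fg, ft]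
      split_ifs
      · exact DQ_gQ _ _
      · exact der_mulPt _ (DQ_gQ _) (DQ_gQ _) _
      · exact DQ_gQ _ _
  · rw [DQ_r, map_zero]
    unfold faceQ
    rw [evQ_t]
    cases j with
    | zero => exact DQ_tQ _ _
    | succ j =>
      simp only [ft]
      split_ifs
      · exact DQ_tQ _ _
      · rw [map_add, DQ_tQ, der_act, zero_add]
        simp only [DQ_tQ]
        exact congrFun (act_zero' _ _) _
      · exact DQ_tQ _ _
  · rw [DQ_r, map_zero]
    unfold faceQ
    rw [evQ_w]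
    cases j with
    | zero =>
      rcases v with ⟨o, i⟩
      cases o with
      | none =>
        simp only [fo]
        rw [map_add, DQ_tQ, der_act, zero_add]
        simp only [DQ_wQ]
        exact congrFun (act_zero' _ _) _
      | some b =>
        simp only [fo]
        rw [der_act]
        simp only [DQ_wQ]
        exact congrFun (act_zero' _ _) _
    | succ j => exact DQ_wQ _ _

lemma DQ_dQ (n : ℕ) (F : RQ ι) : DQ (dQ n F) = dQ n (DQ F) := by
  rw [dQ_apply, dQ_apply, map_sum]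
  exact Finset.sum_congr rfl fun j _ => DQ_face j F

/-- Inflation. -/
noncomputable def TQ : RR (Option ι) →ₐ[ZMod 2] RQ ι := ev (fun a => frobPt (gQ a)) wQ

lemma TQ_g (v : ℕ × ℕ) : TQ (ι := ι) (X (Sum.inl v)) = X (Sum.inl v) ^ 2 := by
  unfold TQ; rw [ev_inl]; rfl

lemma TQ_w (v : Option ι × ℕ) : TQ (ι := ι) (X (Sum.inr v)) = X (Sum.inr (Sum.inr v)) := by
  unfold TQ; rw [ev_inr]; rfl

lemma DQ_TQ (y : RR (Option ι)) : DQ (TQ y) = 0 := by
  refine der_range (fun v => ?_) y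
  rcases v with v | v
  · rw [TQ_g]
    exact der_pow2 DQ _ 0
  · rw [TQ_w]
    exact DQ_r _

lemma mapPt_frob {S S' : Type*} [CommRing S] [Algebra (ZMod 2) S] [CommRing S']
    [Algebra (ZMod 2) S'] (φ : S →ₐ[ZMod 2] S') (g : Pt S) :
    mapPt φ (frobPt g) = frobPt (mapPt φ g) := by
  ext n
  simp only [mapPt_co, frobPt_co, map_pow]

lemma mapPt_faceQ (j a : ℕ) : mapPt (faceQ (ι := ι) j) (gQ a) = fg j gQ a := by
  unfold faceQ
  exact mapPt_evQ _ _ _ _

lemma fg_frob {S : Type*} [CommRing S] [Algebra (ZMod 2) S] (j : ℕ) (g : ℕ → Pt S) (a : ℕ) :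
    fg j (fun a => frobPt (g a)) a = frobPt (fg j g a) := by
  cases j with
  | zero => rfl
  | succ j =>
    simp only [fg]
    split_ifs
    · rfl
    · rw [frobPt_mul]
    · rfl

lemma TQ_face_succ (j : ℕ) (y : RR (Option ι)) :
    faceQ (j + 1) (TQ y) = TQ (face (fun _ => 0) (j + 1) y) := by
  have : (faceQ (j + 1)).comp TQ = (TQ (ι := ι)).comp (face (fun _ => 0) (j + 1)) := by
    unfold TQ
    rw [ev_face, comp_ev]
    congr 1
    · funext a
      rw [fg_frob, mapPt_frob, mapPt_faceQ]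
    · funext o i
      unfold faceQ
      rw [evQ_wQ]
      rfl
  exact congrArg (fun φ => φ y) this

/-- Kill the tangent coordinates of the slots. -/
noncomputable def kt : RQ ι →ₐ[ZMod 2] RQ ι := evQ gQ (fun _ _ => 0) wQ

lemma kt_TQ (y : RR (Option ι)) : kt (TQ y) = TQ y := by
  have : (kt (ι := ι)).comp TQ = TQ := by
    refine algHom_ext fun v => ?_
    rw [AlgHom.comp_apply]
    rcases v with v | v
    · rw [TQ_g, map_pow]
      unfold kt
      rw [evQ_g]
      rfl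
    · rw [TQ_w]
      unfold kt
      rw [evQ_w]
      rfl
  exact congrArg (fun φ => φ y) this

lemma kt_face_zero (y : RR (Option ι)) : kt (faceQ 0 (TQ y)) = TQ (face (fun _ => 0) 0 y) := by
  have : ((kt (ι := ι)).comp (faceQ 0)).comp TQ = (TQ (ι := ι)).comp (face (fun _ => 0) 0) := by
    have h1 : (kt (ι := ι)).comp (faceQ 0) =
        evQ (fg 0 gQ) (ft 0 gQ (fun _ _ => 0)) (fo 0 gQ (fun _ _ => 0) wQ) := evQ_face _ _ _ _
    rw [h1]
    unfold TQ
    rw [ev_face, comp_ev]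
    congr 1
    · funext a
      rw [fg_frob, mapPt_frob, mapPt_evQ]
    · funext o i
      rw [evQ_wQ]
      simp only [fw]
      rw [act_frobPt]
      cases o with
      | none => simp only [fo, zero_add]
      | some b => simp only [fo, zero_add]
  exact congrArg (fun φ => φ y) this

lemma kt_DQ (F : RQ ι) : kt (DQ F) = 0 := by
  refine hom_der (fun v => ?_) F
  rcases v with v | v
  · rw [DQ_g]
    unfold kt
    rw [evQ_t]
  · rw [DQ_r, map_zero]

lemma kt_good {F : RQ ι}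
    (hF : ∀ s, DR.Good (fun v : ℕ × ℕ => Sum.inl v) (fun v => Sum.inr (Sum.inl v)) s F) :
    kt F = F := by
  have h : F ∈ AlgHom.equalizer (kt (ι := ι)) (AlgHom.id _ _) := by
    refine DR.good_mem hF _ (fun s => ?_) (fun v h1 h2 => ?_)
    · change kt (X (Sum.inl s) ^ 2) = X (Sum.inl s) ^ 2
      rw [map_pow]
      unfold kt
      rw [evQ_g]
      rfl
    · change kt (X v) = X v
      rcases v with v | v | v
      · exact absurd rfl (h1 v)
      · exact absurd rfl (h2 v)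
      · unfold kt
        rw [evQ_w]
        rfl
  exact h

lemma poinQ {x : RQ ι} (hx : DQ x = 0) : ∃ y G, x = TQ y + DQ G := by
  obtain ⟨F', G, e, hF⟩ := DR_DQ.poincare hx
  have h : F' ∈ (TQ (ι := ι)).range := by
    refine DR.good_mem hF _ (fun s => ?_) (fun v h1 h2 => ?_)
    · exact ⟨X (Sum.inl s), TQ_g s⟩
    · rcases v with v | v | v
      · exact absurd rfl (h1 v)
      · exact absurd rfl (h2 v)
      · exact ⟨X (Sum.inr v), TQ_w v⟩
  obtain ⟨y, hy⟩ := h
  refine ⟨y, G, ?_⟩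
  rw [e]
  congr 1
  exact hy.symm

lemma compQ (y : RR (Option ι)) : ∃ G, faceQ 0 (TQ y) = TQ (face (fun _ => 0) 0 y) + DQ G := by
  have h1 : DQ (faceQ 0 (TQ y) + TQ (face (fun _ => 0) 0 y)) = 0 := by
    rw [map_add, DQ_face, DQ_TQ, DQ_TQ, map_zero, add_zero]
  obtain ⟨F', G, e, hF⟩ := DR_DQ.poincare h1
  have h2 := congrArg kt e
  rw [map_add, map_add, kt_face_zero, kt_TQ, kt_DQ, kt_good hF, add_zero, add_self2] at h2
  refine ⟨G, ?_⟩
  rw [← h2, zero_add] at e
  rw [add_comm, ← e]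
  rw [add_assoc, add_self2, add_zero]

lemma TQ_good (y : RR (Option ι)) (s : ℕ × ℕ) :
    DR.Good (fun v : ℕ × ℕ => Sum.inl v) (fun v => Sum.inr (Sum.inl v)) s (TQ y) := by
  constructor
  · refine der_range (fun v => ?_) y
    rcases v with v | v
    · rw [TQ_g]
      exact der_pow2 _ _ 0
    · rw [TQ_w, pderiv_X_of_ne (by simp)]
  · have : (kill _ (Sum.inr (Sum.inl s))).comp (TQ (ι := ι)) = TQ := by
      refine algHom_ext fun v => ?_
      rw [AlgHom.comp_apply]
      rcases v with v | v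
      · rw [TQ_g, map_pow, kill_ne (by simp)]
      · rw [TQ_w, kill_ne (by simp)]
    exact congrArg (fun φ => φ y) this

lemma TQ_inj {y : RR (Option ι)} (h : TQ y = 0) : y = 0 := by
  refine inj_of_frob (φ := TQ)
    (ψ := evQ gG (fun _ _ => 0) (fun o i => gW o i ^ 2)) (fun v => ?_) h
  rcases v with v | v
  · rw [TQ_g, map_pow, evQ_g]
    rfl
  · rw [TQ_w, evQ_w]
    rfl

lemma injQ {y : RR (Option ι)} {G : RQ ι} (h : TQ y = DQ G) : y = 0 :=
  TQ_inj (DR_DQ.good_exact (TQ_good y) h)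

lemma prjQ_TQ (n : ℕ) (y : RR (Option ι)) : prjQ n (TQ y) = TQ (prj n y) := by
  have : (prjQ (ι := ι) n).comp TQ = TQ.comp (prj n) := by
    refine algHom_ext fun v => ?_
    rw [AlgHom.comp_apply, AlgHom.comp_apply]
    rcases v with v | v
    · rw [TQ_g, map_pow]
      by_cases hv : v.1 < n
      · rw [prj_inl_lt hv, TQ_g]
        unfold prjQ
        rw [evQ_g, if_pos hv]
        rfl
      · rw [prj_inl_ge hv, map_zero]
        unfold prjQ
        rw [evQ_g, if_neg hv, Pt.co_one_ne (by omega)]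
        rw [zero_pow two_ne_zero]
    · rw [prj_inr, TQ_w]
      unfold prjQ
      rw [evQ_w]
      rfl
  exact congrArg (fun φ => φ y) this

lemma prjQ_DQ (n : ℕ) (F : RQ ι) : DQ (prjQ n F) = prjQ n (DQ F) := by
  refine der_hom (fun v => ?_) F
  rcases v with v | v | v
  · rw [DQ_g]
    unfold prjQ
    rw [evQ_g, evQ_t]
    by_cases hv : v.1 < n
    · rw [if_pos hv, if_pos hv]
      exact DQ_gQ _ _
    · rw [if_neg hv, if_neg hv, Pt.co_one_ne (by omega), map_zero]
  · rw [DQ_r, map_zero]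
    unfold prjQ
    rw [evQ_t]
    split_ifs
    · exact DQ_tQ _ _
    · exact map_zero _
  · rw [DQ_r, map_zero]
    unfold prjQ
    rw [evQ_w]
    exact DQ_wQ _ _

lemma TQ_lev {n : ℕ} {y : RR (Option ι)} (h : y ∈ lev (Option ι) n) : TQ y ∈ levQ ι n := by
  cases n with
  | zero =>
    rw [mem_lev_zero] at h
    rw [mem_levQ_zero, h, map_zero]
  | succ n =>
    rw [mem_lev_succ] at h
    rw [mem_levQ_succ, prjQ_TQ, h]

lemma DQ_lev {n : ℕ} {F : RQ ι} (h : F ∈ levQ ι n) : DQ F ∈ levQ ι n := by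
  cases n with
  | zero =>
    rw [mem_levQ_zero] at h ⊢
    rw [h, map_zero]
  | succ n =>
    rw [mem_levQ_succ] at h ⊢
    rw [← prjQ_DQ, h]

/-! ### Weights -/

/-- The weights in the mixed ring. -/
def wtQ (ι : Type*) : (ℕ × ℕ) ⊕ ((ℕ × ℕ) ⊕ (Option ι × ℕ)) → (ℤ × ℤ) × ℤ :=
  Sum.elim (fun v => (0, 2 ^ (v.2 + 1) - 1))
    (Sum.elim (fun v => ((0, 1), 2 ^ (v.2 + 1) - 1))
      (fun v => match v.1 with
        | none => ((0, 1), 2 ^ (v.2 + 1) - 1)
        | some _ => ((1, 0), 2 ^ (v.2 + 1))))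

/-- The classes of the coefficients. -/
def cO {ι : Type*} : Option ι → ℤ × ℤ
  | none => (0, 1)
  | some _ => (1, 0)

/-- The change of weights under inflation. -/
def fT : (ℤ × ℤ) × ℤ →+ (ℤ × ℤ) × ℤ where
  toFun m := (m.1, 2 * m.2 - m.1.2)
  map_zero' := by simp
  map_add' x y := by
    ext
    · rfl
    · rfl
    · simp only [Prod.snd_add, Prod.fst_add]
      ring

lemma fT_apply (m : (ℤ × ℤ) × ℤ) : fT m = (m.1, 2 * m.2 - m.1.2) := rfl

lemma fT_inj : Function.Injective fT := by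
  rintro ⟨a, x⟩ ⟨b, y⟩ h
  rw [fT_apply, fT_apply, Prod.mk.injEq] at h
  obtain ⟨h1, h2⟩ := h
  simp only at h1 h2
  subst h1
  rw [Prod.mk.injEq]
  exact ⟨rfl, by omega⟩

/-- The weights in the source of the inflation. -/
def wtT (ι : Type*) : (ℕ × ℕ) ⊕ (Option ι × ℕ) → (ℤ × ℤ) × ℤ :=
  fun v => fT (wt cO (fun _ => 0) v)

lemma wh_gQ (a n : ℕ) : WH (wtQ ι) ((gQ (ι := ι) a).co n) (0, 2 ^ n - 1) := by
  cases n with
  | zero =>
    have : ((0 : ℤ × ℤ), (2 : ℤ) ^ 0 - 1) = 0 := by norm_num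
    rw [this]
    exact isWeightedHomogeneous_one _ _
  | succ n => exact isWeightedHomogeneous_X _ _ _

lemma wh_tQ (a n : ℕ) : WH (wtQ ι) (tQ (ι := ι) a n) ((0, 1), 2 ^ (n + 1) - 1) :=
  isWeightedHomogeneous_X _ _ _

lemma wh_wQn (n : ℕ) : WH (wtQ ι) (wQ (none : Option ι) n) ((0, 1), 2 ^ (n + 1) - 1) :=
  isWeightedHomogeneous_X _ _ _

lemma wh_wQs (b : ι) (n : ℕ) : WH (wtQ ι) (wQ (some b) n) ((1, 0), 2 ^ (n + 1)) :=
  isWeightedHomogeneous_X _ _ _

lemma wh_actQn {g : Pt (RQ ι)} (hg : ∀ n, WH (wtQ ι) (g.co n) (0, 2 ^ n - 1)) {u : ℕ → RQ ι}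
    (hu : ∀ n, WH (wtQ ι) (u n) ((0, 1), 2 ^ (n + 1) - 1)) (n : ℕ) :
    WH (wtQ ι) (act 1 g u n) ((0, 1), 2 ^ (n + 1) - 1) :=
  wh_act (k := -1) hg hu n

lemma wh_actQs {g : Pt (RQ ι)} (hg : ∀ n, WH (wtQ ι) (g.co n) (0, 2 ^ n - 1)) {u : ℕ → RQ ι}
    (hu : ∀ n, WH (wtQ ι) (u n) ((1, 0), 2 ^ (n + 1))) (n : ℕ) :
    WH (wtQ ι) (act 1 g u n) ((1, 0), 2 ^ (n + 1)) := by
  have := wh_act (τ := 1) (k := 0) (c := (1, 0)) hg (fun n => by rw [add_zero]; exact hu n) n
  rw [add_zero] at this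
  exact this

lemma faceQ_gr (j : ℕ) : Gr (wtQ ι) (wtQ ι) id (faceQ j).toLinearMap := by
  refine Gr.of_alg' fun v => ?_
  rcases v with v | v | v
  · unfold faceQ
    rw [evQ_g]
    change WH _ _ (0, 2 ^ (v.2 + 1) - 1)
    cases j with
    | zero => exact wh_gQ _ _
    | succ j =>
      simp only [fg]
      split_ifs
      · exact wh_gQ _ _
      · exact wh_mulPt (wh_gQ _) (wh_gQ _) _
      · exact wh_gQ _ _
  · unfold faceQ
    rw [evQ_t]
    change WH _ _ ((0, 1), 2 ^ (v.2 + 1) - 1)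
    cases j with
    | zero => exact wh_tQ _ _
    | succ j =>
      simp only [ft]
      split_ifs
      · exact wh_tQ _ _
      · exact (wh_tQ _ _).add (wh_actQn (wh_gQ _) (wh_tQ _) _)
      · exact wh_tQ _ _
  · unfold faceQ
    rw [evQ_w]
    rcases v with ⟨o, i⟩
    cases o with
    | none =>
      change WH _ _ ((0, 1), 2 ^ (i + 1) - 1)
      cases j with
      | zero =>
        simp only [fo]
        exact (wh_tQ _ _).add (wh_actQn (wh_gQ _) wh_wQn _)
      | succ j => exact wh_wQn _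
    | some b =>
      change WH _ _ ((1, 0), 2 ^ (i + 1))
      cases j with
      | zero =>
        simp only [fo]
        exact wh_actQs (wh_gQ _) (wh_wQs b) _
      | succ j => exact wh_wQs _ _

lemma dQ_wh (n : ℕ) {F : RQ ι} {m : (ℤ × ℤ) × ℤ} (hF : WH (wtQ ι) F m) :
    WH (wtQ ι) (dQ n F) m := by
  rw [dQ_apply]
  exact IsWeightedHomogeneous.sum _ _ _ fun j _ => (faceQ_gr j).map hF

lemma TQ_gr : Gr (wtT ι) (wtQ ι) id (TQ (ι := ι)).toLinearMap := by
  refine Gr.of_alg' fun v => ?_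
  rcases v with v | v
  · rw [TQ_g]
    have h := (isWeightedHomogeneous_X (ZMod 2) (wtQ ι) (Sum.inl v)).pow 2
    have e : 2 • wtQ ι (Sum.inl v) = wtT ι (Sum.inl v) := by
      change 2 • ((0 : ℤ × ℤ), (2 : ℤ) ^ (v.2 + 1) - 1) = (0, 2 * (2 ^ (v.2 + 1) - 1) - 0)
      rw [Prod.smul_mk, smul_zero, nsmul_eq_mul]
      push_cast
      ring_nf
    rw [e] at h
    exact h
  · rw [TQ_w]
    have h := isWeightedHomogeneous_X (ZMod 2) (wtQ ι) (Sum.inr (Sum.inr v))
    have e : wtQ ι (Sum.inr (Sum.inr v)) = wtT ι (Sum.inr v) := by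
      rcases v with ⟨o, i⟩
      cases o with
      | none =>
        change ((0, 1), (2 : ℤ) ^ (i + 1) - 1) = (((0 : ℤ), (1 : ℤ)), 2 * (2 : ℤ) ^ (i + 0) - 1)
        rw [add_zero, pow_succ]
        ring_nf
      | some b =>
        change ((1, 0), (2 : ℤ) ^ (i + 1)) = (((1 : ℤ), (0 : ℤ)), 2 * (2 : ℤ) ^ (i + 0) - 0)
        rw [add_zero, pow_succ]
        ring_nf
    rw [e] at h
    exact h

lemma DQ_gr : Gr (wtQ ι) (wtQ ι) (fun m => m + ((0, 1), 0)) (DQ (ι := ι)).toLinearMap := by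
  refine Gr.of_der fun v => ?_
  rcases v with v | v
  · rw [DQ_g]
    have h := isWeightedHomogeneous_X (ZMod 2) (wtQ ι) (Sum.inr (Sum.inl v))
    have e : wtQ ι (Sum.inr (Sum.inl v)) = wtQ ι (Sum.inl v) + ((0, 1), 0) := by
      change ((0, 1), (2 : ℤ) ^ (v.2 + 1) - 1) = ((0 : ℤ × ℤ), (2 : ℤ) ^ (v.2 + 1) - 1) + ((0, 1), 0)
      rw [Prod.mk_add_mk, zero_add, add_zero]
    rw [e] at h
    exact h
  · rw [DQ_r]
    exact isWeightedHomogeneous_zero _ _ _

lemma prjQ_gr (n : ℕ) : Gr (wtQ ι) (wtQ ι) id (prjQ n).toLinearMap := by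
  refine Gr.of_alg' fun v => ?_
  unfold prjQ
  rcases v with v | v | v
  · rw [evQ_g]
    by_cases h : v.1 < n
    · rw [if_pos h]; exact wh_gQ _ _
    · rw [if_neg h, Pt.co_one_ne (by omega)]; exact isWeightedHomogeneous_zero _ _ _
  · rw [evQ_t]
    by_cases h : v.1 < n
    · rw [if_pos h]; exact wh_tQ _ _
    · rw [if_neg h]; exact isWeightedHomogeneous_zero _ _ _
  · rw [evQ_w]; exact isWeightedHomogeneous_X _ _ _

lemma cmpQ_lev {n : ℕ} (m : (ℤ × ℤ) × ℤ) {F : RQ ι} (hF : F ∈ levQ ι n) :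
    cmp (wtQ ι) m F ∈ levQ ι n := by
  cases n with
  | zero =>
    rw [mem_levQ_zero] at hF ⊢
    rw [hF, map_zero]
  | succ n =>
    rw [mem_levQ_succ] at hF ⊢
    have := (prjQ_gr n).cmp Function.injective_id m F
    change cmp _ m (prjQ n F) = prjQ n _ at this
    rw [← this, hF]

lemma prjT_gr (n : ℕ) : Gr (wtT ι) (wtT ι) id (prj n).toLinearMap := by
  refine Gr.of_alg' fun v => ?_
  rcases v with v | v
  · by_cases h : v.1 < n
    · rw [prj_inl_lt h]; exact isWeightedHomogeneous_X _ _ _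
    · rw [prj_inl_ge h]; exact isWeightedHomogeneous_zero _ _ _
  · rw [prj_inr]; exact isWeightedHomogeneous_X _ _ _

lemma cmpT_lev {n : ℕ} (m : (ℤ × ℤ) × ℤ) {F : RR (Option ι)} (hF : F ∈ lev (Option ι) n) :
    cmp (wtT ι) m F ∈ lev (Option ι) n := by
  cases n with
  | zero =>
    rw [mem_lev_zero] at hF ⊢
    rw [hF, map_zero]
  | succ n =>
    rw [mem_lev_succ] at hF ⊢
    have := (prjT_gr n).cmp Function.injective_id m F
    change cmp _ m (prj n F) = prj n _ at this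
    rw [← this, hF]

lemma dRT_wh (n : ℕ) {F : RR (Option ι)} {m : (ℤ × ℤ) × ℤ} (hF : WH (wtT ι) F m) :
    WH (wtT ι) (dR (fun _ => 0) n F) m := by
  rcases wh_of_comp (w := wt cO (fun _ => 0)) fT_inj hF with h | ⟨m', h1, h2⟩
  · rw [h, map_zero]
    exact isWeightedHomogeneous_zero _ _ _
  · rw [← h1]
    exact wh_comp (f := fT) (dR_wh n h2)

lemma rho_zero {F : RQ ι} {m : (ℤ × ℤ) × ℤ} (hF : WH (wtQ ι) F m) (hm : m.1.2 ≠ 0) :
    rho F = 0 := by
  refine hom_kill (q := (AddMonoidHom.snd ℤ ℤ).comp (AddMonoidHom.fst (ℤ × ℤ) ℤ))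
    (fun v hv => ?_) hF hm
  unfold rho
  rcases v with v | v | v
  · exact absurd rfl hv
  · rw [evQ_t]
  · rcases v with ⟨o, i⟩
    rw [evQ_w]
    cases o with
    | none => rfl
    | some b => exact absurd rfl hv

lemma sig_wh (n : ℕ) {F : RQ ι} {m : (ℤ × ℤ) × ℤ} (hF : WH (wtQ ι) F m) :
    WH (wtQ ι) (sig n F) m := by
  have het : ∀ a k, WH (wtQ ι) (et gQ tQ (wQ (none : Option ι)) a k)
      ((0, 1), 2 ^ (k + 1) - 1) := by
    intro a
    induction a with
    | zero => exact fun k => wh_wQn k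
    | succ a ih =>
      intro k
      exact (wh_tQ _ _).add (wh_actQn (wh_gQ _) ih _)
  have hone : ∀ n, WH (wtQ ι) ((1 : Pt (RQ ι)).co n) (0, 2 ^ n - 1) := by
    intro n
    by_cases h : n = 0
    · subst h
      rw [Pt.co_zero]
      have : ((0 : ℤ × ℤ), (2 : ℤ) ^ 0 - 1) = 0 := by norm_num
      rw [this]
      exact isWeightedHomogeneous_one _ _
    · rw [Pt.co_one_ne h]
      exact isWeightedHomogeneous_zero _ _ _
  have hdup : ∀ i, Gr (wtQ ι) (wtQ ι) id (dupQ i).toLinearMap := by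
    intro i
    refine Gr.of_alg' fun v => ?_
    unfold dupQ
    rcases v with v | v | v
    · rw [evQ_g]
      change WH _ _ (0, 2 ^ (v.2 + 1) - 1)
      simp only [dg]
      split_ifs
      · exact wh_gQ _ _
      · exact hone _
      · exact wh_gQ _ _
    · rw [evQ_t]
      change WH _ _ ((0, 1), 2 ^ (v.2 + 1) - 1)
      simp only [dt]
      split_ifs
      · exact wh_tQ _ _
      · exact het _ _
      · exact isWeightedHomogeneous_zero _ _ _
    · rw [evQ_w]
      exact isWeightedHomogeneous_X _ _ _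
  rw [sig_apply]
  exact IsWeightedHomogeneous.sum _ _ _ fun j _ => (hdup j).map hF

/-- The comparison data. -/
noncomputable def hs (ι : Type*) (k m : ℤ) : HSD (RQ ι) (RR (Option ι)) where
  D := (DQ (ι := ι)).toLinearMap
  δ := dQ
  gr q n := levQ ι n ⊓ weightedHomogeneousSubmodule (ZMod 2) (wtQ ι) ((k, q), m)
  dC := dR (fun _ => 0)
  grC q n := lev (Option ι) n ⊓ weightedHomogeneousSubmodule (ZMod 2) (wtT ι) ((k, q), m)
  T := (TQ (ι := ι)).toLinearMap
  gr_zero q x h := h.1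
  grC_zero q x h := h.1
  gr_neg q n x hq h := by
    refine wh_neg (q := (AddMonoidHom.snd ℤ ℤ).comp (AddMonoidHom.fst (ℤ × ℤ) ℤ))
      (fun v => ?_) h.2 hq
    rcases v with v | v | v
    · exact le_rfl
    · exact zero_le_one
    · rcases v with ⟨o, i⟩
      cases o with
      | none => exact zero_le_one
      | some b => exact le_rfl
  D_mem q n x h := by
    refine ⟨DQ_lev h.1, ?_⟩
    have h1 := DQ_gr.map h.2
    simp only [Prod.mk_add_mk, add_zero] at h1
    exact h1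
  δ_mem q n x h := ⟨dQ_lev h.1, dQ_wh n h.2⟩
  dC_mem q n x h := ⟨dR_lev _ h.1, dRT_wh n h.2⟩
  T_mem q n x h := ⟨TQ_lev h.1, TQ_gr.map h.2⟩
  DD x := DR_DQ.DD x
  δδ q n x h := dQ_dQ' h.1
  Dδ n x := DQ_dQ n x
  DT x := DQ_TQ x
  col q n x hq h hd := by
    refine ⟨sig n x, ⟨sig_lev h.1, sig_wh n h.2⟩, ?_⟩
    have h1 := sig_dQ h.1 (rho_zero h.2 (by simp only; omega))
    rw [hd, map_zero, add_zero] at h1
    exact h1
  poin q n x h hd := by
    obtain ⟨y, G, e⟩ := poinQ (x := x) hd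
    have e2 : ∃ y ∈ lev (Option ι) n, ∃ G ∈ levQ ι n, x = TQ y + DQ G := by
      cases n with
      | zero =>
        refine ⟨0, Submodule.zero_mem _, 0, Submodule.zero_mem _, ?_⟩
        rw [map_zero, map_zero, add_zero]
        exact h.1
      | succ n =>
        refine ⟨prj n y, prj_mem n y, prjQ n G, prjQ_mem n G, ?_⟩
        rw [← prjQ_TQ, prjQ_DQ, ← map_add, ← e]
        exact (mem_levQ_succ.1 h.1).symm
    obtain ⟨y, hy, G, hG, e⟩ := e2
    refine ⟨cmp (wtT ι) ((k, q), m) y, ⟨cmpT_lev _ hy, cmp_wh _ _ _⟩,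
      cmp (wtQ ι) ((k, q - 1), m) G, ⟨cmpQ_lev _ hG, cmp_wh _ _ _⟩, ?_⟩
    have h1 := TQ_gr.cmp Function.injective_id ((k, q), m) y
    have h2 := (DQ_gr (ι := ι)).cmp (add_left_injective _) ((k, q - 1), m) G
    have e3 : (((k, q - 1), m) : (ℤ × ℤ) × ℤ) + ((0, 1), 0) = ((k, q), m) := by
      simp
    rw [e3] at h2
    rw [← h1, ← h2]
    change x = cmp (wtQ ι) ((k, q), m) (TQ y) + cmp (wtQ ι) ((k, q), m) (DQ G)
    rw [← map_add, ← e]
    exact (cmp_same h.2).symm
  inj q n y v hy hv e := injQ e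
  comp q n y hy := by
    obtain ⟨G, e⟩ := compQ y
    have e1 : dQ n (TQ y) = TQ (dR (fun _ => 0) n y) + DQ G := by
      rw [dQ_apply, dR_apply, map_sum, Finset.sum_range_succ', Finset.sum_range_succ', e]
      rw [← add_assoc]
      congr 2
      exact Finset.sum_congr rfl fun j _ => TQ_face_succ j y
    have h1 : dQ n (TQ y) ∈ levQ ι (n + 1) := dQ_lev (TQ_lev hy.1)
    have h2 : TQ (dR (fun _ => 0) n y) ∈ levQ ι (n + 1) := TQ_lev (dR_lev _ hy.1)
    have e4 : DQ G = dQ n (TQ y) + TQ (dR (fun _ => 0) n y) := by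
      rw [e1, add_comm (TQ _) (DQ G), add_add_self2]
    have h3 : DQ G ∈ levQ ι (n + 1) := by
      rw [e4]
      exact Submodule.add_mem _ h1 h2
    have h4 : WH (wtQ ι) (DQ G) ((k, q), m) := by
      rw [e4]
      exact (dQ_wh n (TQ_gr.map hy.2)).add (TQ_gr.map (dRT_wh n hy.2))
    refine ⟨cmp (wtQ ι) ((k, q - 1), m) (prjQ n G),
      ⟨cmpQ_lev _ (prjQ_mem n G), cmp_wh _ _ _⟩, ?_⟩
    have h5 := (DQ_gr (ι := ι)).cmp (add_left_injective _) ((k, q - 1), m) (prjQ n G)
    have e3 : (((k, q - 1), m) : (ℤ × ℤ) × ℤ) + ((0, 1), 0) = ((k, q), m) := by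
      simp
    rw [e3] at h5
    rw [← h5]
    change dQ n (TQ y) = TQ (dR (fun _ => 0) n y) + cmp (wtQ ι) ((k, q), m) (DQ (prjQ n G))
    rw [prjQ_DQ, mem_levQ_succ.1 h3, cmp_same h4, e1]

end hsd

end Pool.Agent.Work.MP_701abf_gt.Stab
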