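import Pool.Agent.Work.MP_701abf_gt.Stab.Cone

/-!
Towers of families, exactness of the cones, stability, and the gap theorem.
-/

open MvPolynomial

namespace Pool.Agent.Work.MP_701abf_gt.Stab

section tower

variable {Z : Type*} {N : ℤ}

lemma dR_pow {κ : Type*} (τ : κ → ℕ) (n : ℕ) (F : RR κ) (k : ℕ) :
    dR τ n (F ^ 2 ^ k) = dR τ n F ^ 2 ^ k := by
  rw [dR_apply, dR_apply, sum_pow' (R := RR κ) k (Finset.range (n + 1)) (fun j => face τ j F)]
  exact Finset.sum_congr rfl fun j _ => map_pow _ _ _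

/-- The tower over a family. -/
noncomputable def Fam.pw (f : Fam Z N) (r : ℕ) : Fam Z (2 ^ r * N) where
  β := f.β
  z j := f.z j ^ 2 ^ r
  lev j := lev_pow (f.lev j) (pow_ne_zero _ two_ne_zero)
  wh j := by
    have h := (f.wh j).pow (2 ^ r)
    have e : 2 ^ r • (((0 : ℤ × ℤ), N) : (ℤ × ℤ) × ℤ) = (0, 2 ^ r * N) := by
      rw [Prod.smul_mk, smul_zero, nsmul_eq_mul]
      push_cast
      rfl
    rw [e] at h
    exact h
  cl j := by
    change dR _ _ (f.z j ^ 2 ^ r) = 0
    rw [dR_pow]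
    have := f.cl j
    change dR _ _ (f.z j) = 0 at this
    rw [this, zero_pow (pow_ne_zero _ two_ne_zero)]

variable [Fintype Z]

/-- Goodness of all members of the tower. -/
def TG (p : ℕ) (f : Fam Z N) : Prop :=
  ∀ p' ≤ p, ∀ r, ExK (f.pw r) Empty (fun _ => 0) p' 0 0

lemma TG.mono {p p' : ℕ} (h : p' ≤ p) {f : Fam Z N} (hf : TG p f) : TG p' f :=
  fun q hq r => hf q (hq.trans h) r

lemma exK_tower {ι : Type*} (f : Fam Z N) (r : ℕ) {k M : ℤ} {p : ℕ}
    (h0 : ∀ M', 2 * M' = M → ExK (f.pw r) ι (fun _ => 0) p k M')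
    (h : ∀ q : ℕ, 1 ≤ q → q ≤ p → ∀ M', 2 * M' - (q : ℤ) = M →
      ExK (f.pw r) (Option ι) (fun _ => 0) (p - q) (k + q) M') :
    ExK (f.pw (r + 1)) ι (fun _ => 1) p k M := by
  refine exK_rec (f.pw r) (f.pw (r + 1)) (by rw [pow_succ]; ring) rfl ?_ h0 h
  funext j
  change f.z j ^ 2 ^ (r + 1) = (f.z j ^ 2 ^ r) ^ 2
  rw [pow_succ, pow_mul]

end tower

section kp

/-- Goodness propagates up the tower. -/
lemma base_tower (p : ℕ) : ∃ J : ℕ, ∀ (Z : Type) [Fintype Z] (N : ℤ) (f : Fam Z N),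
    (2 : ℤ) ^ J ∣ N → (∀ p' ≤ p, ExK (f.pw 0) Empty (fun _ => 0) p' 0 0) → TG p f := by
  have H : Ev (fun N' => ∀ p' < p + 1, ∀ q < p', ∀ e', 2 * e' = 0 + ((q + 1 : ℕ) : ℤ) →
      ExT (Option Empty) (fun _ => 0) (p' - (q + 1)) (((0 : ℕ) : ℤ) + ((q + 1 : ℕ) : ℤ))
        (N' + (((0 : ℕ) : ℤ) + ((q + 1 : ℕ) : ℤ)) - e')) :=
    Ev.lt (p + 1) fun p' _ => VP.rows (fun p'' _ => vanishing p'') 0 le_rfl Empty
  obtain ⟨J, hJ⟩ := H
  refine ⟨J, fun Z _ N f hN hf p' hp' r => ?_⟩
  induction r generalizing p' with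
  | zero => exact hf p' hp'
  | succ r ih =>
    have hd : (2 : ℤ) ^ J ∣ 2 ^ r * N := hN.mul_left _
    refine ExK.pieces (n := 0) fun k hk => ?_
    have hk0 : k = 0 := by omega
    subst hk0
    rw [sub_self, sub_zero]
    refine exK_tower f r (fun M' hM' => ?_) (fun q hq1 hq M' hM' => ?_)
    · have : M' = 0 := by omega
      rw [this]
      exact ih p' hp'
    · obtain ⟨q, rfl⟩ : ∃ s, q = s + 1 := ⟨q - 1, by omega⟩
      refine ExK.low (by push_cast at hM' ⊢; omega) ?_
      have := hJ _ hd p' (by omega) q (by omega) (((q + 1 : ℕ) : ℤ) - M') (by omega)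
      have e1 : 2 ^ r * N + (((0 : ℕ) : ℤ) + ((q + 1 : ℕ) : ℤ)) - (((q + 1 : ℕ) : ℤ) - M') =
        M' + 2 ^ r * N := by push_cast; ring
      rw [e1] at this
      exact this

/-- The exactness statement with a given gap. -/
def KI (p n : ℕ) (ι : Type) (L : ℕ) : Prop :=
  ∀ (Z : Type) [Fintype Z] (N : ℤ) (f : Fam Z N), TG p f → ∀ (a r : ℕ) (M : ℤ),
    0 ≤ M → M < 2 ^ a → a + L ≤ r → ExK (f.pw r) ι (fun _ => 0) p n M

lemma KI.mono {p n : ℕ} {ι : Type} {L L' : ℕ} (h : L ≤ L') (hK : KI p n ι L) :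
    KI p n ι L' :=
  fun Z _ N f hf a r M h1 h2 h3 => hK Z N f hf a r M h1 h2 (by omega)

lemma ex_lt {P : ℕ → ℕ → Prop} (hm : ∀ k L L', L ≤ L' → P k L → P k L') (n : ℕ)
    (h : ∀ k < n, ∃ L, P k L) : ∃ L, ∀ k < n, P k L := by
  induction n with
  | zero => exact ⟨0, fun k hk => by omega⟩
  | succ n ih =>
    obtain ⟨L1, h1⟩ := ih fun k hk => h k (by omega)
    obtain ⟨L2, h2⟩ := h n (by omega)
    refine ⟨max L1 L2, fun k hk => ?_⟩
    rcases Nat.lt_succ_iff_lt_or_eq.1 hk with h3 | h3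
    · exact hm _ _ _ (le_max_left _ _) (h1 k h3)
    · rw [h3]; exact hm _ _ _ (le_max_right _ _) h2

lemma two_pow_bound (a p : ℕ) (hp : 1 ≤ p) : (2 : ℤ) ^ (a + 1) + p ≤ 2 * 2 ^ (a + p) := by
  have h1 : (p : ℤ) + 1 ≤ 2 ^ p := by exact_mod_cast Nat.lt_two_pow_self
  have h2 : (1 : ℤ) ≤ 2 ^ a := one_le_pow₀ (by norm_num)
  rw [pow_succ, pow_add]
  nlinarith

lemma KI_step {p n : ℕ} {ι : Type} [Finite ι] {L L' : ℕ} (hL : L' + p + 1 ≤ L)
    (ha : ∀ k < n, KI p k ι L)
    (hb : ∀ k ≤ n, ∀ q : ℕ, 1 ≤ q → q ≤ p → KI (p - q) (k + q) (Option ι) L')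
    (hc : ∀ M < n, ∀ N : ℤ, (2 : ℤ) ^ L ∣ N → ExT ι (fun _ => 0) p n (N + M)) :
    KI p n ι L := by
  cases nonempty_fintype ι
  classical
  intro Z _ N f hf a
  induction a with
  | zero =>
    intro r M h1 h2 h3
    have hM : M = 0 := by omega
    subst hM
    rcases Nat.eq_zero_or_pos n with hn | hn
    · subst hn
      exact ExK.of_empty (hf p le_rfl r)
    · refine ExK.low (by exact_mod_cast hn) ?_
      have := hc 0 hn (2 ^ r * N) ((pow_dvd_pow 2 (by omega)).mul_right _)
      rw [Nat.cast_zero, add_zero] at this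
      rw [zero_add]
      exact this
  | succ a ih =>
    intro r M h1 h2 h3
    rcases lt_or_ge M n with hn | hn
    · obtain ⟨m, rfl⟩ := Int.eq_ofNat_of_zero_le h1
      refine ExK.low hn ?_
      rw [add_comm]
      exact hc m (by exact_mod_cast hn) _ ((pow_dvd_pow 2 (by omega)).mul_right _)
    · obtain ⟨r, rfl⟩ : ∃ s, r = s + 1 := ⟨r - 1, by omega⟩
      have hpow : (2 : ℤ) ^ (a + 1) = 2 * 2 ^ a := by rw [pow_succ]; ring
      refine ExK.pieces fun k hk => exK_tower f r (fun M' hM' => ?_) (fun q hq1 hq M' hM' => ?_)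
      · have hk' : (k : ℤ) ≤ n := by exact_mod_cast hk
        have hM1 : 0 ≤ M' := by omega
        have hM2 : M' < 2 ^ a := by omega
        rcases Nat.lt_or_ge k n with h4 | h4
        · exact ha k h4 Z N f hf a r M' hM1 hM2 (by omega)
        · have : k = n := by omega
          subst this
          exact ih r M' hM1 hM2 (by omega)
      · have hk' : (k : ℤ) ≤ n := by exact_mod_cast hk
        have hq' : (q : ℤ) ≤ p := by exact_mod_cast hq
        have hM1 : 0 ≤ M' := by omega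
        have hb1 := two_pow_bound a p (by omega)
        have hM2 : M' < 2 ^ (a + p) := by omega
        have := hb k hk q hq1 hq Z N f (hf.mono (by omega)) (a + p) r M' hM1 hM2 (by omega)
        rw [Nat.cast_add] at this
        exact this

/-- Exactness of the cones. -/
theorem KP (p : ℕ) : ∀ (n : ℕ) (ι : Type) [Finite ι], ∃ L, KI p n ι L := by
  induction p using Nat.strong_induction_on with
  | _ p IHp =>
    intro n
    induction n using Nat.strong_induction_on with
    | _ n IHn =>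
      intro ι _
      obtain ⟨L1, h1⟩ := ex_lt (P := fun k L => KI p k ι L) (fun k L L' h => KI.mono h) n
        (fun k hk => IHn k hk ι)
      obtain ⟨L2, h2⟩ := ex_lt
        (P := fun k L => ∀ q < p, KI (p - (q + 1)) (k + (q + 1)) (Option ι) L)
        (fun k L L' h hP q hq => KI.mono h (hP q hq)) (n + 1)
        (fun k hk => ex_lt (P := fun q L => KI (p - (q + 1)) (k + (q + 1)) (Option ι) L)
          (fun q L L' h => KI.mono h) p (fun q hq => IHp (p - (q + 1)) (by omega) _ (Option ι)))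
      obtain ⟨L3, h3⟩ : Ev (fun N => ∀ M < n, ExT ι (fun _ => 0) p n (N + M)) := by
        refine Ev.lt n fun M hM => ?_
        refine (vanishing p n (n - M) (by omega) ι).mono fun N hN => ?_
        have e1 : N + (n : ℤ) - (n - M) = N + M := by ring
        rwa [e1] at hN
      refine ⟨L1 + (L2 + p + 1) + L3, KI_step (L' := L2) (by omega)
        (fun k hk => KI.mono (by omega) (h1 k hk)) (fun k hk q hq1 hq => ?_)
        (fun M hM N hN => h3 N ((pow_dvd_pow 2 (by omega)).trans hN) M hM)⟩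
      obtain ⟨q, rfl⟩ : ∃ s, q = s + 1 := ⟨q - 1, by omega⟩
      exact h2 k (by omega) q (by omega)

end kp

section stability

lemma infl_empty (y : RR Empty) : infl y = y ^ 2 := by
  have : (infl (ι := Empty)) = expand 2 := by
    refine algHom_ext fun v => ?_
    rcases v with v | v
    · rw [infl_inl, expand_X]
    · exact v.1.elim
  rw [this, expand_zmod]

lemma wE_eq (τ : Empty → ℕ) : wt (fun _ : Empty => (1, 0)) τ = wE := by
  have : τ = fun _ => 0 := by
    funext e
    exact e.elim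
  rw [this]

lemma dE_eq (τ : Empty → ℕ) (n : ℕ) : dR τ n = dE n := by
  have : τ = fun _ => 0 := by
    funext e
    exact e.elim
  rw [this]

/-- Surjectivity of `Sq^0` in degree `(p, 2 N)`. -/
def Surj0 (p : ℕ) (N : ℤ) : Prop :=
  ∀ F ∈ lev Empty (p + 1), WH wE F (0, 2 * N) → dE (p + 1) F = 0 →
    ∃ y ∈ lev Empty (p + 1), WH wE y (0, N) ∧ dE (p + 1) y = 0 ∧
      ∃ G ∈ lev Empty p, WH wE G (0, 2 * N) ∧ F = y ^ 2 + dE p G

/-- Injectivity of `Sq^0` in degree `(p, N)`. -/
def Inj0 (p : ℕ) (N : ℤ) : Prop :=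
  ∀ y ∈ lev Empty (p + 1), WH wE y (0, N) → ∀ G ∈ lev Empty p, WH wE G (0, 2 * N) →
    y ^ 2 = dE p G → ∃ z ∈ lev Empty p, WH wE z (0, N) ∧ dE p z = y

theorem stability (p : ℕ) : Ev (fun N => Surj0 p N ∧ Inj0 p N) := by
  have h1 := VP.rows (p := p) (fun p' _ => vanishing p') 0 le_rfl Empty
  have h2 := VP.rows (p := p - 1) (fun p' _ => vanishing p') 0 le_rfl Empty
  refine (h1.and h2).mono ?_
  rintro N ⟨h1, h2⟩
  constructor
  · intro F hF hFw hd
    have h3 := edge_surj (ι := Empty) (k := 0) (m := 2 * N) (m' := N) rfl (p := p)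
      (fun q hq1 hq m' hm' => by
        obtain ⟨q, rfl⟩ : ∃ r, q = r + 1 := ⟨q - 1, by omega⟩
        have := h1 q (by omega) (N + ((q + 1 : ℕ) : ℤ) - m') (by omega)
        have e1 : N + (((0 : ℕ) : ℤ) + ((q + 1 : ℕ) : ℤ)) - (N + ((q + 1 : ℕ) : ℤ) - m') = m' := by
          push_cast; ring
        rw [e1] at this
        exact this) (F := F) hF (by rw [wE_eq]; exact hFw) (by rw [dE_eq]; exact hd)
    obtain ⟨y, hy, hyw, hyd, G, hG, hGw, e⟩ := h3
    rw [wE_eq] at hyw hGw
    rw [infl_empty, dE_eq] at e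
    exact ⟨y, hy, hyw, hyd, G, hG, hGw, e⟩
  · intro y hy hyw G hG hGw e
    have h3 := edge_inj (ι := Empty) (k := 0) (m := 2 * N) (m' := N) rfl (p := p)
      (fun q hq1 hq m' hm' => by
        obtain ⟨q, rfl⟩ : ∃ r, q = r + 1 := ⟨q - 1, by omega⟩
        have := h2 q (by omega) (N + ((q + 1 : ℕ) : ℤ) - m') (by omega)
        have e1 : N + (((0 : ℕ) : ℤ) + ((q + 1 : ℕ) : ℤ)) - (N + ((q + 1 : ℕ) : ℤ) - m') = m' := by
          push_cast; ring
        rw [e1] at this
        exact this) (y := y) hy (by rw [wE_eq]; exact hyw) (G := G) hG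
      (by rw [wE_eq]; exact hGw) (by rw [infl_empty, dE_eq]; exact e)
    obtain ⟨z, hz, hzw, ez⟩ := h3
    rw [wE_eq] at hzw
    rw [dE_eq] at ez
    exact ⟨z, hz, hzw, ez⟩

end stability

section gap

/-- A gap of length `L` in the binary expansion. -/
def Gap (L : ℕ) (m : ℤ) : Prop :=
  ∃ (a : ℕ) (t1 t2 : ℤ), 0 < t1 ∧ t1 < 2 ^ a ∧ 0 < t2 ∧ m = t1 + 2 ^ (a + L) * t2

/-- Small odd part. -/
def Small (B : ℤ) (m : ℤ) : Prop := m ≤ 0 ∨ ∃ (v : ℕ) (t : ℤ), 0 < t ∧ t ≤ B ∧ m = 2 ^ v * t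

lemma Small.mono {B B' m : ℤ} (h : B ≤ B') (hm : Small B m) : Small B' m := by
  rcases hm with h1 | ⟨v, t, h1, h2, h3⟩
  · exact Or.inl h1
  · exact Or.inr ⟨v, t, h1, h2.trans h, h3⟩

lemma Small.of_le {B m : ℤ} (h : m ≤ B) : Small B m := by
  rcases le_or_gt m 0 with h1 | h1
  · exact Or.inl h1
  · exact Or.inr ⟨0, m, h1, h, by rw [pow_zero, one_mul]⟩

/-- Exactness away from gaps and small odd parts. -/
def GI (p n : ℕ) (ι : Type) (L : ℕ) (B : ℕ) : Prop :=
  ∀ m : ℤ, ¬ Gap L m → ¬ Small B m → ExT ι (fun _ => 0) p n m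

lemma GI.mono {p n : ℕ} {ι : Type} {L B B' : ℕ} (h : B ≤ B') (hG : GI p n ι L B) :
    GI p n ι L B' :=
  fun m h1 h2 => hG m h1 fun h3 => h2 (h3.mono (by exact_mod_cast h))

/-- One row of the recursion: `m = 2 m' + c`. -/
lemma gap_row {p' n' : ℕ} {ι' : Type} [Finite ι'] (n : ℕ) (c : ℤ) (hc1 : c ≤ n)
    (hc2 : c < 0 → -c < 2 * n') (L : ℕ)
    (hn' : n' = 0 → 0 ≤ c) (IH : ∀ L', ∃ B, GI p' n' ι' L' B) :
    ∃ B : ℕ, ∀ m : ℤ, ¬ Gap L m → ¬ Small B m → ∀ m', 2 * m' + c = m →
      ExT ι' (fun _ => 0) p' n' m' := by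
  -- the vanishing theorem
  have H : Ev (fun N => ∀ t < n', ExT ι' (fun _ => 0) p' n' (N + t)) := by
    refine Ev.lt n' fun t ht => ?_
    refine (vanishing p' n' (n' - t) (by omega) ι').mono fun N hN => ?_
    have e1 : N + (n' : ℤ) - (n' - t) = N + t := by ring
    rwa [e1] at hN
  obtain ⟨J, hJ⟩ := H
  obtain ⟨B', hB'⟩ := IH (L + n + J)
  refine ⟨B' + n + 2 ^ (L + n) * B' + 2 ^ (J + 1) * B' + n, fun m hg hs m' hm' => ?_⟩
  have hs1 : ∀ x : ℕ, x ≤ B' + n + 2 ^ (L + n) * B' + 2 ^ (J + 1) * B' + n → ¬ m ≤ x := by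
    intro x hx h
    exact hs (Small.of_le (h.trans (by exact_mod_cast hx)))
  have hm0 : 0 < m := by
    by_contra h
    exact hs (Or.inl (not_lt.1 h))
  have hpn : (n : ℤ) < 2 ^ n := by exact_mod_cast Nat.lt_two_pow_self
  by_cases hg' : Gap (L + n + J) m'
  · obtain ⟨a, t1, t2, h1, h2, h3, h4⟩ := hg'
    rcases lt_or_ge 0 (2 * t1 + c) with h5 | h5
    · exfalso
      apply hg
      refine ⟨a + 1 + n, 2 * t1 + c, 2 ^ J * t2, h5, ?_, by positivity, ?_⟩
      · have h6 : (1 : ℤ) ≤ 2 ^ a := one_le_pow₀ (by norm_num)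
        have h7 : (1 : ℤ) ≤ 2 ^ n := one_le_pow₀ (by norm_num)
        have h8 : (2 : ℤ) ^ (a + 1 + n) = 2 * 2 ^ a * 2 ^ n := by rw [pow_add, pow_succ]; ring
        rw [h8]
        have h9 : (n : ℤ) + 1 ≤ 2 ^ n := by omega
        have h10 : 2 * 2 ^ a * ((n : ℤ) + 1) ≤ 2 * 2 ^ a * 2 ^ n :=
          mul_le_mul_of_nonneg_left h9 (by positivity)
        have h11 : (n : ℤ) ≤ 2 * 2 ^ a * n := by nlinarith
        nlinarith
      · rw [← hm', h4]
        have e1 : (2 : ℤ) ^ (a + 1 + n + L) * (2 ^ J * t2) = 2 * (2 ^ (a + (L + n + J)) * t2) := by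
          rw [show a + 1 + n + L = a + n + L + 1 by ring, show a + (L + n + J) = a + n + L + J by ring,
            pow_succ, pow_add _ (a + n + L) J]
          ring
        rw [e1]
        ring
    · obtain ⟨t, rfl⟩ := Int.eq_ofNat_of_zero_le h1.le
      have h6 : t < n' := by
        have := hc2 (by omega)
        omega
      have h7 := hJ (2 ^ (a + (L + n + J)) * t2) ((pow_dvd_pow 2 (by omega)).mul_right _) t h6
      rw [h4, add_comm]
      exact h7
  by_cases hs' : Small B' m'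
  · rcases hs' with h1 | ⟨v, t, h1, h2, h3⟩
    · rcases Nat.eq_zero_or_pos n' with h4 | h4
      · exfalso
        refine hs1 n (by omega) ?_
        omega
      · exact ExT.low (by omega)
    · rcases lt_trichotomy c 0 with h5 | h5 | h5
      · rcases Nat.lt_or_ge v J with h6 | h6
        · exfalso
          refine hs1 (2 ^ (J + 1) * B') (by omega) ?_
          push_cast
          have h7 : (2 : ℤ) ^ v * t ≤ 2 ^ J * B' := by
            have h8 : (2 : ℤ) ^ v ≤ 2 ^ J := pow_le_pow_right₀ (by norm_num) (by omega)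
            calc (2 : ℤ) ^ v * t ≤ 2 ^ J * t := mul_le_mul_of_nonneg_right h8 h1.le
              _ ≤ 2 ^ J * B' := mul_le_mul_of_nonneg_left h2 (by positivity)
          rw [pow_succ]
          linarith
        · have h7 : 0 < n' := by
            rcases Nat.eq_zero_or_pos n' with h8 | h8
            · have := hn' h8
              omega
            · exact h8
          have h8 := hJ m' (by rw [h3]; exact (pow_dvd_pow 2 h6).mul_right _) 0 h7
          rw [Nat.cast_zero, add_zero] at h8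
          exact h8
      · exfalso
        apply hs
        right
        refine ⟨v + 1, t, h1, h2.trans ?_, ?_⟩
        · exact_mod_cast (by omega : B' ≤ B' + n + 2 ^ (L + n) * B' + 2 ^ (J + 1) * B' + n)
        · rw [← hm', h3, h5, pow_succ]
          ring
      · exfalso
        rcases Nat.lt_or_ge (v + 1) (L + n) with h6 | h6
        · refine hs1 (2 ^ (L + n) * B' + n) (by omega) ?_
          push_cast
          have h7 : (2 : ℤ) ^ (v + 1) * t ≤ 2 ^ (L + n) * B' := by
            have h8 : (2 : ℤ) ^ (v + 1) ≤ 2 ^ (L + n) := pow_le_pow_right₀ (by norm_num) (by omega)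
            calc (2 : ℤ) ^ (v + 1) * t ≤ 2 ^ (L + n) * t := mul_le_mul_of_nonneg_right h8 h1.le
              _ ≤ 2 ^ (L + n) * B' := mul_le_mul_of_nonneg_left h2 (by positivity)
          rw [pow_succ] at h7
          linarith
        · apply hg
          refine ⟨n, c, 2 ^ (v + 1 - (L + n)) * t, h5, by omega, by positivity, ?_⟩
          rw [← hm', h3]
          have e1 : (2 : ℤ) ^ (n + L) * (2 ^ (v + 1 - (L + n)) * t) = 2 * (2 ^ v * t) := by
            rw [← mul_assoc, ← pow_add, show n + L + (v + 1 - (L + n)) = v + 1 by omega, pow_succ]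
            ring
          rw [e1]
          ring
  · exact hB' m' hg' hs'

/-- The gap theorem. -/
theorem gap_thm (p : ℕ) : ∀ (n : ℕ) (ι : Type) [Finite ι] (L : ℕ), ∃ B, GI p n ι L B := by
  induction p using Nat.strong_induction_on with
  | _ p IHp =>
    intro n
    induction n using Nat.strong_induction_on with
    | _ n IHn =>
      intro ι _ L
      cases nonempty_fintype ι
      classical
      -- rows
      have hmono : ∀ (p' n' : ℕ) (ι' : Type) (c : ℤ) (B B' : ℕ), B ≤ B' →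
          (∀ m : ℤ, ¬ Gap L m → ¬ Small B m → ∀ m', 2 * m' + c = m →
            ExT ι' (fun _ => 0) p' n' m') →
          (∀ m : ℤ, ¬ Gap L m → ¬ Small B' m → ∀ m', 2 * m' + c = m →
            ExT ι' (fun _ => 0) p' n' m') := by
        intro p' n' ι' c B B' h hP m h1 h2
        exact hP m h1 fun h3 => h2 (h3.mono (by exact_mod_cast h))
      obtain ⟨B1, h1⟩ := ex_lt (P := fun k B => ∀ m : ℤ, ¬ Gap L m → ¬ Small B m →
          ∀ m', 2 * m' + ((n : ℤ) - k) = m → ExT ι (fun _ => 0) p k m')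
        (fun k B B' h => hmono p k ι _ B B' h) n
        (fun k hk => gap_row n ((n : ℤ) - k) (by omega) (by intro h; omega) L
          (by intro h; omega) (fun L' => IHn k hk ι L'))
      obtain ⟨B2, h2⟩ := ex_lt (P := fun k B => ∀ q < p, ∀ m : ℤ, ¬ Gap L m → ¬ Small B m →
          ∀ m', 2 * m' + ((n : ℤ) - k - ((q + 1 : ℕ) : ℤ)) = m →
            ExT (Option ι) (fun _ => 0) (p - (q + 1)) ((k + (q + 1) : ℕ) : ℤ) m')
        (fun k B B' h hP q hq => hmono _ _ _ _ B B' h (hP q hq)) (n + 1)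
        (fun k hk => ex_lt (P := fun q B => ∀ m : ℤ, ¬ Gap L m → ¬ Small B m →
            ∀ m', 2 * m' + ((n : ℤ) - k - ((q + 1 : ℕ) : ℤ)) = m →
              ExT (Option ι) (fun _ => 0) (p - (q + 1)) ((k + (q + 1) : ℕ) : ℤ) m')
          (fun q B B' h => hmono _ _ _ _ B B' h) p
          (fun q hq => gap_row n _ (by omega) (by intro h; push_cast; omega) L
            (by intro h; omega) (fun L' => IHp (p - (q + 1)) (by omega) _ (Option ι) L')))
      refine ⟨B1 + B2, ?_⟩
      have key : ∀ (s : ℕ) (m : ℤ), m.natAbs = s → ¬ Gap L m → ¬ Small ((B1 + B2 : ℕ) : ℤ) m →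
          ExT ι (fun _ => 0) p n m := by
        intro s
        induction s using Nat.strong_induction_on with
        | _ s IHs =>
          intro m hms hg hs
          have hm0 : 0 < m := by
            by_contra h
            exact hs (Or.inl (not_lt.1 h))
          have hs1 : ¬ Small B1 m := fun h => hs (h.mono (by push_cast; omega))
          have hs2 : ¬ Small B2 m := fun h => hs (h.mono (by push_cast; omega))
          refine ExT.pieces fun k hk => exact_rec' (fun m' hm' => ?_)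
            (fun q hq1 hq m' hm' => ?_)
          · rcases Nat.lt_or_ge k n with h3 | h3
            · exact h1 k h3 m hg hs1 m' (by omega)
            · have hkn : k = n := by omega
              subst hkn
              have hmm : 2 * m' = m := by omega
              refine IHs m'.natAbs (by omega) m' rfl (fun h => hg ?_) (fun h => hs ?_)
              · obtain ⟨a, t1, t2, g1, g2, g3, g4⟩ := h
                refine ⟨a + 1, 2 * t1, t2, by omega, by rw [pow_succ]; omega, g3, ?_⟩
                rw [← hmm, g4, show a + 1 + L = a + L + 1 by ring, pow_succ]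
                ring
              · rcases h with g1 | ⟨v, t, g1, g2, g3⟩
                · exact Or.inl (by omega)
                · refine Or.inr ⟨v + 1, t, g1, g2, ?_⟩
                  rw [← hmm, g3, pow_succ]
                  ring
          · obtain ⟨q, rfl⟩ : ∃ r, q = r + 1 := ⟨q - 1, by omega⟩
            have := h2 k (by omega) q (by omega) m hg hs2 m' (by omega)
            rw [Nat.cast_add] at this
            exact this
      exact fun m hg hs => key _ m rfl hg hs

end gap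

end Pool.Agent.Work.MP_701abf_gt.Stab
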