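import Pool.Agent.Work.MP_701abf_gt.Stab.HS

/-!
Poincare lemma in characteristic two for `F_2[x_s, y_s, …]` with `D x_s = y_s`, where the `y_s`
are polynomial variables: the kernel of `D` is the image of `D` plus the polynomials in the
`x_s ^ 2` and the remaining variables.
-/

open MvPolynomial

namespace Pool.Agent.Work.MP_701abf_gt.Stab

variable {V σ : Type*}

/-- Polynomials over the field with two elements. -/
abbrev PF (V : Type*) : Type _ := MvPolynomial V (ZMod 2)

lemma two_eq_zeroP : (2 : PF V) = 0 := by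
  have : (C (2 : ZMod 2) : PF V) = 2 := map_ofNat _ 2
  rw [← this, show (2 : ZMod 2) = 0 from rfl, map_zero]

/-- The hypothesis on the derivation. -/
structure DR (D : Derivation (ZMod 2) (PF V) (PF V)) (x y : σ → V) : Prop where
  xi : Function.Injective x
  yi : Function.Injective y
  xy : ∀ s t, x s ≠ y t
  Dx : ∀ s, D (X (x s)) = X (y s)
  D0 : ∀ v, (∀ s, x s ≠ v) → D (X v) = 0

/-- A derivation composed with a commuting one with vanishing values on generators. -/
lemma der_comp_zero {D E : Derivation (ZMod 2) (PF V) (PF V)}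
    (h : ∀ v, D (E (X v)) = 0)
    (h2 : ∀ F G, D F * E G + D G * E F = 0) (F : PF V) : D (E F) = 0 := by
  induction F using MvPolynomial.induction_on with
  | C a => simp
  | add p q hp hq => rw [map_add, map_add, hp, hq, add_zero]
  | mul_X p v hp =>
    rw [Derivation.leibniz, map_add, smul_eq_mul, smul_eq_mul, Derivation.leibniz,
      Derivation.leibniz, hp, h]
    simp only [smul_eq_mul, mul_zero, zero_add]
    have := h2 p (X v)
    rw [← this]
    ring

lemma der_sq_zero {D : Derivation (ZMod 2) (PF V) (PF V)} (h : ∀ v, D (D (X v)) = 0)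
    (F : PF V) : D (D F) = 0 := by
  refine der_comp_zero h (fun F G => ?_) F
  rw [mul_comm (D G)]
  exact add_self2 _

lemma der_comm {D E : Derivation (ZMod 2) (PF V) (PF V)}
    (h : ∀ v, D (E (X v)) = E (D (X v))) (F : PF V) : D (E F) = E (D F) := by
  have h1 : ⁅D, E⁆ = 0 := by
    refine derivation_ext fun v => ?_
    rw [Derivation.commutator_apply, h v, sub_self]
    rfl
  have h2 := congrArg (fun G => G F) h1
  simp only [Derivation.commutator_apply, Derivation.coe_zero, Pi.zero_apply] at h2
  exact sub_eq_zero.1 h2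

section

variable (V) in
open Classical in
/-- Set a variable to zero. -/
noncomputable def kill (v : V) : PF V →ₐ[ZMod 2] PF V :=
  aeval fun u => if u = v then 0 else X u

lemma kill_self (v : V) : kill V v (X v) = 0 := by
  unfold kill; rw [aeval_X, if_pos rfl]

lemma kill_ne {u v : V} (h : u ≠ v) : kill V v (X u) = X u := by
  unfold kill; rw [aeval_X, if_neg h]

lemma kill_kill (u v : V) (F : PF V) : kill V u (kill V v F) = kill V v (kill V u F) := by
  have : (kill V u).comp (kill V v) = (kill V v).comp (kill V u) := by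
    refine algHom_ext fun w => ?_
    simp only [AlgHom.comp_apply]
    by_cases h1 : w = v
    · by_cases h2 : w = u
      · subst h1; subst h2; rfl
      · rw [kill_ne h2, h1, kill_self, map_zero]
    · by_cases h2 : w = u
      · rw [kill_ne h1, h2, kill_self, map_zero]
      · rw [kill_ne h1, kill_ne h2, kill_ne h1]
  exact congrArg (fun φ => φ F) this

lemma kill_idem (v : V) (F : PF V) : kill V v (kill V v F) = kill V v F := by
  have : (kill V v).comp (kill V v) = kill V v := by
    refine algHom_ext fun w => ?_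
    simp only [AlgHom.comp_apply]
    by_cases h1 : w = v
    · rw [h1, kill_self, map_zero]
    · rw [kill_ne h1, kill_ne h1]
  exact congrArg (fun φ => φ F) this

lemma kill_div (v : V) (F : PF V) : ∃ G, F = kill V v F + X v * G := by
  induction F using MvPolynomial.induction_on with
  | C a => exact ⟨0, by simp⟩
  | add p q hp hq =>
    obtain ⟨G, hG⟩ := hp
    obtain ⟨H, hH⟩ := hq
    refine ⟨G + H, ?_⟩
    conv_lhs => rw [hG, hH]
    rw [map_add]; ring
  | mul_X p u hp =>
    obtain ⟨G, hG⟩ := hp
    by_cases h : u = v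
    · subst h
      refine ⟨p, ?_⟩
      rw [map_mul, kill_self, mul_zero, zero_add, mul_comm]
    · refine ⟨G * X u, ?_⟩
      conv_lhs => rw [hG]
      rw [map_mul, kill_ne h]; ring

lemma kill_pderiv {u v : V} (h : u ≠ v) (F : PF V) :
    pderiv u (kill V v F) = kill V v (pderiv u F) := by
  induction F using MvPolynomial.induction_on with
  | C a => simp
  | add p q hp hq => rw [map_add, map_add, hp, hq, map_add, map_add]
  | mul_X p w hp =>
    rw [map_mul, Derivation.leibniz, Derivation.leibniz, map_add, smul_eq_mul, smul_eq_mul,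
      smul_eq_mul, smul_eq_mul, map_mul, map_mul, hp]
    congr 2
    by_cases h1 : w = v
    · subst h1
      rw [kill_self, map_zero, pderiv_X_of_ne (Ne.symm h), map_zero]
    · rw [kill_ne h1]
      by_cases h2 : w = u
      · subst h2; rw [pderiv_X_self, map_one]
      · rw [pderiv_X_of_ne h2, map_zero]

lemma kill_of_notMem {v : V} {F : PF V} (h : v ∉ F.vars) : kill V v F = F := by
  have := MvPolynomial.hom_congr_vars (f₁ := (kill V v : PF V →+* PF V))
    (f₂ := RingHom.id _) (p₁ := F) (p₂ := F) (by ext; simp) (by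
      intro u hu _
      have : u ≠ v := by rintro rfl; exact h hu
      simp [kill_ne this]) rfl
  simpa using this

lemma pderiv_comm (u v : V) (F : PF V) : pderiv u (pderiv v F) = pderiv v (pderiv u F) := by
  classical
  refine der_comm (fun w => ?_) F
  rw [pderiv_X, pderiv_X]
  simp only [Pi.single_apply]
  split_ifs <;> simp

lemma pderiv_sq (v : V) (F : PF V) : pderiv v (pderiv v F) = 0 := by
  classical
  refine der_sq_zero (fun w => ?_) F
  rw [pderiv_X]
  simp only [Pi.single_apply]
  split_ifs <;> simp

end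

variable {D : Derivation (ZMod 2) (PF V) (PF V)} {x y : σ → V}

namespace DR

lemma DD (h : DR D x y) (F : PF V) : D (D F) = 0 := by
  refine der_sq_zero (fun v => ?_) F
  by_cases hv : ∃ s, x s = v
  · obtain ⟨s, rfl⟩ := hv
    rw [h.Dx, h.D0 _ fun t => h.xy t s]
  · rw [h.D0 v (fun s hs => hv ⟨s, hs⟩), map_zero]

lemma comm (h : DR D x y) (s : σ) (F : PF V) :
    D (pderiv (x s) F) = pderiv (x s) (D F) := by
  classical
  refine der_comm (fun v => ?_) F
  have h1 : D (pderiv (x s) (X v)) = 0 := by
    rw [pderiv_X]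
    simp only [Pi.single_apply]
    split_ifs <;> simp
  rw [h1]
  by_cases hv : ∃ t, x t = v
  · obtain ⟨t, rfl⟩ := hv
    rw [h.Dx, pderiv_X_of_ne (Ne.symm (h.xy _ _))]
  · rw [h.D0 v (fun s hs => hv ⟨s, hs⟩), map_zero]

lemma D_kill (h : DR D x y) (s : σ) (F : PF V) :
    D (kill V (y s) F) = kill V (y s) (D F) + X (y s) * kill V (y s) (pderiv (x s) F) := by
  induction F using MvPolynomial.induction_on with
  | C a => simp
  | add p q hp hq =>
    simp only [map_add] at hp hq ⊢
    rw [hp, hq]; ring
  | mul_X p v hp =>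
    have hX : D (kill V (y s) (X v)) =
        kill V (y s) (D (X v)) + X (y s) * kill V (y s) (pderiv (x s) (X v)) := by
      by_cases hv : ∃ t, x t = v
      · obtain ⟨t, rfl⟩ := hv
        rw [kill_ne (h.xy _ _), h.Dx]
        by_cases hts : t = s
        · subst hts
          rw [kill_self, pderiv_X_self, map_one, mul_one, zero_add]
        · rw [kill_ne (fun e => hts (h.yi e)), pderiv_X_of_ne (fun e => hts (h.xi e)),
            map_zero, mul_zero, add_zero]
      · have hv' : ∀ t, x t ≠ v := fun s hs => hv ⟨s, hs⟩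
        rw [h.D0 v hv', map_zero, pderiv_X_of_ne (Ne.symm (hv' s)), map_zero, mul_zero, add_zero]
        by_cases h2 : v = y s
        · rw [h2, kill_self, map_zero]
        · rw [kill_ne h2, h.D0 v hv']
    simp only [map_mul, Derivation.leibniz, smul_eq_mul, map_add] at hp hX ⊢
    rw [hp, hX]; ring

/-- Cleaning the index `s`. -/
noncomputable def cl (x y : σ → V) (s : σ) (F : PF V) : PF V :=
  kill V (y s) (pderiv (x s) (X (x s) * F))

/-- `F` contains only even powers of `x_s` and does not contain `y_s`. -/
def Good (x y : σ → V) (s : σ) (F : PF V) : Prop :=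
  pderiv (x s) F = 0 ∧ kill V (y s) F = F

lemma cl_good_self (h : DR D x y) (s : σ) (F : PF V) : Good x y s (cl x y s F) := by
  unfold cl
  constructor
  · rw [kill_pderiv (h.xy _ _), pderiv_sq, map_zero]
  · rw [kill_idem]

lemma cl_good (h : DR D x y) {s t : σ} {F : PF V} (hF : Good x y t F) :
    Good x y t (cl x y s F) := by
  by_cases hts : t = s
  · subst hts; exact cl_good_self h t F
  unfold cl
  constructor
  · rw [kill_pderiv (h.xy _ _), pderiv_comm, Derivation.leibniz, hF.1,
      pderiv_X_of_ne (fun e => hts (h.xi e.symm))]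
    simp
  · rw [kill_kill, ← kill_pderiv (h.xy _ _), map_mul, hF.2, kill_ne (h.xy _ _)]

lemma cl_of_good {s : σ} {F : PF V} (hF : Good x y s F) : cl x y s F = F := by
  unfold cl
  rw [Derivation.leibniz, hF.1, pderiv_X_self, smul_zero, zero_add, smul_eq_mul, mul_one, hF.2]

lemma cl_D (h : DR D x y) (s : σ) (F : PF V) : cl x y s (D F) = D (cl x y s F) := by
  unfold cl
  have h1 : X (x s) * D F = D (X (x s) * F) + X (y s) * F := by
    rw [Derivation.leibniz, h.Dx, smul_eq_mul, smul_eq_mul, mul_comm F, add_add_self2]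
  have h2 : kill V (y s) (pderiv (x s) (X (y s) * F)) = 0 := by
    rw [Derivation.leibniz, pderiv_X_of_ne (Ne.symm (h.xy _ _)), smul_zero, add_zero,
      smul_eq_mul, map_mul, kill_self, zero_mul]
  rw [h1, map_add, map_add, h2, add_zero, ← h.comm, h.D_kill, pderiv_sq, map_zero, mul_zero,
    add_zero]

lemma step (h : DR D x y) (s : σ) {F : PF V} (hF : D F = 0) :
    ∃ G, F = cl x y s F + D G := by
  have e1 : F = pderiv (x s) (X (x s) * F) + X (x s) * pderiv (x s) F := by
    rw [Derivation.leibniz, pderiv_X_self, smul_eq_mul, smul_eq_mul, mul_one, add_comm,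
      ← add_assoc, add_self2, zero_add]
  obtain ⟨G, hG⟩ := kill_div (y s) (pderiv (x s) (X (x s) * F))
  have e2 : D (pderiv (x s) (X (x s) * F)) = X (y s) * pderiv (x s) F := by
    rw [h.comm, Derivation.leibniz, hF, h.Dx, smul_zero, zero_add, smul_eq_mul,
      Derivation.leibniz, pderiv_X_of_ne (Ne.symm (h.xy _ _)), smul_zero, zero_add, smul_eq_mul,
      mul_comm]
  have e3 : D (kill V (y s) (pderiv (x s) (X (x s) * F))) = 0 := by
    rw [h.D_kill, e2, map_mul, kill_self, zero_mul, pderiv_sq, map_zero, mul_zero, add_zero]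
  have e4 : X (y s) * pderiv (x s) F = X (y s) * D G := by
    rw [← e2, hG, map_add, e3, zero_add, Derivation.leibniz,
      h.D0 (y s) (fun t => h.xy t s), smul_zero, add_zero, smul_eq_mul]
  have e5 : pderiv (x s) F = D G := mul_left_cancel₀ (X_ne_zero _) e4
  refine ⟨X (x s) * G, ?_⟩
  rw [Derivation.leibniz, h.Dx, smul_eq_mul, smul_eq_mul, ← e5]
  conv_lhs => rw [e1, hG]
  unfold cl
  ring

lemma good_of_notMem {s : σ} {F : PF V} (h1 : x s ∉ F.vars) (h2 : y s ∉ F.vars) :
    Good x y s F :=
  ⟨pderiv_eq_zero_of_notMem_vars h1, kill_of_notMem h2⟩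

lemma cl_good_all (h : DR D x y) (F : PF V) :
    ∃ l : List σ, ∀ s, Good x y s (l.foldr (cl x y) F) := by
  classical
  have hfin : {s | x s ∈ F.vars ∨ y s ∈ F.vars}.Finite := by
    refine (Set.Finite.union (s := {s | x s ∈ F.vars}) (t := {s | y s ∈ F.vars}) ?_ ?_).subset
      (fun s hs => hs)
    · exact (F.vars.finite_toSet.preimage h.xi.injOn)
    · exact (F.vars.finite_toSet.preimage h.yi.injOn)
  refine ⟨hfin.toFinset.toList, fun s => ?_⟩
  have key : ∀ l : List σ, (s ∈ l ∨ Good x y s F) → Good x y s (l.foldr (cl x y) F) := by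
    intro l
    induction l with
    | nil => rintro (h1 | h1); · simp at h1
             · exact h1
    | cons a l ih =>
      intro h1
      rw [List.foldr_cons]
      by_cases h2 : s ∈ l ∨ Good x y s F
      · exact cl_good h (ih h2)
      · have : s = a := by
          rcases h1 with h1 | h1
          · rcases List.mem_cons.1 h1 with h3 | h3
            · exact h3
            · exact absurd (Or.inl h3) h2
          · exact absurd (Or.inr h1) h2
        subst this
        exact cl_good_self h _ _
  apply key
  by_cases h1 : x s ∈ F.vars ∨ y s ∈ F.vars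
  · left
    rw [Finset.mem_toList, Set.Finite.mem_toFinset]
    exact h1
  · right
    rw [not_or] at h1
    exact good_of_notMem h1.1 h1.2

lemma foldr_step (h : DR D x y) (l : List σ) {F : PF V} (hF : D F = 0) :
    D (l.foldr (cl x y) F) = 0 ∧ ∃ G, F = l.foldr (cl x y) F + D G := by
  induction l with
  | nil => exact ⟨hF, 0, by simp⟩
  | cons a l ih =>
    obtain ⟨h1, G, hG⟩ := ih
    rw [List.foldr_cons]
    obtain ⟨G', hG'⟩ := h.step a h1
    refine ⟨by rw [← cl_D h, h1]; simp [cl], G' + G, ?_⟩
    conv_lhs => rw [hG, hG']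
    rw [map_add, add_assoc]

lemma foldr_D (h : DR D x y) (l : List σ) (F : PF V) :
    l.foldr (cl x y) (D F) = D (l.foldr (cl x y) F) := by
  induction l with
  | nil => rfl
  | cons a l ih => rw [List.foldr_cons, List.foldr_cons, ih, cl_D h]

lemma foldr_good {l : List σ} {F : PF V} (hF : ∀ s, Good x y s F) :
    l.foldr (cl x y) F = F := by
  induction l with
  | nil => rfl
  | cons a l ih => rw [List.foldr_cons, ih, cl_of_good (hF a)]

/-- Polynomials which are good everywhere lie in every subalgebra containing the squares `x_s²`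
and the other variables. -/
lemma good_mem {F : PF V} (hF : ∀ s, Good x y s F) (A : Subalgebra (ZMod 2) (PF V))
    (h1 : ∀ s, X (x s) ^ 2 ∈ A) (h2 : ∀ v, (∀ s, x s ≠ v) → (∀ s, y s ≠ v) → X v ∈ A) :
    F ∈ A := by
  classical
  have hx : ∀ d ∈ F.support, ∀ s, Even (d (x s)) := by
    intro d hd s
    by_contra hodd
    rw [Nat.not_even_iff_odd] at hodd
    obtain ⟨k, hk⟩ := hodd
    have h3 := coeff_pderiv (i := x s) F (d - Finsupp.single (x s) 1)
    rw [(hF s).1, coeff_zero] at h3
    have h4 : d - Finsupp.single (x s) 1 + Finsupp.single (x s) 1 = d := by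
      ext v
      by_cases hv : v = x s
      · subst hv; simp; omega
      · simp [Ne.symm hv]
    rw [h4] at h3
    have h5 : (((d - Finsupp.single (x s) 1 : V →₀ ℕ) (x s) + 1 : ℕ) : ZMod 2) = 1 := by
      have : (d - Finsupp.single (x s) 1 : V →₀ ℕ) (x s) + 1 = 2 * k + 1 := by
        simp; omega
      rw [this]
      push_cast
      rw [show (2 : ZMod 2) = 0 from rfl]; ring
    rw [← Nat.cast_succ] at h3
    have h3' : (0 : ZMod 2) = coeff d F * 1 := by
      rw [← h5]; exact h3
    rw [mul_one] at h3'
    exact (mem_support_iff.1 hd) h3'.symm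
  have hy : ∀ d ∈ F.support, ∀ s, d (y s) = 0 := by
    intro d hd s
    by_contra hne
    obtain ⟨G, hG⟩ := kill_div (y s) F
    have hvars : ∀ G : PF V, ∀ d ∈ (kill V (y s) G).support, d (y s) = 0 := by
      intro G d hd
      by_contra h0
      have hv : y s ∈ (kill V (y s) G).vars := by
        rw [mem_vars_iff_mem_support]; exact ⟨d, hd, by rwa [Finsupp.mem_support_iff]⟩
      have h6 : (kill V (y s) G).vars ⊆ G.vars.biUnion fun u =>
          ((if u = y s then 0 else X u : PF V)).vars := by
        unfold kill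
        have := vars_bind₁ (fun u => if u = y s then (0 : PF V) else X u) G
        exact this
      obtain ⟨u, _, hu⟩ := Finset.mem_biUnion.1 (h6 hv)
      by_cases h7 : u = y s
      · rw [if_pos h7] at hu; simp at hu
      · rw [if_neg h7] at hu
        simp at hu
        exact h7 hu.symm
    have h8 : d ∈ (kill V (y s) F).support := by rw [(hF s).2]; exact hd
    exact hne (hvars F d h8)
  rw [F.as_sum]
  refine Subalgebra.sum_mem _ fun d hd => ?_
  rw [monomial_eq]
  refine Subalgebra.mul_mem _ (Subalgebra.algebraMap_mem _ _) ?_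
  unfold Finsupp.prod
  refine Subalgebra.prod_mem _ fun v hv => ?_
  by_cases hvx : ∃ s, x s = v
  · obtain ⟨s, rfl⟩ := hvx
    obtain ⟨k, hk⟩ := hx d hd s
    change X (x s) ^ (d (x s)) ∈ A
    rw [hk, ← two_mul, pow_mul]
    exact Subalgebra.pow_mem _ (h1 s) _
  · refine Subalgebra.pow_mem _ (h2 v (fun s hs => hvx ⟨s, hs⟩) fun s hs => ?_) _
    subst hs
    exact (Finsupp.mem_support_iff.1 hv) (hy d hd s)

lemma D_of_good (h : DR D x y) {F : PF V} (hF : ∀ s, Good x y s F) : D F = 0 := by
  let A : Subalgebra (ZMod 2) (PF V) :=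
    { carrier := {G | D G = 0}
      mul_mem' := fun {a b} (ha : D a = 0) (hb : D b = 0) => by
        change D (a * b) = 0
        rw [Derivation.leibniz, ha, hb]; simp
      add_mem' := fun {a b} (ha : D a = 0) (hb : D b = 0) => by
        change D (a + b) = 0
        rw [map_add, ha, hb, add_zero]
      algebraMap_mem' := fun r => by
        change D (algebraMap _ _ r) = 0
        exact D.map_algebraMap r }
  refine good_mem hF A (fun s => ?_) (fun v hv _ => h.D0 v hv)
  change D (X (x s) ^ 2) = 0
  rw [sq, Derivation.leibniz]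
  exact add_self2 _

/-- The Poincare lemma. -/
theorem poincare (h : DR D x y) {F : PF V} (hF : D F = 0) :
    ∃ F' G, F = F' + D G ∧ ∀ s, Good x y s F' := by
  obtain ⟨l, hl⟩ := h.cl_good_all F
  obtain ⟨_, G, hG⟩ := h.foldr_step l hF
  exact ⟨_, G, hG, hl⟩

/-- Good polynomials are not exact. -/
theorem good_exact (h : DR D x y) {F G : PF V} (hF : ∀ s, Good x y s F) (hG : F = D G) :
    F = 0 := by
  obtain ⟨l, hl⟩ := h.cl_good_all G
  have h1 : F = D (l.foldr (cl x y) G) := by
    rw [← h.foldr_D, ← hG, foldr_good hF]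
  rw [h1, h.D_of_good hl]

end DR

end Pool.Agent.Work.MP_701abf_gt.Stab
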