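import Pool.Agent.Work.MP_701abf_gt.Stab.Der

/-!
The polarisation complex and the critical case of the vanishing theorem.
-/

open MvPolynomial
open Finset.HasAntidiagonal (antidiagonal mem_antidiagonal)

namespace Pool.Agent.Work.MP_701abf_gt.Stab

section pol

variable {ι : Type*}

/-- The polarisation operator. -/
noncomputable def DP : Derivation (ZMod 2) (RR (ι ⊕ ι)) (RR (ι ⊕ ι)) :=
  mkDerivation (ZMod 2) (Sum.elim (fun _ => 0)
    (fun v => match v.1 with
      | Sum.inl b => X (Sum.inr (Sum.inr b, v.2))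
      | Sum.inr _ => 0))

lemma DP_inl (v : ℕ × ℕ) : DP (ι := ι) (X (Sum.inl v)) = 0 := by
  unfold DP; rw [mkDerivation_X]; rfl

lemma DP_l (b : ι) (i : ℕ) : DP (gW (Sum.inl b) i) = gW (Sum.inr b) i := by
  unfold DP gW; rw [mkDerivation_X]; rfl

lemma DP_r (b : ι) (i : ℕ) : DP (gW (Sum.inr b : ι ⊕ ι) i) = 0 := by
  unfold DP gW; rw [mkDerivation_X]; rfl

lemma DP_gG (a n : ℕ) : DP ((gG (ι := ι ⊕ ι) a).co n) = 0 := by
  cases n with
  | zero => exact Derivation.map_one_eq_zero _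
  | succ n => exact DP_inl (a, n)

lemma DR_DP : DR (DP (ι := ι)) (fun v : ι × ℕ => Sum.inr (Sum.inl v.1, v.2))
    (fun v => Sum.inr (Sum.inr v.1, v.2)) where
  xi := by
    rintro ⟨a, b⟩ ⟨c, d⟩ h
    simpa using h
  yi := by
    rintro ⟨a, b⟩ ⟨c, d⟩ h
    simpa using h
  xy := fun s t => by simp
  Dx := fun s => DP_l s.1 s.2
  D0 := fun v hv => by
    rcases v with v | ⟨b | b, i⟩
    · exact DP_inl v
    · exact absurd rfl (hv (b, i))
    · exact DP_r b i

lemma DP_face (j : ℕ) (F : RR (ι ⊕ ι)) :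
    DP (face (fun _ => 0) j F) = face (fun _ => 0) j (DP F) := by
  refine der_hom (fun v => ?_) F
  rcases v with v | ⟨b | b, i⟩
  · rw [DP_inl, map_zero]
    unfold face
    rw [ev_inl]
    exact der_fg_const _ DP_gG _ _ _
  · change DP (face _ j (gW (Sum.inl b) i)) = face _ j (DP (gW (Sum.inl b) i))
    rw [DP_l, face_gW, face_gW]
    cases j with
    | zero =>
      simp only [fw]
      rw [der_act_const _ (DP_gG 0)]
      simp only [DP_l]
    | succ j => exact DP_l b i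
  · change DP (face _ j (gW (Sum.inr b) i)) = face _ j (DP (gW (Sum.inr b) i))
    rw [DP_r, face_gW, map_zero]
    cases j with
    | zero =>
      simp only [fw]
      rw [der_act_const _ (DP_gG 0)]
      simp only [DP_r]
      exact congrFun (act_zero' _ _) _
    | succ j => exact DP_r b i

lemma DP_d (n : ℕ) (F : RR (ι ⊕ ι)) :
    DP (dR (fun _ => 0) n F) = dR (fun _ => 0) n (DP F) := by
  rw [dR_apply, dR_apply, map_sum]
  exact Finset.sum_congr rfl fun j _ => DP_face j F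

lemma DP_lev {n : ℕ} {F : RR (ι ⊕ ι)} (hF : F ∈ lev (ι ⊕ ι) n) : DP F ∈ lev (ι ⊕ ι) n := by
  refine der_lev DP_inl (fun n v => ?_) hF
  rcases v with ⟨b | b, i⟩
  · change prj n (DP (gW (Sum.inl b) i)) = DP (gW (Sum.inl b) i)
    rw [DP_l]
    exact prj_gW _ _ _
  · change prj n (DP (gW (Sum.inr b) i)) = DP (gW (Sum.inr b) i)
    rw [DP_r]
    exact map_zero _

lemma DP_prj (n : ℕ) (F : RR (ι ⊕ ι)) : DP (prj n F) = prj n (DP F) := by
  refine der_hom (fun v => ?_) F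
  rcases v with v | ⟨b | b, i⟩
  · rw [DP_inl, map_zero]
    by_cases hv : v.1 < n
    · rw [prj_inl_lt hv, DP_inl]
    · rw [prj_inl_ge hv, map_zero]
  · change DP (prj n (gW (Sum.inl b) i)) = prj n (DP (gW (Sum.inl b) i))
    rw [DP_l, prj_gW, prj_gW, DP_l]
  · change DP (prj n (gW (Sum.inr b) i)) = prj n (DP (gW (Sum.inr b) i))
    rw [DP_r, prj_gW, DP_r, map_zero]

/-- The classes of the coefficients. -/
def cS {ι : Type*} : ι ⊕ ι → ℤ × ℤ
  | Sum.inl _ => (1, 0)
  | Sum.inr _ => (0, 1)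

lemma cS_sum (b : ι ⊕ ι) : (cS b).1 + (cS b).2 = 1 := by
  cases b <;> rfl

lemma DP_gr : Gr (wt (cS (ι := ι)) (fun _ => 0)) (wt cS (fun _ => 0))
    (fun m => m + ((-1, 1), 0)) (DP (ι := ι)).toLinearMap := by
  refine Gr.of_der fun v => ?_
  rcases v with v | ⟨b | b, i⟩
  · rw [DP_inl]; exact isWeightedHomogeneous_zero _ _ _
  · change WH _ (DP (gW (Sum.inl b) i)) _
    rw [DP_l]
    have h1 := wh_gW (cS (ι := ι)) (fun _ => 0) (Sum.inr b) i
    have e : wt (cS (ι := ι)) (fun _ => 0) (Sum.inr (Sum.inl b, i)) + ((-1, 1), 0) =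
        (cS (Sum.inr b : ι ⊕ ι), 2 ^ (i + 0)) := by
      change ((((1 : ℤ), (0 : ℤ)), (2 : ℤ) ^ (i + 0)) : (ℤ × ℤ) × ℤ) + ((-1, 1), 0) =
        (((0 : ℤ), (1 : ℤ)), (2 : ℤ) ^ (i + 0))
      simp
    rw [e]
    exact h1
  · change WH _ (DP (gW (Sum.inr b) i)) _
    rw [DP_r]; exact isWeightedHomogeneous_zero _ _ _

/-- The squaring map into the polarisation ring. -/
noncomputable def sqL : RR ι →ₐ[ZMod 2] RR (ι ⊕ ι) := ev gG (fun b i => gW (Sum.inl b) i ^ 2)

lemma sqL_inl (v : ℕ × ℕ) : sqL (ι := ι) (X (Sum.inl v)) = X (Sum.inl v) := by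
  unfold sqL; rw [ev_inl]; rfl

lemma sqL_inr (v : ι × ℕ) : sqL (X (Sum.inr v)) = gW (Sum.inl v.1) v.2 ^ 2 := by
  unfold sqL; rw [ev_inr]

lemma sqL_prj (n : ℕ) (F : RR ι) : prj n (sqL F) = sqL (prj n F) := by
  have : (prj n).comp sqL = (sqL (ι := ι)).comp (prj n) := by
    refine algHom_ext fun v => ?_
    rw [AlgHom.comp_apply, AlgHom.comp_apply]
    rcases v with v | v
    · rw [sqL_inl]
      by_cases hv : v.1 < n
      · rw [prj_inl_lt hv, prj_inl_lt hv, sqL_inl]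
      · rw [prj_inl_ge hv, prj_inl_ge hv, map_zero]
    · rw [sqL_inr, prj_inr, sqL_inr, map_pow, prj_gW]
  exact congrArg (fun φ => φ F) this

/-- Squaring of the coefficients. -/
noncomputable def sq : RR ι →ₐ[ZMod 2] RR ι := ev gG (fun b i => gW b i ^ 2)

lemma act_sq {S : Type*} [CommRing S] [Algebra (ZMod 2) S] (τ : ℕ) (g : Pt S) (w : ℕ → S)
    (n : ℕ) : act τ g w n ^ 2 = act (τ + 1) g (fun i => w i ^ 2) n := by
  rw [act_apply, act_apply]
  have h := sum_pow' (R := S) 1 (antidiagonal n) (fun p => g.co p.1 ^ 2 ^ (p.2 + τ) * w p.2)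
  simp only [pow_one] at h
  rw [h]
  refine Finset.sum_congr rfl fun p _ => ?_
  rw [mul_pow, ← pow_mul, ← add_assoc, ← pow_succ]

lemma sq_d (n : ℕ) (F : RR ι) : dR (fun _ => 0) n (sq F) = sq (dR (fun _ => 1) n F) := by
  refine subst_d (fun j b i => ?_) n F
  rw [map_pow, face_gW]
  cases j with
  | zero =>
    simp only [fw]
    rw [act_sq]
  | succ j => rfl

lemma sq_inj {F : RR ι} (h : sq F = 0) : F = 0 := by
  refine inj_of_frob (φ := sq) (ψ := ev (fun a => frobPt (gG a)) gW) (fun v => ?_) h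
  unfold sq
  rcases v with v | v
  · rw [ev_inl]
    change ev _ _ (X (Sum.inl v)) = _
    rw [ev_inl]
    rfl
  · rw [ev_inr, map_pow]
    change (ev _ _ (X (Sum.inr v))) ^ 2 = _
    rw [ev_inr]
    rfl

lemma sq_lev {n : ℕ} {F : RR ι} (hF : F ∈ lev ι n) : sq F ∈ lev ι n := by
  refine subst_lev (fun n b i => ?_) hF
  rw [map_pow, prj_gW]

/-- Doubling of the classes. -/
def f2 : (ℤ × ℤ) × ℤ →+ (ℤ × ℤ) × ℤ where
  toFun m := ((2 * m.1.1, 2 * m.1.2), m.2)
  map_zero' := by simp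
  map_add' x y := by
    ext
    · simp only [Prod.fst_add]
      ring
    · simp only [Prod.fst_add, Prod.snd_add]
      ring
    · simp

lemma f2_apply (m : (ℤ × ℤ) × ℤ) : f2 m = ((2 * m.1.1, 2 * m.1.2), m.2) := rfl

lemma f2_inj : Function.Injective f2 := by
  rintro ⟨⟨a, b⟩, c⟩ ⟨⟨a', b'⟩, c'⟩ h
  rw [f2_apply, f2_apply] at h
  simp only [Prod.mk.injEq] at h ⊢
  omega

/-- The weights in the source of the squaring map. -/
def wS (ι : Type*) : (ℕ × ℕ) ⊕ (ι × ℕ) → (ℤ × ℤ) × ℤ :=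
  fun v => f2 (wt (fun _ => (1, 0)) (fun _ => 1) v)

lemma sqL_gr : Gr (wS ι) (wt cS (fun _ => 0)) id (sqL (ι := ι)).toLinearMap := by
  refine Gr.of_alg' fun v => ?_
  rcases v with v | v
  · rw [sqL_inl]; exact isWeightedHomogeneous_X _ _ _
  · rw [sqL_inr]
    have h := (wh_gW (cS (ι := ι)) (fun _ => 0) (Sum.inl v.1) v.2).pow 2
    have e : 2 • ((cS (Sum.inl v.1 : ι ⊕ ι), (2 : ℤ) ^ (v.2 + 0)) : (ℤ × ℤ) × ℤ) =
        wS ι (Sum.inr v) := by
      change 2 • ((((1 : ℤ), (0 : ℤ)), (2 : ℤ) ^ (v.2 + 0)) : (ℤ × ℤ) × ℤ) =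
        ((2 * 1, 2 * 0), 2 ^ (v.2 + 1))
      rw [Prod.smul_mk, Prod.smul_mk, pow_succ]
      simp
      ring
    rw [e] at h
    exact h

lemma polD {x : RR (ι ⊕ ι)} {a : ℕ} (hx : x ∈ lev (ι ⊕ ι) a) (hD : DP x = 0) :
    ∃ y ∈ lev ι a, ∃ G ∈ lev (ι ⊕ ι) a, x = sqL y + DP G := by
  obtain ⟨F', G, e, hF⟩ := DR_DP.poincare hD
  have h : F' ∈ (sqL (ι := ι)).range := by
    refine DR.good_mem hF _ (fun s => ?_) (fun v h1 h2 => ?_)
    · exact ⟨X (Sum.inr s), sqL_inr s⟩
    · rcases v with v | ⟨b | b, i⟩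
      · exact ⟨X (Sum.inl v), sqL_inl v⟩
      · exact absurd rfl (h1 (b, i))
      · exact absurd rfl (h2 (b, i))
  obtain ⟨y, hy⟩ := h
  have hy' : sqL y = F' := hy
  cases a with
  | zero =>
    rw [mem_lev_zero] at hx
    refine ⟨0, Submodule.zero_mem _, 0, Submodule.zero_mem _, ?_⟩
    rw [hx, map_zero, map_zero, add_zero]
  | succ a =>
    refine ⟨prj a y, prj_mem a y, prj a G, prj_mem a G, ?_⟩
    rw [← sqL_prj, DP_prj, ← map_add, hy', ← e, mem_lev_succ.1 hx]

/-- The graded pieces of the polarisation complex. -/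
def Om (n N i : ℤ) (a : ℕ) (x : RR (ι ⊕ ι)) : Prop :=
  x ∈ lev (ι ⊕ ι) a ∧ WH (wt cS (fun _ => 0)) x ((n - i, i), N)

lemma Om.D {n N i : ℤ} {a : ℕ} {x : RR (ι ⊕ ι)} (h : Om n N i a x) :
    Om n N (i + 1) a (DP x) := by
  refine ⟨DP_lev h.1, ?_⟩
  have h1 := DP_gr.map h.2
  have e : ((((n - i, i), N) : (ℤ × ℤ) × ℤ) + ((-1, 1), 0)) = ((n - (i + 1), i + 1), N) := by
    simp only [Prod.mk_add_mk, add_zero]
    congr 2
    ring
  rw [e] at h1
  exact h1

lemma Om.d {n N i : ℤ} {a : ℕ} {x : RR (ι ⊕ ι)} (h : Om n N i a x) :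
    Om n N i (a + 1) (dR (fun _ => 0) a x) := ⟨dR_lev _ h.1, dR_wh _ h.2⟩

lemma Om.add {n N i : ℤ} {a : ℕ} {x y : RR (ι ⊕ ι)} (h : Om n N i a x) (h' : Om n N i a y) :
    Om n N i a (x + y) := ⟨Submodule.add_mem _ h.1 h'.1, h.2.add h'.2⟩

lemma DP_cmp (m : (ℤ × ℤ) × ℤ) (F : RR (ι ⊕ ι)) :
    cmp (wt cS (fun _ => 0)) (m + ((-1, 1), 0)) (DP F) =
      DP (cmp (wt cS (fun _ => 0)) m F) :=
  (DP_gr (ι := ι)).cmp (add_left_injective _) m F

lemma polP {n N i : ℤ} {a : ℕ} {x : RR (ι ⊕ ι)} (hi : 1 ≤ i) (h : Om n N i a x)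
    (hD : DP x = 0) : ∃ h, Om n N (i - 1) a h ∧ x = DP h := by
  obtain ⟨y, hy, G, hG, e⟩ := polD h.1 hD
  refine ⟨cmp (wt cS (fun _ => 0)) ((n - (i - 1), i - 1), N) G, ⟨cmp_lev _ _ _ hG, cmp_wh _ _ _⟩, ?_⟩
  rw [← DP_cmp]
  have e1 : ((((n - (i - 1), i - 1), N) : (ℤ × ℤ) × ℤ) + ((-1, 1), 0)) = ((n - i, i), N) := by
    simp only [Prod.mk_add_mk, add_zero]
    congr 2
    · ring
    · ring
  rw [e1]
  have h2 : cmp (wt cS (fun _ => 0)) ((n - i, i), N) (sqL y) = 0 := by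
    have h3 := (sqL_gr (ι := ι)).cmp Function.injective_id ((n - i, i), N) y
    have h4 : cmp (wS ι) ((n - i, i), N) y = 0 := by
      have h5 := hom_kill (w := wS ι) (φ := AlgHom.id (ZMod 2) (RR ι))
        (q := (AddMonoidHom.snd ℤ ℤ).comp (AddMonoidHom.fst (ℤ × ℤ) ℤ)) (fun v hv => ?_)
        (cmp_wh (wS ι) ((n - i, i), N) y) (by
          change i ≠ 0
          omega)
      · exact h5
      · exfalso
        apply hv
        rcases v with v | v
        · change 2 * (0 : ℤ) = 0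
          norm_num
        · change 2 * (0 : ℤ) = 0
          norm_num
    rw [h4, map_zero] at h3
    exact h3
  have h6 : cmp (wt cS (fun _ => 0)) ((n - i, i), N) x =
      cmp (wt cS (fun _ => 0)) ((n - i, i), N) (DP G) := by
    rw [e, map_add, h2, zero_add]
  rw [← h6, cmp_same h.2]

lemma polP0 {n N : ℤ} {a : ℕ} {x : RR (ι ⊕ ι)} (h : Om n N 0 a x) (hD : DP x = 0) :
    ∃ y ∈ lev ι a, WH (wS ι) y ((n, 0), N) ∧ x = sqL y := by
  obtain ⟨y, hy, G, hG, e⟩ := polD h.1 hD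
  have h1 : cmp (wt cS (fun _ => 0)) ((n, 0), N) (DP G) = 0 := by
    have e1 : ((((n + 1, -1), N) : (ℤ × ℤ) × ℤ) + ((-1, 1), 0)) = ((n, 0), N) := by
      simp
    rw [← e1, DP_cmp]
    have h2 : cmp (wt (cS (ι := ι)) (fun _ => 0)) ((n + 1, -1), N) G = 0 := by
      refine wh_neg (q := (AddMonoidHom.snd ℤ ℤ).comp (AddMonoidHom.fst (ℤ × ℤ) ℤ))
        (fun v => ?_) (cmp_wh _ _ _) (by
          change (-1 : ℤ) < 0
          norm_num)
      rcases v with v | ⟨b | b, i⟩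
      · exact le_rfl
      · exact le_rfl
      · exact zero_le_one
    rw [h2, map_zero]
  have hx : WH (wt (cS (ι := ι)) (fun _ => 0)) x ((n, 0), N) := by
    have := h.2
    rwa [sub_zero] at this
  have h3 := (sqL_gr (ι := ι)).cmp Function.injective_id ((n, 0), N) y
  refine ⟨cmp (wS ι) ((n, 0), N) y, ?_, cmp_wh _ _ _, ?_⟩
  · cases a with
    | zero =>
      rw [mem_lev_zero] at hy ⊢
      rw [hy, map_zero]
    | succ a =>
      rw [mem_lev_succ] at hy ⊢
      have hg : Gr (wS ι) (wS ι) id (prj a).toLinearMap := by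
        refine Gr.of_alg' fun v => ?_
        rcases v with v | v
        · by_cases h : v.1 < a
          · rw [prj_inl_lt h]; exact isWeightedHomogeneous_X _ _ _
          · rw [prj_inl_ge h]; exact isWeightedHomogeneous_zero _ _ _
        · rw [prj_inr]; exact isWeightedHomogeneous_X _ _ _
      have := hg.cmp Function.injective_id ((n, 0), N) y
      change cmp _ _ (prj a y) = prj a _ at this
      rw [← this, hy]
      rfl
  · have h4 : cmp (wt cS (fun _ => 0)) ((n, 0), N) (sqL y) = sqL (cmp (wS ι) ((n, 0), N) y) := h3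
    rw [← h4]
    have h6 : cmp (wt cS (fun _ => 0)) ((n, 0), N) x =
        cmp (wt cS (fun _ => 0)) ((n, 0), N) (sqL y) := by
      rw [e, map_add, h1, add_zero]
    rw [← h6, cmp_same hx]

/-- The zigzag in the polarisation complex. -/
lemma zig (n N : ℤ) : ∀ (a : ℕ), (∀ b < a, ExT (ι ⊕ ι) (fun _ => 0) b n N) → ∀ (i : ℤ), 1 ≤ i →
    ∀ x : RR (ι ⊕ ι), Om n N i a x → dR (fun _ => 0) a (DP x) = 0 →
    ∃ h, Om n N (i - 1) a h ∧ ∃ h', Om n N i (a - 1) h' ∧
      x = DP h + dR (fun _ => 0) (a - 1) h' := by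
  intro a
  induction a with
  | zero =>
    intro _ i _ x hx _
    refine ⟨0, ⟨Submodule.zero_mem _, isWeightedHomogeneous_zero _ _ _⟩,
      0, ⟨Submodule.zero_mem _, isWeightedHomogeneous_zero _ _ _⟩, ?_⟩
    rw [map_zero, map_zero, add_zero]
    exact hx.1
  | succ a ih =>
    intro hE i hi x hx hd
    have h1 : (cx (cS (ι := ι)) (fun _ => 0) ((n - (i + 1), i + 1), N)).Exact a := by
      apply exact_of_total cS_sum
      have := hE a (by omega)
      unfold ExT at this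
      have e : fS ((n - (i + 1), i + 1), N) = ((n, 0), N) := by
        rw [fS_apply]
        simp
      rw [e]
      exact this
    obtain ⟨x', hx', ex'⟩ := h1 (DP x) ⟨hx.D.1, hx.D.2⟩ hd
    have ex2 : dR (fun _ => 0) a x' = DP x := ex'
    have hO' : Om n N (i + 1) a x' := ⟨hx'.1, hx'.2⟩
    obtain ⟨h1, hh1, h1', hh1', e1⟩ := ih (fun b hb => hE b (by omega)) (i + 1) (by omega) x' hO'
      (by rw [← DP_d, ex2, DR_DP.DD])
    rw [add_sub_cancel_right] at hh1
    have h2 : dR (fun _ => 0) a (dR (fun _ => 0) (a - 1) h1') = 0 := by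
      cases a with
      | zero =>
        have := hh1'.1
        rw [mem_lev_zero.1 this, map_zero, map_zero]
      | succ a => exact dR_dR' _ hh1'.1
    have h3 : DP (x + dR (fun _ => 0) a h1) = 0 := by
      rw [map_add, ← ex2, e1, map_add, h2, add_zero, ← DP_d, add_self2]
    obtain ⟨h, hh, e⟩ := polP hi (hx.add hh1.d) h3
    exact ⟨h, hh, h1, hh1, add_eq2 e⟩

/-! ### From the polarised derivatives to squares -/

/-- Inclusion into the polarisation ring. -/
noncomputable def j1 : RR ι →ₐ[ZMod 2] RR (ι ⊕ ι) := ev gG (fun b => gW (Sum.inl b))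

/-- Retraction. -/
noncomputable def r1 : RR (ι ⊕ ι) →ₐ[ZMod 2] RR ι :=
  ev gG (fun b => match b with
    | Sum.inl b => gW b
    | Sum.inr _ => fun _ => 0)

/-- Substitution of the direction `b`. -/
noncomputable def sO (b : ι) : RR (Option ι) →ₐ[ZMod 2] RR (ι ⊕ ι) :=
  ev gG (fun o => match o with
    | none => gW (Sum.inr b)
    | some b' => gW (Sum.inl b'))

lemma j1_lev {n : ℕ} {F : RR ι} (hF : F ∈ lev ι n) : j1 F ∈ lev (ι ⊕ ι) n :=
  subst_lev (fun _ _ _ => prj_gW _ _ _) hF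

lemma r1_lev {n : ℕ} {F : RR (ι ⊕ ι)} (hF : F ∈ lev (ι ⊕ ι) n) : r1 F ∈ lev ι n := by
  refine subst_lev (fun n b i => ?_) hF
  cases b with
  | inl b => exact prj_gW _ _ _
  | inr b => exact map_zero _

lemma sO_lev (b : ι) {n : ℕ} {F : RR (Option ι)} (hF : F ∈ lev (Option ι) n) :
    sO b F ∈ lev (ι ⊕ ι) n := by
  refine subst_lev (fun n b i => ?_) hF
  cases b with
  | none => exact prj_gW _ _ _
  | some b => exact prj_gW _ _ _

lemma j1_gr : Gr (wt (fun _ => (1, 0)) (fun _ => 0)) (wt cS (fun _ => 0)) id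
    (j1 (ι := ι)).toLinearMap := subst_gr fun b i => wh_gW cS (fun _ => 0) (Sum.inl b) i

lemma sO_gr (b : ι) : Gr (wt cO (fun _ => 0)) (wt cS (fun _ => 0)) id
    (sO b).toLinearMap := by
  refine subst_gr fun o i => ?_
  cases o with
  | none => exact wh_gW cS (fun _ => 0) (Sum.inr b) i
  | some b' => exact wh_gW cS (fun _ => 0) (Sum.inl b') i

lemma r1_d (n : ℕ) (F : RR (ι ⊕ ι)) : dR (fun _ => 0) n (r1 F) = r1 (dR (fun _ => 0) n F) := by
  refine subst_d (fun j b i => ?_) n F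
  cases b with
  | inl b =>
    rw [face_gW]
    cases j with
    | zero => simp only [fw]
    | succ j => simp only [fw]
  | inr b =>
    rw [map_zero]
    cases j with
    | zero =>
      simp only [fw]
      rw [act_zero']
    | succ j => rfl

lemma sO_d (b : ι) (n : ℕ) (F : RR (Option ι)) :
    dR (fun _ => 0) n (sO b F) = sO b (dR (fun _ => 0) n F) := by
  refine subst_d (fun j o i => ?_) n F
  cases o with
  | none =>
    rw [face_gW]
    cases j with
    | zero => simp only [fw]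
    | succ j => simp only [fw]
  | some b' =>
    rw [face_gW]
    cases j with
    | zero => simp only [fw]
    | succ j => simp only [fw]

lemma r1_j1 (F : RR ι) : r1 (j1 F) = F := by
  have : (r1 (ι := ι)).comp j1 = AlgHom.id _ _ := by
    refine hom_eq (fun a => ?_) (fun b i => ?_)
    · have h1 : mapPt ((r1 (ι := ι)).comp j1) (gG a) = mapPt r1 (mapPt j1 (gG a)) := rfl
      have h2 : mapPt (j1 (ι := ι)) (gG a) = gG a := by unfold j1; exact mapPt_ev _ _ _
      have h3 : mapPt (r1 (ι := ι)) (gG a) = gG a := by unfold r1; exact mapPt_ev _ _ _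
      rw [h1, h2, h3]
      rfl
    · rw [AlgHom.comp_apply]
      unfold j1 r1
      rw [ev_gW, ev_gW]
      rfl
  exact congrArg (fun φ => φ F) this

lemma r1_sqL (F : RR ι) : r1 (sqL F) = sq F := by
  have : (r1 (ι := ι)).comp sqL = sq := by
    refine algHom_ext fun v => ?_
    rw [AlgHom.comp_apply]
    rcases v with v | v
    · rw [sqL_inl]
      unfold r1 sq
      rw [ev_inl, ev_inl]
    · rw [sqL_inr, map_pow]
      unfold r1 sq
      rw [ev_gW, ev_inr]
  exact congrArg (fun φ => φ F) this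

variable [DecidableEq ι] [Fintype ι]

lemma DP_j1 (y : RR ι) : DP (j1 y) = ∑ b, sO b (DO b (jO y)) := by
  have h1 := (IsDer.of (DP (ι := ι))).right (j1 (ι := ι))
  have h2 : ∀ b : ι, IsDer ((AlgHom.id _ _).comp (j1 (ι := ι)))
      ((sO b).toLinearMap.comp ((DO b).toLinearMap.comp (jO (ι := ι)).toLinearMap)) := by
    intro b
    have h3 := (((IsDer.of (DO b)).right (jO (ι := ι)))).left (sO b)
    have e : (sO b).comp ((AlgHom.id _ _).comp (jO (ι := ι))) =
        (AlgHom.id _ _).comp (j1 (ι := ι)) := by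
      refine algHom_ext fun v => ?_
      change sO b (jO (X v)) = j1 (X v)
      unfold jO j1
      rcases v with v | v
      · rw [ev_inl, ev_inl]
        change ev _ _ (X (Sum.inl v)) = _
        rw [ev_inl]
      · rw [ev_inr, ev_inr]
        unfold sO
        rw [ev_gW]
    rw [e] at h3
    exact h3
  have h3 := IsDer.sum Finset.univ h2
  have h4 := h1.ext h3 rfl (fun v => ?_) y
  · rw [LinearMap.sum_apply] at h4
    exact h4
  · rw [LinearMap.sum_apply]
    change DP (j1 (X v)) = ∑ b, sO b (DO b (jO (X v)))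
    rcases v with v | ⟨b', i⟩
    · have e1 : j1 (ι := ι) (X (Sum.inl v)) = X (Sum.inl v) := by
        unfold j1; rw [ev_inl]; rfl
      have e2 : jO (ι := ι) (X (Sum.inl v)) = X (Sum.inl v) := by
        unfold jO; rw [ev_inl]; rfl
      rw [e1, e2, DP_inl]
      symm
      refine Finset.sum_eq_zero fun b _ => ?_
      rw [DO_inl, map_zero]
    · have e1 : j1 (ι := ι) (X (Sum.inr (b', i))) = gW (Sum.inl b') i := by
        unfold j1; rw [ev_inr]
      have e2 : jO (ι := ι) (X (Sum.inr (b', i))) = gW (some b') i := by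
        unfold jO; rw [ev_inr]
      rw [e1, e2, DP_l, Finset.sum_eq_single b']
      · rw [DO_gW, if_pos rfl]
        unfold sO
        rw [ev_gW]
      · intro b _ hb
        rw [DO_gW, if_neg (fun e => hb (Option.some_injective _ e).symm), map_zero]
      · intro h
        exact absurd (Finset.mem_univ _) h

/-- The section of `rU`. -/
noncomputable def sU : RR ι →ₐ[ZMod 2] RR ι := ev gG (fun b i => gW b (i + 1))

omit [DecidableEq ι] [Fintype ι] in
lemma sU_lev {n : ℕ} {F : RR ι} (hF : F ∈ lev ι n) : sU F ∈ lev ι n :=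
  subst_lev (fun _ _ _ => prj_gW _ _ _) hF

omit [DecidableEq ι] [Fintype ι] in
lemma sU_gr : Gr (wt (fun _ => (1, 0)) (fun _ => 1)) (wt (fun _ => (1, 0)) (fun _ => 0)) id
    (sU (ι := ι)).toLinearMap := by
  refine subst_gr fun b i => ?_
  exact wh_gW _ _ b (i + 1)

lemma rU_sU (F : RR ι) : rU (sU F) = F := by
  have : (rU (ι := ι)).comp sU = AlgHom.id _ _ := by
    refine algHom_ext fun v => ?_
    rw [AlgHom.comp_apply]
    unfold sU
    rcases v with v | v
    · rw [ev_inl]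
      exact rU_gG v.1 (v.2 + 1)
    · rw [ev_inr, rU_gW]
      rfl
  exact congrArg (fun φ => φ F) this

/-- The critical case. -/
theorem special {p n : ℕ} (hn : 1 ≤ n) (N' : ℤ)
    (H1 : ∀ k : ℕ, k < n → ExT ι (fun _ => 1) p k (2 * N' - (n - k)))
    (H2 : ∀ q : ℕ, 1 ≤ q → q ≤ p → ∀ m', 2 * m' - (q : ℤ) = 2 * N' →
      ExT (Option ι) (fun _ => 0) (p - q) (n + q) m')
    (H3 : ∀ q : ℕ, 2 ≤ q → q ≤ p → ∀ m', 2 * m' - (q : ℤ) = 2 * N' - 1 →
      ExT (Option ι) (fun _ => 0) (p - q) (n - 1 + q) m')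
    (H4 : ∀ a < p, ExT (ι ⊕ ι) (fun _ => 0) a n N')
    (H5 : ∀ n' : ℕ, 2 * n' = n → ExT ι (fun _ => 1) p n' N') :
    ExT ι (fun _ => 0) p n (2 * N') := by
  intro F hF hd
  rw [cx_d] at hd
  -- Step 1
  obtain ⟨y, hy, hyw, hyd, G, hG, hGw, e1⟩ := edge_surj (ι := ι) (k := n) (m := 2 * N')
    (m' := N') rfl (p := p) H2 (F := rU F) (rB_lev _ hF.1) (by
      have := (rB_gr (fun _ => (1, 0)) (Finset.univ : Finset ι)).map hF.2
      rw [tB_univ] at this
      exact this) (by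
      have := rB_d (Finset.univ : Finset ι) (p + 1) F
      rw [tB_univ] at this
      rw [this, hd, map_zero])
  -- Step 2
  set Ft : RR ι := F + dR (fun _ => 0) p (sU G) with hFt
  have hFtl : Ft ∈ lev ι (p + 1) := Submodule.add_mem _ hF.1 (dR_lev _ (sU_lev hG))
  have hFtw : WH (wt (fun _ => (1, 0)) (fun _ => 0)) Ft ((n, 0), 2 * N') :=
    IsWeightedHomogeneous.add hF.2 (dR_wh _ (sU_gr.map hGw))
  have hFtd : dR (fun _ => 0) (p + 1) Ft = 0 := by
    rw [hFt, map_add, hd, dR_dR' _ (sU_lev hG), add_zero]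
  have hFtr : rU Ft = infl y := by
    have := rB_d (Finset.univ : Finset ι) p (sU G)
    rw [tB_univ] at this
    rw [hFt, map_add, ← this, e1]
    change infl y + dR (fun _ => 1) p G + dR (fun _ => 1) p (rU (sU G)) = infl y
    rw [rU_sU, add_add_self2]
  -- Step 3
  have hcast : ((n : ℤ) - 1) + 1 = n := by ring
  have step3 : ∀ b : ι, ∃ y' ∈ lev (Option ι) p,
      WH (wt cO (fun _ => 0)) y' (((n : ℤ) - 1, 1), N') ∧
      dR (fun _ => 0) p y' = DO b (jO y) := by
    intro b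
    set z := DO b (jO y) with hz
    have hzl : z ∈ lev (Option ι) (p + 1) := DO_lev b (jO_lev hy)
    have hzw : WH (wt cO (fun _ => 0)) z (((n : ℤ) - 1, 1), N') := by
      have h1 := (DO_gr b).map (jO_gr.map hyw)
      have e : (id ((((n : ℤ), 0), N') : (ℤ × ℤ) × ℤ)) + ((-1, 1), 0) = (((n : ℤ) - 1, 1), N') := by
        simp only [id, Prod.mk_add_mk, add_zero, zero_add]
        rfl
      rw [e] at h1
      exact h1
    have hzd : dR (fun _ => 0) (p + 1) z = 0 := by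
      rw [hz, ← DO_d, jO_d, hyd, map_zero, map_zero]
    have ew : fT (((n : ℤ) - 1, 1), N') = (((n : ℤ) - 1, 1), 2 * N' - 1) := rfl
    have hEl : rU (dW b Ft) ∈ lev ι (p + 1) := rB_lev _ (dW_lev b hFtl)
    have hEw : WH (wt (fun _ => (1, 0)) (fun _ => 1)) (rU (dW b Ft))
        (((n : ℤ) - 1, 0), 2 * N' - 1) := by
      have h1 := (dW_gr b (fun _ => 0) _ rfl).map hFtw
      have h2 := (rB_gr (fun _ => (1, 0)) (Finset.univ : Finset ι)).map h1
      rw [tB_univ] at h2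
      have e : id (((((n : ℤ), 0), 2 * N') : (ℤ × ℤ) × ℤ) +
          -(wt (fun _ : ι => (1, 0)) (fun _ => 0) (Sum.inr (b, 0)))) =
          (((n : ℤ) - 1, 0), 2 * N' - 1) := by
        change (((((n : ℤ), 0), 2 * N') : (ℤ × ℤ) × ℤ) +
          -(((1 : ℤ), (0 : ℤ)), (2 : ℤ) ^ (0 + 0))) = _
        simp [sub_eq_add_neg]
      rw [e] at h2
      exact h2
    have hEd : dR (fun _ => 1) (p + 1) (rU (dW b Ft)) = chi1 (inflO z) := by
      rw [Fb_d b hFtd, hFtr, jO_infl, DO_inflO]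
    obtain ⟨y', hy', ey'⟩ := (hs ι ((n : ℤ) - 1) (2 * N' - 1)).edge p
      (fun i hi1 hi => exC_of (H3 i hi1 hi)) z ⟨hzl, (wtT_iff ew).2 hzw⟩
      (EQ (chi1 (inflO z))) (by
        change dQ (p + 1) (TQ z) = DQ (EQ (chi1 (inflO z)))
        rw [hz, ← TQ_face_zero b y, ← hz, dQ_apply, Finset.sum_range_succ']
        have h1 : ∑ j ∈ Finset.range (p + 1), faceQ (j + 1) (TQ z) =
            ∑ j ∈ Finset.range (p + 1), TQ (face (fun _ => 0) (j + 1) z) :=
          Finset.sum_congr rfl fun j _ => TQ_face_succ j z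
        have h2 := congrArg TQ hzd
        rw [map_zero, dR_apply, map_sum, Finset.sum_range_succ', add_eq_zero2] at h2
        rw [h1, h2, add_comm])
      (EQ (rU (dW b Ft))) ⟨EQ_lev hEl, EQ_gr.map hEw⟩ (by
        change EQ (chi1 (inflO z)) = dQ (p + 1) (EQ (rU (dW b Ft)))
        rw [EQ_d, hEd])
    exact ⟨y', hy'.1, (wtT_iff ew).1 hy'.2, ey'⟩
  choose y' hy'l hy'w hy'd using step3
  -- Step 4
  set η : RR (ι ⊕ ι) := ∑ b, sO b (y' b) with hη
  have hηO : Om n N' 1 p η := by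
    refine ⟨Submodule.sum_mem _ fun b _ => sO_lev b (hy'l b), ?_⟩
    exact IsWeightedHomogeneous.sum _ _ _ fun b _ => (sO_gr b).map (hy'w b)
  have hηd : dR (fun _ => 0) p η = DP (j1 y) := by
    rw [hη, map_sum, DP_j1]
    refine Finset.sum_congr rfl fun b _ => ?_
    rw [sO_d, hy'd]
  -- Step 5
  obtain ⟨h, hh, h', hh', e5⟩ := zig (n : ℤ) N' p H4 1 le_rfl η hηO (by
    rw [← DP_d, hηd, DR_DP.DD])
  rw [sub_self] at hh
  have h50 : dR (fun _ => 0) p (dR (fun _ => 0) (p - 1) h') = 0 := by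
    cases p with
    | zero => rw [mem_lev_zero.1 hh'.1, map_zero, map_zero]
    | succ p => exact dR_dR' _ hh'.1
  have h51 : DP (j1 y + dR (fun _ => 0) p h) = 0 := by
    rw [map_add, ← hηd, e5, map_add, h50, add_zero, DP_d, add_self2]
  have hj : Om n N' 0 (p + 1) (j1 y) := by
    refine ⟨j1_lev hy, ?_⟩
    rw [sub_zero]
    exact j1_gr.map hyw
  -- Step 6
  obtain ⟨y2, hy2, hy2w, e6⟩ := polP0 (hj.add hh.d) h51
  have e7 : y + dR (fun _ => 0) p (r1 h) = sq y2 := by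
    have := congrArg r1 e6
    rw [map_add, r1_j1, ← r1_d, r1_sqL] at this
    exact this
  have h61 : ∃ v ∈ lev ι p, dR (fun _ => 0) p v = y := by
    rcases wh_of_comp (w := wt (fun _ : ι => (1, 0)) (fun _ => 1)) f2_inj hy2w with h0 | ⟨m2, hm2, hw2⟩
    · refine ⟨r1 h, r1_lev hh.1, ?_⟩
      rw [h0, map_zero, add_eq_zero2] at e7
      exact e7.symm
    · have hd2 : dR (fun _ => 1) (p + 1) y2 = 0 := by
        apply sq_inj
        rw [← sq_d, ← e7, map_add, hyd, dR_dR' _ (r1_lev hh.1), add_zero]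
      obtain ⟨⟨a, b⟩, c⟩ := m2
      rw [f2_apply] at hm2
      simp only [Prod.mk.injEq] at hm2
      obtain ⟨⟨ha, hb⟩, hc⟩ := hm2
      have hb0 : b = 0 := by omega
      subst hb0
      subst hc
      have ha0 : 0 ≤ a := by omega
      obtain ⟨n', rfl⟩ := Int.eq_ofNat_of_zero_le ha0
      obtain ⟨v, hv, ev⟩ := H5 n' (by omega) y2 ⟨hy2, hw2⟩ hd2
      have ev' : dR (fun _ => 1) p v = y2 := ev
      refine ⟨r1 h + sq v, Submodule.add_mem _ (r1_lev hh.1) (sq_lev hv.1), ?_⟩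
      rw [map_add, sq_d, ev', ← e7, add_comm y, ← add_assoc, add_self2, zero_add]
  obtain ⟨v, hv, ev⟩ := h61
  -- Step 7
  obtain ⟨u, hu, _, eu⟩ := ExT.lift (ι := ι) H1 hn hFtl hFtw hFtd Finset.univ
    ⟨cmp (wt (fun _ => (1, 0)) (tB Finset.univ)) ((n, 0), 2 * N') (infl v),
      cmp_lev _ _ _ (infl_lev hv), cmp_wh _ _ _, by
        rw [← dR_cmp]
        have h1 := infl_d p v
        rw [ev] at h1
        rw [tB_univ, h1, ← hFtr]
        refine cmp_same ?_
        have := (rB_gr (fun _ => (1, 0)) (Finset.univ : Finset ι)).map hFtw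
        rw [tB_univ] at this
        exact this⟩
  have h8 : dR (fun _ => 0) p (u + sU G) = F := by
    rw [map_add, eu, hFt, add_add_self2]
  refine ⟨cmp (wt (fun _ => (1, 0)) (fun _ => 0)) ((n, 0), 2 * N') (u + sU G),
    ⟨cmp_lev _ _ _ (Submodule.add_mem _ hu (sU_lev hG)), cmp_wh _ _ _⟩, ?_⟩
  rw [cx_d, ← dR_cmp, h8]
  exact cmp_same hF.2

end pol

end Pool.Agent.Work.MP_701abf_gt.Stab
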