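import Pool.Agent.Work.MP_701abf_gt.Stab.Cps

/-!
The recursion: cohomology with coefficients twisted once, from cohomology with untwisted
coefficients in half the degree.
-/

open MvPolynomial
open Finset.HasAntidiagonal (antidiagonal mem_antidiagonal)

namespace Pool.Agent.Work.MP_701abf_gt.Stab

section subst

variable {ι ι' : Type*}

/-- Equivariant substitutions commute with the face maps. -/
lemma subst_face {τ : ι → ℕ} {τ' : ι' → ℕ} {W : ι → ℕ → RR ι'} {j : ℕ}
    (h : ∀ b i, face τ' j (W b i) = fw τ j gG W b i) (F : RR ι) :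
    face τ' j (ev gG W F) = ev gG W (face τ j F) := by
  have : (face τ' j).comp (ev gG W) = (ev gG W).comp (face τ j) := by
    rw [ev_face, comp_ev]
    congr 1
    · funext a
      exact mapPt_face _ _ _
    · funext b i
      exact h b i
  exact congrArg (fun φ => φ F) this

lemma subst_d {τ : ι → ℕ} {τ' : ι' → ℕ} {W : ι → ℕ → RR ι'}
    (h : ∀ j b i, face τ' j (W b i) = fw τ j gG W b i) (n : ℕ) (F : RR ι) :
    dR τ' n (ev gG W F) = ev gG W (dR τ n F) := by
  rw [dR_apply, dR_apply, map_sum]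
  exact Finset.sum_congr rfl fun j _ => subst_face (h j) F

lemma subst_lev {W : ι → ℕ → RR ι'} (h : ∀ n b i, prj n (W b i) = W b i) {n : ℕ} {F : RR ι}
    (hF : F ∈ lev ι n) : ev gG W F ∈ lev ι' n := by
  refine hom_lev (fun v => ?_) (fun n v => ?_) hF
  · rw [ev_inl]; rfl
  · rw [ev_inr]
    exact h _ _ _

lemma subst_gr {c : ι → ℤ × ℤ} {τ : ι → ℕ} {c' : ι' → ℤ × ℤ} {τ' : ι' → ℕ}
    {W : ι → ℕ → RR ι'} (h : ∀ b i, WH (wt c' τ') (W b i) (c b, 2 ^ (i + τ b))) :
    Gr (wt c τ) (wt c' τ') id (ev gG W).toLinearMap := by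
  refine Gr.of_alg' fun v => ?_
  rcases v with v | v
  · rw [ev_inl]
    exact wh_gG _ _ _ _
  · rw [ev_inr]
    exact h _ _

end subst

section general

variable {U V : Type*}

/-- Two maps which agree on the variables of degree zero agree on polynomials of degree zero. -/
lemma hom_congr_wt {M : Type*} [AddCommMonoid M] {w : V → M} {φ ψ : PF V →ₐ[ZMod 2] PF U}
    {q : M →+ ℤ} (h0 : ∀ v, 0 ≤ q (w v)) (h : ∀ v, q (w v) = 0 → φ (X v) = ψ (X v)) {F : PF V}
    {m : M} (hF : WH w F m) (hq : q m = 0) : φ F = ψ F := by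
  rw [F.as_sum, map_sum, map_sum]
  refine Finset.sum_congr rfl fun d hd => ?_
  have h1 := hF (mem_support_iff.1 hd)
  have h2 : ∀ v ∈ d.support, q (w v) = 0 := by
    have h3 : ∑ v ∈ d.support, d v • q (w v) = 0 := by
      rw [← hq, ← h1, Finsupp.weight_apply, Finsupp.sum, map_sum]
      exact Finset.sum_congr rfl fun v _ => (map_nsmul _ _ _).symm
    intro v hv
    have h4 := (Finset.sum_eq_zero_iff_of_nonneg
      (fun v _ => nsmul_nonneg (h0 v) (d v))).1 h3 v hv
    rcases smul_eq_zero.1 h4 with h5 | h5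
    · exact absurd h5 (Finsupp.mem_support_iff.1 hv)
    · exact h5
  rw [monomial_eq, map_mul, map_mul, Finsupp.prod, map_prod, map_prod]
  congr 1
  · have e1 : φ (C (coeff d F)) = algebraMap (ZMod 2) _ (coeff d F) := φ.commutes _
    have e2 : ψ (C (coeff d F)) = algebraMap (ZMod 2) _ (coeff d F) := ψ.commutes _
    rw [e1, e2]
  · refine Finset.prod_congr rfl fun v hv => ?_
    rw [map_pow, map_pow, h v (h2 v hv)]

end general

section emb

variable {ι : Type*}

/-- The embedding into the mixed ring. -/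
noncomputable def EQ : RR ι →ₐ[ZMod 2] RQ ι := ev gQ (fun b => wQ (some b))

/-- The retraction. -/
noncomputable def EQ' : RQ ι →ₐ[ZMod 2] RR ι :=
  evQ gG (fun _ _ => 0) (fun o => match o with
    | none => fun _ => 0
    | some b => gW b)

lemma EQ_face (j : ℕ) (F : RR ι) : faceQ j (EQ F) = EQ (face (fun _ => 1) j F) := by
  have : (faceQ j).comp EQ = (EQ (ι := ι)).comp (face (fun _ => 1) j) := by
    unfold EQ
    rw [ev_face, comp_ev]
    congr 1
    · funext a
      exact mapPt_faceQ _ _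
    · funext b i
      unfold faceQ
      rw [evQ_wQ]
      cases j with
      | zero => simp only [fo, fw]
      | succ j => simp only [fo, fw]
  exact congrArg (fun φ => φ F) this

lemma EQ'_face (j : ℕ) (F : RQ ι) : face (fun _ => 1) j (EQ' F) = EQ' (faceQ j F) := by
  have : (face (fun _ => 1) j).comp EQ' = (EQ' (ι := ι)).comp (faceQ j) := by
    unfold EQ'
    rw [evQ_face, comp_evQ]
    congr 1
    · funext a
      exact mapPt_face _ _ _
    · funext a i
      rw [map_zero]
      cases j with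
      | zero => rfl
      | succ j =>
        simp only [ft]
        split_ifs
        · rfl
        · simp only [act_zero', add_zero]
        · rfl
    · funext o i
      cases o with
      | none =>
        rw [map_zero]
        cases j with
        | zero =>
          simp only [fo]
          rw [act_zero', zero_add]
        | succ j => rfl
      | some b =>
        simp only
        rw [face_gW]
        cases j with
        | zero => simp only [fo, fw]
        | succ j => simp only [fo, fw]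
  exact congrArg (fun φ => φ F) this

lemma EQ'_EQ (F : RR ι) : EQ' (EQ F) = F := by
  have : (EQ' (ι := ι)).comp EQ = AlgHom.id _ _ := by
    refine algHom_ext fun v => ?_
    rw [AlgHom.comp_apply]
    unfold EQ EQ'
    rcases v with v | v
    · rw [ev_inl]
      change evQ _ _ _ (X (Sum.inl v)) = _
      rw [evQ_g]
      rfl
    · rw [ev_inr]
      change evQ _ _ _ (X (Sum.inr (Sum.inr (some v.1, v.2)))) = _
      rw [evQ_w]
      rfl
  exact congrArg (fun φ => φ F) this

lemma EQ_d (n : ℕ) (F : RR ι) : dQ n (EQ F) = EQ (dR (fun _ => 1) n F) := by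
  rw [dQ_apply, dR_apply, map_sum]
  exact Finset.sum_congr rfl fun j _ => EQ_face j F

lemma EQ'_d (n : ℕ) (F : RQ ι) : dR (fun _ => 1) n (EQ' F) = EQ' (dQ n F) := by
  rw [dQ_apply, dR_apply, map_sum]
  exact Finset.sum_congr rfl fun j _ => EQ'_face j F

lemma EQ_lev {n : ℕ} {F : RR ι} (hF : F ∈ lev ι n) : EQ F ∈ levQ ι n := by
  cases n with
  | zero =>
    rw [mem_lev_zero] at hF
    rw [mem_levQ_zero, hF, map_zero]
  | succ n =>
    rw [mem_lev_succ] at hF
    rw [mem_levQ_succ]
    have : (prjQ n).comp EQ = (EQ (ι := ι)).comp (prj n) := by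
      refine algHom_ext fun v => ?_
      rw [AlgHom.comp_apply, AlgHom.comp_apply]
      unfold EQ prjQ
      rcases v with v | v
      · by_cases hv : v.1 < n
        · rw [prj_inl_lt hv, ev_inl]
          change evQ _ _ _ (X (Sum.inl v)) = _
          rw [evQ_g, if_pos hv]
        · rw [prj_inl_ge hv, ev_inl, map_zero]
          change evQ _ _ _ (X (Sum.inl v)) = _
          rw [evQ_g, if_neg hv, Pt.co_one_ne (by omega)]
      · rw [prj_inr, ev_inr]
        change evQ _ _ _ (X (Sum.inr (Sum.inr (some v.1, v.2)))) = _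
        rw [evQ_w]
    have h2 := congrArg (fun φ => φ F) this
    simp only [AlgHom.comp_apply, hF] at h2
    exact h2

lemma EQ'_lev {n : ℕ} {F : RQ ι} (hF : F ∈ levQ ι n) : EQ' F ∈ lev ι n := by
  cases n with
  | zero =>
    rw [mem_levQ_zero] at hF
    rw [mem_lev_zero, hF, map_zero]
  | succ n =>
    rw [mem_levQ_succ] at hF
    rw [mem_lev_succ]
    have : (prj n).comp EQ' = (EQ' (ι := ι)).comp (prjQ n) := by
      refine algHom_ext fun v => ?_
      rw [AlgHom.comp_apply, AlgHom.comp_apply]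
      unfold EQ' prjQ
      rcases v with v | v | v
      · rw [evQ_g, evQ_g]
        change prj n (X (Sum.inl v)) = _
        by_cases hv : v.1 < n
        · rw [prj_inl_lt hv, if_pos hv]
          change _ = evQ _ _ _ (X (Sum.inl v))
          rw [evQ_g]
          rfl
        · rw [prj_inl_ge hv, if_neg hv, Pt.co_one_ne (by omega), map_zero]
      · rw [evQ_t, evQ_t, map_zero]
        split_ifs
        · change _ = evQ _ _ _ (X (Sum.inr (Sum.inl v)))
          rw [evQ_t]
        · exact (map_zero _).symm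
      · rw [evQ_w, evQ_w]
        change _ = evQ _ _ _ (X (Sum.inr (Sum.inr v)))
        rw [evQ_w]
        rcases v with ⟨o, i⟩
        cases o with
        | none => exact map_zero _
        | some b => exact prj_gW _ _ _
    have h2 := congrArg (fun φ => φ F) this
    simp only [AlgHom.comp_apply, hF] at h2
    exact h2

lemma EQ_gr : Gr (wt (fun _ => (1, 0)) (fun _ => 1)) (wtQ ι) id (EQ (ι := ι)).toLinearMap := by
  refine Gr.of_alg' fun v => ?_
  unfold EQ
  rcases v with v | v
  · rw [ev_inl]; exact wh_gQ _ _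
  · rw [ev_inr]; exact wh_wQs _ _

lemma EQ'_gr : Gr (wtQ ι) (wt (fun _ => (1, 0)) (fun _ => 1)) id (EQ' (ι := ι)).toLinearMap := by
  refine Gr.of_alg' fun v => ?_
  unfold EQ'
  rcases v with v | v | v
  · rw [evQ_g]; exact wh_gG _ _ _ _
  · rw [evQ_t]; exact isWeightedHomogeneous_zero _ _ _
  · rw [evQ_w]
    rcases v with ⟨o, i⟩
    cases o with
    | none => exact isWeightedHomogeneous_zero _ _ _
    | some b => exact wh_gW _ _ b i

/-! ### Cochains without the extra copy -/

/-- Inclusion. -/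
noncomputable def jO : RR ι →ₐ[ZMod 2] RR (Option ι) := ev gG (fun b => gW (some b))

/-- Retraction. -/
noncomputable def rO : RR (Option ι) →ₐ[ZMod 2] RR ι :=
  ev gG (fun o => match o with
    | none => fun _ => 0
    | some b => gW b)

lemma jO_d (n : ℕ) (F : RR ι) : dR (fun _ => 0) n (jO F) = jO (dR (fun _ => 0) n F) := by
  refine subst_d (fun j b i => ?_) n F
  rw [face_gW]
  cases j with
  | zero => simp only [fw]
  | succ j => simp only [fw]

lemma rO_d (n : ℕ) (F : RR (Option ι)) :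
    dR (fun _ => 0) n (rO F) = rO (dR (fun _ => 0) n F) := by
  refine subst_d (fun j o i => ?_) n F
  cases o with
  | none =>
    rw [map_zero]
    cases j with
    | zero =>
      simp only [fw]
      rw [act_zero']
    | succ j => rfl
  | some b =>
    rw [face_gW]
    cases j with
    | zero => simp only [fw]
    | succ j => simp only [fw]

lemma rO_jO (F : RR ι) : rO (jO F) = F := by
  have : (rO (ι := ι)).comp jO = AlgHom.id _ _ := by
    refine algHom_ext fun v => ?_
    rw [AlgHom.comp_apply]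
    unfold jO rO
    rcases v with v | v
    · rw [ev_inl]
      change ev _ _ (X (Sum.inl v)) = _
      rw [ev_inl]
      rfl
    · rw [ev_inr]
      change ev _ _ (X (Sum.inr (some v.1, v.2))) = _
      rw [ev_inr]
      rfl
  exact congrArg (fun φ => φ F) this

lemma jO_lev {n : ℕ} {F : RR ι} (hF : F ∈ lev ι n) : jO F ∈ lev (Option ι) n :=
  subst_lev (fun _ _ _ => prj_gW _ _ _) hF

lemma rO_lev {n : ℕ} {F : RR (Option ι)} (hF : F ∈ lev (Option ι) n) : rO F ∈ lev ι n := by
  refine subst_lev (fun n o i => ?_) hF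
  cases o with
  | none => exact map_zero _
  | some b => exact prj_gW _ _ _

lemma jO_gr : Gr (wt (fun _ => (1, 0)) (fun _ => 0)) (wt cO (fun _ => 0)) id
    (jO (ι := ι)).toLinearMap := by
  refine subst_gr fun b i => ?_
  exact wh_gW cO (fun _ => 0) (some b) i

lemma rO_gr : Gr (wt cO (fun _ => 0)) (wt (fun _ => (1, 0)) (fun _ => 0)) id
    (rO (ι := ι)).toLinearMap := by
  refine subst_gr fun o i => ?_
  cases o with
  | none => exact isWeightedHomogeneous_zero _ _ _
  | some b => exact wh_gW _ _ b i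

lemma jO_rO {F : RR (Option ι)} {k m : ℤ} (hF : WH (wt cO (fun _ => 0)) F ((k, 0), m)) :
    jO (rO F) = F := by
  have := hom_congr_wt (w := wt (cO (ι := ι)) (fun _ => 0)) (φ := (jO (ι := ι)).comp rO)
    (ψ := AlgHom.id _ _) (q := (AddMonoidHom.snd ℤ ℤ).comp (AddMonoidHom.fst (ℤ × ℤ) ℤ))
    (fun v => ?_) (fun v hv => ?_) hF rfl
  · exact this
  · rcases v with v | ⟨o, i⟩
    · exact le_rfl
    · cases o with
      | none => exact zero_le_one
      | some b => exact le_rfl
  · rw [AlgHom.comp_apply]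
    unfold jO rO
    rcases v with v | ⟨o, i⟩
    · rw [ev_inl]
      change ev _ _ (X (Sum.inl v)) = _
      rw [ev_inl]
      rfl
    · cases o with
      | none => exact absurd hv one_ne_zero
      | some b =>
        rw [ev_inr]
        change ev _ _ (X (Sum.inr (b, i))) = _
        rw [ev_inr]
        rfl

/-- Inflation without the extra copy. -/
noncomputable def infl : RR ι →ₐ[ZMod 2] RR ι := ev (fun a => frobPt (gG a)) gW

lemma infl_inl (v : ℕ × ℕ) : infl (ι := ι) (X (Sum.inl v)) = X (Sum.inl v) ^ 2 := by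
  unfold infl; rw [ev_inl]; rfl

lemma infl_inr (v : ι × ℕ) : infl (ι := ι) (X (Sum.inr v)) = X (Sum.inr v) := by
  unfold infl; rw [ev_inr]; rfl

lemma EQ_infl (F : RR ι) : EQ (infl F) = TQ (jO F) := by
  have : (EQ (ι := ι)).comp infl = TQ.comp jO := by
    refine algHom_ext fun v => ?_
    rw [AlgHom.comp_apply, AlgHom.comp_apply]
    rcases v with v | v
    · rw [infl_inl, map_pow]
      unfold EQ jO
      rw [ev_inl, ev_inl]
      change _ = TQ (X (Sum.inl v))
      rw [TQ_g]
      rfl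
    · rw [infl_inr]
      unfold EQ jO
      rw [ev_inr, ev_inr]
      change _ = TQ (X (Sum.inr (some v.1, v.2)))
      rw [TQ_w]
      rfl
  exact congrArg (fun φ => φ F) this

lemma infl_face (j : ℕ) (F : RR ι) :
    face (fun _ => 1) j (infl F) = infl (face (fun _ => 0) j F) := by
  have : (face (fun _ => 1) j).comp infl = (infl (ι := ι)).comp (face (fun _ => 0) j) := by
    unfold infl
    rw [ev_face, comp_ev]
    congr 1
    · funext a
      rw [fg_frob, mapPt_frob, mapPt_face]
    · funext b i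
      rw [face_gW]
      cases j with
      | zero =>
        simp only [fw]
        rw [act_frobPt]
      | succ j => simp only [fw]
  exact congrArg (fun φ => φ F) this

lemma infl_d (n : ℕ) (F : RR ι) : dR (fun _ => 1) n (infl F) = infl (dR (fun _ => 0) n F) := by
  rw [dR_apply, dR_apply, map_sum]
  exact Finset.sum_congr rfl fun j _ => infl_face j F

lemma infl_lev {n : ℕ} {F : RR ι} (hF : F ∈ lev ι n) : infl F ∈ lev ι n := by
  cases n with
  | zero =>
    rw [mem_lev_zero] at hF ⊢
    rw [hF, map_zero]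
  | succ n =>
    rw [mem_lev_succ] at hF ⊢
    have : (prj n).comp infl = (infl (ι := ι)).comp (prj n) := by
      refine algHom_ext fun v => ?_
      rw [AlgHom.comp_apply, AlgHom.comp_apply]
      rcases v with v | v
      · rw [infl_inl, map_pow]
        by_cases hv : v.1 < n
        · rw [prj_inl_lt hv, infl_inl]
        · rw [prj_inl_ge hv, map_zero, zero_pow two_ne_zero]
      · rw [infl_inr, prj_inr, infl_inr]
    have h2 := congrArg (fun φ => φ F) this
    simp only [AlgHom.comp_apply, hF] at h2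
    exact h2

/-! ### Weights in the source of the inflation -/

lemma wtT_iff {m m' : (ℤ × ℤ) × ℤ} (h : fT m' = m) {F : RR (Option ι)} :
    WH (wtT ι) F m ↔ WH (wt cO (fun _ => 0)) F m' := by
  constructor
  · intro hF
    rcases wh_of_comp (w := wt cO (fun _ => 0)) fT_inj hF with h0 | ⟨m2, h1, h2⟩
    · rw [h0]
      exact isWeightedHomogeneous_zero _ _ _
    · rw [← h] at h1
      rw [← fT_inj h1]
      exact h2
  · intro hF
    rw [← h]
    exact wh_comp (f := fT) hF

lemma wtT_none {m : (ℤ × ℤ) × ℤ} (h : ∀ m', fT m' ≠ m) {F : RR (Option ι)}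
    (hF : WH (wtT ι) F m) : F = 0 := by
  rcases wh_of_comp (w := wt cO (fun _ => 0)) fT_inj hF with h0 | ⟨m2, h1, _⟩
  · exact h0
  · exact absurd h1 (h m2)

lemma cO_sum (b : Option ι) : (cO b).1 + (cO b).2 = 1 := by
  cases b <;> rfl

lemma exC_of {k m q : ℤ} {n : ℕ}
    (h : ∀ m', 2 * m' - q = m →
      (cx (fun _ : Option ι => (1, 0)) (fun _ => 0) ((k + q, 0), m')).Exact n) :
    (hs ι k m).ExC q n := by
  intro y hy hd
  by_cases hm : ∃ m', 2 * m' - q = m
  · obtain ⟨m', hm⟩ := hm
    have e : fT ((k, q), m') = ((k, q), m) := by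
      rw [fT_apply]
      simp only
      rw [hm]
    have h1 : (cx cO (fun _ => 0) ((k, q), m')).Exact n := exact_of_total cO_sum (h m' hm)
    obtain ⟨z, hz, ez⟩ := h1 y ⟨hy.1, (wtT_iff e).1 hy.2⟩ hd
    exact ⟨z, ⟨hz.1, (wtT_iff e).2 hz.2⟩, ez⟩
  · have hy0 : y = 0 := by
      refine wtT_none (fun m' hm' => hm ⟨m'.2, ?_⟩) hy.2
      rw [fT_apply, Prod.mk.injEq] at hm'
      obtain ⟨h1, h2⟩ := hm'
      rw [h1] at h2
      exact h2
    refine ⟨0, Submodule.zero_mem _, ?_⟩
    rw [map_zero, hy0]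

/-- The recursion. -/
theorem exact_rec {k m : ℤ} {p : ℕ}
    (h : ∀ q : ℕ, q ≤ p → ∀ m', 2 * m' - (q : ℤ) = m →
      (cx (fun _ : Option ι => (1, 0)) (fun _ => 0) ((k + q, 0), m')).Exact (p - q)) :
    (cx (fun _ : ι => (1, 0)) (fun _ => 1) ((k, 0), m)).Exact p := by
  intro F hF hd
  rw [cx_d] at hd
  obtain ⟨E, hE, e⟩ := (hs ι k m).vanish p (fun i hi => exC_of (h i hi)) (EQ F)
    ⟨EQ_lev hF.1, EQ_gr.map hF.2⟩ (by
      change dQ (p + 1) (EQ F) = 0
      rw [EQ_d, hd, map_zero])
  have e' : dQ p E = EQ F := e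
  refine ⟨EQ' E, ⟨EQ'_lev hE.1, EQ'_gr.map hE.2⟩, ?_⟩
  rw [cx_d, EQ'_d, e', EQ'_EQ]

/-- The edge map is surjective. -/
theorem edge_surj {k m m' : ℤ} (hm : 2 * m' = m) {p : ℕ}
    (h : ∀ q : ℕ, 1 ≤ q → q ≤ p → ∀ m', 2 * m' - (q : ℤ) = m →
      (cx (fun _ : Option ι => (1, 0)) (fun _ => 0) ((k + q, 0), m')).Exact (p - q))
    {F : RR ι} (hF : F ∈ lev ι (p + 1)) (hFw : WH (wt (fun _ => (1, 0)) (fun _ => 1)) F ((k, 0), m))
    (hd : dR (fun _ => 1) (p + 1) F = 0) :
    ∃ y ∈ lev ι (p + 1), WH (wt (fun _ => (1, 0)) (fun _ => 0)) y ((k, 0), m') ∧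
      dR (fun _ => 0) (p + 1) y = 0 ∧ ∃ G ∈ lev ι p,
        WH (wt (fun _ => (1, 0)) (fun _ => 1)) G ((k, 0), m) ∧
        F = infl y + dR (fun _ => 1) p G := by
  obtain ⟨y, hy, hyd, E, hE, e⟩ := (hs ι k m).surj p (fun i hi1 hi => exC_of (h i hi1 hi)) (EQ F)
    ⟨EQ_lev hF, EQ_gr.map hFw⟩ (by
      change dQ (p + 1) (EQ F) = 0
      rw [EQ_d, hd, map_zero])
  have e' : EQ F = TQ y + dQ p E := e
  have hyd' : dR (fun _ => 0) (p + 1) y = 0 := hyd
  have ew : fT ((k, 0), m') = ((k, 0), m) := by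
    rw [fT_apply]
    simp only
    rw [hm, sub_zero]
  have hyw := (wtT_iff ew).1 hy.2
  refine ⟨rO y, rO_lev hy.1, rO_gr.map hyw, ?_, EQ' E, EQ'_lev hE.1, EQ'_gr.map hE.2, ?_⟩
  · rw [rO_d, hyd', map_zero]
  · have h1 := congrArg EQ' e'
    rw [EQ'_EQ, map_add, ← EQ'_d] at h1
    rw [h1]
    congr 1
    rw [← EQ'_EQ (infl (rO y)), EQ_infl, jO_rO hyw]

/-- The edge map is injective. -/
theorem edge_inj {k m m' : ℤ} (hm : 2 * m' = m) {p : ℕ}
    (h : ∀ q : ℕ, 1 ≤ q → q + 1 ≤ p → ∀ m', 2 * m' - (q : ℤ) = m →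
      (cx (fun _ : Option ι => (1, 0)) (fun _ => 0) ((k + q, 0), m')).Exact (p - 1 - q))
    {y : RR ι} (hy : y ∈ lev ι (p + 1)) (hyw : WH (wt (fun _ => (1, 0)) (fun _ => 0)) y ((k, 0), m'))
    {G : RR ι} (hG : G ∈ lev ι p)
    (hGw : WH (wt (fun _ => (1, 0)) (fun _ => 1)) G ((k, 0), m))
    (e : infl y = dR (fun _ => 1) p G) :
    ∃ z ∈ lev ι p, WH (wt (fun _ => (1, 0)) (fun _ => 0)) z ((k, 0), m') ∧
      dR (fun _ => 0) p z = y := by
  have ew : fT ((k, 0), m') = ((k, 0), m) := by
    rw [fT_apply]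
    simp only
    rw [hm, sub_zero]
  obtain ⟨z, hz, ez⟩ := (hs ι k m).injective p (fun i hi1 hi => exC_of (h i hi1 hi)) (jO y)
    ⟨jO_lev hy, (wtT_iff ew).2 (jO_gr.map hyw)⟩ (EQ G) ⟨EQ_lev hG, EQ_gr.map hGw⟩ (by
      change TQ (jO y) = dQ p (EQ G)
      rw [← EQ_infl, e, EQ_d])
  have ez' : dR (fun _ => 0) p z = jO y := ez
  refine ⟨rO z, rO_lev hz.1, rO_gr.map ((wtT_iff ew).1 hz.2), ?_⟩
  rw [rO_d, ez', rO_jO]

end emb

end Pool.Agent.Work.MP_701abf_gt.Stab
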