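import Pool.Agent.Work.MP_701abf_gt.Stab.Wt
import Pool.Agent.Work.MP_701abf_gt.Coch

/-!
The cosimplicial rings of cochains with coefficients in the polynomial functions on several
copies of the standard comodule `W` (twisted `τ` times).
-/

open MvPolynomial
open Finset.HasAntidiagonal (antidiagonal mem_antidiagonal)

namespace Pool.Agent.Work.MP_701abf_gt.Stab

section points

variable {S : Type*} [CommRing S]

/-- The (twisted) action on the standard comodule. -/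
def act (τ : ℕ) (g : Pt S) (w : ℕ → S) : ℕ → S := fun n =>
  ∑ p ∈ antidiagonal n, g.co p.1 ^ 2 ^ (p.2 + τ) * w p.2

lemma act_apply (τ : ℕ) (g : Pt S) (w : ℕ → S) (n : ℕ) :
    act τ g w n = ∑ p ∈ antidiagonal n, g.co p.1 ^ 2 ^ (p.2 + τ) * w p.2 := rfl

lemma act_add (τ : ℕ) (g : Pt S) (v w : ℕ → S) :
    act τ g (fun i => v i + w i) = fun i => act τ g v i + act τ g w i := by
  funext n
  simp only [act_apply, mul_add, Finset.sum_add_distrib]

lemma act_zero' (τ : ℕ) (g : Pt S) : act τ g (fun _ => 0) = fun _ => 0 := by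
  funext n
  simp only [act_apply, mul_zero, Finset.sum_const_zero]

variable [Algebra (ZMod 2) S]

omit [Algebra (ZMod 2) S] in
lemma act_one (τ : ℕ) (w : ℕ → S) : act τ 1 w = w := by
  funext n
  rw [act_apply, Finset.sum_eq_single (0, n)]
  · simp
  · rintro ⟨i, j⟩ hb hne
    have : i ≠ 0 := by
      rintro rfl
      apply hne
      have := mem_antidiagonal.1 hb
      simp only [zero_add] at this
      rw [this]
    simp only [Pt.co_one_ne this]
    rw [zero_pow (pow_ne_zero _ two_ne_zero), zero_mul]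
  · intro h
    exact absurd (mem_antidiagonal.2 (by simp)) h

lemma act_mul (τ : ℕ) (a b : Pt S) (c : ℕ → S) :
    act τ (a * b) c = act τ a (act τ b c) := by
  funext n
  simp only [act_apply, Pt.co_mul]
  have e1 : ∀ p ∈ antidiagonal n,
      (∑ q ∈ antidiagonal p.1, a.co q.1 ^ 2 ^ q.2 * b.co q.2) ^ 2 ^ (p.2 + τ) * c p.2
      = ∑ q ∈ antidiagonal p.1,
        a.co q.1 ^ 2 ^ (q.2 + p.2 + τ) * (b.co q.2 ^ 2 ^ (p.2 + τ) * c p.2) := by
    intro p _
    rw [sum_pow', Finset.sum_mul]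
    refine Finset.sum_congr rfl fun q _ => ?_
    rw [mul_pow, ← pow_mul, ← pow_add, mul_assoc, add_assoc]
  have e2 : ∀ p ∈ antidiagonal n,
      a.co p.1 ^ 2 ^ (p.2 + τ) * ∑ q ∈ antidiagonal p.2, b.co q.1 ^ 2 ^ (q.2 + τ) * c q.2
      = ∑ q ∈ antidiagonal p.2,
        a.co p.1 ^ 2 ^ (q.1 + q.2 + τ) * (b.co q.1 ^ 2 ^ (q.2 + τ) * c q.2) := by
    intro p _
    rw [Finset.mul_sum]
    refine Finset.sum_congr rfl fun q hq => ?_
    rw [mem_antidiagonal.1 hq]
  rw [Finset.sum_congr rfl e1, Finset.sum_congr rfl e2, Finset.sum_sigma', Finset.sum_sigma']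
  refine Finset.sum_nbij' (fun x => ⟨(x.2.1, x.2.2 + x.1.2), (x.2.2, x.1.2)⟩)
    (fun x => ⟨(x.1.1 + x.2.1, x.2.2), (x.1.1, x.2.1)⟩) ?_ ?_ ?_ ?_ ?_
  · rintro ⟨⟨i, j⟩, ⟨k, l⟩⟩ h
    simp only [Finset.mem_sigma, mem_antidiagonal] at h ⊢
    obtain ⟨h1, h2⟩ := h
    constructor
    · omega
    · trivial
  · rintro ⟨⟨i, j⟩, ⟨k, l⟩⟩ h
    simp only [Finset.mem_sigma, mem_antidiagonal] at h ⊢
    obtain ⟨h1, h2⟩ := h
    constructor
    · omega
    · trivial
  · rintro ⟨⟨i, j⟩, ⟨k, l⟩⟩ h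
    simp only [Finset.mem_sigma, mem_antidiagonal] at h
    obtain ⟨h1, h2⟩ := h
    subst h2
    rfl
  · rintro ⟨⟨i, j⟩, ⟨k, l⟩⟩ h
    simp only [Finset.mem_sigma, mem_antidiagonal] at h
    obtain ⟨h1, h2⟩ := h
    subst h2
    rfl
  · rintro ⟨⟨i, j⟩, ⟨k, l⟩⟩ h
    rfl

omit [Algebra (ZMod 2) S] in
/-- The Frobenius on points. -/
def frobPt (g : Pt S) : Pt S where
  co n := g.co n ^ 2
  co_zero := by rw [g.co_zero, one_pow]

omit [Algebra (ZMod 2) S] in
@[simp] lemma frobPt_co (g : Pt S) (n : ℕ) : (frobPt g).co n = g.co n ^ 2 := rfl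

lemma frobPt_mul (a b : Pt S) : frobPt (a * b) = frobPt a * frobPt b := by
  ext n
  rw [frobPt_co, Pt.co_mul, Pt.co_mul]
  have h := sum_pow' (R := S) 1 (antidiagonal n) (fun p => a.co p.1 ^ 2 ^ p.2 * b.co p.2)
  simp only [pow_one] at h
  rw [h]
  refine Finset.sum_congr rfl fun p _ => ?_
  rw [mul_pow, frobPt_co, frobPt_co, ← pow_mul, ← pow_mul, mul_comm]
  ring

omit [Algebra (ZMod 2) S] in
lemma act_frobPt (τ : ℕ) (g : Pt S) (w : ℕ → S) : act τ (frobPt g) w = act (τ + 1) g w := by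
  funext n
  refine Finset.sum_congr rfl fun p _ => ?_
  rw [frobPt_co, ← pow_mul, ← add_assoc, pow_succ (2 : ℕ), mul_comm 2]

variable {S' : Type*} [CommRing S'] [Algebra (ZMod 2) S']

/-- Functoriality of points. -/
def mapPt (φ : S →ₐ[ZMod 2] S') (g : Pt S) : Pt S' where
  co n := φ (g.co n)
  co_zero := by rw [g.co_zero, map_one]

@[simp] lemma mapPt_co (φ : S →ₐ[ZMod 2] S') (g : Pt S) (n : ℕ) :
    (mapPt φ g).co n = φ (g.co n) := rfl

lemma mapPt_mul (φ : S →ₐ[ZMod 2] S') (a b : Pt S) :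
    mapPt φ (a * b) = mapPt φ a * mapPt φ b := by
  ext n
  simp only [mapPt_co, Pt.co_mul, map_sum, map_mul, map_pow]

lemma map_act (φ : S →ₐ[ZMod 2] S') (τ : ℕ) (g : Pt S) (w : ℕ → S) (n : ℕ) :
    φ (act τ g w n) = act τ (mapPt φ g) (fun i => φ (w i)) n := by
  simp only [act_apply, mapPt_co, map_sum, map_mul, map_pow]

/-- Face maps on the group coordinates. -/
def fg (j : ℕ) (g : ℕ → Pt S) : ℕ → Pt S := match j with
  | 0 => fun a => g (a + 1)
  | j + 1 => fun a => if a < j then g a else if a = j then g (j + 1) * g j else g (a + 1)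

/-- Face maps on the coefficients. -/
def fw {ι : Type*} (τ : ι → ℕ) (j : ℕ) (g : ℕ → Pt S) (w : ι → ℕ → S) : ι → ℕ → S :=
  match j with
  | 0 => fun b => act (τ b) (g 0) (w b)
  | _ + 1 => w

/-- Homogeneous coordinates: group part. -/
def hg (z : ℕ → Pt S) : ℕ → Pt S := fun a => z (a + 1) * (z a)⁻¹

/-- Homogeneous coordinates: coefficients. -/
def hw {ι : Type*} (τ : ι → ℕ) (z : ℕ → Pt S) (w : ι → ℕ → S) : ι → ℕ → S :=
  fun b => act (τ b) (z 0) (w b)

lemma fg_hg (j : ℕ) (z : ℕ → Pt S) : fg j (hg z) = hg (sk j z) := by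
  cases j with
  | zero =>
    funext a
    simp [fg, hg, sk, skp]
  | succ j =>
    funext a
    rcases lt_trichotomy a j with h | h | h
    · simp only [fg, if_pos h, hg, sk]
      rw [skp_lt (by omega), skp_lt (by omega)]
    · subst h
      simp only [fg, lt_irrefl, if_false, if_true, hg, sk]
      rw [skp_ge (by omega), skp_lt (by omega)]
      group
    · simp only [fg, if_neg (show ¬ a < j by omega), if_neg (show ¬ a = j by omega), hg, sk]
      rw [skp_ge (by omega), skp_ge (by omega)]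

lemma fw_hw {ι : Type*} (τ : ι → ℕ) (j : ℕ) (z : ℕ → Pt S) (w : ι → ℕ → S) :
    fw τ j (hg z) (hw τ z w) = hw τ (sk j z) w := by
  cases j with
  | zero =>
    funext b
    simp only [fw, hg, hw, sk, skp, ← act_mul]
    simp
  | succ j =>
    funext b
    simp [fw, hw, sk, skp]

end points

section ring

variable (ι : Type*)

/-- The ring of cochains with coefficients in functions on `ι` copies of `W`. -/
abbrev RR : Type _ := PF ((ℕ × ℕ) ⊕ (ι × ℕ))

variable {ι}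
variable {S : Type*} [CommRing S] [Algebra (ZMod 2) S]
variable {S' : Type*} [CommRing S'] [Algebra (ZMod 2) S']

/-- Evaluation at a point. -/
noncomputable def ev (g : ℕ → Pt S) (w : ι → ℕ → S) : RR ι →ₐ[ZMod 2] S :=
  aeval (Sum.elim (fun v => (g v.1).co (v.2 + 1)) (fun v => w v.1 v.2))

@[simp] lemma ev_inl (g : ℕ → Pt S) (w : ι → ℕ → S) (v : ℕ × ℕ) :
    ev g w (X (Sum.inl v)) = (g v.1).co (v.2 + 1) := by
  unfold ev; rw [aeval_X]; rfl

@[simp] lemma ev_inr (g : ℕ → Pt S) (w : ι → ℕ → S) (v : ι × ℕ) :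
    ev g w (X (Sum.inr v)) = w v.1 v.2 := by
  unfold ev; rw [aeval_X]; rfl

/-- The generic group coordinates. -/
noncomputable def gG : ℕ → Pt (RR ι) := fun a =>
  { co := fun n => match n with
      | 0 => 1
      | n + 1 => X (Sum.inl (a, n))
    co_zero := rfl }

/-- The generic coefficients. -/
noncomputable def gW : ι → ℕ → RR ι := fun b i => X (Sum.inr (b, i))

lemma gG_succ (a n : ℕ) : (gG (ι := ι) a).co (n + 1) = X (Sum.inl (a, n)) := rfl

omit [Algebra (ZMod 2) S] in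
lemma Pt_ext' {g h : Pt S} (e : ∀ n, g.co (n + 1) = h.co (n + 1)) : g = h := by
  ext n
  cases n with
  | zero => rw [g.co_zero, h.co_zero]
  | succ n => exact e n

lemma mapPt_ev (g : ℕ → Pt S) (w : ι → ℕ → S) (a : ℕ) : mapPt (ev g w) (gG a) = g a :=
  Pt_ext' fun n => by rw [mapPt_co, gG_succ, ev_inl]

lemma ev_gW (g : ℕ → Pt S) (w : ι → ℕ → S) (b : ι) (i : ℕ) : ev g w (gW b i) = w b i :=
  ev_inr g w (b, i)

lemma hom_ev (φ : RR ι →ₐ[ZMod 2] S) :
    φ = ev (fun a => mapPt φ (gG a)) (fun b i => φ (gW b i)) := by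
  refine algHom_ext fun v => ?_
  rcases v with v | v
  · rw [ev_inl, mapPt_co]; rfl
  · rw [ev_inr]; rfl

lemma hom_eq {φ ψ : RR ι →ₐ[ZMod 2] S} (h1 : ∀ a, mapPt φ (gG a) = mapPt ψ (gG a))
    (h2 : ∀ b i, φ (gW b i) = ψ (gW b i)) : φ = ψ := by
  rw [hom_ev φ, hom_ev ψ]
  simp only [h1, h2]

lemma comp_ev (φ : S →ₐ[ZMod 2] S') (g : ℕ → Pt S) (w : ι → ℕ → S) :
    φ.comp (ev g w) = ev (fun a => mapPt φ (g a)) (fun b i => φ (w b i)) := by
  refine algHom_ext fun v => ?_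
  rcases v with v | v
  · rw [AlgHom.comp_apply, ev_inl, ev_inl, mapPt_co]
  · rw [AlgHom.comp_apply, ev_inr, ev_inr]

/-- The face maps. -/
noncomputable def face (τ : ι → ℕ) (j : ℕ) : RR ι →ₐ[ZMod 2] RR ι :=
  ev (fg j gG) (fw τ j gG gW)

lemma mapPt_fg (φ : S →ₐ[ZMod 2] S') (j : ℕ) (g : ℕ → Pt S) (a : ℕ) :
    mapPt φ (fg j g a) = fg j (fun a => mapPt φ (g a)) a := by
  cases j with
  | zero => rfl
  | succ j =>
    simp only [fg]
    split_ifs
    · rfl
    · rw [mapPt_mul]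
    · rfl

lemma map_fw (φ : S →ₐ[ZMod 2] S') (τ : ι → ℕ) (j : ℕ) (g : ℕ → Pt S) (w : ι → ℕ → S)
    (b : ι) (i : ℕ) :
    φ (fw τ j g w b i) = fw τ j (fun a => mapPt φ (g a)) (fun b i => φ (w b i)) b i := by
  cases j with
  | zero => exact map_act _ _ _ _ _
  | succ j => rfl

lemma ev_face (τ : ι → ℕ) (j : ℕ) (g : ℕ → Pt S) (w : ι → ℕ → S) :
    (ev g w).comp (face τ j) = ev (fg j g) (fw τ j g w) := by
  unfold face
  rw [comp_ev]
  congr 1
  · funext a
    rw [mapPt_fg]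
    simp only [mapPt_ev]
  · funext b i
    rw [map_fw]
    simp only [mapPt_ev, ev_gW]

lemma ev_face_apply (τ : ι → ℕ) (j : ℕ) (g : ℕ → Pt S) (w : ι → ℕ → S) (F : RR ι) :
    ev g w (face τ j F) = ev (fg j g) (fw τ j g w) F :=
  congrArg (fun φ => φ F) (ev_face τ j g w)

/-- The value of a cochain at homogeneous coordinates. -/
noncomputable def val (τ : ι → ℕ) (F : RR ι) (w : ι → ℕ → S) (z : ℕ → Pt S) : S :=
  ev (hg z) (hw τ z w) F

lemma val_face (τ : ι → ℕ) (j : ℕ) (F : RR ι) (w : ι → ℕ → S) (z : ℕ → Pt S) :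
    val τ (face τ j F) w z = val τ F w (sk j z) := by
  unfold val
  rw [ev_face_apply, fg_hg, fw_hw]

/-- The generic sequence of points. -/
noncomputable def gz : ℕ → Pt (RR ι)
  | 0 => 1
  | a + 1 => gG a * gz a

lemma hg_gz : hg (gz (ι := ι)) = gG := by
  funext a
  change gG a * gz a * (gz a)⁻¹ = gG a
  group

lemma val_generic (τ : ι → ℕ) (F : RR ι) : val τ F gW gz = F := by
  unfold val
  rw [hg_gz]
  have h2 : hw τ gz gW = (gW : ι → ℕ → RR ι) := by
    funext b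
    exact act_one _ _
  rw [h2]
  have : ev gG gW = AlgHom.id (ZMod 2) (RR ι) := by
    refine algHom_ext fun v => ?_
    rcases v with v | v
    · rw [ev_inl]; rfl
    · rw [ev_inr]; rfl
  rw [this]; rfl

lemma val_ext (τ : ι → ℕ) {F G : RR ι}
    (h : ∀ (w : ι → ℕ → RR ι) z, val τ F w z = val τ G w z) : F = G := by
  rw [← val_generic τ F, h, val_generic]

/-- The differential; the index is the cochain degree plus one. -/
noncomputable def dR (τ : ι → ℕ) (n : ℕ) : RR ι →ₗ[ZMod 2] RR ι :=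
  ∑ j ∈ Finset.range (n + 1), (face τ j).toLinearMap

lemma dR_apply (τ : ι → ℕ) (n : ℕ) (F : RR ι) :
    dR τ n F = ∑ j ∈ Finset.range (n + 1), face τ j F := by
  unfold dR
  rw [LinearMap.sum_apply]; rfl

lemma val_sum (τ : ι → ℕ) {α : Type*} (s : Finset α) (f : α → RR ι) (w : ι → ℕ → S)
    (z : ℕ → Pt S) : val τ (∑ a ∈ s, f a) w z = ∑ a ∈ s, val τ (f a) w z := by
  unfold val; rw [map_sum]

lemma val_dR (τ : ι → ℕ) (n : ℕ) (F : RR ι) (w : ι → ℕ → S) (z : ℕ → Pt S) :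
    val τ (dR τ (n + 1) F) w z = dd n (val τ F w) z := by
  rw [dR_apply, val_sum]
  exact Finset.sum_congr rfl fun j _ => val_face τ j F w z

lemma dR_dR (τ : ι → ℕ) (n : ℕ) (F : RR ι) : dR τ (n + 2) (dR τ (n + 1) F) = 0 := by
  refine val_ext τ fun w z => ?_
  have h0 : val τ (0 : RR ι) w z = 0 := by unfold val; rw [map_zero]
  rw [val_dR, h0]
  have h1 : val τ (dR τ (n + 1) F) w = dd n (val τ F w) := by
    funext z'
    exact val_dR τ n F w z'
  rw [h1]
  exact dd_dd n _ z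

/-- Kill the group coordinates from slot `n` on. -/
noncomputable def prj (n : ℕ) : RR ι →ₐ[ZMod 2] RR ι :=
  ev (fun a => if a < n then gG a else 1) gW

lemma prj_inl_lt {n : ℕ} {v : ℕ × ℕ} (h : v.1 < n) :
    prj (ι := ι) n (X (Sum.inl v)) = X (Sum.inl v) := by
  unfold prj
  rw [ev_inl, if_pos h]; rfl

lemma prj_inl_ge {n : ℕ} {v : ℕ × ℕ} (h : ¬ v.1 < n) :
    prj (ι := ι) n (X (Sum.inl v)) = 0 := by
  unfold prj
  rw [ev_inl, if_neg h, Pt.co_one_ne (by omega)]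

lemma prj_inr {n : ℕ} {v : ι × ℕ} : prj (ι := ι) n (X (Sum.inr v)) = X (Sum.inr v) := by
  unfold prj
  rw [ev_inr]; rfl

/-- Two evaluations which agree on the slots `< n`. -/
lemma ev_prj {n : ℕ} {g g' : ℕ → Pt S} {w : ι → ℕ → S} (h : ∀ a < n, g a = g' a) (F : RR ι) :
    ev g w (prj n F) = ev g' w (prj n F) := by
  have : (ev g w).comp (prj n) = (ev g' w).comp (prj n) := by
    refine algHom_ext fun v => ?_
    rw [AlgHom.comp_apply, AlgHom.comp_apply]
    rcases v with v | v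
    · by_cases hv : v.1 < n
      · rw [prj_inl_lt hv, ev_inl, ev_inl, h _ hv]
      · rw [prj_inl_ge hv, map_zero, map_zero]
    · rw [prj_inr, ev_inr, ev_inr]
  exact congrArg (fun φ => φ F) this

lemma ev_prj' {n : ℕ} {g g' : ℕ → Pt S} {w : ι → ℕ → S} (h : ∀ a < n, g a = g' a) {F : RR ι}
    (hF : prj n F = F) : ev g w F = ev g' w F := by
  rw [← hF]; exact ev_prj h F

/-- Cochains of degree `n - 1`: nothing for `n = 0`. -/
noncomputable def lev (ι : Type*) : ℕ → Submodule (ZMod 2) (RR ι)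
  | 0 => ⊥
  | n + 1 => LinearMap.ker ((prj n).toLinearMap - LinearMap.id)

lemma mem_lev_zero {F : RR ι} : F ∈ lev ι 0 ↔ F = 0 := Iff.rfl

lemma mem_lev_succ {n : ℕ} {F : RR ι} : F ∈ lev ι (n + 1) ↔ prj n F = F := by
  change F ∈ LinearMap.ker _ ↔ _
  rw [LinearMap.mem_ker, LinearMap.sub_apply, sub_eq_zero]
  rfl

lemma prj_prj (n : ℕ) (F : RR ι) : prj n (prj n F) = prj n F := by
  have : (prj (ι := ι) n).comp (prj n) = prj n := by
    refine algHom_ext fun v => ?_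
    rw [AlgHom.comp_apply]
    rcases v with v | v
    · by_cases hv : v.1 < n
      · rw [prj_inl_lt hv, prj_inl_lt hv]
      · rw [prj_inl_ge hv, map_zero]
    · rw [prj_inr, prj_inr]
  exact congrArg (fun φ => φ F) this

lemma prj_mem (n : ℕ) (F : RR ι) : prj n F ∈ lev ι (n + 1) :=
  mem_lev_succ.2 (prj_prj n F)

/-- Generators of level `n`. -/
lemma prj_hom {n : ℕ} {φ : RR ι →ₐ[ZMod 2] RR ι} {m : ℕ}
    (h1 : ∀ a < n, ∀ i, prj m (φ (X (Sum.inl (a, i)))) = φ (X (Sum.inl (a, i))))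
    (h2 : ∀ v, prj m (φ (X (Sum.inr v))) = φ (X (Sum.inr v))) {F : RR ι}
    (hF : F ∈ lev ι (n + 1)) : φ F ∈ lev ι (m + 1) := by
  rw [mem_lev_succ] at hF ⊢
  have : (prj m).comp (φ.comp (prj n)) = φ.comp (prj n) := by
    refine algHom_ext fun v => ?_
    rw [AlgHom.comp_apply, AlgHom.comp_apply]
    rcases v with v | v
    · by_cases hv : v.1 < n
      · rw [prj_inl_lt hv]; exact h1 v.1 hv v.2
      · rw [prj_inl_ge hv, map_zero, map_zero]
    · rw [prj_inr]; exact h2 v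
  have h3 := congrArg (fun φ => φ F) this
  simp only [AlgHom.comp_apply, hF] at h3
  exact h3

lemma mapPt_prj_lt {n a : ℕ} (h : a < n) : mapPt (prj (ι := ι) n) (gG a) = gG a :=
  Pt_ext' fun i => by rw [mapPt_co, gG_succ]; exact prj_inl_lt h

lemma prj_gW (n : ℕ) (b : ι) (i : ℕ) : prj n (gW b i) = gW b i := prj_inr

lemma face_inl (τ : ι → ℕ) (j a i : ℕ) : face τ j (X (Sum.inl (a, i))) = (fg j gG a).co (i + 1) := by
  unfold face; rw [ev_inl]

lemma face_inr (τ : ι → ℕ) (j : ℕ) (v : ι × ℕ) :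
    face τ j (X (Sum.inr v)) = fw τ j gG gW v.1 v.2 := by
  unfold face; rw [ev_inr]

lemma face_lev (τ : ι → ℕ) (j : ℕ) {n : ℕ} {F : RR ι} (hF : F ∈ lev ι n) :
    face τ j F ∈ lev ι (n + 1) := by
  cases n with
  | zero =>
    rw [mem_lev_zero] at hF
    rw [hF, map_zero]; exact Submodule.zero_mem _
  | succ n =>
    refine prj_hom (n := n) (m := n + 1) ?_ ?_ hF
    · intro a ha i
      rw [face_inl, ← mapPt_co, mapPt_fg]
      congr 1
      cases j with
      | zero =>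
        simp only [fg]
        rw [mapPt_prj_lt (by omega)]
      | succ j =>
        simp only [fg]
        split_ifs
        · rw [mapPt_prj_lt (by omega)]
        · rw [mapPt_prj_lt (by omega), mapPt_prj_lt (by omega)]
        · rw [mapPt_prj_lt (by omega)]
    · intro v
      rw [face_inr, map_fw]
      cases j with
      | zero =>
        simp only [fw, prj_gW]
        rw [mapPt_prj_lt (by omega)]
      | succ j =>
        simp only [fw, prj_gW]

lemma dR_lev (τ : ι → ℕ) {n : ℕ} {F : RR ι} (hF : F ∈ lev ι n) : dR τ n F ∈ lev ι (n + 1) := by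
  rw [dR_apply]
  exact Submodule.sum_mem _ fun j _ => face_lev τ j hF

lemma dR_dR' (τ : ι → ℕ) {n : ℕ} {F : RR ι} (hF : F ∈ lev ι n) :
    dR τ (n + 1) (dR τ n F) = 0 := by
  cases n with
  | zero =>
    rw [mem_lev_zero] at hF
    rw [hF, map_zero, map_zero]
  | succ n => exact dR_dR τ n F

/-- The weight of a cochain: class of the coefficients, internal degree. -/
def wt (c : ι → ℤ × ℤ) (τ : ι → ℕ) : (ℕ × ℕ) ⊕ (ι × ℕ) → (ℤ × ℤ) × ℤ :=
  Sum.elim (fun v => (0, 2 ^ (v.2 + 1) - 1)) (fun v => (c v.1, 2 ^ (v.2 + τ v.1)))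

lemma wh_gG (c : ι → ℤ × ℤ) (τ : ι → ℕ) (a n : ℕ) :
    WH (wt c τ) ((gG (ι := ι) a).co n) (0, 2 ^ n - 1) := by
  cases n with
  | zero =>
    have : ((0 : ℤ × ℤ), (2 : ℤ) ^ 0 - 1) = 0 := by norm_num
    rw [this]
    exact isWeightedHomogeneous_one _ _
  | succ n => exact isWeightedHomogeneous_X _ _ _

lemma wh_gW (c : ι → ℤ × ℤ) (τ : ι → ℕ) (b : ι) (i : ℕ) :
    WH (wt c τ) (gW b i) (c b, 2 ^ (i + τ b)) := isWeightedHomogeneous_X _ _ _

lemma wh_mulPt {V : Type*} {w : V → (ℤ × ℤ) × ℤ} {g h : Pt (PF V)}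
    (hg : ∀ n, WH w (g.co n) (0, 2 ^ n - 1)) (hh : ∀ n, WH w (h.co n) (0, 2 ^ n - 1)) (n : ℕ) :
    WH w ((g * h).co n) (0, 2 ^ n - 1) := by
  rw [Pt.co_mul]
  refine IsWeightedHomogeneous.sum _ _ _ fun p hp => ?_
  have h1 := ((hg p.1).pow (2 ^ p.2)).mul (hh p.2)
  have e : 2 ^ p.2 • ((0 : ℤ × ℤ), (2 : ℤ) ^ p.1 - 1) + (0, 2 ^ p.2 - 1) = (0, 2 ^ n - 1) := by
    rw [Prod.smul_mk, smul_zero, Prod.mk_add_mk, add_zero, ← mem_antidiagonal.1 hp, nsmul_eq_mul]
    push_cast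
    rw [pow_add]
    ring_nf
  rw [e] at h1
  exact h1

lemma wh_act {V : Type*} {w : V → (ℤ × ℤ) × ℤ} {g : Pt (PF V)} {τ : ℕ} {u : ℕ → PF V}
    {c : ℤ × ℤ} {k : ℤ}
    (hg : ∀ n, WH w (g.co n) (0, 2 ^ n - 1)) (hu : ∀ n, WH w (u n) (c, 2 ^ (n + τ) + k)) (n : ℕ) :
    WH w (act τ g u n) (c, 2 ^ (n + τ) + k) := by
  rw [act_apply]
  refine IsWeightedHomogeneous.sum _ _ _ fun p hp => ?_
  have h1 := ((hg p.1).pow (2 ^ (p.2 + τ))).mul (hu p.2)
  have e : 2 ^ (p.2 + τ) • ((0 : ℤ × ℤ), (2 : ℤ) ^ p.1 - 1) + (c, 2 ^ (p.2 + τ) + k) =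
      (c, 2 ^ (n + τ) + k) := by
    rw [Prod.smul_mk, smul_zero, Prod.mk_add_mk, zero_add, ← mem_antidiagonal.1 hp, nsmul_eq_mul]
    push_cast
    rw [pow_add, pow_add, pow_add]
    ring_nf
  rw [e] at h1
  exact h1

lemma face_gr (c : ι → ℤ × ℤ) (τ : ι → ℕ) (j : ℕ) :
    Gr (wt c τ) (wt c τ) id (face τ j).toLinearMap := by
  refine Gr.of_alg' fun v => ?_
  rcases v with v | v
  · have h : face τ j (X (Sum.inl v)) = (fg j gG v.1).co (v.2 + 1) := face_inl τ j v.1 v.2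
    rw [h]
    change WH _ _ (0, 2 ^ (v.2 + 1) - 1)
    cases j with
    | zero => exact wh_gG _ _ _ _
    | succ j =>
      simp only [fg]
      split_ifs
      · exact wh_gG _ _ _ _
      · exact wh_mulPt (wh_gG _ _ _) (wh_gG _ _ _) _
      · exact wh_gG _ _ _ _
  · rw [face_inr]
    change WH _ _ (c v.1, 2 ^ (v.2 + τ v.1))
    cases j with
    | zero =>
      have := wh_act (w := wt c τ) (k := 0) (wh_gG c τ 0) (fun n => by
        rw [add_zero]; exact wh_gW c τ v.1 n) v.2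
      rw [add_zero] at this
      exact this
    | succ j => exact wh_gW _ _ _ _

lemma dR_wh {c : ι → ℤ × ℤ} {τ : ι → ℕ} (n : ℕ) {F : RR ι} {m : (ℤ × ℤ) × ℤ}
    (hF : WH (wt c τ) F m) : WH (wt c τ) (dR τ n F) m := by
  rw [dR_apply]
  exact IsWeightedHomogeneous.sum _ _ _ fun j _ => (face_gr c τ j).map hF

lemma dR_cmp (c : ι → ℤ × ℤ) (τ : ι → ℕ) (n : ℕ) (m : (ℤ × ℤ) × ℤ) (F : RR ι) :
    cmp (wt c τ) m (dR τ n F) = dR τ n (cmp (wt c τ) m F) := by
  rw [dR_apply, dR_apply, map_sum]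
  exact Finset.sum_congr rfl fun j _ => (face_gr c τ j).cmp Function.injective_id m F

lemma prj_gr (c : ι → ℤ × ℤ) (τ : ι → ℕ) (n : ℕ) :
    Gr (wt c τ) (wt c τ) id (prj n).toLinearMap := by
  refine Gr.of_alg' fun v => ?_
  rcases v with v | v
  · by_cases h : v.1 < n
    · rw [prj_inl_lt h]; exact isWeightedHomogeneous_X _ _ _
    · rw [prj_inl_ge h]; exact isWeightedHomogeneous_zero _ _ _
  · rw [prj_inr]; exact isWeightedHomogeneous_X _ _ _

lemma cmp_lev (c : ι → ℤ × ℤ) (τ : ι → ℕ) {n : ℕ} (m : (ℤ × ℤ) × ℤ) {F : RR ι}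
    (hF : F ∈ lev ι n) : cmp (wt c τ) m F ∈ lev ι n := by
  cases n with
  | zero =>
    rw [mem_lev_zero] at hF ⊢
    rw [hF, map_zero]
  | succ n =>
    rw [mem_lev_succ] at hF ⊢
    have := (prj_gr c τ n).cmp Function.injective_id m F
    change cmp _ m (prj n F) = prj n _ at this
    rw [← this, hF]

/-- Exactness in cochain degree `p` and weight `m`. -/
def Ex (c : ι → ℤ × ℤ) (τ : ι → ℕ) (p : ℕ) (m : (ℤ × ℤ) × ℤ) : Prop :=
  ∀ F ∈ lev ι (p + 1), WH (wt c τ) F m → dR τ (p + 1) F = 0 →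
    ∃ G ∈ lev ι p, WH (wt c τ) G m ∧ dR τ p G = F

/-- Exactness without homogeneity of the bounding cochain. -/
lemma Ex.of {c : ι → ℤ × ℤ} {τ : ι → ℕ} {p : ℕ} {m : (ℤ × ℤ) × ℤ}
    (h : ∀ F ∈ lev ι (p + 1), WH (wt c τ) F m → dR τ (p + 1) F = 0 →
      ∃ G ∈ lev ι p, dR τ p G = F) : Ex c τ p m := by
  intro F hF hw hd
  obtain ⟨G, hG, e⟩ := h F hF hw hd
  refine ⟨cmp (wt c τ) m G, cmp_lev c τ m hG, cmp_wh _ _ _, ?_⟩
  rw [← dR_cmp, e, cmp_same hw]

end ring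

end Pool.Agent.Work.MP_701abf_gt.Stab
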