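import Pool.Agent.Work.MP_701abf_gt.Stab.Ring

/-!
The mixed complex: cochains of the tangent group with coefficients induced from the group.
-/

open MvPolynomial
open Finset.HasAntidiagonal (antidiagonal mem_antidiagonal)

namespace Pool.Agent.Work.MP_701abf_gt.Stab

section pointsQ

variable {S : Type*} [CommRing S]

/-- Face maps on the tangent coordinates. -/
def ft (j : ℕ) (g : ℕ → Pt S) (t : ℕ → ℕ → S) : ℕ → ℕ → S := match j with
  | 0 => fun a => t (a + 1)
  | j + 1 => fun a => if a < j then t a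
      else if a = j then (fun i => t (j + 1) i + act 1 (g (j + 1)) (t j) i) else t (a + 1)

/-- Face maps on the coefficients. -/
def fo {ι : Type*} (j : ℕ) (g : ℕ → Pt S) (t : ℕ → ℕ → S) (w : Option ι → ℕ → S) :
    Option ι → ℕ → S :=
  match j with
  | 0 => fun o => match o with
    | none => fun i => t 0 i + act 1 (g 0) (w none) i
    | some b => act 1 (g 0) (w (some b))
  | _ + 1 => w

/-- Homogeneous coordinates: tangent part. -/
def ht (y : ℕ → Pt S × (ℕ → S)) : ℕ → ℕ → S := fun a i =>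
  (y (a + 1)).2 i + act 1 (hg (fun a => (y a).1) a) (y a).2 i

/-- Homogeneous coordinates: coefficients. -/
def ho {ι : Type*} (y : ℕ → Pt S × (ℕ → S)) (w : ι → ℕ → S) : Option ι → ℕ → S := fun o =>
  match o with
  | none => (y 0).2
  | some b => act 1 (y 0).1 (w b)

variable [Algebra (ZMod 2) S]

omit [Algebra (ZMod 2) S] in
lemma act_add' (τ : ℕ) (g : Pt S) (v w : ℕ → S) (i : ℕ) :
    act τ g (fun i => v i + w i) i = act τ g v i + act τ g w i :=
  congrFun (act_add τ g v w) i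

omit [Algebra (ZMod 2) S] in
lemma sk_fst (j : ℕ) (y : ℕ → Pt S × (ℕ → S)) :
    sk j (fun a => (y a).1) = fun a => (sk j y a).1 := rfl

lemma hg_mul_hg (y : ℕ → Pt S × (ℕ → S)) (j : ℕ) :
    act 1 (hg (fun a => (y a).1) (j + 1)) (ht y j) =
      fun i => act 1 (hg (fun a => (y a).1) (j + 1)) (y (j + 1)).2 i +
        act 1 ((y (j + 2)).1 * ((y j).1)⁻¹) (y j).2 i := by
  funext i
  unfold ht
  rw [act_add', ← act_mul]
  congr 2
  simp only [hg]
  group

lemma ft_ht (j : ℕ) (y : ℕ → Pt S × (ℕ → S)) :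
    ft j (hg (fun a => (y a).1)) (ht y) = ht (sk j y) := by
  cases j with
  | zero =>
    funext a i
    simp [ft, ht, hg, sk, skp]
  | succ j =>
    funext a i
    rcases lt_trichotomy a j with h | h | h
    · simp only [ft, if_pos h, ht, hg, sk]
      rw [skp_lt (by omega), skp_lt (by omega)]
    · subst h
      simp only [ft, lt_irrefl, if_false, if_true]
      rw [hg_mul_hg]
      simp only [ht, hg, sk]
      rw [skp_ge (by omega), skp_lt (by omega)]
      have := add_self2 (act 1 ((y (a + 1 + 1)).1 * (y (a + 1)).1⁻¹) (y (a + 1)).2 i)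
      rw [add_assoc, ← add_assoc (act 1 ((y (a + 1 + 1)).1 * (y (a + 1)).1⁻¹) (y (a + 1)).2 i),
        this, zero_add]
    · simp only [ft, if_neg (show ¬ a < j by omega), if_neg (show ¬ a = j by omega), ht, hg, sk]
      rw [skp_ge (by omega), skp_ge (by omega)]

lemma fo_ho {ι : Type*} (j : ℕ) (y : ℕ → Pt S × (ℕ → S)) (w : ι → ℕ → S) :
    fo j (hg (fun a => (y a).1)) (ht y) (ho y w) = ho (sk j y) w := by
  cases j with
  | zero =>
    funext o
    cases o with
    | none =>
      funext i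
      simp only [fo, ht, ho, sk, skp]
      rw [add_add_self2]
      rfl
    | some b =>
      simp only [fo, ho, sk, skp, ← act_mul, hg]
      simp
  | succ j =>
    funext o
    cases o with
    | none => simp [fo, ho, sk, skp]
    | some b => simp [fo, ho, sk, skp]

/-- Duplicate the point number `i`, forgetting the tangent parts afterwards. -/
def dup (i : ℕ) (y : ℕ → Pt S × (ℕ → S)) : ℕ → Pt S × (ℕ → S) := fun r =>
  if r ≤ i then y r else ((y (r - 1)).1, fun _ => 0)

/-- Forget the tangent parts from `i` on. -/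
def fgt (i : ℕ) (y : ℕ → Pt S × (ℕ → S)) : ℕ → Pt S × (ℕ → S) := fun r =>
  if r < i then y r else ((y r).1, fun _ => 0)

omit [Algebra (ZMod 2) S] in
lemma sk_dup_lt {i j : ℕ} (h : j < i) (y : ℕ → Pt S × (ℕ → S)) :
    sk j (dup i y) = dup (i - 1) (sk j y) := by
  funext r
  simp only [sk, dup]
  by_cases hr : r < j
  · rw [skp_lt hr, if_pos (by omega), if_pos (by omega)]
  · rw [skp_ge (by omega)]
    by_cases hr2 : r + 1 ≤ i
    · rw [if_pos hr2, if_pos (by omega)]
    · rw [if_neg hr2, if_neg (by omega), skp_ge (by omega)]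
      have e : r + 1 - 1 = r - 1 + 1 := by omega
      rw [e]

omit [Algebra (ZMod 2) S] in
lemma sk_dup_self (i : ℕ) (y : ℕ → Pt S × (ℕ → S)) : sk i (dup i y) = fgt i y := by
  funext r
  simp only [sk, dup, fgt]
  by_cases hr : r < i
  · rw [skp_lt hr, if_pos (by omega), if_pos hr]
  · rw [skp_ge (by omega), if_neg (by omega), if_neg hr]
    rfl

omit [Algebra (ZMod 2) S] in
lemma sk_dup_succ (i : ℕ) (y : ℕ → Pt S × (ℕ → S)) : sk (i + 1) (dup i y) = fgt (i + 1) y := by
  funext r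
  simp only [sk, dup, fgt]
  by_cases hr : r < i + 1
  · rw [skp_lt hr, if_pos (by omega), if_pos hr]
  · rw [skp_ge (by omega), if_neg (by omega), if_neg hr]
    rfl

omit [Algebra (ZMod 2) S] in
lemma sk_dup_gt {i j : ℕ} (h : i + 1 < j) (y : ℕ → Pt S × (ℕ → S)) :
    sk j (dup i y) = dup i (sk (j - 1) y) := by
  funext r
  simp only [sk, dup]
  by_cases hr : r < j
  · rw [skp_lt hr]
    by_cases hr2 : r ≤ i
    · rw [if_pos hr2, if_pos hr2, skp_lt (by omega)]
    · rw [if_neg hr2, if_neg hr2, skp_lt (by omega)]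
  · rw [skp_ge (by omega), if_neg (by omega), if_neg (by omega), skp_ge (by omega)]
    have e : r + 1 - 1 = r - 1 + 1 := by omega
    rw [e]

omit [Algebra (ZMod 2) S] in
/-- The prism identity. -/
lemma prism {M : Type*} [AddCommGroup M] [Module (ZMod 2) M] (n : ℕ)
    (f : (ℕ → Pt S × (ℕ → S)) → M) (y : ℕ → Pt S × (ℕ → S)) :
    ∑ j ∈ Finset.range (n + 1), ∑ i ∈ Finset.range n, f (dup i (sk j y)) +
      ∑ i ∈ Finset.range (n + 1), ∑ j ∈ Finset.range (n + 2), f (sk j (dup i y)) =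
    f (fgt 0 y) + f (fgt (n + 1) y) := by
  induction n with
  | zero =>
    simp only [Finset.range_zero, Finset.sum_empty, Finset.sum_const_zero, zero_add,
      Finset.range_one, Finset.sum_singleton, Finset.sum_range_succ]
    rw [sk_dup_self, sk_dup_succ]
  | succ n ih =>
    have h1 : ∑ j ∈ Finset.range (n + 1 + 1), ∑ i ∈ Finset.range (n + 1), f (dup i (sk j y)) =
        ∑ j ∈ Finset.range (n + 1), ∑ i ∈ Finset.range n, f (dup i (sk j y)) +
        ∑ j ∈ Finset.range (n + 1), f (dup n (sk j y)) +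
        ∑ i ∈ Finset.range (n + 1), f (dup i (sk (n + 1) y)) := by
      rw [Finset.sum_range_succ]
      congr 1
      rw [← Finset.sum_add_distrib]
      exact Finset.sum_congr rfl fun j _ => Finset.sum_range_succ _ _
    have h2 : ∑ i ∈ Finset.range (n + 1 + 1), ∑ j ∈ Finset.range (n + 1 + 2),
        f (sk j (dup i y)) =
        ∑ i ∈ Finset.range (n + 1), ∑ j ∈ Finset.range (n + 2), f (sk j (dup i y)) +
        ∑ i ∈ Finset.range (n + 1), f (dup i (sk (n + 1) y)) +
        (∑ j ∈ Finset.range (n + 1), f (dup n (sk j y)) + f (fgt (n + 1) y) +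
          f (fgt (n + 2) y)) := by
      rw [Finset.sum_range_succ]
      congr 1
      · rw [← Finset.sum_add_distrib]
        refine Finset.sum_congr rfl fun i hi => ?_
        rw [Finset.sum_range_succ]
        congr 1
        have := Finset.mem_range.1 hi
        rw [sk_dup_gt (by omega)]
        rfl
      · rw [Finset.sum_range_succ, Finset.sum_range_succ, sk_dup_succ, sk_dup_self]
        congr 2
        refine Finset.sum_congr rfl fun j hj => ?_
        have := Finset.mem_range.1 hj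
        rw [sk_dup_lt (by omega)]
        rfl
    rw [h1, h2]
    set A := ∑ j ∈ Finset.range (n + 1), ∑ i ∈ Finset.range n, f (dup i (sk j y))
    set B := ∑ j ∈ Finset.range (n + 1), f (dup n (sk j y))
    set C' := ∑ i ∈ Finset.range (n + 1), f (dup i (sk (n + 1) y))
    set E := ∑ i ∈ Finset.range (n + 1), ∑ j ∈ Finset.range (n + 2), f (sk j (dup i y))
    have e1 := add_self2 B
    have e2 := add_self2 C'
    have e3 := add_self2 (f (fgt (n + 1) y))
    calc A + B + C' + (E + C' + (B + f (fgt (n + 1) y) + f (fgt (n + 2) y)))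
        = (A + E) + (B + B) + (C' + C') + f (fgt (n + 1) y) + f (fgt (n + 2) y) := by abel
      _ = f (fgt 0 y) + f (fgt (n + 1 + 1) y) := by
          rw [e1, e2, ih, add_zero, add_zero, add_assoc (f (fgt 0 y)), e3, add_zero]

/-- Recover the tangent parts. -/
def et (g : ℕ → Pt S) (t : ℕ → ℕ → S) (u : ℕ → S) : ℕ → ℕ → S
  | 0 => u
  | a + 1 => fun i => t a i + act 1 (g a) (et g t u a) i

lemma et_ht (y : ℕ → Pt S × (ℕ → S)) (a : ℕ) :
    et (hg (fun a => (y a).1)) (ht y) (y 0).2 a = (y a).2 := by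
  induction a with
  | zero => rfl
  | succ a ih =>
    funext i
    simp only [et, ih, ht]
    rw [add_add_self2]

/-- Duplication in inhomogeneous coordinates. -/
def dg (i : ℕ) (g : ℕ → Pt S) : ℕ → Pt S := fun a =>
  if a < i then g a else if a = i then 1 else g (a - 1)

/-- Duplication in inhomogeneous coordinates. -/
def dt (i : ℕ) (g : ℕ → Pt S) (t : ℕ → ℕ → S) (u : ℕ → S) : ℕ → ℕ → S := fun a =>
  if a < i then t a else if a = i then et g t u i else fun _ => 0

lemma dg_hg (i : ℕ) (y : ℕ → Pt S × (ℕ → S)) :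
    dg i (hg (fun a => (y a).1)) = hg (fun a => (dup i y a).1) := by
  funext a
  rcases lt_trichotomy a i with h | h | h
  · simp only [dg, if_pos h, hg, dup]
    rw [if_pos (by omega), if_pos (by omega)]
  · subst h
    simp only [dg, lt_irrefl, if_false, if_true, hg, dup]
    rw [if_neg (by omega), if_pos le_rfl]
    simp
  · simp only [dg, if_neg (show ¬ a < i by omega), if_neg (show ¬ a = i by omega), hg, dup]
    rw [if_neg (by omega), if_neg (by omega)]
    have e : a - 1 + 1 = a := by omega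
    rw [e]
    rfl

lemma dt_ht (i : ℕ) (y : ℕ → Pt S × (ℕ → S)) :
    dt i (hg (fun a => (y a).1)) (ht y) (y 0).2 = ht (dup i y) := by
  funext a
  have hd := fun a => (congrFun (dg_hg i y) a).symm
  rcases lt_trichotomy a i with h | h | h
  · funext k
    simp only [dt, if_pos h, ht]
    rw [hd]
    simp only [dg, if_pos h, dup]
    rw [if_pos (by omega), if_pos (by omega)]
  · subst h
    simp only [dt, lt_irrefl, if_false, if_true]
    rw [et_ht]
    funext k
    simp only [ht]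
    rw [hd]
    simp only [dg, lt_irrefl, if_false, if_true]
    rw [act_one]
    simp only [dup]
    rw [if_neg (by omega), if_pos le_rfl, zero_add]
  · simp only [dt, if_neg (show ¬ a < i by omega), if_neg (show ¬ a = i by omega)]
    funext k
    simp only [ht]
    have e1 : (dup i y (a + 1)).2 = fun _ => 0 := by
      simp only [dup]; rw [if_neg (by omega)]
    have e2 : (dup i y a).2 = fun _ => 0 := by
      simp only [dup]; rw [if_neg (by omega)]
    rw [e1, e2, act_zero', add_zero]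

omit [Algebra (ZMod 2) S] in
lemma ho_dup {ι : Type*} (i : ℕ) (y : ℕ → Pt S × (ℕ → S)) (w : ι → ℕ → S) :
    ho (dup i y) w = ho y w := by
  funext o
  cases o <;> simp [ho, dup]

end pointsQ

section ringQ

variable (ι : Type*)

/-- The mixed ring. -/
abbrev RQ : Type _ := PF ((ℕ × ℕ) ⊕ ((ℕ × ℕ) ⊕ (Option ι × ℕ)))

variable {ι}
variable {S : Type*} [CommRing S] [Algebra (ZMod 2) S]
variable {S' : Type*} [CommRing S'] [Algebra (ZMod 2) S']

/-- Evaluation at a point. -/
noncomputable def evQ (g : ℕ → Pt S) (t : ℕ → ℕ → S) (w : Option ι → ℕ → S) :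
    RQ ι →ₐ[ZMod 2] S :=
  aeval (Sum.elim (fun v => (g v.1).co (v.2 + 1))
    (Sum.elim (fun v => t v.1 v.2) (fun v => w v.1 v.2)))

@[simp] lemma evQ_g (g : ℕ → Pt S) (t : ℕ → ℕ → S) (w : Option ι → ℕ → S) (v : ℕ × ℕ) :
    evQ g t w (X (Sum.inl v)) = (g v.1).co (v.2 + 1) := by
  unfold evQ; rw [aeval_X]; rfl

@[simp] lemma evQ_t (g : ℕ → Pt S) (t : ℕ → ℕ → S) (w : Option ι → ℕ → S) (v : ℕ × ℕ) :
    evQ g t w (X (Sum.inr (Sum.inl v))) = t v.1 v.2 := by
  unfold evQ; rw [aeval_X]; rfl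

@[simp] lemma evQ_w (g : ℕ → Pt S) (t : ℕ → ℕ → S) (w : Option ι → ℕ → S) (v : Option ι × ℕ) :
    evQ g t w (X (Sum.inr (Sum.inr v))) = w v.1 v.2 := by
  unfold evQ; rw [aeval_X]; rfl

/-- The generic group coordinates. -/
noncomputable def gQ : ℕ → Pt (RQ ι) := fun a =>
  { co := fun n => match n with
      | 0 => 1
      | n + 1 => X (Sum.inl (a, n))
    co_zero := rfl }

/-- The generic tangent coordinates. -/
noncomputable def tQ : ℕ → ℕ → RQ ι := fun a i => X (Sum.inr (Sum.inl (a, i)))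

/-- The generic coefficients. -/
noncomputable def wQ : Option ι → ℕ → RQ ι := fun o i => X (Sum.inr (Sum.inr (o, i)))

lemma gQ_succ (a n : ℕ) : (gQ (ι := ι) a).co (n + 1) = X (Sum.inl (a, n)) := rfl

lemma mapPt_evQ (g : ℕ → Pt S) (t : ℕ → ℕ → S) (w : Option ι → ℕ → S) (a : ℕ) :
    mapPt (evQ g t w) (gQ a) = g a :=
  Pt_ext' fun n => by rw [mapPt_co, gQ_succ, evQ_g]

lemma evQ_tQ (g : ℕ → Pt S) (t : ℕ → ℕ → S) (w : Option ι → ℕ → S) (a i : ℕ) :
    evQ g t w (tQ a i) = t a i := evQ_t g t w (a, i)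

lemma evQ_wQ (g : ℕ → Pt S) (t : ℕ → ℕ → S) (w : Option ι → ℕ → S) (o : Option ι) (i : ℕ) :
    evQ g t w (wQ o i) = w o i := evQ_w g t w (o, i)

lemma homQ_ev (φ : RQ ι →ₐ[ZMod 2] S) :
    φ = evQ (fun a => mapPt φ (gQ a)) (fun a i => φ (tQ a i)) (fun b i => φ (wQ b i)) := by
  refine algHom_ext fun v => ?_
  rcases v with v | v | v
  · rw [evQ_g, mapPt_co]; rfl
  · rw [evQ_t]; rfl
  · rw [evQ_w]; rfl

lemma homQ_eq {φ ψ : RQ ι →ₐ[ZMod 2] S} (h1 : ∀ a, mapPt φ (gQ a) = mapPt ψ (gQ a))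
    (h2 : ∀ a i, φ (tQ a i) = ψ (tQ a i)) (h3 : ∀ b i, φ (wQ b i) = ψ (wQ b i)) : φ = ψ := by
  rw [homQ_ev φ, homQ_ev ψ]
  simp only [h1, h2, h3]

lemma comp_evQ (φ : S →ₐ[ZMod 2] S') (g : ℕ → Pt S) (t : ℕ → ℕ → S) (w : Option ι → ℕ → S) :
    φ.comp (evQ g t w) =
      evQ (fun a => mapPt φ (g a)) (fun a i => φ (t a i)) (fun b i => φ (w b i)) := by
  refine algHom_ext fun v => ?_
  rcases v with v | v | v
  · rw [AlgHom.comp_apply, evQ_g, evQ_g, mapPt_co]
  · rw [AlgHom.comp_apply, evQ_t, evQ_t]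
  · rw [AlgHom.comp_apply, evQ_w, evQ_w]

/-- The face maps. -/
noncomputable def faceQ (j : ℕ) : RQ ι →ₐ[ZMod 2] RQ ι :=
  evQ (fg j gQ) (ft j gQ tQ) (fo j gQ tQ wQ)

lemma map_ft (φ : S →ₐ[ZMod 2] S') (j : ℕ) (g : ℕ → Pt S) (t : ℕ → ℕ → S) (a i : ℕ) :
    φ (ft j g t a i) = ft j (fun a => mapPt φ (g a)) (fun a i => φ (t a i)) a i := by
  cases j with
  | zero => rfl
  | succ j =>
    simp only [ft]
    split_ifs
    · rfl
    · rw [map_add, map_act]
    · rfl

lemma map_fo (φ : S →ₐ[ZMod 2] S') (j : ℕ) (g : ℕ → Pt S) (t : ℕ → ℕ → S)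
    (w : Option ι → ℕ → S) (o : Option ι) (i : ℕ) :
    φ (fo j g t w o i) =
      fo j (fun a => mapPt φ (g a)) (fun a i => φ (t a i)) (fun b i => φ (w b i)) o i := by
  cases j with
  | zero =>
    cases o with
    | none => simp only [fo]; rw [map_add, map_act]
    | some b => simp only [fo]; rw [map_act]
  | succ j => rfl

lemma evQ_face (j : ℕ) (g : ℕ → Pt S) (t : ℕ → ℕ → S) (w : Option ι → ℕ → S) :
    (evQ g t w).comp (faceQ j) = evQ (fg j g) (ft j g t) (fo j g t w) := by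
  unfold faceQ
  rw [comp_evQ]
  congr 1
  · funext a
    rw [mapPt_fg]
    simp only [mapPt_evQ]
  · funext a i
    rw [map_ft]
    simp only [mapPt_evQ, evQ_tQ]
  · funext b i
    rw [map_fo]
    simp only [mapPt_evQ, evQ_tQ, evQ_wQ]

lemma evQ_face_apply (j : ℕ) (g : ℕ → Pt S) (t : ℕ → ℕ → S) (w : Option ι → ℕ → S)
    (F : RQ ι) : evQ g t w (faceQ j F) = evQ (fg j g) (ft j g t) (fo j g t w) F :=
  congrArg (fun φ => φ F) (evQ_face j g t w)

/-- The value of a cochain at homogeneous coordinates. -/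
noncomputable def valQ (F : RQ ι) (w : ι → ℕ → S) (y : ℕ → Pt S × (ℕ → S)) : S :=
  evQ (hg (fun a => (y a).1)) (ht y) (ho y w) F

lemma valQ_face (j : ℕ) (F : RQ ι) (w : ι → ℕ → S) (y : ℕ → Pt S × (ℕ → S)) :
    valQ (faceQ j F) w y = valQ F w (sk j y) := by
  unfold valQ
  rw [evQ_face_apply, fg_hg, ft_ht, fo_ho, sk_fst]

/-- The generic sequence of points. -/
noncomputable def gy : ℕ → Pt (RQ ι) × (ℕ → RQ ι)
  | 0 => (1, wQ none)
  | a + 1 => (gQ a * (gy a).1, fun i => tQ a i + act 1 (gQ a) (gy a).2 i)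

lemma hg_gy : hg (fun a => (gy (ι := ι) a).1) = gQ := by
  funext a
  change gQ a * (gy a).1 * ((gy a).1)⁻¹ = gQ a
  group

lemma ht_gy : ht (gy (ι := ι)) = tQ := by
  funext a i
  unfold ht
  rw [hg_gy]
  change tQ a i + act 1 (gQ a) (gy a).2 i + _ = _
  rw [add_add_self2]

lemma ho_gy : ho (gy (ι := ι)) (fun b => wQ (some b)) = wQ := by
  funext o
  cases o with
  | none => rfl
  | some b => exact act_one _ _

lemma evQ_generic : evQ gQ tQ wQ = AlgHom.id (ZMod 2) (RQ ι) := by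
  refine algHom_ext fun v => ?_
  rcases v with v | v | v
  · rw [evQ_g]; rfl
  · rw [evQ_t]; rfl
  · rw [evQ_w]; rfl

lemma valQ_generic (F : RQ ι) : valQ F (fun b => wQ (some b)) gy = F := by
  unfold valQ
  rw [hg_gy, ht_gy, ho_gy, evQ_generic]
  rfl

lemma valQ_ext {F G : RQ ι}
    (h : ∀ (w : ι → ℕ → RQ ι) y, valQ F w y = valQ G w y) : F = G := by
  rw [← valQ_generic F, h, valQ_generic]

/-- The differential; the index is the cochain degree plus one. -/
noncomputable def dQ (n : ℕ) : RQ ι →ₗ[ZMod 2] RQ ι :=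
  ∑ j ∈ Finset.range (n + 1), (faceQ j).toLinearMap

lemma dQ_apply (n : ℕ) (F : RQ ι) :
    dQ n F = ∑ j ∈ Finset.range (n + 1), faceQ j F := by
  unfold dQ
  rw [LinearMap.sum_apply]; rfl

lemma valQ_sum {α : Type*} (s : Finset α) (f : α → RQ ι) (w : ι → ℕ → S)
    (y : ℕ → Pt S × (ℕ → S)) : valQ (∑ a ∈ s, f a) w y = ∑ a ∈ s, valQ (f a) w y := by
  unfold valQ; rw [map_sum]

lemma valQ_dQ (n : ℕ) (F : RQ ι) (w : ι → ℕ → S) (y : ℕ → Pt S × (ℕ → S)) :
    valQ (dQ n F) w y = ∑ j ∈ Finset.range (n + 1), valQ F w (sk j y) := by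
  rw [dQ_apply, valQ_sum]
  exact Finset.sum_congr rfl fun j _ => valQ_face j F w y

lemma dQ_dQ (n : ℕ) (F : RQ ι) : dQ (n + 2) (dQ (n + 1) F) = 0 := by
  refine valQ_ext fun w y => ?_
  have h0 : valQ (0 : RQ ι) w y = 0 := by unfold valQ; rw [map_zero]
  rw [h0]
  have h1 : valQ (dQ (n + 2) (dQ (n + 1) F)) w y = dd (n + 1) (dd n (valQ F w)) y := by
    rw [valQ_dQ]
    refine Finset.sum_congr rfl fun j _ => ?_
    rw [valQ_dQ]
    rfl
  rw [h1]
  exact dd_dd n _ y

/-- Duplication. -/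
noncomputable def dupQ (i : ℕ) : RQ ι →ₐ[ZMod 2] RQ ι :=
  evQ (dg i gQ) (dt i gQ tQ (wQ none)) wQ

lemma map_et (φ : S →ₐ[ZMod 2] S') (g : ℕ → Pt S) (t : ℕ → ℕ → S) (u : ℕ → S) (a i : ℕ) :
    φ (et g t u a i) = et (fun a => mapPt φ (g a)) (fun a i => φ (t a i)) (fun i => φ (u i)) a i := by
  induction a generalizing i with
  | zero => rfl
  | succ a ih =>
    simp only [et]
    rw [map_add, map_act]
    simp only [ih]

lemma mapPt_one (φ : S →ₐ[ZMod 2] S') : mapPt φ 1 = 1 := by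
  ext n
  rw [mapPt_co]
  by_cases h : n = 0
  · subst h; rw [Pt.co_zero, Pt.co_zero, map_one]
  · rw [Pt.co_one_ne h, Pt.co_one_ne h, map_zero]

lemma evQ_dup (i : ℕ) (g : ℕ → Pt S) (t : ℕ → ℕ → S) (w : Option ι → ℕ → S) :
    (evQ g t w).comp (dupQ i) = evQ (dg i g) (dt i g t (w none)) w := by
  unfold dupQ
  rw [comp_evQ]
  congr 1
  · funext a
    simp only [dg]
    split_ifs
    · exact mapPt_evQ _ _ _ _
    · exact mapPt_one _
    · exact mapPt_evQ _ _ _ _
  · funext a k
    simp only [dt]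
    split_ifs
    · exact evQ_tQ _ _ _ _ _
    · rw [map_et]
      simp only [mapPt_evQ, evQ_tQ, evQ_wQ]
    · exact map_zero _
  · funext b k
    exact evQ_wQ _ _ _ _ _

lemma valQ_dup (i : ℕ) (F : RQ ι) (w : ι → ℕ → S) (y : ℕ → Pt S × (ℕ → S)) :
    valQ (dupQ i F) w y = valQ F w (dup i y) := by
  unfold valQ
  have := congrArg (fun φ => φ F) (evQ_dup i (hg (fun a => (y a).1)) (ht y) (ho y w))
  change evQ (hg (fun a => (y a).1)) (ht y) (ho y w) (dupQ i F) = _ at this
  rw [this, dg_hg, ho_dup]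
  change evQ _ (dt i _ _ (y 0).2) _ F = _
  rw [dt_ht]

/-- The contraction. -/
noncomputable def sig (n : ℕ) : RQ ι →ₗ[ZMod 2] RQ ι :=
  ∑ i ∈ Finset.range n, (dupQ i).toLinearMap

lemma sig_apply (n : ℕ) (F : RQ ι) : sig n F = ∑ i ∈ Finset.range n, dupQ i F := by
  unfold sig
  rw [LinearMap.sum_apply]; rfl

lemma valQ_sig (n : ℕ) (F : RQ ι) (w : ι → ℕ → S) (y : ℕ → Pt S × (ℕ → S)) :
    valQ (sig n F) w y = ∑ i ∈ Finset.range n, valQ F w (dup i y) := by
  rw [sig_apply, valQ_sum]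
  exact Finset.sum_congr rfl fun j _ => valQ_dup j F w y

/-- Forget the tangent coordinates. -/
noncomputable def rho : RQ ι →ₐ[ZMod 2] RQ ι :=
  evQ gQ (fun _ _ => 0) (fun o => match o with
    | none => fun _ => 0
    | some b => wQ (some b))

lemma valQ_rho {F : RQ ι} (h : rho F = 0) (w : ι → ℕ → S) (y : ℕ → Pt S × (ℕ → S)) :
    valQ F w (fgt 0 y) = 0 := by
  have : evQ (ι := ι) (hg fun a => (y a).1) (ht (fgt 0 y)) (ho (fgt 0 y) w) =
      (evQ (hg fun a => (y a).1) (ht y) (ho y w)).comp rho := by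
    unfold rho
    rw [comp_evQ]
    congr 1
    · funext a
      rw [mapPt_evQ]
    · funext a i
      simp only [ht]
      have e : ∀ a, (fgt 0 y a).2 = fun _ => 0 := fun a => by
        simp only [fgt]; rw [if_neg (by omega)]
      rw [e, e, act_zero', add_zero, map_zero]
    · funext o i
      cases o with
      | none => simp [ho, fgt]
      | some b =>
        simp only [ho, evQ_wQ, fgt]
        rw [if_neg (by omega)]
  unfold valQ
  have e2 : (fun a => (fgt 0 y a).1) = fun a => (y a).1 := by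
    funext a
    simp [fgt]
  rw [e2, this, AlgHom.comp_apply, h, map_zero]

/-- Kill the coordinates from slot `n` on. -/
noncomputable def prjQ (n : ℕ) : RQ ι →ₐ[ZMod 2] RQ ι :=
  evQ (fun a => if a < n then gQ a else 1) (fun a i => if a < n then tQ a i else 0) wQ

/-- Cochains of degree `n - 1`: nothing for `n = 0`. -/
noncomputable def levQ (ι : Type*) : ℕ → Submodule (ZMod 2) (RQ ι)
  | 0 => ⊥
  | n + 1 => LinearMap.ker ((prjQ n).toLinearMap - LinearMap.id)

lemma mem_levQ_zero {F : RQ ι} : F ∈ levQ ι 0 ↔ F = 0 := Iff.rfl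

lemma mem_levQ_succ {n : ℕ} {F : RQ ι} : F ∈ levQ ι (n + 1) ↔ prjQ n F = F := by
  change F ∈ LinearMap.ker _ ↔ _
  rw [LinearMap.mem_ker, LinearMap.sub_apply, sub_eq_zero]
  rfl

lemma evQ_prj {n : ℕ} {g g' : ℕ → Pt S} {t t' : ℕ → ℕ → S} {w : Option ι → ℕ → S}
    (h : ∀ a < n, g a = g' a) (h' : ∀ a < n, t a = t' a) {F : RQ ι} (hF : F ∈ levQ ι (n + 1)) :
    evQ g t w F = evQ g' t' w F := by
  have : (evQ g t w).comp (prjQ n) = (evQ g' t' w).comp (prjQ n) := by
    unfold prjQ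
    rw [comp_evQ, comp_evQ]
    congr 1
    · funext a
      by_cases ha : a < n
      · simp only [if_pos ha, mapPt_evQ, h a ha]
      · simp only [if_neg ha, mapPt_one]
    · funext a i
      by_cases ha : a < n
      · simp only [if_pos ha, evQ_tQ, h' a ha]
      · simp only [if_neg ha, map_zero]
    · funext b i
      rw [evQ_wQ, evQ_wQ]
  rw [← mem_levQ_succ.1 hF]
  exact congrArg (fun φ => φ F) this

lemma levQ_of {n m : ℕ} {G : ℕ → Pt (RQ ι)} {T : ℕ → ℕ → RQ ι} {W : Option ι → ℕ → RQ ι}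
    (h1 : ∀ a < n, mapPt (prjQ m) (G a) = G a) (h2 : ∀ a < n, ∀ i, prjQ m (T a i) = T a i)
    (h3 : ∀ o i, prjQ m (W o i) = W o i) {F : RQ ι} (hF : F ∈ levQ ι (n + 1)) :
    evQ G T W F ∈ levQ ι (m + 1) := by
  rw [mem_levQ_succ]
  have h2' : ∀ a < n, (fun i => prjQ m (T a i)) = T a := by
    intro a ha
    funext i
    exact h2 a ha i
  have key := evQ_prj (g := fun a => mapPt (prjQ m) (G a)) (g' := G)
    (t := fun a i => prjQ m (T a i)) (t' := T) (w := W) h1 h2' hF
  have h := congrArg (fun φ => φ F) (comp_evQ (prjQ m) G T W)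
  have h3' : (fun b i => prjQ m (W b i)) = W := by
    funext o i
    exact h3 o i
  rw [h3'] at h
  exact h.trans key

lemma prjQ_gQ {n a : ℕ} (h : a < n) : mapPt (prjQ (ι := ι) n) (gQ a) = gQ a := by
  unfold prjQ
  rw [mapPt_evQ, if_pos h]

lemma prjQ_gQ_ge {n a : ℕ} (h : ¬ a < n) : mapPt (prjQ (ι := ι) n) (gQ a) = 1 := by
  unfold prjQ
  rw [mapPt_evQ, if_neg h]

lemma prjQ_tQ {n a : ℕ} (h : a < n) (i : ℕ) : prjQ (ι := ι) n (tQ a i) = tQ a i := by
  unfold prjQ
  rw [evQ_tQ, if_pos h]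

lemma prjQ_tQ_ge {n a : ℕ} (h : ¬ a < n) (i : ℕ) : prjQ (ι := ι) n (tQ a i) = 0 := by
  unfold prjQ
  rw [evQ_tQ, if_neg h]

lemma prjQ_wQ (n : ℕ) (o : Option ι) (i : ℕ) : prjQ n (wQ o i) = wQ o i := by
  unfold prjQ
  rw [evQ_wQ]

lemma prjQ_prjQ (n : ℕ) (F : RQ ι) : prjQ n (prjQ n F) = prjQ n F := by
  have : (prjQ (ι := ι) n).comp (prjQ n) = prjQ n := by
    conv_lhs => rw [prjQ]
    rw [comp_evQ, prjQ]
    congr 1
    · funext a
      rw [← prjQ]
      by_cases ha : a < n
      · rw [if_pos ha, prjQ_gQ ha]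
      · rw [if_neg ha, mapPt_one]
    · funext a i
      rw [← prjQ]
      by_cases ha : a < n
      · rw [if_pos ha, prjQ_tQ ha]
      · rw [if_neg ha, map_zero]
    · funext o i
      rw [← prjQ, prjQ_wQ]
  exact congrArg (fun φ => φ F) this

lemma prjQ_mem (n : ℕ) (F : RQ ι) : prjQ n F ∈ levQ ι (n + 1) :=
  mem_levQ_succ.2 (prjQ_prjQ n F)

lemma faceQ_lev (j : ℕ) {n : ℕ} {F : RQ ι} (hF : F ∈ levQ ι n) :
    faceQ j F ∈ levQ ι (n + 1) := by
  cases n with
  | zero =>
    rw [mem_levQ_zero] at hF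
    rw [hF, map_zero]; exact Submodule.zero_mem _
  | succ n =>
    refine levQ_of ?_ ?_ ?_ hF
    · intro a ha
      rw [mapPt_fg]
      cases j with
      | zero => simp only [fg]; rw [prjQ_gQ (by omega)]
      | succ j =>
        simp only [fg]
        split_ifs
        · rw [prjQ_gQ (by omega)]
        · rw [prjQ_gQ (by omega), prjQ_gQ (by omega)]
        · rw [prjQ_gQ (by omega)]
    · intro a ha i
      rw [map_ft]
      cases j with
      | zero => simp only [ft]; rw [prjQ_tQ (by omega)]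
      | succ j =>
        simp only [ft]
        split_ifs
        · exact prjQ_tQ (n := n + 1) (a := a) (by omega) i
        · have e1 : (fun i => prjQ (ι := ι) (n + 1) (tQ j i)) = tQ j := by
            funext i
            exact prjQ_tQ (n := n + 1) (a := j) (by omega) i
          have e2 := prjQ_gQ (ι := ι) (n := n + 1) (a := j + 1) (by omega)
          have e3 := prjQ_tQ (ι := ι) (n := n + 1) (a := j + 1) (by omega) i
          rw [e1, e2]
          change prjQ (ι := ι) (n + 1) (tQ (j + 1) i) + act 1 (gQ (j + 1)) (tQ j) i = _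
          rw [e3]
        · exact prjQ_tQ (n := n + 1) (a := a + 1) (by omega) i
    · intro o i
      rw [map_fo]
      cases j with
      | zero =>
        cases o with
        | none =>
          simp only [fo]
          rw [prjQ_tQ (by omega), prjQ_gQ (by omega)]
          simp only [prjQ_wQ]
        | some b =>
          simp only [fo]
          rw [prjQ_gQ (by omega)]
          simp only [prjQ_wQ]
      | succ j => simp only [fo, prjQ_wQ]

lemma dQ_lev {n : ℕ} {F : RQ ι} (hF : F ∈ levQ ι n) : dQ n F ∈ levQ ι (n + 1) := by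
  rw [dQ_apply]
  exact Submodule.sum_mem _ fun j _ => faceQ_lev j hF

lemma dQ_dQ' {n : ℕ} {F : RQ ι} (hF : F ∈ levQ ι n) : dQ (n + 1) (dQ n F) = 0 := by
  cases n with
  | zero =>
    rw [mem_levQ_zero] at hF
    rw [hF, map_zero, map_zero]
  | succ n => exact dQ_dQ n F

lemma prjQ_et {n a : ℕ} (h : a ≤ n) (i : ℕ) :
    prjQ (ι := ι) n (et gQ tQ (wQ none) a i) = et gQ tQ (wQ none) a i := by
  induction a generalizing i with
  | zero => exact prjQ_wQ _ _ _
  | succ a ih =>
    simp only [et]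
    rw [map_add, map_act, prjQ_tQ (by omega), prjQ_gQ (by omega)]
    congr 2
    funext i
    exact ih (by omega) i

lemma dupQ_lev {i n : ℕ} (hi : i ≤ n) {F : RQ ι} (hF : F ∈ levQ ι (n + 2)) :
    dupQ i F ∈ levQ ι (n + 1) := by
  refine levQ_of (n := n + 1) ?_ ?_ ?_ hF
  · intro a ha
    simp only [dg]
    split_ifs
    · rw [prjQ_gQ (by omega)]
    · exact mapPt_one _
    · rw [prjQ_gQ (by omega)]
  · intro a ha k
    simp only [dt]
    split_ifs
    · rw [prjQ_tQ (by omega)]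
    · exact prjQ_et hi k
    · exact map_zero _
  · intro o k
    exact prjQ_wQ _ _ _

lemma sig_lev {n : ℕ} {F : RQ ι} (hF : F ∈ levQ ι (n + 1)) : sig n F ∈ levQ ι n := by
  cases n with
  | zero =>
    rw [sig_apply]
    simp
  | succ n =>
    rw [sig_apply]
    refine Submodule.sum_mem _ fun i hi => dupQ_lev ?_ hF
    have := Finset.mem_range.1 hi
    omega

lemma valQ_fgt {n : ℕ} {F : RQ ι} (hF : F ∈ levQ ι (n + 1)) (w : ι → ℕ → S)
    (y : ℕ → Pt S × (ℕ → S)) : valQ F w (fgt (n + 1) y) = valQ F w y := by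
  unfold valQ
  have h3 : ho (fgt (n + 1) y) w = ho y w := by
    funext o
    cases o <;> simp [ho, fgt]
  rw [h3]
  refine evQ_prj ?_ ?_ hF
  · intro a ha
    simp only [hg, fgt]
    rw [if_pos (by omega), if_pos (by omega)]
  · intro a ha
    funext i
    simp only [ht, hg, fgt]
    rw [if_pos (by omega), if_pos (by omega)]

/-- The homotopy formula. -/
lemma sig_dQ {n : ℕ} {F : RQ ι} (hF : F ∈ levQ ι (n + 1)) (h : rho F = 0) :
    dQ n (sig n F) + sig (n + 1) (dQ (n + 1) F) = F := by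
  refine valQ_ext fun w y => ?_
  have hadd : ∀ A B : RQ ι, valQ (A + B) w y = valQ A w y + valQ B w y := by
    intro A B
    unfold valQ
    rw [map_add]
  have h1 := prism n (valQ F w) y
  rw [valQ_rho h, valQ_fgt hF, zero_add] at h1
  rw [hadd, valQ_dQ, valQ_sig]
  rw [← h1]
  congr 1
  · refine Finset.sum_congr rfl fun j _ => ?_
    rw [valQ_sig]
  · refine Finset.sum_congr rfl fun i _ => ?_
    rw [valQ_dQ]

end ringQ

end Pool.Agent.Work.MP_701abf_gt.Stab
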