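import Pool.Agent.Work.MP_701abf_gt.Stab.Pol

/-!
The vanishing theorem.
-/

open MvPolynomial

namespace Pool.Agent.Work.MP_701abf_gt.Stab

section ev

/-- `P N` for all integers `N` divisible by a large power of two. -/
def Ev (P : ℤ → Prop) : Prop := ∃ J : ℕ, ∀ N : ℤ, (2 : ℤ) ^ J ∣ N → P N

lemma Ev.mono {P Q : ℤ → Prop} (hP : Ev P) (h : ∀ N, P N → Q N) : Ev Q := by
  obtain ⟨J, hJ⟩ := hP
  exact ⟨J, fun N hN => h N (hJ N hN)⟩

lemma Ev.and {P Q : ℤ → Prop} (hP : Ev P) (hQ : Ev Q) : Ev (fun N => P N ∧ Q N) := by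
  obtain ⟨J, hJ⟩ := hP
  obtain ⟨K, hK⟩ := hQ
  exact ⟨max J K, fun N hN => ⟨hJ N ((pow_dvd_pow 2 (le_max_left J K)).trans hN),
    hK N ((pow_dvd_pow 2 (le_max_right J K)).trans hN)⟩⟩

lemma Ev.all {P : ℤ → Prop} (h : ∀ N, P N) : Ev P := ⟨0, fun N _ => h N⟩

lemma Ev.lt {P : ℕ → ℤ → Prop} (n : ℕ) (h : ∀ k < n, Ev (P k)) :
    Ev (fun N => ∀ k < n, P k N) := by
  induction n with
  | zero => exact Ev.all fun N k hk => by omega
  | succ n ih =>
    refine ((ih fun k hk => h k (by omega)).and (h n (by omega))).mono fun N hN k hk => ?_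
    rcases Nat.lt_succ_iff_lt_or_eq.1 hk with h1 | h1
    · exact hN.1 k h1
    · rw [h1]; exact hN.2

lemma Ev.half {P : ℤ → Prop} (h : Ev P) : Ev (fun N => ∃ N', 2 * N' = N ∧ P N') := by
  obtain ⟨J, hJ⟩ := h
  refine ⟨J + 1, fun N hN => ?_⟩
  obtain ⟨c, hc⟩ := hN
  refine ⟨2 ^ J * c, ?_, hJ _ (dvd_mul_right _ _)⟩
  rw [hc, pow_succ]
  ring

lemma Ev.uniq {A : ℤ} {P : ℤ → ℤ → Prop} (h : ∀ e', 2 * e' = A → Ev (P e')) :
    Ev (fun N => ∀ e', 2 * e' = A → P e' N) := by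
  by_cases hA : ∃ e', 2 * e' = A
  · obtain ⟨e0, h0⟩ := hA
    refine (h e0 h0).mono fun N hN e' he' => ?_
    have : e' = e0 := by omega
    rw [this]
    exact hN
  · exact Ev.all fun N e' he' => absurd ⟨e', he'⟩ hA

end ev

section optzero

variable {ι : Type*}

lemma opt_zero {k m' : ℤ} {n : ℕ} (h : ExT ι (fun _ => 0) n k m') :
    (cx (cO (ι := ι)) (fun _ => 0) ((k, 0), m')).Exact n := by
  intro F hF hd
  rw [cx_d] at hd
  obtain ⟨G, hG, e⟩ := h (rO F) ⟨rO_lev hF.1, rO_gr.map hF.2⟩ (by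
    rw [cx_d, rO_d, hd, map_zero])
  rw [cx_d] at e
  refine ⟨jO G, ⟨jO_lev hG.1, jO_gr.map hG.2⟩, ?_⟩
  rw [cx_d, jO_d, e, jO_rO hF.2]

lemma exC_zero {k m : ℤ} {n : ℕ} (h : ∀ m', 2 * m' = m → ExT ι (fun _ => 0) n k m') :
    (hs ι k m).ExC 0 n := by
  intro y hy hd
  by_cases hm : ∃ m', 2 * m' = m
  · obtain ⟨m', hm⟩ := hm
    have e : fT ((k, 0), m') = ((k, 0), m) := by
      rw [fT_apply]
      simp only
      rw [hm, sub_zero]
    obtain ⟨z, hz, ez⟩ := opt_zero (h m' hm) y ⟨hy.1, (wtT_iff e).1 hy.2⟩ hd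
    exact ⟨z, ⟨hz.1, (wtT_iff e).2 hz.2⟩, ez⟩
  · have hy0 : y = 0 := by
      refine wtT_none (fun m' hm' => hm ⟨m'.2, ?_⟩) hy.2
      rw [fT_apply, Prod.mk.injEq] at hm'
      obtain ⟨h1, h2⟩ := hm'
      rw [h1] at h2
      simp only at h2
      omega
    refine ⟨0, Submodule.zero_mem _, ?_⟩
    rw [map_zero, hy0]

/-- The recursion. -/
theorem exact_rec' {k m : ℤ} {p : ℕ} (h0 : ∀ m', 2 * m' = m → ExT ι (fun _ => 0) p k m')
    (h : ∀ q : ℕ, 1 ≤ q → q ≤ p → ∀ m', 2 * m' - (q : ℤ) = m →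
      ExT (Option ι) (fun _ => 0) (p - q) (k + q) m') :
    ExT ι (fun _ => 1) p k m := by
  intro F hF hd
  rw [cx_d] at hd
  obtain ⟨E, hE, e⟩ := (hs ι k m).vanish p (fun i hi => by
      rcases Nat.eq_zero_or_pos i with h1 | h1
      · subst h1
        exact exC_zero h0
      · exact exC_of (h i h1 hi)) (EQ F)
    ⟨EQ_lev hF.1, EQ_gr.map hF.2⟩ (by
      change dQ (p + 1) (EQ F) = 0
      rw [EQ_d, hd, map_zero])
  have e' : dQ p E = EQ F := e
  refine ⟨EQ' E, ⟨EQ'_lev hE.1, EQ'_gr.map hE.2⟩, ?_⟩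
  rw [cx_d, EQ'_d, e', EQ'_EQ]

end optzero

section van

/-- The vanishing statement in cochain degree `p`. -/
def VP (p : ℕ) : Prop :=
  ∀ (n : ℕ) (e : ℤ), 0 < e → ∀ (ι : Type) [Finite ι],
    Ev (fun N => ExT ι (fun _ => 0) p n (N + n - e))

lemma VP.rows {p : ℕ} (IHp : ∀ p' < p, VP p') (k : ℕ) {c : ℤ} (hc : 0 ≤ c) (ι : Type)
    [Finite ι] :
    Ev (fun N' => ∀ q < p, ∀ e', 2 * e' = c + ((q + 1 : ℕ) : ℤ) →
      ExT (Option ι) (fun _ => 0) (p - (q + 1)) (k + ((q + 1 : ℕ) : ℤ))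
        (N' + (k + ((q + 1 : ℕ) : ℤ)) - e')) := by
  refine Ev.lt p fun q hq => Ev.uniq fun e' he' => ?_
  have h := IHp (p - (q + 1)) (by omega) (k + (q + 1)) e' (by push_cast at he'; omega) (Option ι)
  refine h.mono fun N hN => ?_
  push_cast at hN ⊢
  exact hN

lemma piece {p : ℕ} (IHp : ∀ p' < p, VP p') {k : ℕ} {e : ℤ} (he : 0 < e) (ι : Type)
    [Finite ι] (h0 : ∀ e', 2 * e' = k + e → Ev (fun N => ExT ι (fun _ => 0) p k (N + k - e'))) :
    Ev (fun N => ExT ι (fun _ => 1) p k (N + k - e)) := by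
  have h1 := VP.rows IHp k (c := k + e) (by positivity) ι
  have h2 := Ev.uniq h0
  refine (h1.and h2).half.mono ?_
  rintro N ⟨N', rfl, h3, h4⟩
  refine exact_rec' (fun m' hm' => ?_) (fun q hq1 hq m' hm' => ?_)
  · have := h4 (N' + k - m') (by omega)
    have e1 : N' + k - (N' + k - m') = m' := by ring
    rw [e1] at this
    exact this
  · obtain ⟨q, rfl⟩ : ∃ r, q = r + 1 := ⟨q - 1, by omega⟩
    have := h3 q (by omega) (N' + (k + ((q + 1 : ℕ) : ℤ)) - m') (by omega)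
    have e1 : N' + (k + ((q + 1 : ℕ) : ℤ)) - (N' + (k + ((q + 1 : ℕ) : ℤ)) - m') = m' := by ring
    rw [e1] at this
    exact this

lemma critical {p n : ℕ} (hn : 1 ≤ n) (IHp : ∀ p' < p, VP p')
    (IHn : ∀ n' < n, ∀ (e : ℤ), 0 < e → ∀ (ι : Type) [Finite ι],
      Ev (fun N => ExT ι (fun _ => 0) p n' (N + n' - e))) (ι : Type) [Finite ι] :
    Ev (fun N => ExT ι (fun _ => 0) p n N) := by
  cases nonempty_fintype ι
  classical
  have hn0 : (0 : ℤ) < n := by exact_mod_cast hn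
  have H1 : Ev (fun N => ∀ k < n, ExT ι (fun _ => 1) p k (N + k - n)) := by
    refine Ev.lt n fun k hk => piece IHp hn0 ι fun e' he' => ?_
    exact IHn k hk e' (by omega) ι
  have H2 := VP.rows IHp n (c := 2 * n) (by positivity) ι
  have H3 := VP.rows IHp (n - 1) (c := 2 * n - 1) (by omega) ι
  have H4 : Ev (fun N => ∀ a < p, ExT (ι ⊕ ι) (fun _ => 0) a n N) := by
    refine Ev.lt p fun a ha => (IHp a ha n n hn0 (ι ⊕ ι)).mono fun N hN => ?_
    rwa [add_sub_cancel_right] at hN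
  have H5 : Ev (fun N => ∀ n' < n, 2 * n' = n → ExT ι (fun _ => 1) p n' N) := by
    refine Ev.lt n fun n' hn' => ?_
    by_cases h : 2 * n' = n
    · have h1 : (0 : ℤ) < n' := by omega
      have := piece IHp (k := n') h1 ι fun e' he' => IHn n' hn' e' (by omega) ι
      refine this.mono fun N hN _ => ?_
      rwa [add_sub_cancel_right] at hN
    · exact Ev.all fun N h' => absurd h' h
  obtain ⟨J, hJ⟩ := H1
  refine ((H2.and H3).and (H4.and H5)).half.and ⟨J, hJ⟩ |>.mono ?_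
  rintro N ⟨⟨N', rfl, ⟨h2, h3⟩, h4, h5⟩, h1⟩
  refine special hn N' (fun k hk => ?_) (fun q hq1 hq m' hm' => ?_) (fun q hq1 hq m' hm' => ?_)
    h4 (fun n' hn' => h5 n' (by omega) hn')
  · have := h1 k hk
    have e1 : 2 * N' + (k : ℤ) - n = 2 * N' - (n - k) := by ring
    rw [e1] at this
    exact this
  · obtain ⟨q, rfl⟩ : ∃ r, q = r + 1 := ⟨q - 1, by omega⟩
    have := h2 q (by omega) (N' + (n + ((q + 1 : ℕ) : ℤ)) - m') (by omega)
    have e1 : N' + (n + ((q + 1 : ℕ) : ℤ)) - (N' + (n + ((q + 1 : ℕ) : ℤ)) - m') = m' := by ring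
    rw [e1] at this
    exact this
  · obtain ⟨q, rfl⟩ : ∃ r, q = r + 1 := ⟨q - 1, by omega⟩
    have hc : ((n - 1 : ℕ) : ℤ) = (n : ℤ) - 1 := by omega
    have := h3 q (by omega) (N' + ((n - 1 : ℕ) + ((q + 1 : ℕ) : ℤ)) - m') (by omega)
    have e1 : N' + (((n - 1 : ℕ) : ℤ) + ((q + 1 : ℕ) : ℤ)) -
      (N' + (((n - 1 : ℕ) : ℤ) + ((q + 1 : ℕ) : ℤ)) - m') = m' := by ring
    rw [e1, hc] at this
    exact this

lemma V_step {p n : ℕ} (IHp : ∀ p' < p, VP p')
    (IHn : ∀ n' < n, ∀ (e : ℤ), 0 < e → ∀ (ι : Type) [Finite ι],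
      Ev (fun N => ExT ι (fun _ => 0) p n' (N + n' - e))) :
    ∀ (d : ℕ) (e : ℤ), 0 < e → (e - n).natAbs = d → ∀ (ι : Type) [Finite ι],
      Ev (fun N => ExT ι (fun _ => 0) p n (N + n - e)) := by
  intro d
  induction d using Nat.strong_induction_on with
  | _ d IHd =>
    intro e he hd ι _
    by_cases hen : e = n
    · subst hen
      refine (critical (by omega) IHp IHn ι).mono fun N hN => ?_
      rwa [add_sub_cancel_right]
    · have H : Ev (fun N => ∀ k < n + 1, ExT ι (fun _ => 1) p k (N + k - e)) := by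
        refine Ev.lt (n + 1) fun k hk => piece IHp he ι fun e' he' => ?_
        rcases Nat.lt_succ_iff_lt_or_eq.1 hk with h1 | h1
        · exact IHn k h1 e' (by omega) ι
        · subst h1
          exact IHd (e' - k).natAbs (by omega) e' (by omega) rfl ι
      cases nonempty_fintype ι
      classical
      refine H.mono fun N hN => ExT.pieces fun k hk => ?_
      have := hN k (by omega)
      have e1 : N + (k : ℤ) - e = N + n - e - (n - k) := by ring
      rw [e1] at this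
      exact this

/-- The vanishing theorem. -/
theorem vanishing (p : ℕ) : VP p := by
  induction p using Nat.strong_induction_on with
  | _ p IHp =>
    intro n
    induction n using Nat.strong_induction_on with
    | _ n IHn =>
      intro e he ι _
      exact V_step IHp IHn _ e he rfl ι

end van

end Pool.Agent.Work.MP_701abf_gt.Stab
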