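import Pool.Agent.Work.MP_701abf_gt.Stab.Poin

/-!
Graded linear maps between polynomial rings over the field with two elements.
-/

open MvPolynomial

namespace Pool.Agent.Work.MP_701abf_gt.Stab

variable {V V' M M' : Type*} [AddCommMonoid M] [AddCommMonoid M']

/-- Weighted homogeneous. -/
abbrev WH (w : V → M) (F : PF V) (m : M) : Prop := IsWeightedHomogeneous w F m

/-- A linear map which sends monomials of weight `m` to homogeneous elements of weight `f m`. -/
def Gr (w : V → M) (w' : V' → M') (f : M → M') (L : PF V →ₗ[ZMod 2] PF V') : Prop :=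
  ∀ d : V →₀ ℕ, WH w' (L (monomial d 1)) (f (Finsupp.weight w d))

lemma Gr.map {w : V → M} {w' : V' → M'} {f : M → M'} {L : PF V →ₗ[ZMod 2] PF V'}
    (h : Gr w w' f L) {F : PF V} {m : M} (hF : WH w F m) : WH w' (L F) (f m) := by
  rw [F.as_sum, map_sum]
  refine IsWeightedHomogeneous.sum _ _ _ fun d hd => ?_
  have h1 : (monomial d) (coeff d F) = coeff d F • monomial d (1 : ZMod 2) := by
    rw [smul_monomial, smul_eq_mul, mul_one]
  rw [h1, map_smul, ← hF (mem_support_iff.1 hd)]
  exact (weightedHomogeneousSubmodule (ZMod 2) w' _).smul_mem _ (h d)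

/-- The homogeneous component. -/
noncomputable abbrev cmp (w : V → M) (m : M) : PF V →ₗ[ZMod 2] PF V :=
  weightedHomogeneousComponent w m

lemma cmp_wh (w : V → M) (m : M) (F : PF V) : WH w (cmp w m F) m :=
  weightedHomogeneousComponent_isWeightedHomogeneous m F

lemma cmp_same {w : V → M} {m : M} {F : PF V} (h : WH w F m) : cmp w m F = F :=
  h.weightedHomogeneousComponent_same

lemma cmp_ne {w : V → M} {m n : M} {F : PF V} (h : WH w F m) (hn : n ≠ m) : cmp w n F = 0 :=
  h.weightedHomogeneousComponent_ne n hn

lemma wh_monomial (w : V → M) (d : V →₀ ℕ) : WH w (monomial d (1 : ZMod 2))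
    (Finsupp.weight w d) := isWeightedHomogeneous_monomial w d 1 rfl

lemma lin_ext {L L' : PF V →ₗ[ZMod 2] PF V'}
    (h : ∀ d, L (monomial d 1) = L' (monomial d 1)) : L = L' := by
  refine LinearMap.ext fun F => ?_
  induction F using MvPolynomial.induction_on' with
  | monomial d a =>
    have h1 : (monomial d) a = a • monomial d (1 : ZMod 2) := by
      rw [smul_monomial, smul_eq_mul, mul_one]
    rw [h1, map_smul, map_smul, h]
  | add p q hp hq => rw [map_add, map_add, hp, hq]

lemma Gr.cmp {w : V → M} {w' : V' → M'} {f : M → M'} {L : PF V →ₗ[ZMod 2] PF V'}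
    (h : Gr w w' f L) (hf : Function.Injective f) (m : M) (F : PF V) :
    cmp w' (f m) (L F) = L (cmp w m F) := by
  have : (Stab.cmp w' (f m)).comp L = L.comp (Stab.cmp w m) := by
    refine lin_ext fun d => ?_
    rw [LinearMap.comp_apply, LinearMap.comp_apply]
    by_cases hd : m = Finsupp.weight w d
    · subst hd
      rw [cmp_same (h d), cmp_same (wh_monomial w d)]
    · rw [cmp_ne (h d) (fun e => hd (hf e)), cmp_ne (wh_monomial w d) hd, map_zero]
  exact congrArg (fun G => G F) this

/-- Graded algebra maps. -/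
lemma Gr.of_alg {w : V → M} {w' : V' → M'} {f : M →+ M'} {φ : PF V →ₐ[ZMod 2] PF V'}
    (h : ∀ v, WH w' (φ (X v)) (f (w v))) : Gr w w' f φ.toLinearMap := by
  intro d
  induction d using Finsupp.induction_linear with
  | zero =>
    rw [map_zero, map_zero]
    have : (monomial (0 : V →₀ ℕ) (1 : ZMod 2)) = 1 := rfl
    rw [this]
    change WH w' (φ 1) 0
    rw [map_one]
    exact isWeightedHomogeneous_one _ _
  | add a b ha hb =>
    have : (monomial (a + b) (1 : ZMod 2)) = monomial a 1 * monomial b 1 := by
      rw [monomial_mul, one_mul]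
    rw [this]
    change WH w' (φ _) _
    rw [map_mul, map_add, map_add]
    exact IsWeightedHomogeneous.mul ha hb
  | single v k =>
    have : (monomial (Finsupp.single v k) (1 : ZMod 2)) = X v ^ k := by rw [X_pow_eq_monomial]
    rw [this]
    change WH w' (φ _) _
    rw [map_pow, Finsupp.weight_single, map_nsmul]
    exact IsWeightedHomogeneous.pow (h v) k

/-- Graded algebra maps, with the same weights. -/
lemma Gr.of_alg' {w : V → M} {w' : V' → M} {φ : PF V →ₐ[ZMod 2] PF V'}
    (h : ∀ v, WH w' (φ (X v)) (w v)) : Gr w w' id φ.toLinearMap :=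
  Gr.of_alg (f := AddMonoidHom.id M) h

/-- Graded derivations. -/
lemma Gr.of_der {w : V → M} {c : M} {D : Derivation (ZMod 2) (PF V) (PF V)}
    (h : ∀ v, WH w (D (X v)) (w v + c)) : Gr w w (fun m => m + c) D.toLinearMap := by
  intro d
  change WH w (D _) _
  induction d using Finsupp.induction_linear with
  | zero =>
    have : (monomial (0 : V →₀ ℕ) (1 : ZMod 2)) = 1 := rfl
    rw [this, Derivation.map_one_eq_zero]
    exact isWeightedHomogeneous_zero _ _ _
  | add a b ha hb =>
    have : (monomial (a + b) (1 : ZMod 2)) = monomial a 1 * monomial b 1 := by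
      rw [monomial_mul, one_mul]
    rw [this, Derivation.leibniz, smul_eq_mul, smul_eq_mul, map_add]
    have h1 := (wh_monomial w a).mul hb
    have h2 := (wh_monomial w b).mul ha
    rw [← add_assoc] at h1 h2
    rw [add_comm (Finsupp.weight w b)] at h2
    exact h1.add h2
  | single v k =>
    have : (monomial (Finsupp.single v k) (1 : ZMod 2)) = X v ^ k := by rw [X_pow_eq_monomial]
    rw [this, Finsupp.weight_single]
    induction k with
    | zero =>
      rw [pow_zero, Derivation.map_one_eq_zero]
      exact isWeightedHomogeneous_zero _ _ _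
    | succ k ih =>
      have ih' := ih (by rw [X_pow_eq_monomial])
      rw [pow_succ, Derivation.leibniz, smul_eq_mul, smul_eq_mul, succ_nsmul]
      have h1 := ((isWeightedHomogeneous_X (ZMod 2) w v).pow k).mul (h v)
      have h2 := (isWeightedHomogeneous_X (ZMod 2) w v).mul ih'
      rw [← add_assoc] at h1 h2
      rw [add_comm (w v)] at h2
      exact h1.add h2

/-- Multiplication by a homogeneous element. -/
lemma wh_mul {w : V → M} {F G : PF V} {m n : M} (hF : WH w F m) (hG : WH w G n) :
    WH w (F * G) (m + n) := hF.mul hG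

/-- Change of the weight. -/
lemma wh_comp {w : V → M} {f : M →+ M'} {F : PF V} {m : M} (hF : WH w F m) :
    WH (fun v => f (w v)) F (f m) := by
  intro d hd
  rw [← hF hd]
  simp only [Finsupp.weight_apply, Finsupp.sum, map_sum, map_nsmul]

/-- A polynomial homogeneous for the image of a weight under an injective map. -/
lemma wh_of_comp {w : V → M} {f : M →+ M'} (hf : Function.Injective f) {F : PF V} {m' : M'}
    (hF : WH (fun v => f (w v)) F m') : F = 0 ∨ ∃ m, f m = m' ∧ WH w F m := by
  by_cases h0 : F = 0
  · exact Or.inl h0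
  right
  obtain ⟨d, hd⟩ := MvPolynomial.ne_zero_iff.1 h0
  have key : ∀ d, coeff d F ≠ 0 → f (Finsupp.weight w d) = m' := by
    intro d hd
    have := hF hd
    simp only [Finsupp.weight_apply, Finsupp.sum] at this ⊢
    rw [← this]
    simp only [map_sum, map_nsmul]
  refine ⟨Finsupp.weight w d, key d hd, fun d' hd' => hf ?_⟩
  rw [key d hd, key d' hd']

end Pool.Agent.Work.MP_701abf_gt.Stab
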